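import Mathlib

/-!
Project HY (MP_e42343_co): Hamilton cycles acceptable for two interval patterns.
Definitions and the exact statements of all the pieces.
-/

set_option autoImplicit false

open Finset

namespace Pool.Agent.R178.HY

/-! ### the problem -/

/-- The Hamilton cycle `c` (a cyclic ordering of `Fin n`) is `x`-acceptable for `F`: no member of
`F` is a union of cycle intervals of lengths `x₁, …, x_k`. -/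
def Acc {n : ℕ} (x : List ℕ) (F : Finset (Finset (Fin n))) (c : ZMod n ≃ Fin n) : Prop :=
  ¬ ∃ t : Fin x.length → ZMod n,
    (univ.biUnion fun i => (range (x.get i)).image fun j : ℕ => c (t i + 1 + (j : ZMod n))) ∈ F

/-- `m(x, n)` -/
noncomputable def m1 (x : List ℕ) (n : ℕ) : ℕ :=
  sInf {N | ∃ F : Finset (Finset (Fin n)), (∀ A ∈ F, A.card = x.sum) ∧ F.card = N ∧
    ¬ ∃ c, Acc x F c}

/-- `m(x, y, n)` -/
noncomputable def m2 (x y : List ℕ) (n : ℕ) : ℕ :=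
  sInf {N | ∃ F : Finset (Finset (Fin n)), (∀ A ∈ F, A.card = x.sum) ∧ F.card = N ∧
    ¬ ∃ c, Acc x F c ∧ Acc y F c}

/-! ### basic notions -/

variable {n : ℕ}

/-- some member contains `M` -/
def Cov (F : Finset (Finset (Fin n))) (M : Finset (Fin n)) : Prop := ∃ A ∈ F, M ⊆ A

instance (F : Finset (Finset (Fin n))) (M : Finset (Fin n)) : Decidable (Cov F M) := by
  unfold Cov; infer_instance

/-- all members have 5 elements -/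
def Unif (F : Finset (Finset (Fin n))) : Prop := ∀ A ∈ F, A.card = 5

/-- degree -/
def deg (F : Finset (Finset (Fin n))) (v : Fin n) : ℕ := (F.filter (fun A => v ∈ A)).card

/-- codegree -/
def cod (F : Finset (Finset (Fin n))) (v w : Fin n) : ℕ :=
  (F.filter (fun A => v ∈ A ∧ w ∈ A)).card

/-- `S(u,w;x)`: the `y` with `{u,w,x,y}` a covered 4-set -/
def S (F : Finset (Finset (Fin n))) (u w x : Fin n) : Finset (Fin n) :=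
  univ.filter (fun y => ({u, w, x, y} : Finset (Fin n)).card = 4 ∧ Cov F {u, w, x, y})

/-- (3,1,1)-acceptable: no three consecutive vertices in a member -/
def XAcc (F : Finset (Finset (Fin n))) (c : ZMod n ≃ Fin n) : Prop :=
  ∀ i : ZMod n, ¬ Cov F {c i, c (i + 1), c (i + 2)}

/-- (2,2,1)-acceptable: no two disjoint cycle edges in a member -/
def YAcc (F : Finset (Finset (Fin n))) (c : ZMod n ≃ Fin n) : Prop :=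
  ∀ i j : ZMod n, ({c i, c (i + 1), c j, c (j + 1)} : Finset (Fin n)).card = 4 →
    ¬ Cov F {c i, c (i + 1), c j, c (j + 1)}

/-- vertices of degree at least `T n²` -/
noncomputable def Hv (F : Finset (Finset (Fin n))) (T : ℝ) : Finset (Fin n) := by
  classical exact univ.filter (fun v => T * (n : ℝ) ^ 2 ≤ (deg F v : ℝ))

/-- vertices of degree less than `T n²` -/
noncomputable def Lo (F : Finset (Finset (Fin n))) (T : ℝ) : Finset (Fin n) := by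
  classical exact univ.filter (fun v => (deg F v : ℝ) < T * (n : ℝ) ^ 2)

/-! ### statements: top level -/

def S_BX : Prop := ∀ n : ℕ, 5 ≤ n → ∀ F : Finset (Finset (Fin n)), Unif F →
  ∀ c : ZMod n ≃ Fin n, (Acc [3, 1, 1] F c ↔ XAcc F c) ∧ (Acc [2, 2, 1] F c ↔ YAcc F c)

def S_UP : Prop := ∀ m : ℕ, ∃ F : Finset (Finset (Fin (3 ^ (m + 2) + 2))), Unif F ∧
  18 * F.card ≤ (3 ^ (m + 2) + 2) ^ 2 ∧ ∀ c : ZMod (3 ^ (m + 2) + 2) ≃ Fin (3 ^ (m + 2) + 2),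
    ¬ (XAcc F c ∧ YAcc F c)

def S_XMAIN : Prop := ∃ n0 : ℕ, ∀ n : ℕ, n0 ≤ n → ∀ F : Finset (Finset (Fin n)), Unif F →
  17 * F.card ≤ n ^ 2 → ∃ c : ZMod n ≃ Fin n, XAcc F c

def S_YMAIN : Prop := ∃ n0 : ℕ, ∀ n : ℕ, n0 ≤ n → ∀ F : Finset (Finset (Fin n)), Unif F →
  17 * F.card ≤ n ^ 2 → ∃ c : ZMod n ≃ Fin n, YAcc F c

/-- nonemptiness of the sets defining `m(x,n)` -/
def S_NE : Prop := ∀ n : ℕ, 5 ≤ n → (∀ c : ZMod n ≃ Fin n,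
    ¬ XAcc (powersetCard 5 (univ : Finset (Fin n))) c ∧
    ¬ YAcc (powersetCard 5 (univ : Finset (Fin n))) c)

/-! ### order and local lemma -/

/-- placing disjoint 5-vertex segments on a cyclic order, with two free positions after each -/
structure OrdOK {n s : ℕ} (g : Fin s → Fin 5 → Fin n) (c0 : ZMod n ≃ Fin n) : Prop where
  seg : ∀ (i : Fin s) (j : Fin 5), c0 ((7 * (i : ℕ) + (j : ℕ) : ℕ) : ZMod n) = g i j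
  free5 : ∀ (i : Fin s) (i' : Fin s) (j : Fin 5),
    c0 ((7 * (i : ℕ) + 5 : ℕ) : ZMod n) ≠ g i' j
  free6 : ∀ (i : Fin s) (i' : Fin s) (j : Fin 5),
    c0 ((7 * (i : ℕ) + 6 : ℕ) : ZMod n) ≠ g i' j

def S_ORD : Prop := ∀ (n s : ℕ), 1 ≤ n → 7 * s ≤ n → ∀ g : Fin s → Fin 5 → Fin n,
  Function.Injective (fun p : Fin s × Fin 5 => g p.1 p.2) → ∃ c0 : ZMod n ≃ Fin n, OrdOK g c0

/-- the vertices of the segments -/
def Q {s : ℕ} (g : Fin s → Fin 5 → Fin n) : Finset (Fin n) :=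
  univ.image (fun p : Fin s × Fin 5 => g p.1 p.2)

/-- classification of the cycle edges -/
structure ClsOK {n s : ℕ} (g : Fin s → Fin 5 → Fin n) (c0 : ZMod n ≃ Fin n) : Prop where
  qq : ∀ i, c0 i ∈ Q g → c0 (i + 1) ∈ Q g →
    ∃ (t : Fin s) (j : Fin 4), c0 i = g t j.castSucc ∧ c0 (i + 1) = g t j.succ
  fq : ∀ i, c0 i ∉ Q g → c0 (i + 1) ∈ Q g → ∃ t : Fin s, c0 (i + 1) = g t 0 ∧ c0 (i + 2) = g t 1
  qf : ∀ i, c0 i ∈ Q g → c0 (i + 1) ∉ Q g → ∃ t : Fin s, c0 i = g t 4 ∧ c0 (i - 1) = g t 3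
  qfq : ∀ i, c0 i ∉ Q g → ¬ (c0 (i - 1) ∈ Q g ∧ c0 (i + 1) ∈ Q g)
  qqq : ∀ i, c0 i ∈ Q g → c0 (i + 1) ∈ Q g → c0 (i + 2) ∈ Q g →
    ∃ (t : Fin s) (j : Fin 3), c0 i = g t j.castSucc.castSucc ∧ c0 (i + 1) = g t j.succ.castSucc ∧
      c0 (i + 2) = g t j.succ.succ

def S_CLS : Prop := ∀ (n s : ℕ), 1 ≤ n → 7 * s ≤ n → ∀ g : Fin s → Fin 5 → Fin n,
  Function.Injective (fun p : Fin s × Fin 5 => g p.1 p.2) → ∀ c0 : ZMod n ≃ Fin n,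
    OrdOK g c0 → ClsOK g c0

open Classical in
/-- local lemma for random permutations, sets of size at most 4 -/
def S_LLL4 : Prop := ∀ (V ι : Type) [Fintype V] [DecidableEq V] [Fintype ι]
  (b a : ι → Finset V) (Q : Finset V), (∀ i, (b i).card = (a i).card) →
    (∀ i, (b i).Nonempty) → (∀ i, (b i).card ≤ 4) → (∀ i, Disjoint (b i) Q) →
    (∀ i, Disjoint (a i) Q) →
    (∀ x ∉ Q, ∑ j ∈ univ.filter (fun j => x ∈ b j),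
      (((Fintype.card V - Q.card).choose (b j).card : ℕ) : ℝ)⁻¹ ≤ 1 / 32) →
    (∀ x ∉ Q, ∑ j ∈ univ.filter (fun j => x ∈ a j),
      (((Fintype.card V - Q.card).choose (b j).card : ℕ) : ℝ)⁻¹ ≤ 1 / 32) →
    ∃ σ : Equiv.Perm V, (∀ v ∈ Q, σ v = v) ∧ ∀ i, (b i).image σ ≠ a i

/-! ### the pattern (3,1,1) -/

structure XSeg {n s : ℕ} (F : Finset (Finset (Fin n))) (g : Fin s → Fin 5 → Fin n) : Prop where
  inj : Function.Injective (fun p : Fin s × Fin 5 => g p.1 p.2)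
  light : ∀ x, (∀ i j, g i j ≠ x) → 10000 * deg F x ≤ n ^ 2
  ends : ∀ i, 10000 * deg F (g i 0) ≤ n ^ 2 ∧ 10000 * deg F (g i 4) ≤ n ^ 2
  pair : ∀ i, 1000 * (univ.filter (fun z => Cov F {g i 0, g i 1, z})).card ≤ n ∧
    1000 * (univ.filter (fun z => Cov F {g i 3, g i 4, z})).card ≤ n
  trip : ∀ i, ¬ Cov F {g i 0, g i 1, g i 2} ∧ ¬ Cov F {g i 1, g i 2, g i 3} ∧
    ¬ Cov F {g i 2, g i 3, g i 4}

/-- one segment -/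
def S_XONE : Prop := ∃ n0 : ℕ, ∀ n : ℕ, n0 ≤ n → ∀ F : Finset (Finset (Fin n)), Unif F →
  17 * F.card ≤ n ^ 2 → ∀ (v : Fin n) (U : Finset (Fin n)), U.card ≤ 20000 →
    ∃ p : Fin 5 → Fin n, Function.Injective p ∧ p 2 = v ∧ (∀ j, j ≠ 2 → p j ∉ U) ∧
      1000 * (univ.filter (fun z => Cov F {p 0, p 1, z})).card ≤ n ∧
      1000 * (univ.filter (fun z => Cov F {p 3, p 4, z})).card ≤ n ∧
      ¬ Cov F {p 0, p 1, p 2} ∧ ¬ Cov F {p 1, p 2, p 3} ∧ ¬ Cov F {p 2, p 3, p 4}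

def S_XG : Prop := ∃ n0 : ℕ, ∀ n : ℕ, n0 ≤ n → ∀ F : Finset (Finset (Fin n)), Unif F →
  17 * F.card ≤ n ^ 2 → ∃ s : ℕ, s ≤ 3000 ∧ ∃ g : Fin s → Fin 5 → Fin n, XSeg F g

/-- the triple at position `i` -/
def XP (c0 : ZMod n ≃ Fin n) (i : ZMod n) : Finset (Fin n) := {c0 i, c0 (i + 1), c0 (i + 2)}

/-- the events for triples: (position, covered triple) -/
def XEv [NeZero n] {s : ℕ} (F : Finset (Finset (Fin n))) (g : Fin s → Fin 5 → Fin n)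
    (c0 : ZMod n ≃ Fin n) : Finset (ZMod n × Finset (Fin n)) :=
  univ.filter (fun q => (XP c0 q.1).card = 3 ∧ q.2.card = 3 ∧ Cov F q.2 ∧
    q.2 ∩ Q g = XP c0 q.1 ∩ Q g ∧ (XP c0 q.1 \ Q g).Nonempty)

def S_XLB : Prop := ∃ n0 : ℕ, ∀ n : ℕ, n0 ≤ n → ∀ _ : NeZero n, ∀ F : Finset (Finset (Fin n)),
  Unif F → 17 * F.card ≤ n ^ 2 → ∀ s : ℕ, s ≤ 3000 → ∀ g : Fin s → Fin 5 → Fin n, XSeg F g →
  ∀ c0 : ZMod n ≃ Fin n, ClsOK g c0 → ∀ x ∉ Q g,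
    ∑ q ∈ (XEv F g c0).filter (fun q => x ∈ XP c0 q.1 \ Q g),
      (((n - (Q g).card).choose (XP c0 q.1 \ Q g).card : ℕ) : ℝ)⁻¹ ≤ 1 / 24

def S_XLA : Prop := ∃ n0 : ℕ, ∀ n : ℕ, n0 ≤ n → ∀ _ : NeZero n, ∀ F : Finset (Finset (Fin n)),
  Unif F → 17 * F.card ≤ n ^ 2 → ∀ s : ℕ, s ≤ 3000 → ∀ g : Fin s → Fin 5 → Fin n, XSeg F g →
  ∀ c0 : ZMod n ≃ Fin n, ClsOK g c0 → ∀ x ∉ Q g,
    ∑ q ∈ (XEv F g c0).filter (fun q => x ∈ q.2 \ Q g),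
      (((n - (Q g).card).choose (XP c0 q.1 \ Q g).card : ℕ) : ℝ)⁻¹ ≤ 1 / 24

def S_XL : Prop := ∃ n0 : ℕ, ∀ n : ℕ, n0 ≤ n → ∀ F : Finset (Finset (Fin n)), Unif F →
  17 * F.card ≤ n ^ 2 → ∀ s : ℕ, s ≤ 3000 → ∀ g : Fin s → Fin 5 → Fin n, XSeg F g →
    ∃ c : ZMod n ≃ Fin n, XAcc F c

/-! ### the pattern (2,2,1): the final random step -/

structure SegOK {n s : ℕ} (F : Finset (Finset (Fin n))) (g : Fin s → Fin 5 → Fin n) (ρ : ℝ) :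
    Prop where
  inj : Function.Injective (fun p : Fin s × Fin 5 => g p.1 p.2)
  light : ∀ x, (∀ i j, g i j ≠ x) → (deg F x : ℝ) ≤ (n : ℝ) ^ 2 / 100000
  ends : ∀ i, (deg F (g i 0) : ℝ) ≤ ρ * (n : ℝ) ^ 2 ∧ (deg F (g i 4) : ℝ) ≤ ρ * (n : ℝ) ^ 2
  sum : ∀ x, ((∀ i j, g i j ≠ x) ∨ ∃ i, x = g i 0 ∨ x = g i 4) →
    ∑ p : Fin s × Fin 4, ((S F (g p.1 p.2.castSucc) (g p.1 p.2.succ) x).card : ℝ) ≤ (n : ℝ) / 400
  edge : ∀ p : Fin s × Fin 4,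
    ∑ z, ((S F (g p.1 p.2.castSucc) (g p.1 p.2.succ) z).card : ℝ) ≤ ρ * (n : ℝ) ^ 2
  disj : ∀ p q : Fin s × Fin 4,
    ({g p.1 p.2.castSucc, g p.1 p.2.succ, g q.1 q.2.castSucc, g q.1 q.2.succ} :
      Finset (Fin n)).card = 4 →
    ¬ Cov F {g p.1 p.2.castSucc, g p.1 p.2.succ, g q.1 q.2.castSucc, g q.1 q.2.succ}

/-- the union of two cycle edges -/
def YP (c0 : ZMod n ≃ Fin n) (i : ZMod n × ZMod n) : Finset (Fin n) :=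
  {c0 i.1, c0 (i.1 + 1), c0 i.2, c0 (i.2 + 1)}

/-- the events: (pair of positions, covered 4-set) -/
def YEv [NeZero n] {s : ℕ} (F : Finset (Finset (Fin n))) (g : Fin s → Fin 5 → Fin n)
    (c0 : ZMod n ≃ Fin n) : Finset ((ZMod n × ZMod n) × Finset (Fin n)) :=
  univ.filter (fun q => (YP c0 q.1).card = 4 ∧ q.2.card = 4 ∧ Cov F q.2 ∧
    q.2 ∩ Q g = YP c0 q.1 ∩ Q g ∧ (YP c0 q.1 \ Q g).Nonempty)

/-- number of events at the position of `x` with `r` free vertices -/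
def NB [NeZero n] {s : ℕ} (F : Finset (Finset (Fin n))) (g : Fin s → Fin 5 → Fin n)
    (c0 : ZMod n ≃ Fin n) (x : Fin n) (r : ℕ) : ℕ :=
  ((YEv F g c0).filter (fun q => x ∈ YP c0 q.1 ∧ (YP c0 q.1 \ Q g).card = r)).card

/-- number of events with `x` in the covered set, with `r` free vertices -/
def NA [NeZero n] {s : ℕ} (F : Finset (Finset (Fin n))) (g : Fin s → Fin 5 → Fin n)
    (c0 : ZMod n ≃ Fin n) (x : Fin n) (r : ℕ) : ℕ :=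
  ((YEv F g c0).filter (fun q => x ∈ q.2 ∧ (YP c0 q.1 \ Q g).card = r)).card

/-- common hypotheses of the counting lemmas for the events -/
def YHyp (P : ∀ (n s : ℕ) (_ : NeZero n) (_ : Finset (Finset (Fin n))) (_ : Fin s → Fin 5 → Fin n)
    (_ : ZMod n ≃ Fin n) (_ : ℝ) (_ : Fin n), Prop) : Prop :=
  ∀ (n s : ℕ) (hn : NeZero n) (F : Finset (Finset (Fin n))) (g : Fin s → Fin 5 → Fin n)
    (c0 : ZMod n ≃ Fin n) (ρ : ℝ), Unif F → 17 * F.card ≤ n ^ 2 → 0 ≤ ρ → 5 ≤ n →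
    SegOK F g ρ → ClsOK g c0 → ∀ x ∉ Q g, P n s hn F g c0 ρ x

def S_NB1 : Prop := YHyp fun n _ _ F g c0 _ x => (NB F g c0 x 1 : ℝ) ≤ 2 * ((n : ℝ) / 400)

def S_NB2 : Prop := YHyp fun n s _ F g c0 ρ x => (NB F g c0 x 2 : ℝ) ≤ 40 * s * ρ * (n : ℝ) ^ 2

def S_NB3 : Prop := YHyp fun n s _ F g c0 ρ x =>
  (NB F g c0 x 3 : ℝ) ≤ 8 * ρ * (n : ℝ) ^ 3 + 100 * s * ρ * (n : ℝ) ^ 2

def S_NB4 : Prop := YHyp fun n _ _ F g c0 _ x => (NB F g c0 x 4 : ℝ) ≤ 4 * (n : ℝ) ^ 3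

def S_NA1 : Prop := YHyp fun _ s _ F g c0 _ x => (NA F g c0 x 1 : ℝ) ≤ 40 * (s : ℝ) ^ 2

def S_NA2 : Prop := YHyp fun n s _ F g c0 _ x =>
  (NA F g c0 x 2 : ℝ) ≤ 2 * ((n : ℝ) * ((n : ℝ) / 400)) + 20 * (s : ℝ) ^ 2 * n

def S_NA3 : Prop := YHyp fun n s _ F g c0 ρ x => (NA F g c0 x 3 : ℝ) ≤ 40 * s * ρ * (n : ℝ) ^ 3

def S_NA4 : Prop := YHyp fun n _ _ F g c0 _ x =>
  (NA F g c0 x 4 : ℝ) ≤ (n : ℝ) ^ 2 * (4 * ((n : ℝ) ^ 2 / 100000))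

/-- from the counting lemmas to the weights -/
def S_YW : Prop := ∀ s0 : ℕ, ∃ ρ : ℝ, 0 < ρ ∧ ∃ n0 : ℕ, ∀ (n s : ℕ) (_ : NeZero n), n0 ≤ n →
  s ≤ s0 → ∀ (F : Finset (Finset (Fin n))) (g : Fin s → Fin 5 → Fin n) (c0 : ZMod n ≃ Fin n),
  Unif F → 17 * F.card ≤ n ^ 2 → SegOK F g ρ → ClsOK g c0 → ∀ x ∉ Q g,
    (∑ q ∈ (YEv F g c0).filter (fun q => x ∈ YP c0 q.1 \ Q g),
      (((n - (Q g).card).choose (YP c0 q.1 \ Q g).card : ℕ) : ℝ)⁻¹ ≤ 1 / 32) ∧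
    (∑ q ∈ (YEv F g c0).filter (fun q => x ∈ q.2 \ Q g),
      (((n - (Q g).card).choose (YP c0 q.1 \ Q g).card : ℕ) : ℝ)⁻¹ ≤ 1 / 32)

def S_YL : Prop := ∀ s0 : ℕ, ∃ ρ : ℝ, 0 < ρ ∧ ∃ n0 : ℕ, ∀ n : ℕ, n0 ≤ n →
  ∀ F : Finset (Finset (Fin n)), Unif F → 17 * F.card ≤ n ^ 2 → ∀ s : ℕ, s ≤ s0 →
  ∀ g : Fin s → Fin 5 → Fin n, SegOK F g ρ → ∃ c : ZMod n ≃ Fin n, YAcc F c

/-! ### the pattern (2,2,1): extending the segments greedily -/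

def S_STAGE : Prop := ∀ (n : ℕ) (F : Finset (Finset (Fin n))), Unif F →
  ∀ (T' η' κ : ℝ) (U : Finset (Fin n)) (E : Finset (Fin n × Fin n)) (m : ℕ) (b : Fin m → Fin n),
  0 < η' → 0 ≤ T' → 1 ≤ n →
  (∀ i, (deg F (b i) : ℝ) ≤ T' * (n : ℝ) ^ 2) →
  (∀ i, ((E.biUnion (fun e => S F e.1 e.2 (b i))).card : ℝ) ≤ κ * n) →
  κ * n + U.card + 2 * m + m * η' * n + 8 * T' * n / η' < n →
  ∃ y : Fin m → Fin n, Function.Injective y ∧ (∀ i, y i ∉ U) ∧ (∀ i j, y i ≠ b j) ∧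
    (∀ i, ∀ e ∈ E, y i ∉ S F e.1 e.2 (b i)) ∧
    (∀ i j, i ≠ j → y i ∉ S F (b j) (y j) (b i)) ∧
    (∀ i z, ((S F (b i) (y i) z).card : ℝ) ≤ η' * n)

/-- heavy vertices with chosen neighbours, before extension -/
structure PreOK {n : ℕ} (F : Finset (Finset (Fin n))) (T T' : ℝ) (a : Fin n → Bool → Fin n) :
    Prop where
  low : ∀ v ∈ Hv F T, ∀ σ, a v σ ∈ Lo F T'
  inj : ∀ v ∈ Hv F T, ∀ w ∈ Hv F T, ∀ σ τ, a v σ = a w τ → v = w ∧ σ = τ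
  conf : ∀ v ∈ Hv F T, ∀ w ∈ Hv F T, v ≠ w → ∀ σ τ, ¬ Cov F {v, w, a v σ, a w τ}
  star : ∀ v ∈ Hv F T, ∀ σ, ∀ x ∈ Lo F T', ((S F v (a v σ) x).card : ℝ) ≤ (99 / 100) * n
  mid : ∀ x, x ∉ Hv F T → x ∉ Lo F T' →
    ∑ v ∈ Hv F T, ∑ σ : Bool, ((S F v (a v σ) x).card : ℝ) ≤ (n : ℝ) / 1000
  cod : ∀ v ∈ Hv F T, ∀ σ, (cod F v (a v σ) : ℝ) ≤ 200 * n
  dbl : ∀ x ∈ Lo F T', ∀ v ∈ Hv F T, ∀ w ∈ Hv F T, ∀ σ τ, (v, σ) ≠ (w, τ) →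
    ((S F v (a v σ) x).card : ℝ) < T / 10000 * n ∨ ((S F w (a w τ) x).card : ℝ) < T / 10000 * n

/-- centres with inner neighbours -/
structure InnerOK {n : ℕ} (F : Finset (Finset (Fin n))) (T' ρ : ℝ) (C : Finset (Fin n))
    (a : Fin n → Bool → Fin n) : Prop where
  inj : ∀ v ∈ C, ∀ w ∈ C, ∀ σ τ, a v σ = a w τ → v = w ∧ σ = τ
  out : ∀ v ∈ C, ∀ σ, a v σ ∉ C
  low : ∀ v ∈ C, ∀ σ, (deg F (a v σ) : ℝ) ≤ T' * (n : ℝ) ^ 2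
  conf : ∀ v ∈ C, ∀ w ∈ C, ∀ σ τ, ({v, a v σ, w, a w τ} : Finset (Fin n)).card = 4 →
    ¬ Cov F {v, a v σ, w, a w τ}
  light : ∀ x ∉ C, (deg F x : ℝ) ≤ (n : ℝ) ^ 2 / 100000
  sum : ∀ x ∉ C, (∀ v ∈ C, ∀ σ, a v σ ≠ x) →
    ∑ v ∈ C, ∑ σ : Bool, ((S F v (a v σ) x).card : ℝ) ≤ (n : ℝ) / 600
  edge : ∀ v ∈ C, ∀ σ, ∑ z, ((S F v (a v σ) z).card : ℝ) ≤ ρ * (n : ℝ) ^ 2
  base : ∀ v ∈ C, ∀ σ, (((C ×ˢ (univ : Finset Bool)).biUnion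
    (fun q => S F q.1 (a q.1 q.2) (a v σ))).card : ℝ) ≤ (992 / 1000) * n

def S_EXT1 : Prop := ∀ T : ℝ, 0 < T → T ≤ 1 / 100000 → ∀ ρ : ℝ, 0 < ρ → ∃ τ : ℝ, 0 < τ ∧
  ∀ T' : ℝ, 0 < T' → T' ≤ τ → T' ≤ T → ∃ n0 : ℕ, ∀ n : ℕ, n0 ≤ n →
  ∀ F : Finset (Finset (Fin n)), Unif F → 17 * F.card ≤ n ^ 2 →
  ∀ a : Fin n → Bool → Fin n, PreOK F T T' a →
    ∃ (C : Finset (Fin n)) (a' : Fin n → Bool → Fin n), (C.card : ℝ) ≤ 1000000 / T ∧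
      InnerOK F T' ρ C a'

def S_EXT2 : Prop := ∀ M : ℕ, ∀ ρ : ℝ, 0 < ρ → ∃ τ : ℝ, 0 < τ ∧
  ∀ T' : ℝ, 0 < T' → T' ≤ τ → ∃ n0 : ℕ, ∀ n : ℕ, n0 ≤ n →
  ∀ F : Finset (Finset (Fin n)), Unif F → 17 * F.card ≤ n ^ 2 →
  ∀ (C : Finset (Fin n)) (a : Fin n → Bool → Fin n), C.card ≤ M → InnerOK F T' ρ C a →
    ∃ g : Fin C.card → Fin 5 → Fin n, SegOK F g ρ

/-! ### the pattern (2,2,1): choosing the neighbours of the heavy vertices -/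

open Classical in
/-- the box lemma -/
def S_BOX : Prop := ∀ (I W : Type) [Fintype I] [DecidableEq I] [Fintype W] [DecidableEq W]
  (G : Finset (I → W)) (α : ℝ), 0 ≤ α →
  α * (Fintype.card W : ℝ) ^ Fintype.card I ≤ (G.card : ℝ) →
  α ^ (2 ^ Fintype.card I) * (Fintype.card W : ℝ) ^ (2 * Fintype.card I) ≤
    ((univ.filter (fun p : (I → W) × (I → W) =>
      ∀ s : I → Bool, (fun i => if s i then p.1 i else p.2 i) ∈ G)).card : ℝ)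

open Classical in
/-- conflicts and nearly full stars -/
def S_CNT12 : Prop := ∀ (n : ℕ) (F : Finset (Finset (Fin n))) (X Z : Finset (Fin n)) (L : ℝ),
  Unif F → Disjoint X Z → 0 < L → L ≤ Z.card →
  ((univ.filter (fun a : ↥X → ↥Z =>
    (∃ v w : ↥X, v ≠ w ∧ a v ≠ a w ∧ Cov F {(v : Fin n), (w : Fin n), (a v : Fin n), (a w : Fin n)}) ∨
    ∃ v : ↥X, ∃ x ∈ Z, L ≤ (((S F v (a v) x) ∩ Z).card : ℝ))).card : ℝ) * (L * Z.card) ≤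
    12 * F.card * (Z.card : ℝ) ^ X.card

open Classical in
/-- vertices of middle degree -/
def S_CNT3 : Prop := ∀ (n : ℕ) (F : Finset (Finset (Fin n))) (X Y Z : Finset (Fin n)),
  Unif F → Disjoint X Z → Disjoint X Y →
  ((univ.filter (fun a : ↥X → ↥Z => ∃ x ∈ Y, (n : ℝ) / 2000 <
    ∑ v : ↥X, ((S F v (a v) x).card : ℝ))).card : ℝ) * (n * Z.card) ≤
    48000 * (∑ x ∈ Y, (deg F x : ℝ)) * (Z.card : ℝ) ^ X.card

open Classical in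
/-- large codegrees -/
def S_CNT4 : Prop := ∀ (n : ℕ) (F : Finset (Finset (Fin n))) (X Z : Finset (Fin n)),
  Unif F → Disjoint X Z →
  ((univ.filter (fun a : ↥X → ↥Z => ∃ v : ↥X, 200 * (n : ℝ) < (cod F v (a v) : ℝ))).card : ℝ) *
    (200 * n * Z.card) ≤ 20 * F.card * (Z.card : ℝ) ^ X.card

open Classical in
/-- collisions -/
def S_CNT5 : Prop := ∀ (I W : Type) [Fintype I] [DecidableEq I] [Fintype W] [DecidableEq W],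
  ((univ.filter (fun a : I → W => ∃ v w : I, v ≠ w ∧ a v = a w)).card : ℝ) * Fintype.card W ≤
    (Fintype.card I : ℝ) ^ 2 * (Fintype.card W : ℝ) ^ Fintype.card I

open Classical in
/-- the density of good single choices -/
def S_DENS : Prop := ∀ T' T : ℝ, 0 < T' → T' ≤ T → T ≤ 1 / 100000 → ∃ n0 : ℕ, ∀ n : ℕ, n0 ≤ n →
  ∀ F : Finset (Finset (Fin n)), Unif F → 17 * F.card ≤ n ^ 2 →
  (∑ v ∈ Hv F T' \ Hv F T, (deg F v : ℝ)) ≤ (n : ℝ) ^ 2 / 10000000 →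
  (1 / 5) * ((Lo F T').card : ℝ) ^ (Hv F T).card ≤
  ((univ.filter (fun a : ↥(Hv F T) → ↥(Lo F T') =>
    (∀ v w : ↥(Hv F T), v ≠ w → a v ≠ a w) ∧
    (∀ v w : ↥(Hv F T), v ≠ w → ¬ Cov F {(v : Fin n), (w : Fin n), (a v : Fin n), (a w : Fin n)}) ∧
    (∀ v : ↥(Hv F T), ∀ x ∈ Lo F T', ((S F v (a v) x).card : ℝ) ≤ (99 / 100) * n) ∧
    (∀ x ∈ Hv F T' \ Hv F T, ∑ v : ↥(Hv F T), ((S F v (a v) x).card : ℝ) ≤ (n : ℝ) / 2000) ∧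
    (∀ v : ↥(Hv F T), (cod F v (a v) : ℝ) ≤ 200 * n))).card : ℝ)

open Classical in
/-- doubly heavy vertices -/
def S_DBL : Prop := ∀ (n : ℕ) (F : Finset (Finset (Fin n))) (X Z : Finset (Fin n)) (T' η : ℝ),
  Unif F → 17 * F.card ≤ n ^ 2 → Disjoint X Z → 0 ≤ T' → 0 < η → 1 ≤ n →
  (∀ x ∈ Z, (deg F x : ℝ) ≤ T' * (n : ℝ) ^ 2) → (n : ℝ) / 2 ≤ Z.card →
  ((univ.filter (fun p : (↥X → ↥Z) × (↥X → ↥Z) => ∃ x ∈ Z, ∃ v w : ↥X, ∃ σ τ : Bool,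
    (v, σ) ≠ (w, τ) ∧ η * n ≤ ((S F v (if σ then p.1 v else p.2 v) x).card : ℝ) ∧
      η * n ≤ ((S F w (if τ then p.1 w else p.2 w) x).card : ℝ))).card : ℝ) ≤
    144 * (X.card : ℝ) ^ 2 * T' / η ^ 2 * (Z.card : ℝ) ^ (2 * X.card)

def S_PRE : Prop := ∀ T : ℝ, 0 < T → T ≤ 1 / 100000 → ∀ τ : ℝ, 0 < τ → ∃ T' : ℝ, 0 < T' ∧
  T' ≤ τ ∧ T' < T ∧ ∃ n0 : ℕ, ∀ n : ℕ, n0 ≤ n →
  ∀ F : Finset (Finset (Fin n)), Unif F → 17 * F.card ≤ n ^ 2 →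
  (∑ v ∈ Hv F T' \ Hv F T, (deg F v : ℝ)) ≤ (n : ℝ) ^ 2 / 10000000 →
    ∃ a : Fin n → Bool → Fin n, PreOK F T T' a

/-! ### scales -/

def S_CORE : Prop := ∀ T : ℝ, 0 < T → T ≤ 1 / 100000 → ∃ T' : ℝ, 0 < T' ∧ T' < T ∧ ∃ n0 : ℕ,
  ∀ n : ℕ, n0 ≤ n → ∀ F : Finset (Finset (Fin n)), Unif F → 17 * F.card ≤ n ^ 2 →
  (∑ v ∈ Hv F T' \ Hv F T, (deg F v : ℝ)) ≤ (n : ℝ) ^ 2 / 10000000 →
    ∃ c : ZMod n ≃ Fin n, YAcc F c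

end Pool.Agent.R178.HY
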