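import Mathlib
import Pool.Agent.R178.HY.Defs

/-!
Project HY (MP_e42343_co): piece BOX, the box lemma by iterated Cauchy-Schwarz.
-/

set_option autoImplicit false

open Finset

namespace Pool.Agent.R178.HY

namespace BOXx

variable {W : Type} [Fintype W]

/-- sums over `Fin (k+1) → W` -/
lemma sum_cons {k : ℕ} (f : (Fin (k + 1) → W) → ℝ) :
    ∑ a, f a = ∑ w : W, ∑ a : Fin k → W, f (Fin.cons w a) := by
  rw [← Fintype.sum_prod_type' (f := fun (w : W) (a : Fin k → W) => f (Fin.cons w a))]
  exact (Fintype.sum_equiv (Fin.consEquiv (fun _ => W)) _ _ (fun x => rfl)).symm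

/-- products over `Fin (k+1) → Bool` -/
lemma prod_cons {k : ℕ} (f : (Fin (k + 1) → Bool) → ℝ) :
    ∏ s, f s = ∏ s : Fin k → Bool, (f (Fin.cons true s) * f (Fin.cons false s)) := by
  have h1 : ∏ s, f s = ∏ w : Bool, ∏ s : Fin k → Bool, f (Fin.cons w s) := by
    rw [← Fintype.prod_prod_type' (f := fun (w : Bool) (s : Fin k → Bool) => f (Fin.cons w s))]
    exact (Fintype.prod_equiv (Fin.consEquiv (fun _ => Bool)) _ _ (fun x => rfl)).symm
  rw [h1, Fintype.prod_bool, ← Finset.prod_mul_distrib]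

omit [Fintype W] in
lemma mix_cons {k : ℕ} (t : Bool) (s : Fin k → Bool) (w w' : W) (a b : Fin k → W) :
    (fun i : Fin (k + 1) => if (Fin.cons t s : Fin (k + 1) → Bool) i then
      (Fin.cons w a : Fin (k + 1) → W) i else (Fin.cons w' b : Fin (k + 1) → W) i) =
    Fin.cons (if t then w else w') (fun i => if s i then a i else b i) := by
  funext i
  refine Fin.cases ?_ (fun j => ?_) i
  · simp
  · simp

/-- the number of boxes, weighted -/
noncomputable def bx {k : ℕ} (f : (Fin k → W) → ℝ) : ℝ :=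
  ∑ a : Fin k → W, ∑ b : Fin k → W, ∏ s : Fin k → Bool, f (fun i => if s i then a i else b i)

lemma bx_succ {k : ℕ} (f : (Fin (k + 1) → W) → ℝ) :
    bx f = ∑ w : W, ∑ w' : W, bx (fun a : Fin k → W => f (Fin.cons w a) * f (Fin.cons w' a)) := by
  unfold bx
  rw [sum_cons]
  refine Finset.sum_congr rfl fun w _ => ?_
  rw [Finset.sum_comm]
  rw [sum_cons]
  refine Finset.sum_congr rfl fun w' _ => ?_
  rw [Finset.sum_comm]
  refine Finset.sum_congr rfl fun a _ => Finset.sum_congr rfl fun b _ => ?_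
  rw [prod_cons]
  refine Finset.prod_congr rfl fun s _ => ?_
  rw [mix_cons, mix_cons]
  simp

lemma main : ∀ (k : ℕ) (f : (Fin k → W) → ℝ), (∀ a, 0 ≤ f a) →
    (∑ a, f a) ^ (2 ^ k) * (Fintype.card W : ℝ) ^ (2 * k) ≤
      bx f * (Fintype.card W : ℝ) ^ (k * 2 ^ k) := by
  intro k
  induction k with
  | zero =>
    intro f hf
    unfold bx
    have h1 : ∀ a b : Fin 0 → W, a = b := fun a b => Subsingleton.elim _ _
    rw [Fintype.sum_unique, Fintype.sum_unique, Fintype.sum_unique, Fintype.prod_unique]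
    simp only [pow_zero, pow_one, mul_zero, zero_mul, mul_one]
    exact le_of_eq (congrArg f (h1 _ _))
  | succ k ih =>
    intro f hf
    set N : ℝ := (Fintype.card W : ℝ) with hN
    have hN0 : 0 ≤ N := Nat.cast_nonneg _
    set T : W → W → ℝ := fun w w' => ∑ a : Fin k → W, f (Fin.cons w a) * f (Fin.cons w' a) with hT
    have hT0 : ∀ w w', 0 ≤ T w w' := fun w w' =>
      Finset.sum_nonneg fun a _ => mul_nonneg (hf _) (hf _)
    have hB : (∑ a, f a) ^ 2 ≤ N ^ k * ∑ w, ∑ w', T w w' := by
      rw [sum_cons, Finset.sum_comm]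
      have h1 := sq_sum_le_card_mul_sum_sq (s := (univ : Finset (Fin k → W)))
        (f := fun a => ∑ w : W, f (Fin.cons w a))
      have h2 : ((univ : Finset (Fin k → W)).card : ℝ) = N ^ k := by
        rw [Finset.card_univ, Fintype.card_fun, Fintype.card_fin]
        push_cast
        rfl
      rw [h2] at h1
      refine h1.trans (le_of_eq ?_)
      congr 1
      have h3 : ∀ a : Fin k → W, (∑ w : W, f (Fin.cons w a)) ^ 2 =
          ∑ w : W, ∑ w' : W, f (Fin.cons w a) * f (Fin.cons w' a) := by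
        intro a
        rw [sq, Finset.sum_mul_sum]
      simp only [h3]
      rw [Finset.sum_comm]
      refine Finset.sum_congr rfl fun w _ => ?_
      rw [Finset.sum_comm]
    obtain ⟨m, hm⟩ : ∃ m, 2 ^ k = m + 1 := ⟨2 ^ k - 1, by
      have := Nat.one_le_two_pow (n := k); omega⟩
    have hD : (∑ w, ∑ w', T w w') ^ (m + 1) ≤
        (N ^ 2) ^ m * ∑ w, ∑ w', (T w w') ^ (m + 1) := by
      rw [← Fintype.sum_prod_type' (f := fun w w' => T w w'),
        ← Fintype.sum_prod_type' (f := fun w w' => (T w w') ^ (m + 1))]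
      have h1 := pow_sum_div_card_le_sum_pow (s := (univ : Finset (W × W)))
        (f := fun p => T p.1 p.2) (fun p _ => hT0 _ _) m
      have h2 : ((univ : Finset (W × W)).card : ℝ) = N ^ 2 := by
        rw [Finset.card_univ, Fintype.card_prod]
        push_cast
        rw [sq]
      rw [h2] at h1
      rcases eq_or_lt_of_le hN0 with h0 | hpos
      · have : IsEmpty W := by
          rw [← Fintype.card_eq_zero_iff]
          have h0' : (Fintype.card W : ℝ) = 0 := h0.symm
          exact_mod_cast h0'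
        simp
      · rw [div_le_iff₀ (by positivity)] at h1
        rw [mul_comm]
        exact h1
    have hE : ∑ w, ∑ w', (T w w') ^ (m + 1) * N ^ (2 * k) ≤ bx f * N ^ (k * 2 ^ k) := by
      rw [bx_succ, Finset.sum_mul]
      refine Finset.sum_le_sum fun w _ => ?_
      rw [Finset.sum_mul]
      refine Finset.sum_le_sum fun w' _ => ?_
      rw [← hm]
      exact ih _ (fun a => mul_nonneg (hf _) (hf _))
    calc (∑ a, f a) ^ (2 ^ (k + 1)) * N ^ (2 * (k + 1))
        = ((∑ a, f a) ^ 2) ^ (2 ^ k) * (N ^ (2 * k) * N ^ 2) := by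
          rw [← pow_mul, ← pow_succ', ← pow_add]
          rfl
      _ ≤ (N ^ k * ∑ w, ∑ w', T w w') ^ (2 ^ k) * (N ^ (2 * k) * N ^ 2) := by
          gcongr
      _ = N ^ (k * 2 ^ k) * (∑ w, ∑ w', T w w') ^ (m + 1) * (N ^ (2 * k) * N ^ 2) := by
          rw [mul_pow, ← pow_mul, hm]
      _ ≤ N ^ (k * 2 ^ k) * ((N ^ 2) ^ m * ∑ w, ∑ w', (T w w') ^ (m + 1)) *
            (N ^ (2 * k) * N ^ 2) := by
          gcongr
      _ = N ^ (k * 2 ^ k) * (N ^ 2) ^ (m + 1) *
            (∑ w, ∑ w', (T w w') ^ (m + 1) * N ^ (2 * k)) := by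
          have h5 : ∑ w, ∑ w', (T w w') ^ (m + 1) * N ^ (2 * k) =
              (∑ w, ∑ w', (T w w') ^ (m + 1)) * N ^ (2 * k) := by
            rw [Finset.sum_mul]
            refine Finset.sum_congr rfl fun w _ => ?_
            rw [Finset.sum_mul]
          rw [h5, pow_succ (N ^ 2) m]
          ring
      _ ≤ N ^ (k * 2 ^ k) * (N ^ 2) ^ (m + 1) * (bx f * N ^ (k * 2 ^ k)) := by
          gcongr
      _ = bx f * N ^ ((k + 1) * 2 ^ (k + 1)) := by
          rw [← hm, ← pow_mul]
          have h6 : (k + 1) * 2 ^ (k + 1) = k * 2 ^ k + 2 * 2 ^ k + k * 2 ^ k := by ring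
          rw [h6, pow_add, pow_add]
          ring

end BOXx

open BOXx in
open Classical in
theorem t_BOX : S_BOX := by
  intro I W _ _ _ _ G α hα h
  set k := Fintype.card I with hk
  set N : ℝ := (Fintype.card W : ℝ) with hN
  have hN0 : 0 ≤ N := Nat.cast_nonneg _
  let e : I ≃ Fin k := Fintype.equivFin I
  let E : (I → W) ≃ (Fin k → W) := Equiv.arrowCongr e (Equiv.refl W)
  let f : (Fin k → W) → ℝ := fun a => if (fun i => a (e i)) ∈ G then 1 else 0
  have hEf : ∀ a : I → W, (fun i => E a (e i)) = a := by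
    intro a
    funext i
    change a (e.symm (e i)) = a i
    rw [Equiv.symm_apply_apply]
  have hf0 : ∀ a, 0 ≤ f a := by
    intro a
    change 0 ≤ (if (fun i => a (e i)) ∈ G then (1 : ℝ) else 0)
    split_ifs <;> norm_num
  have h1 : ∑ a, f a = (G.card : ℝ) := by
    rw [← Fintype.sum_equiv E (fun a => if a ∈ G then (1 : ℝ) else 0) f]
    · rw [Finset.sum_ite_mem]
      simp
    · intro a
      change _ = (if (fun i => E a (e i)) ∈ G then (1 : ℝ) else 0)
      rw [hEf]
  have h2 : bx f = ((univ.filter (fun p : (I → W) × (I → W) =>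
      ∀ s : I → Bool, (fun i => if s i then p.1 i else p.2 i) ∈ G)).card : ℝ) := by
    rw [Finset.card_filter, Nat.cast_sum]
    rw [Fintype.sum_prod_type]
    unfold bx
    rw [← Fintype.sum_equiv E _ _ (fun a => rfl)]
    refine Finset.sum_congr rfl fun a _ => ?_
    rw [← Fintype.sum_equiv E _ _ (fun b => rfl)]
    refine Finset.sum_congr rfl fun b _ => ?_
    have h3 : ∀ s : Fin k → Bool, f (fun i => if s i then E a i else E b i) =
        if (fun i => if s (e i) then a i else b i) ∈ G then (1 : ℝ) else 0 := by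
      intro s
      change (if (fun i => (if s (e i) then E a (e i) else E b (e i))) ∈ G then (1 : ℝ) else 0) = _
      have h4 : (fun i => (if s (e i) then E a (e i) else E b (e i))) =
          (fun i => if s (e i) then a i else b i) := by
        funext i
        have ha := congrFun (hEf a) i
        have hb := congrFun (hEf b) i
        change E a (e i) = a i at ha
        change E b (e i) = b i at hb
        rw [ha, hb]
      rw [h4]
    simp only [h3]
    rw [Finset.prod_boole]
    have h5 : (∀ s ∈ (univ : Finset (Fin k → Bool)), (fun i => if s (e i) then a i else b i) ∈ G) ↔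
        ∀ s : I → Bool, (fun i => if s i then a i else b i) ∈ G := by
      constructor
      · intro h s
        have := h (fun j => s (e.symm j)) (mem_univ _)
        simpa using this
      · intro h s _
        exact h (fun i => s (e i))
    simp only [h5]
    push_cast
    rfl
  have h3 := main k f hf0
  rw [h1, h2] at h3
  have h4 : α ^ (2 ^ k) * N ^ (k * 2 ^ k) ≤ (G.card : ℝ) ^ (2 ^ k) := by
    have h5 : (α * N ^ k) ^ (2 ^ k) ≤ (G.card : ℝ) ^ (2 ^ k) := pow_le_pow_left₀ (by positivity) h _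
    rwa [mul_pow, ← pow_mul] at h5
  rcases eq_or_lt_of_le hN0 with h0 | hpos
  · rcases Nat.eq_zero_or_pos k with hk0 | hkpos
    · rw [hk0] at h3 h4 ⊢
      simp only [pow_zero, pow_one, mul_zero, zero_mul, mul_one] at h3 h4 ⊢
      exact h4.trans h3
    · rw [← h0, zero_pow (by omega), mul_zero]
      exact Nat.cast_nonneg _
  · have hp : 0 < N ^ (k * 2 ^ k) := by positivity
    refine le_of_mul_le_mul_right ?_ hp
    calc α ^ (2 ^ k) * N ^ (2 * k) * N ^ (k * 2 ^ k)
        = α ^ (2 ^ k) * N ^ (k * 2 ^ k) * N ^ (2 * k) := by ring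
      _ ≤ (G.card : ℝ) ^ (2 ^ k) * N ^ (2 * k) := by gcongr
      _ ≤ _ := h3

end Pool.Agent.R178.HY
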