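import Mathlib
import Pool.Agent.R178.HY.Defs

/-! HY-BX: two-pattern acceptability in terms of covered triples and pairs of edges
(helper619 for helper178) -/

set_option autoImplicit false

open Finset

namespace Pool.Agent.R178.HY

namespace BXx

variable {n : ℕ}

theorem acc311 (F : Finset (Finset (Fin n))) (c : ZMod n ≃ Fin n) :
    Acc [3, 1, 1] F c ↔ ∀ a b d : ZMod n,
      ({c (a + 1), c (a + 1 + 1), c (a + 1 + 2), c (b + 1), c (d + 1)} : Finset (Fin n)) ∉ F := by
  have key : ∀ t : Fin 3 → ZMod n,
      ((univ : Finset (Fin 3)).biUnion fun i => (range (([3, 1, 1] : List ℕ).get i)).image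
        fun j : ℕ => c (t i + 1 + (j : ZMod n))) =
      {c (t 0 + 1), c (t 0 + 1 + 1), c (t 0 + 1 + 2), c (t 1 + 1), c (t 2 + 1)} := by
    intro t
    have hu : (univ : Finset (Fin 3)) = {0, 1, 2} := rfl
    have r3 : range 3 = {0, 1, 2} := rfl
    have r1 : range 1 = {0} := rfl
    rw [hu]
    ext y
    simp only [Finset.mem_biUnion, Finset.mem_insert, Finset.mem_singleton, exists_eq_or_imp,
      exists_eq_left]
    have g0 : ([3, 1, 1] : List ℕ).get (0 : Fin 3) = 3 := rfl
    have g1 : ([3, 1, 1] : List ℕ).get (1 : Fin 3) = 1 := rfl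
    have g2 : ([3, 1, 1] : List ℕ).get (2 : Fin 3) = 1 := rfl
    rw [g0, g1, g2, r3, r1]
    simp only [Finset.image_insert, Finset.image_singleton, Finset.mem_insert,
      Finset.mem_singleton, Nat.cast_zero, Nat.cast_one, Nat.cast_ofNat, add_zero]
    tauto
  unfold Acc
  constructor
  · intro h a b d hm
    apply h
    refine ⟨(![a, b, d] : Fin 3 → ZMod n), ?_⟩
    have h1 := key ![a, b, d]
    have h2 : ({c (a + 1), c (a + 1 + 1), c (a + 1 + 2), c (b + 1), c (d + 1)} :
      Finset (Fin n)) ∈ F := hm
    exact (congrArg (fun s => s ∈ F) h1).mpr h2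
  · rintro h ⟨t, ht⟩
    have h1 := key t
    exact h _ _ _ ((congrArg (fun s => s ∈ F) h1).mp ht)

theorem acc221 (F : Finset (Finset (Fin n))) (c : ZMod n ≃ Fin n) :
    Acc [2, 2, 1] F c ↔ ∀ a b d : ZMod n,
      ({c (a + 1), c (a + 1 + 1), c (b + 1), c (b + 1 + 1), c (d + 1)} : Finset (Fin n)) ∉ F := by
  have key : ∀ t : Fin 3 → ZMod n,
      ((univ : Finset (Fin 3)).biUnion fun i => (range (([2, 2, 1] : List ℕ).get i)).image
        fun j : ℕ => c (t i + 1 + (j : ZMod n))) =
      {c (t 0 + 1), c (t 0 + 1 + 1), c (t 1 + 1), c (t 1 + 1 + 1), c (t 2 + 1)} := by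
    intro t
    have hu : (univ : Finset (Fin 3)) = {0, 1, 2} := rfl
    have r2 : range 2 = {0, 1} := rfl
    have r1 : range 1 = {0} := rfl
    rw [hu]
    ext y
    simp only [Finset.mem_biUnion, Finset.mem_insert, Finset.mem_singleton, exists_eq_or_imp,
      exists_eq_left]
    have g0 : ([2, 2, 1] : List ℕ).get (0 : Fin 3) = 2 := rfl
    have g1 : ([2, 2, 1] : List ℕ).get (1 : Fin 3) = 2 := rfl
    have g2 : ([2, 2, 1] : List ℕ).get (2 : Fin 3) = 1 := rfl
    rw [g0, g1, g2, r2, r1]
    simp only [Finset.image_insert, Finset.image_singleton, Finset.mem_insert,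
      Finset.mem_singleton, Nat.cast_zero, Nat.cast_one, Nat.cast_ofNat, add_zero]
    tauto
  unfold Acc
  constructor
  · intro h a b d hm
    apply h
    refine ⟨(![a, b, d] : Fin 3 → ZMod n), ?_⟩
    have h1 := key ![a, b, d]
    have h2 : ({c (a + 1), c (a + 1 + 1), c (b + 1), c (b + 1 + 1), c (d + 1)} :
      Finset (Fin n)) ∈ F := hm
    exact (congrArg (fun s => s ∈ F) h1).mpr h2
  · rintro h ⟨t, ht⟩
    have h1 := key t
    exact h _ _ _ ((congrArg (fun s => s ∈ F) h1).mp ht)

theorem one_ne (hn : 5 ≤ n) : (1 : ZMod n) ≠ 0 := by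
  intro h
  have h1 : ((1 : ℕ) : ZMod n) = 0 := by exact_mod_cast h
  rw [ZMod.natCast_eq_zero_iff] at h1
  have := Nat.le_of_dvd (by norm_num) h1
  omega

theorem two_ne (hn : 5 ≤ n) : (2 : ZMod n) ≠ 0 := by
  intro h
  have h1 : ((2 : ℕ) : ZMod n) = 0 := by exact_mod_cast h
  rw [ZMod.natCast_eq_zero_iff] at h1
  have := Nat.le_of_dvd (by norm_num) h1
  omega

end BXx

open BXx in
theorem t_BX : S_BX := by
  intro n hn F hF c
  have h1 := one_ne hn
  have h2 := two_ne hn
  constructor
  · rw [acc311]
    constructor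
    · rintro h i ⟨A, hA, hsub⟩
      have hcard : ({c i, c (i + 1), c (i + 2)} : Finset (Fin n)).card = 3 := by
        rw [Finset.card_eq_three]
        refine ⟨c i, c (i + 1), c (i + 2), ?_, ?_, ?_, rfl⟩
        · intro he
          apply h1
          have := c.injective he
          linear_combination -this
        · intro he
          apply h2
          have := c.injective he
          linear_combination -this
        · intro he
          apply h1
          have := c.injective he
          linear_combination -this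
      have h3 : (A \ {c i, c (i + 1), c (i + 2)}).card = 2 := by
        rw [Finset.card_sdiff_of_subset hsub, hcard, hF A hA]
      obtain ⟨x, y, -, hxy⟩ := Finset.card_eq_two.1 h3
      apply h (i - 1) (c.symm x - 1) (c.symm y - 1)
      have h4 : ({c (i - 1 + 1), c (i - 1 + 1 + 1), c (i - 1 + 1 + 2), c (c.symm x - 1 + 1),
          c (c.symm y - 1 + 1)} : Finset (Fin n)) = A := by
        rw [sub_add_cancel, sub_add_cancel, sub_add_cancel, Equiv.apply_symm_apply,
          Equiv.apply_symm_apply]
        have h5 : A = {c i, c (i + 1), c (i + 2)} ∪ (A \ {c i, c (i + 1), c (i + 2)}) := by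
          rw [Finset.union_sdiff_of_subset hsub]
        rw [h5, hxy]
        ext z
        simp only [Finset.mem_insert, Finset.mem_singleton, Finset.mem_union]
        tauto
      rw [h4]
      exact hA
    · intro h a b d hm
      apply h (a + 1)
      refine ⟨_, hm, ?_⟩
      intro z hz
      simp only [Finset.mem_insert, Finset.mem_singleton] at hz ⊢
      tauto
  · rw [acc221]
    constructor
    · rintro h i j hcard ⟨A, hA, hsub⟩
      have h3 : (A \ {c i, c (i + 1), c j, c (j + 1)}).card = 1 := by
        rw [Finset.card_sdiff_of_subset hsub, hcard, hF A hA]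
      obtain ⟨x, hx⟩ := Finset.card_eq_one.1 h3
      apply h (i - 1) (j - 1) (c.symm x - 1)
      have h4 : ({c (i - 1 + 1), c (i - 1 + 1 + 1), c (j - 1 + 1), c (j - 1 + 1 + 1),
          c (c.symm x - 1 + 1)} : Finset (Fin n)) = A := by
        rw [sub_add_cancel, sub_add_cancel, sub_add_cancel, Equiv.apply_symm_apply]
        have h5 : A = {c i, c (i + 1), c j, c (j + 1)} ∪
            (A \ {c i, c (i + 1), c j, c (j + 1)}) := by
          rw [Finset.union_sdiff_of_subset hsub]
        rw [h5, hx]
        ext z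
        simp only [Finset.mem_insert, Finset.mem_singleton, Finset.mem_union]
        tauto
      rw [h4]
      exact hA
    · intro h a b d hm
      have hc5 := hF _ hm
      have h6 : ({c (a + 1), c (a + 1 + 1), c (b + 1), c (b + 1 + 1), c (d + 1)} :
          Finset (Fin n)) = insert (c (d + 1))
            {c (a + 1), c (a + 1 + 1), c (b + 1), c (b + 1 + 1)} := by
        ext z
        simp only [Finset.mem_insert, Finset.mem_singleton]
        tauto
      have h7 : ({c (a + 1), c (a + 1 + 1), c (b + 1), c (b + 1 + 1)} :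
          Finset (Fin n)).card = 4 := by
        have h8 := Finset.card_insert_le (c (d + 1))
          ({c (a + 1), c (a + 1 + 1), c (b + 1), c (b + 1 + 1)} : Finset (Fin n))
        rw [← h6, hc5] at h8
        have h9 : ({c (a + 1), c (a + 1 + 1), c (b + 1), c (b + 1 + 1)} :
          Finset (Fin n)).card ≤ 4 := Finset.card_le_four
        omega
      apply h (a + 1) (b + 1) h7
      refine ⟨_, hm, ?_⟩
      rw [h6]
      exact Finset.subset_insert _ _

end Pool.Agent.R178.HY
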