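import Mathlib
import Pool.Agent.R178.HY.Defs

/-! # Project HY, piece CLS: classification of cycle edges -/

set_option autoImplicit false

open Finset

namespace Pool.Agent.R178.HY

namespace CLSx

variable {n s : ℕ} {g : Fin s → Fin 5 → Fin n} {c0 : ZMod n ≃ Fin n}

theorem memQ {x : Fin n} : x ∈ Q g ↔ ∃ t j, g t j = x := by
  simp [Q]

theorem pos (h : OrdOK g c0) {k : ZMod n} (hk : c0 k ∈ Q g) :
    ∃ (t : Fin s) (j : Fin 5), k = ((7 * (t : ℕ) + (j : ℕ) : ℕ) : ZMod n) := by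
  obtain ⟨t, j, e⟩ := memQ.mp hk
  exact ⟨t, j, c0.injective (by rw [h.seg, e])⟩

theorem at5 (h : OrdOK g c0) (t : Fin s) : c0 ((7 * (t : ℕ) + 5 : ℕ) : ZMod n) ∉ Q g := by
  intro hk
  obtain ⟨t', j, e⟩ := memQ.mp hk
  exact h.free5 t t' j e.symm

theorem at6 (h : OrdOK g c0) (t : Fin s) : c0 ((7 * (t : ℕ) + 6 : ℕ) : ZMod n) ∉ Q g := by
  intro hk
  obtain ⟨t', j, e⟩ := memQ.mp hk
  exact h.free6 t t' j e.symm

theorem inQ (h : OrdOK g c0) (t : Fin s) {a : ℕ} (ha : a < 5) :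
    c0 ((7 * (t : ℕ) + a : ℕ) : ZMod n) ∈ Q g := by
  rw [memQ]
  exact ⟨t, ⟨a, ha⟩, (h.seg t ⟨a, ha⟩).symm⟩

theorem sg (h : OrdOK g c0) (t : Fin s) {a : ℕ} (ha : a < 5) :
    c0 ((7 * (t : ℕ) + a : ℕ) : ZMod n) = g t ⟨a, ha⟩ := h.seg t ⟨a, ha⟩

end CLSx

open CLSx in
theorem t_CLS : S_CLS := by
  intro n s _ _ g _ c0 h
  have e1 : ∀ (t a : ℕ), (((7 * t + a : ℕ) : ZMod n)) + 1 = ((7 * t + (a + 1) : ℕ) : ZMod n) := by
    intro t a
    push_cast
    ring
  have e2 : ∀ (t a : ℕ), (((7 * t + a : ℕ) : ZMod n)) + 2 = ((7 * t + (a + 2) : ℕ) : ZMod n) := by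
    intro t a
    push_cast
    ring
  have em : ∀ (t a : ℕ), (((7 * t + (a + 1) : ℕ) : ZMod n)) - 1 = ((7 * t + a : ℕ) : ZMod n) := by
    intro t a
    push_cast
    ring
  constructor
  · -- qq
    intro i h1 h2
    obtain ⟨t, ⟨j, hj⟩, rfl⟩ := pos h h1
    simp only [e1] at h2 ⊢
    by_cases h4 : j = 4
    · subst h4
      exact absurd h2 (at5 h t)
    · exact ⟨t, ⟨j, by omega⟩, sg h t hj, sg h t (by omega)⟩
  · -- fq
    intro i h1 h2
    obtain ⟨t, ⟨j, hj⟩, e⟩ := pos h h2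
    simp only at e
    rcases j with _ | j
    · refine ⟨t, ?_, ?_⟩
      · rw [e]
        exact sg h t (by norm_num)
      · have e' : i + 2 = ((7 * (t : ℕ) + (0 + 1) : ℕ) : ZMod n) := by
          rw [← e1, ← e]
          ring
        rw [e']
        exact sg h t (by norm_num)
    · exfalso
      apply h1
      have e' : i = ((7 * (t : ℕ) + j : ℕ) : ZMod n) := by
        rw [← em, ← e]
        ring
      rw [e']
      exact inQ h t (by omega)
  · -- qf
    intro i h1 h2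
    obtain ⟨t, ⟨j, hj⟩, rfl⟩ := pos h h1
    simp only [e1] at h2 ⊢
    by_cases h4 : j = 4
    · subst h4
      refine ⟨t, sg h t (by norm_num), ?_⟩
      rw [em]
      exact sg h t (by norm_num)
    · exact absurd (inQ h t (by omega)) h2
  · -- qfq
    rintro i h1 ⟨h2, h3⟩
    obtain ⟨t, ⟨j, hj⟩, e⟩ := pos h h2
    simp only at e
    have e' : i = ((7 * (t : ℕ) + (j + 1) : ℕ) : ZMod n) := by
      rw [← e1, ← e]
      ring
    subst e'
    rw [e1] at h3
    by_cases h4 : j = 4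
    · subst h4
      exact at6 h t h3
    · exact h1 (inQ h t (by omega))
  · -- qqq
    intro i h1 h2 h3
    obtain ⟨t, ⟨j, hj⟩, rfl⟩ := pos h h1
    simp only [e1, e2] at h2 h3 ⊢
    by_cases h4 : j = 4
    · subst h4
      exact absurd h2 (at5 h t)
    by_cases h5 : j = 3
    · subst h5
      exact absurd h3 (at5 h t)
    · exact ⟨t, ⟨j, by omega⟩, sg h t hj, sg h t (by omega), sg h t (by omega)⟩

end Pool.Agent.R178.HY
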