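import Mathlib
import Pool.Agent.R178.HY.Defs

set_option autoImplicit false

open Finset

namespace Pool.Agent.R178.HY

namespace CNT12x

variable {n : ℕ}

lemma card_lt_pairs (A : Finset (Fin n)) :
    2 * ((A ×ˢ A).filter (fun p => p.1 < p.2)).card ≤ A.card * A.card - A.card := by
  rw [← Finset.offDiag_card]
  have h1 : ((A ×ˢ A).filter (fun p => p.1 < p.2)).card
      = ((A ×ˢ A).filter (fun p => p.2 < p.1)).card := by
    apply Finset.card_bij (fun p _ => (p.2, p.1))
    · intro p hp
      simp only [mem_filter, mem_product] at hp ⊢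
      exact ⟨⟨hp.1.2, hp.1.1⟩, hp.2⟩
    · intro p _ q _ h
      have h' := Prod.mk.inj h
      exact Prod.ext h'.2 h'.1
    · intro p hp
      simp only [mem_filter, mem_product] at hp
      exact ⟨(p.2, p.1), by simp only [mem_filter, mem_product]; exact ⟨⟨hp.1.2, hp.1.1⟩, hp.2⟩, rfl⟩
  have h2 : Disjoint ((A ×ˢ A).filter (fun p => p.1 < p.2))
      ((A ×ˢ A).filter (fun p => p.2 < p.1)) := by
    rw [Finset.disjoint_left]
    intro p hp hq
    simp only [mem_filter] at hp hq
    exact absurd hp.2 (not_lt.mpr hq.2.le)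
  have h3 : ((A ×ˢ A).filter (fun p => p.1 < p.2)) ∪ ((A ×ˢ A).filter (fun p => p.2 < p.1))
      ⊆ A.offDiag := by
    intro p hp
    simp only [mem_union, mem_filter, mem_product] at hp
    rw [mem_offDiag]
    rcases hp with hp | hp
    · exact ⟨hp.1.1, hp.1.2, ne_of_lt hp.2⟩
    · exact ⟨hp.1.1, hp.1.2, (ne_of_lt hp.2).symm⟩
  have h4 := card_le_card h3
  rw [card_union_of_disjoint h2] at h4
  omega

lemma inj1 {α β γ : Type*} [Fintype α] [DecidableEq α] [Fintype β]
    (T : Finset (α → β)) (D : Finset γ) (v : (α → β) → α) (key : (α → β) → γ)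
    (hk : ∀ a ∈ T, key a ∈ D)
    (hkey : ∀ a ∈ T, ∀ b ∈ T, key a = key b → v a = v b ∧ a (v a) = b (v b)) :
    T.card * Fintype.card β ≤ D.card * Fintype.card β ^ Fintype.card α := by
  classical
  rw [← Fintype.card_fun, ← Finset.card_univ (α := β), ← Finset.card_univ (α := (α → β)),
    ← card_product, ← card_product]
  apply card_le_card_of_injOn (fun p => (key p.1, Function.update p.1 (v p.1) p.2))
  · intro p hp
    rw [mem_coe, mem_product] at hp
    rw [mem_coe, mem_product]
    exact ⟨hk _ hp.1, mem_univ _⟩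
  · rintro ⟨a, z⟩ hp ⟨b, y⟩ hq h
    rw [mem_coe, mem_product] at hp hq
    obtain ⟨h1, h2⟩ := Prod.mk.inj h
    simp only at h1 h2 hp hq
    obtain ⟨e1, e2⟩ := hkey a hp.1 b hq.1 h1
    have hz : z = y := by
      have := congrFun h2 (v a)
      rw [Function.update_self, e1, Function.update_self] at this
      exact this
    have hab : a = b := by
      funext u
      by_cases hu : u = v a
      · rw [hu, e2, ← e1]
      · have := congrFun h2 u
        rw [Function.update_of_ne hu, Function.update_of_ne (by rw [← e1]; exact hu)] at this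
        exact this
    rw [hz, hab]

lemma inj2 {α β γ : Type*} [Fintype α] [DecidableEq α] [Fintype β]
    (T : Finset (α → β)) (D : Finset γ) (v w : (α → β) → α) (key : (α → β) → γ)
    (hk : ∀ a ∈ T, key a ∈ D) (hvw : ∀ a ∈ T, v a ≠ w a)
    (hkey : ∀ a ∈ T, ∀ b ∈ T, key a = key b →
      v a = v b ∧ w a = w b ∧ a (v a) = b (v b) ∧ a (w a) = b (w b)) :
    T.card * (Fintype.card β * Fintype.card β) ≤ D.card * Fintype.card β ^ Fintype.card α := by
  classical
  rw [← Fintype.card_fun, ← Fintype.card_prod, ← Finset.card_univ (α := β × β),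
    ← Finset.card_univ (α := (α → β)), ← card_product, ← card_product]
  apply card_le_card_of_injOn
    (fun p => (key p.1, Function.update (Function.update p.1 (v p.1) p.2.1) (w p.1) p.2.2))
  · intro p hp
    rw [mem_coe, mem_product] at hp
    rw [mem_coe, mem_product]
    exact ⟨hk _ hp.1, mem_univ _⟩
  · rintro ⟨a, z1, z2⟩ hp ⟨b, y1, y2⟩ hq h
    rw [mem_coe, mem_product] at hp hq
    obtain ⟨h1, h2⟩ := Prod.mk.inj h
    simp only at h1 h2 hp hq
    obtain ⟨e1, e2, e3, e4⟩ := hkey a hp.1 b hq.1 h1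
    have hne := hvw a hp.1
    have hz2 : z2 = y2 := by
      have := congrFun h2 (w a)
      rw [Function.update_self, e2, Function.update_self] at this
      exact this
    have hz1 : z1 = y1 := by
      have := congrFun h2 (v a)
      rw [Function.update_of_ne hne, Function.update_self,
        Function.update_of_ne (by rw [← e2]; exact hne), e1, Function.update_self] at this
      exact this
    have hab : a = b := by
      funext u
      by_cases hu : u = v a
      · rw [hu, e3, ← e1]
      · by_cases hu' : u = w a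
        · rw [hu', e4, ← e2]
        · have := congrFun h2 u
          rw [Function.update_of_ne hu', Function.update_of_ne hu,
            Function.update_of_ne (by rw [← e2]; exact hu'),
            Function.update_of_ne (by rw [← e1]; exact hu)] at this
          exact this
    rw [hz1, hz2, hab]

lemma bracket (j z c : ℕ) (h : j + z ≤ 5) (hc : 2 * c ≤ j * j - j) :
    c * (z * z - z) + j * (z * (z - 2)) ≤ 12 := by
  have hj : j ≤ 5 := by omega
  have hz : z ≤ 5 := by omega
  interval_cases j <;> interval_cases z <;> simp at h hc ⊢ <;> omega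

end CNT12x

open CNT12x

open Classical in
theorem t_CNT12 : S_CNT12 := by
  intro n F X Z L hF hXZ hL hLZ
  -- the two kinds of bad tuples
  set T1 : Finset (↥X → ↥Z) := univ.filter (fun a : ↥X → ↥Z =>
    ∃ v w : ↥X, v ≠ w ∧ a v ≠ a w ∧
      Cov F {(v : Fin n), (w : Fin n), (a v : Fin n), (a w : Fin n)}) with hT1
  set T2 : Finset (↥X → ↥Z) := univ.filter (fun a : ↥X → ↥Z =>
    ∃ v : ↥X, ∃ x ∈ Z, L ≤ (((S F v (a v) x) ∩ Z).card : ℝ)) with hT2
  have hT : (univ.filter (fun a : ↥X → ↥Z =>
      (∃ v w : ↥X, v ≠ w ∧ a v ≠ a w ∧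
        Cov F {(v : Fin n), (w : Fin n), (a v : Fin n), (a w : Fin n)}) ∨
      ∃ v : ↥X, ∃ x ∈ Z, L ≤ (((S F v (a v) x) ∩ Z).card : ℝ))).card ≤ T1.card + T2.card := by
    rw [filter_or]
    exact card_union_le _ _
  -- the quadruples
  set D1 : Finset ((Fin n × Fin n) × (Fin n × Fin n)) := F.biUnion (fun M =>
    (((M ∩ X) ×ˢ (M ∩ X)).filter (fun p => p.1 < p.2)) ×ˢ (M ∩ Z).offDiag) with hD1
  have hZc : Fintype.card ↥Z = Z.card := Fintype.card_coe Z
  have hXc : Fintype.card ↥X = X.card := Fintype.card_coe X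
  -- first kind
  have hB1 : T1.card * (Z.card * Z.card) ≤ D1.card * Z.card ^ X.card := by
    rcases T1.eq_empty_or_nonempty with he | ⟨a0, ha0⟩
    · rw [he]; simp
    have hne : Nonempty ↥X := by
      obtain ⟨v, _⟩ := (mem_filter.mp ha0).2
      exact ⟨v⟩
    have hw : ∀ a : ↥X → ↥Z, ∃ vw : ↥X × ↥X, a ∈ T1 → (vw.1 : Fin n) < vw.2 ∧ a vw.1 ≠ a vw.2 ∧
        Cov F {(vw.1 : Fin n), (vw.2 : Fin n), (a vw.1 : Fin n), (a vw.2 : Fin n)} := by
      intro a
      by_cases ha : a ∈ T1
      · obtain ⟨v, w, h1, h2, h3⟩ := (mem_filter.mp ha).2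
        rcases lt_or_gt_of_ne (fun h => h1 (Subtype.ext h) : (v : Fin n) ≠ w) with h | h
        · exact ⟨(v, w), fun _ => ⟨h, h2, h3⟩⟩
        · refine ⟨(w, v), fun _ => ⟨h, h2.symm, ?_⟩⟩
          obtain ⟨A, hA, hAs⟩ := h3
          refine ⟨A, hA, fun y hy => hAs ?_⟩
          simp only [mem_insert, mem_singleton] at hy ⊢
          tauto
      · exact ⟨(hne.some, hne.some), fun h => absurd h ha⟩
    choose vw hvw using hw
    rw [← hZc, ← hXc]
    apply inj2 T1 D1 (fun a => (vw a).1) (fun a => (vw a).2)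
      (fun a => ((((vw a).1 : Fin n), ((vw a).2 : Fin n)),
        ((a (vw a).1 : Fin n), (a (vw a).2 : Fin n))))
    · intro a ha
      obtain ⟨h1, h2, A, hA, hAs⟩ := hvw a ha
      rw [hD1, mem_biUnion]
      refine ⟨A, hA, ?_⟩
      rw [mem_product, mem_filter, mem_product, mem_offDiag]
      have hm : ∀ y ∈ ({((vw a).1 : Fin n), ((vw a).2 : Fin n), (a (vw a).1 : Fin n),
        (a (vw a).2 : Fin n)} : Finset (Fin n)), y ∈ A := fun y hy => hAs hy
      refine ⟨⟨⟨?_, ?_⟩, h1⟩, ?_, ?_, ?_⟩
      · exact mem_inter.mpr ⟨hm _ (by simp), (vw a).1.2⟩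
      · exact mem_inter.mpr ⟨hm _ (by simp), (vw a).2.2⟩
      · exact mem_inter.mpr ⟨hm _ (by simp), (a (vw a).1).2⟩
      · exact mem_inter.mpr ⟨hm _ (by simp), (a (vw a).2).2⟩
      · exact fun h => h2 (Subtype.ext h)
    · intro a ha h
      have := (hvw a ha).1
      rw [h] at this
      exact lt_irrefl _ this
    · intro a ha b hb h
      obtain ⟨h1, h2⟩ := Prod.mk.inj h
      obtain ⟨h3, h4⟩ := Prod.mk.inj h1
      obtain ⟨h5, h6⟩ := Prod.mk.inj h2
      exact ⟨Subtype.ext h3, Subtype.ext h4, Subtype.ext h5, Subtype.ext h6⟩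
  -- second kind
  have hB2 : ∃ D2 : Finset ((Fin n × Fin n) × Fin n),
      (∀ q ∈ D2, ∃ M ∈ F, q.1.1 ∈ M ∩ X ∧ q.1.2 ∈ M ∩ Z) ∧
      (T2.card : ℝ) * (L * Z.card) ≤ D2.card * (Z.card : ℝ) ^ X.card ∧
      D2.card ≤ ∑ M ∈ F, (M ∩ X).card * ((M ∩ Z).card * ((M ∩ Z).card - 2)) := by
    rcases T2.eq_empty_or_nonempty with he | ⟨a0, ha0⟩
    · refine ⟨∅, by simp, by rw [he]; simp, by simp⟩
    have hne : Nonempty ↥X := by
      obtain ⟨v, _⟩ := (mem_filter.mp ha0).2
      exact ⟨v⟩
    -- the pairs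
    set P : Finset (Fin n × Fin n) := (X ×ˢ Z).filter (fun p =>
      ∃ x ∈ Z, L ≤ (((S F p.1 p.2 x) ∩ Z).card : ℝ)) with hP
    have hw : ∀ a : ↥X → ↥Z, ∃ v : ↥X, a ∈ T2 → ((v : Fin n), (a v : Fin n)) ∈ P := by
      intro a
      by_cases ha : a ∈ T2
      · obtain ⟨v, x, hx, h⟩ := (mem_filter.mp ha).2
        refine ⟨v, fun _ => ?_⟩
        rw [hP, mem_filter, mem_product]
        exact ⟨⟨v.2, (a v).2⟩, x, hx, h⟩
      · exact ⟨hne.some, fun h => absurd h ha⟩
    choose v hv using hw
    have h1 : T2.card * Z.card ≤ P.card * Z.card ^ X.card := by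
      rw [← hZc, ← hXc]
      apply inj1 T2 P v (fun a => ((v a : Fin n), (a (v a) : Fin n))) hv
      intro a ha b hb h
      obtain ⟨h3, h4⟩ := Prod.mk.inj h
      exact ⟨Subtype.ext h3, Subtype.ext h4⟩
    have hx : ∀ p : Fin n × Fin n, ∃ x : Fin n, p ∈ P → x ∈ Z ∧
        L ≤ (((S F p.1 p.2 x) ∩ Z).card : ℝ) := by
      intro p
      by_cases hp : p ∈ P
      · obtain ⟨x, h1, h2⟩ := (mem_filter.mp hp).2
        exact ⟨x, fun _ => ⟨h1, h2⟩⟩
      · exact ⟨p.1, fun h => absurd h hp⟩
    choose x hx using hx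
    set D2 : Finset ((Fin n × Fin n) × Fin n) := (P ×ˢ (univ : Finset (Fin n))).filter
      (fun q => q.2 ∈ S F q.1.1 q.1.2 (x q.1) ∩ Z) with hD2
    have hmemS : ∀ u w t y : Fin n, y ∈ S F u w t →
        ({u, w, t, y} : Finset (Fin n)).card = 4 ∧ Cov F {u, w, t, y} := by
      intro u w t y hy
      unfold S at hy
      exact (mem_filter.mp hy).2
    have hL2 : L * P.card ≤ D2.card := by
      have e1 : D2.card = ∑ p ∈ P, (S F p.1 p.2 (x p) ∩ Z).card := by
        have e2 : D2 = (P.sigma (fun p => S F p.1 p.2 (x p) ∩ Z)).image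
            (fun s => (s.1, s.2)) := by
          ext q
          simp only [hD2, mem_filter, mem_product, mem_univ, and_true, mem_image, mem_sigma]
          constructor
          · intro h
            exact ⟨⟨q.1, q.2⟩, h, rfl⟩
          · rintro ⟨s, hs, rfl⟩
            exact hs
        rw [e2, card_image_of_injective, card_sigma]
        rintro ⟨s1, s2⟩ ⟨t1, t2⟩ h
        obtain ⟨h1, h2⟩ := Prod.mk.inj h
        simp only at h1 h2
        subst h1; subst h2; rfl
      rw [e1]
      push_cast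
      calc L * P.card = ∑ p ∈ P, L := by rw [sum_const, nsmul_eq_mul, mul_comm]
        _ ≤ ∑ p ∈ P, ((S F p.1 p.2 (x p) ∩ Z).card : ℝ) :=
            sum_le_sum (fun p hp => (hx p hp).2)
    refine ⟨D2, ?_, ?_, ?_⟩
    · intro q hq
      rw [hD2, mem_filter, mem_product] at hq
      obtain ⟨_, A, hA, hAs⟩ := hmemS _ _ _ _ (mem_inter.mp hq.2).1
      have hp := (mem_filter.mp hq.1.1).1
      rw [mem_product] at hp
      exact ⟨A, hA, mem_inter.mpr ⟨hAs (by simp), hp.1⟩, mem_inter.mpr ⟨hAs (by simp), hp.2⟩⟩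
    · have h1' : (T2.card : ℝ) * Z.card ≤ P.card * (Z.card : ℝ) ^ X.card := by exact_mod_cast h1
      calc (T2.card : ℝ) * (L * Z.card) = L * (T2.card * Z.card) := by ring
        _ ≤ L * (P.card * (Z.card : ℝ) ^ X.card) := mul_le_mul_of_nonneg_left h1' hL.le
        _ = (L * P.card) * (Z.card : ℝ) ^ X.card := by ring
        _ ≤ D2.card * (Z.card : ℝ) ^ X.card := mul_le_mul_of_nonneg_right hL2 (by positivity)
    · -- the count by members
      have hsub : D2 ⊆ F.biUnion (fun M => (((M ∩ X) ×ˢ (M ∩ Z)).sigma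
          (fun p => if x p ∈ M ∩ Z ∧ x p ≠ p.2 then (M ∩ Z) \ {p.2, x p} else ∅)).image
            (fun s => (s.1, s.2))) := by
        intro q hq
        rw [hD2, mem_filter, mem_product] at hq
        have hS := mem_inter.mp hq.2
        obtain ⟨h4, A, hA, hAs⟩ := hmemS _ _ _ _ hS.1
        have hp := (mem_filter.mp hq.1.1).1
        rw [mem_product] at hp
        have hxq := hx q.1 hq.1.1
        -- distinctness
        have hd : x q.1 ≠ q.1.2 ∧ q.2 ≠ q.1.2 ∧ q.2 ≠ x q.1 := by
          refine ⟨?_, ?_, ?_⟩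
          · intro h
            rw [h] at h4
            have : ({q.1.1, q.1.2, q.1.2, q.2} : Finset (Fin n)).card ≤ 3 := by
              have e : ({q.1.1, q.1.2, q.1.2, q.2} : Finset (Fin n)) = {q.1.1, q.1.2, q.2} := by
                ext y; simp
              rw [e]; exact card_le_three
            omega
          · intro h
            rw [h] at h4
            have : ({q.1.1, q.1.2, x q.1, q.1.2} : Finset (Fin n)).card ≤ 3 := by
              have e : ({q.1.1, q.1.2, x q.1, q.1.2} : Finset (Fin n))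
                  = {q.1.1, q.1.2, x q.1} := by
                ext y; simp; tauto
              rw [e]; exact card_le_three
            omega
          · intro h
            rw [h] at h4
            have : ({q.1.1, q.1.2, x q.1, x q.1} : Finset (Fin n)).card ≤ 3 := by
              have e : ({q.1.1, q.1.2, x q.1, x q.1} : Finset (Fin n))
                  = {q.1.1, q.1.2, x q.1} := by
                ext y; simp
              rw [e]; exact card_le_three
            omega
        rw [mem_biUnion]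
        refine ⟨A, hA, ?_⟩
        rw [mem_image]
        refine ⟨⟨q.1, q.2⟩, ?_, rfl⟩
        rw [mem_sigma]
        refine ⟨?_, ?_⟩
        · rw [mem_product]
          exact ⟨mem_inter.mpr ⟨hAs (by simp), hp.1⟩, mem_inter.mpr ⟨hAs (by simp), hp.2⟩⟩
        · have hc : x q.1 ∈ A ∩ Z ∧ x q.1 ≠ q.1.2 :=
            ⟨mem_inter.mpr ⟨hAs (by simp), hxq.1⟩, hd.1⟩
          simp only [if_pos hc]
          rw [mem_sdiff, mem_inter]
          refine ⟨⟨hAs (by simp), hS.2⟩, ?_⟩
          simp only [mem_insert, mem_singleton, not_or]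
          exact ⟨hd.2.1, hd.2.2⟩
      refine (card_le_card hsub).trans (card_biUnion_le.trans (sum_le_sum ?_))
      intro M hM
      refine card_image_le.trans ?_
      rw [card_sigma]
      have : ∀ p ∈ (M ∩ X) ×ˢ (M ∩ Z),
          (if x p ∈ M ∩ Z ∧ x p ≠ p.2 then (M ∩ Z) \ {p.2, x p} else ∅).card
            ≤ (M ∩ Z).card - 2 := by
        intro p hp
        split_ifs with h
        · have hs : ({p.2, x p} : Finset (Fin n)) ⊆ M ∩ Z := by
            intro y hy
            simp only [mem_insert, mem_singleton] at hy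
            rcases hy with rfl | rfl
            · exact (mem_product.mp hp).2
            · exact h.1
          rw [card_sdiff_of_subset hs, card_pair h.2.symm]
        · simp
      refine (sum_le_sum this).trans ?_
      rw [sum_const, smul_eq_mul, card_product, mul_assoc]
  obtain ⟨D2, _, hD2a, hD2b⟩ := hB2
  have hD1b : D1.card ≤ ∑ M ∈ F, ((((M ∩ X) ×ˢ (M ∩ X)).filter (fun p => p.1 < p.2)).card *
      ((M ∩ Z).card * (M ∩ Z).card - (M ∩ Z).card)) := by
    refine card_biUnion_le.trans (sum_le_sum (fun M _ => ?_))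
    rw [card_product, offDiag_card]
  have htot : D1.card + D2.card ≤ 12 * F.card := by
    refine (Nat.add_le_add hD1b hD2b).trans ?_
    rw [← sum_add_distrib]
    refine (sum_le_card_nsmul F _ 12 ?_).trans (by rw [smul_eq_mul, mul_comm])
    intro M hM
    apply bracket
    · have h5 := hF M hM
      have hdis : Disjoint (M ∩ X) (M ∩ Z) :=
        hXZ.mono inter_subset_right inter_subset_right
      rw [← card_union_of_disjoint hdis, ← h5]
      exact card_le_card (union_subset inter_subset_left inter_subset_left)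
    · exact card_lt_pairs _
  -- conclusion
  have hZ0 : (0 : ℝ) ≤ Z.card := by positivity
  have hB1' : (T1.card : ℝ) * ((Z.card : ℝ) * Z.card) ≤ D1.card * (Z.card : ℝ) ^ X.card := by
    exact_mod_cast hB1
  have hTr : ((univ.filter (fun a : ↥X → ↥Z =>
      (∃ v w : ↥X, v ≠ w ∧ a v ≠ a w ∧
        Cov F {(v : Fin n), (w : Fin n), (a v : Fin n), (a w : Fin n)}) ∨
      ∃ v : ↥X, ∃ x ∈ Z, L ≤ (((S F v (a v) x) ∩ Z).card : ℝ))).card : ℝ)
        ≤ T1.card + T2.card := by exact_mod_cast hT
  have htot' : (D1.card : ℝ) + D2.card ≤ 12 * F.card := by exact_mod_cast htot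
  calc _ ≤ ((T1.card : ℝ) + T2.card) * (L * Z.card) :=
        mul_le_mul_of_nonneg_right hTr (by positivity)
    _ = (T1.card : ℝ) * (L * Z.card) + T2.card * (L * Z.card) := by ring
    _ ≤ (T1.card : ℝ) * ((Z.card : ℝ) * Z.card) + D2.card * (Z.card : ℝ) ^ X.card := by
        apply add_le_add _ hD2a
        apply mul_le_mul_of_nonneg_left _ (by positivity)
        exact mul_le_mul_of_nonneg_right hLZ hZ0
    _ ≤ D1.card * (Z.card : ℝ) ^ X.card + D2.card * (Z.card : ℝ) ^ X.card := by linarith
    _ = ((D1.card : ℝ) + D2.card) * (Z.card : ℝ) ^ X.card := by ring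
    _ ≤ 12 * F.card * (Z.card : ℝ) ^ X.card :=
        mul_le_mul_of_nonneg_right htot' (by positivity)

end Pool.Agent.R178.HY
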