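import Mathlib
import Pool.Agent.R178.HY.Defs

set_option autoImplicit false

open Finset

namespace Pool.Agent.R178.HY

namespace CNT3x

lemma sum_eval {I W : Type} [Fintype I] [DecidableEq I] [Fintype W] (v : I) (f : W → ℝ) :
    (∑ a : I → W, f (a v)) * Fintype.card W =
      (Fintype.card W : ℝ) ^ Fintype.card I * ∑ z, f z := by
  classical
  have e : (∑ p : (I → W) × W, f (p.1 v)) = ∑ p : (I → W) × W, f p.2 := by
    refine Finset.sum_bij' (fun p _ => (Function.update p.1 v p.2, p.1 v))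
      (fun p _ => (Function.update p.1 v p.2, p.1 v)) ?_ ?_ ?_ ?_ ?_
    · intro p _; exact mem_univ _
    · intro p _; exact mem_univ _
    · intro p _; simp
    · intro p _; simp
    · intro p _; simp
  rw [Fintype.sum_prod_type, Fintype.sum_prod_type] at e
  simp only [Finset.sum_const, Finset.card_univ, nsmul_eq_mul] at e
  rw [← Finset.mul_sum] at e
  rw [mul_comm, e, Fintype.card_fun]
  push_cast
  rfl

lemma markov {α : Type} [Fintype α] (g : α → ℝ) (hg : ∀ a, 0 ≤ g a) (c : ℝ) (P : α → Prop)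
    [DecidablePred P] (hP : ∀ a, P a → c ≤ g a) :
    ((univ.filter P).card : ℝ) * c ≤ ∑ a, g a := by
  calc ((univ.filter P).card : ℝ) * c = ∑ a ∈ univ.filter P, c := by simp
    _ ≤ ∑ a ∈ univ.filter P, g a := Finset.sum_le_sum (fun a ha => hP a (Finset.mem_filter.1 ha).2)
    _ ≤ ∑ a, g a := Finset.sum_le_univ_sum_of_nonneg hg

lemma union_bound {α ι : Type} [Fintype α] (s : Finset ι) (P : ι → α → Prop) (Q : α → Prop)
    (inst : DecidablePred Q) (h : ∀ a, Q a → ∃ i ∈ s, P i a) (c : ℝ) (hc : 0 ≤ c) (b : ι → ℝ)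
    (hb : ∀ i ∈ s, ∀ (_ : DecidablePred (P i)), ((univ.filter (P i)).card : ℝ) * c ≤ b i) :
    ((univ.filter Q).card : ℝ) * c ≤ ∑ i ∈ s, b i := by
  classical
  have h1 : (univ.filter Q) ⊆ s.biUnion (fun i => univ.filter (P i)) := by
    intro a ha
    obtain ⟨i, hi, hp⟩ := h a (mem_filter.1 ha).2
    exact mem_biUnion.2 ⟨i, hi, mem_filter.2 ⟨mem_univ _, hp⟩⟩
  have h2 : ((univ.filter Q).card : ℝ) ≤ ∑ i ∈ s, ((univ.filter (P i)).card : ℝ) := by
    have := (card_le_card h1).trans card_biUnion_le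
    exact_mod_cast this
  calc ((univ.filter Q).card : ℝ) * c ≤ (∑ i ∈ s, ((univ.filter (P i)).card : ℝ)) * c :=
        mul_le_mul_of_nonneg_right h2 hc
    _ = ∑ i ∈ s, ((univ.filter (P i)).card : ℝ) * c := by rw [Finset.sum_mul]
    _ ≤ ∑ i ∈ s, b i := Finset.sum_le_sum (fun i hi => hb i hi _)

variable {n : ℕ}

lemma card4 {a b c d : Fin n} (h : ({a, b, c, d} : Finset (Fin n)).card = 4) :
    a ≠ b ∧ a ≠ c ∧ a ≠ d ∧ b ≠ c ∧ b ≠ d ∧ c ≠ d := by
  refine ⟨?_, ?_, ?_, ?_, ?_, ?_⟩ <;> rintro rfl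
  · rw [Finset.insert_eq_of_mem (by simp)] at h
    have := Finset.card_le_three (a := a) (b := c) (c := d); omega
  · rw [Finset.insert_eq_of_mem (by simp)] at h
    have := Finset.card_le_three (a := b) (b := a) (c := d); omega
  · rw [Finset.insert_eq_of_mem (by simp)] at h
    have := Finset.card_le_three (a := b) (b := c) (c := a); omega
  · rw [Finset.insert_eq_of_mem (a := b) (s := {b, d}) (by simp)] at h
    have := Finset.card_le_three (a := a) (b := b) (c := d); omega
  · rw [Finset.insert_eq_of_mem (a := b) (s := {c, b}) (by simp)] at h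
    have := Finset.card_le_three (a := a) (b := c) (c := b); omega
  · rw [Finset.insert_eq_of_mem (a := c) (s := {c}) (by simp)] at h
    have := Finset.card_le_three (a := a) (b := b) (c := c); omega

/-- `|S(v,z;x)|` in terms of the members containing `v,z,x` -/
lemma S_le (F : Finset (Finset (Fin n))) (hF : Unif F) (v z x : Fin n) :
    (S F v z x).card ≤ ∑ A ∈ F.filter (fun A => x ∈ A),
      (if v ∈ A.erase x ∧ z ∈ (A.erase x).erase v then 2 else 0) := by
  have h1 : S F v z x ⊆ (F.filter (fun A => x ∈ A)).biUnion (fun A =>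
      if v ∈ A.erase x ∧ z ∈ (A.erase x).erase v then ((A.erase x).erase v).erase z else ∅) := by
    intro y hy
    rw [S, mem_filter] at hy
    obtain ⟨-, h4, A, hA, hsub⟩ := hy
    obtain ⟨hvz, hvx, hvy, hzx, hzy, hxy⟩ := card4 h4
    have hv : v ∈ A := hsub (by simp)
    have hz : z ∈ A := hsub (by simp)
    have hx : x ∈ A := hsub (by simp)
    have hy : y ∈ A := hsub (by simp)
    refine mem_biUnion.2 ⟨A, mem_filter.2 ⟨hA, hx⟩, ?_⟩
    rw [if_pos ⟨mem_erase.2 ⟨hvx, hv⟩, mem_erase.2 ⟨hvz.symm, mem_erase.2 ⟨hzx, hz⟩⟩⟩]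
    exact mem_erase.2 ⟨hzy.symm, mem_erase.2 ⟨hvy.symm, mem_erase.2 ⟨hxy.symm, hy⟩⟩⟩
  refine (card_le_card h1).trans (card_biUnion_le.trans (sum_le_sum ?_))
  intro A hA
  rw [mem_filter] at hA
  split_ifs with h
  · rw [card_erase_of_mem h.2, card_erase_of_mem h.1, card_erase_of_mem hA.2, hF A hA.1]
  · simp

lemma sum_S_le (F : Finset (Finset (Fin n))) (hF : Unif F) (x : Fin n) :
    ∑ v, ∑ z, (S F v z x).card ≤ 24 * deg F x := by
  calc ∑ v, ∑ z, (S F v z x).card
      ≤ ∑ v, ∑ z, ∑ A ∈ F.filter (fun A => x ∈ A),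
        (if v ∈ A.erase x ∧ z ∈ (A.erase x).erase v then 2 else 0) :=
        sum_le_sum fun v _ => sum_le_sum fun z _ => S_le F hF v z x
    _ = ∑ A ∈ F.filter (fun A => x ∈ A), ∑ v, ∑ z,
        (if v ∈ A.erase x ∧ z ∈ (A.erase x).erase v then 2 else 0) := by
        rw [Finset.sum_comm' (s := univ) (t := fun _ => univ) (t' := univ) (s' := fun _ => univ)
          (by simp)]
        rw [Finset.sum_congr rfl (fun z _ => Finset.sum_comm)]
        rw [Finset.sum_comm]
        refine Finset.sum_congr rfl fun A _ => Finset.sum_comm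
    _ = ∑ A ∈ F.filter (fun A => x ∈ A), 24 := by
        refine Finset.sum_congr rfl fun A hA => ?_
        rw [mem_filter] at hA
        have h5 := hF A hA.1
        have h1 : ∀ v, (∑ z, (if v ∈ A.erase x ∧ z ∈ (A.erase x).erase v then 2 else 0)) =
            if v ∈ A.erase x then 6 else 0 := by
          intro v
          by_cases hv : v ∈ A.erase x
          · rw [if_pos hv]
            simp only [hv, true_and]
            rw [← Finset.sum_filter, Finset.filter_mem_eq_inter, Finset.univ_inter, sum_const,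
              card_erase_of_mem hv, card_erase_of_mem hA.2, h5]
            rfl
          · rw [if_neg hv]
            simp [hv]
        rw [Finset.sum_congr rfl fun v _ => h1 v, ← Finset.sum_filter,
          Finset.filter_mem_eq_inter, Finset.univ_inter, sum_const, card_erase_of_mem hA.2, h5]
        rfl
    _ = 24 * deg F x := by rw [sum_const, deg, smul_eq_mul, mul_comm]

lemma sum_cod_le (F : Finset (Finset (Fin n))) (hF : Unif F) (X Z : Finset (Fin n))
    (h : Disjoint X Z) : ∑ v ∈ X, ∑ z ∈ Z, cod F v z ≤ 20 * F.card := by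
  calc ∑ v ∈ X, ∑ z ∈ Z, cod F v z
      = ∑ v ∈ X, ∑ z ∈ Z, ∑ A ∈ F, (if v ∈ A ∧ z ∈ A then 1 else 0) := by
        refine sum_congr rfl fun v _ => sum_congr rfl fun z _ => ?_
        rw [cod, card_filter]
    _ = ∑ A ∈ F, ∑ v ∈ X, ∑ z ∈ Z, (if v ∈ A ∧ z ∈ A then 1 else 0) := by
        rw [Finset.sum_congr rfl (fun z _ => Finset.sum_comm)]
        rw [Finset.sum_comm]
    _ ≤ ∑ A ∈ F, 20 := by
        refine sum_le_sum fun A hA => ?_
        have h5 := hF A hA
        calc ∑ v ∈ X, ∑ z ∈ Z, (if v ∈ A ∧ z ∈ A then 1 else 0)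
            = ∑ v ∈ X, (if v ∈ A then (Z ∩ A).card else 0) := by
              refine sum_congr rfl fun v _ => ?_
              by_cases hv : v ∈ A
              · rw [if_pos hv]
                simp only [hv, true_and]
                rw [← card_filter, Finset.filter_mem_eq_inter]
              · rw [if_neg hv]; simp [hv]
          _ = (X ∩ A).card * (Z ∩ A).card := by
              rw [← sum_filter, Finset.filter_mem_eq_inter, sum_const, smul_eq_mul]
          _ ≤ 20 := by
              have h6 : (X ∩ A).card + (Z ∩ A).card ≤ 5 := by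
                rw [← h5, ← card_union_of_disjoint]
                · exact card_le_card (union_subset inter_subset_right inter_subset_right)
                · exact disjoint_of_subset_left inter_subset_left
                    (disjoint_of_subset_right inter_subset_left h)
              nlinarith [Nat.zero_le (X ∩ A).card, Nat.zero_le (Z ∩ A).card]
    _ = 20 * F.card := by rw [sum_const, smul_eq_mul, mul_comm]

end CNT3x

open CNT3x

theorem t_CNT3 : S_CNT3 := by
  classical
  intro n F X Y Z hF hXZ hXY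
  have key : ∀ (inst : DecidablePred (fun a : ↥X → ↥Z => ∃ x ∈ Y, (n : ℝ) / 2000 <
      ∑ v : ↥X, ((S F v (a v) x).card : ℝ))),
      ((univ.filter (fun a : ↥X → ↥Z => ∃ x ∈ Y, (n : ℝ) / 2000 <
      ∑ v : ↥X, ((S F v (a v) x).card : ℝ))).card : ℝ) * (n * Z.card) ≤
      ∑ x ∈ Y, 48000 * (deg F x : ℝ) * (Z.card : ℝ) ^ X.card := by
    intro inst
    refine union_bound Y
      (fun (x : Fin n) (a : ↥X → ↥Z) => (n : ℝ) / 2000 < ∑ v : ↥X, ((S F v (a v) x).card : ℝ))
      (fun a : ↥X → ↥Z => ∃ x ∈ Y, (n : ℝ) / 2000 < ∑ v : ↥X, ((S F v (a v) x).card : ℝ)) inst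
      (fun a ha => ha) ((n : ℝ) * Z.card) (by positivity)
      (fun x => 48000 * (deg F x : ℝ) * (Z.card : ℝ) ^ X.card) ?_
    intro x hx inst2
    have h1 := @markov (↥X → ↥Z) _ (fun a : ↥X → ↥Z => ∑ v : ↥X, ((S F v (a v) x).card : ℝ))
      (fun a => Finset.sum_nonneg fun v _ => Nat.cast_nonneg _) ((n : ℝ) / 2000)
      (fun a => (n : ℝ) / 2000 < ∑ v : ↥X, ((S F v (a v) x).card : ℝ)) inst2 (fun a ha => ha.le)
    have h2 : (∑ a : ↥X → ↥Z, ∑ v : ↥X, ((S F v (a v) x).card : ℝ)) * Z.card =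
        (Z.card : ℝ) ^ X.card * ∑ v : ↥X, ∑ z : ↥Z, ((S F v z x).card : ℝ) := by
      rw [Finset.sum_comm, Finset.sum_mul, Finset.mul_sum]
      refine Finset.sum_congr rfl fun v _ => ?_
      have := sum_eval (I := ↥X) (W := ↥Z) v (fun z => ((S F v z x).card : ℝ))
      simpa using this
    have h3 : ∑ v : ↥X, ∑ z : ↥Z, ((S F v z x).card : ℝ) ≤ 24 * deg F x := by
      have h4 : ∑ v : ↥X, ∑ z : ↥Z, ((S F v z x).card : ℝ) =
          ((∑ v ∈ X, ∑ z ∈ Z, (S F v z x).card : ℕ) : ℝ) := by
        push_cast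
        rw [← Finset.sum_coe_sort X]
        refine Finset.sum_congr rfl fun v _ => ?_
        rw [← Finset.sum_coe_sort Z]
      rw [h4]
      have h5 : ∑ v ∈ X, ∑ z ∈ Z, (S F v z x).card ≤ ∑ v, ∑ z, (S F v z x).card :=
        (sum_le_sum fun v _ => sum_le_sum_of_subset (subset_univ _)).trans
          (sum_le_sum_of_subset (subset_univ _))
      exact_mod_cast h5.trans (sum_S_le F hF x)
    have hZ : (0 : ℝ) ≤ (Z.card : ℝ) ^ X.card := by positivity
    have h6 := mul_le_mul_of_nonneg_right h1 (Nat.cast_nonneg (α := ℝ) Z.card)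
    rw [h2] at h6
    have h7 := mul_le_mul_of_nonneg_left h3 hZ
    have h8 := h6.trans h7
    calc _ = 2000 * (((univ.filter (fun a : ↥X → ↥Z => (n : ℝ) / 2000 <
          ∑ v : ↥X, ((S F v (a v) x).card : ℝ))).card : ℝ) * ((n : ℝ) / 2000) * Z.card) := by ring
      _ ≤ 2000 * ((Z.card : ℝ) ^ X.card * (24 * deg F x)) :=
          mul_le_mul_of_nonneg_left h8 (by norm_num)
      _ = _ := by ring
  refine (key _).trans (le_of_eq ?_)
  rw [← Finset.sum_mul, ← Finset.mul_sum]

theorem t_CNT4 : S_CNT4 := by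
  classical
  intro n F X Z hF hXZ
  have key : ∀ (inst : DecidablePred (fun a : ↥X → ↥Z => ∃ v : ↥X, 200 * (n : ℝ) <
      (cod F v (a v) : ℝ))),
      ((univ.filter (fun a : ↥X → ↥Z => ∃ v : ↥X, 200 * (n : ℝ) <
      (cod F v (a v) : ℝ))).card : ℝ) * (200 * n * Z.card) ≤
      ∑ v : ↥X, (Z.card : ℝ) ^ X.card * ∑ z : ↥Z, (cod F v z : ℝ) := by
    intro inst
    refine union_bound (univ : Finset ↥X)
      (fun (v : ↥X) (a : ↥X → ↥Z) => 200 * (n : ℝ) < (cod F v (a v) : ℝ))
      (fun a : ↥X → ↥Z => ∃ v : ↥X, 200 * (n : ℝ) < (cod F v (a v) : ℝ)) inst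
      (fun a ha => by obtain ⟨v, hv⟩ := ha; exact ⟨v, mem_univ _, hv⟩) (200 * n * Z.card)
      (by positivity) (fun v => (Z.card : ℝ) ^ X.card * ∑ z : ↥Z, (cod F v z : ℝ)) ?_
    intro v _ inst2
    have h1 := @markov (↥X → ↥Z) _ (fun a : ↥X → ↥Z => (cod F v (a v) : ℝ))
      (fun a => Nat.cast_nonneg _) (200 * (n : ℝ))
      (fun a => 200 * (n : ℝ) < (cod F v (a v) : ℝ)) inst2 (fun a ha => ha.le)
    have h2 := sum_eval (I := ↥X) (W := ↥Z) v (fun z => (cod F v z : ℝ))
    simp only [Fintype.card_coe] at h2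
    have h6 := mul_le_mul_of_nonneg_right h1 (Nat.cast_nonneg (α := ℝ) Z.card)
    rw [h2] at h6
    refine le_trans (le_of_eq ?_) h6
    ring
  refine (key _).trans ?_
  rw [← Finset.mul_sum]
  have h4 : ∑ v : ↥X, ∑ z : ↥Z, (cod F v z : ℝ) =
      ((∑ v ∈ X, ∑ z ∈ Z, cod F v z : ℕ) : ℝ) := by
    push_cast
    rw [← Finset.sum_coe_sort X]
    refine Finset.sum_congr rfl fun v _ => ?_
    rw [← Finset.sum_coe_sort Z]
  rw [h4]
  have h5 : ((∑ v ∈ X, ∑ z ∈ Z, cod F v z : ℕ) : ℝ) ≤ 20 * F.card := by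
    exact_mod_cast sum_cod_le F hF X Z hXZ
  have hZ : (0 : ℝ) ≤ (Z.card : ℝ) ^ X.card := by positivity
  have h7 := mul_le_mul_of_nonneg_left h5 hZ
  linarith [h7]

theorem t_CNT5 : S_CNT5 := by
  classical
  intro I W _ _ _ _
  have key : ∀ (inst : DecidablePred (fun a : I → W => ∃ v w : I, v ≠ w ∧ a v = a w)),
      ((univ.filter (fun a : I → W => ∃ v w : I, v ≠ w ∧ a v = a w)).card : ℝ) *
      Fintype.card W ≤ ∑ p : I × I, (Fintype.card W : ℝ) ^ Fintype.card I := by
    intro inst
    refine union_bound (univ : Finset (I × I))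
      (fun (p : I × I) (a : I → W) => p.1 ≠ p.2 ∧ a p.1 = a p.2)
      (fun a : I → W => ∃ v w : I, v ≠ w ∧ a v = a w) inst
      (fun a ha => by obtain ⟨v, w, h1, h2⟩ := ha; exact ⟨(v, w), mem_univ _, h1, h2⟩)
      (Fintype.card W : ℝ) (by positivity) (fun _ => (Fintype.card W : ℝ) ^ Fintype.card I) ?_
    rintro ⟨v, w⟩ _ inst2
    by_cases hvw : v = w
    · simp [hvw]
    · have h1 : ((univ.filter (fun a : I → W => v ≠ w ∧ a v = a w)) ×ˢ
          (univ : Finset W)).card ≤ (univ : Finset (I → W)).card := by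
        refine card_le_card_of_injOn (fun p => Function.update p.1 v p.2)
          (fun _ _ => mem_univ _) ?_
        rintro ⟨a, z⟩ ha ⟨b, y⟩ hb h
        simp only [coe_product, Set.mem_prod, mem_coe, mem_filter, mem_univ, true_and,
          and_true] at ha hb
        simp only at h
        have hz : z = y := by
          have := congrFun h v
          simpa using this
        have hab : a = b := by
          funext i
          by_cases hi : i = v
          · subst hi
            have := congrFun h w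
            rw [Function.update_of_ne (Ne.symm hvw), Function.update_of_ne (Ne.symm hvw)] at this
            rw [ha.2, hb.2, this]
          · have := congrFun h i
            rwa [Function.update_of_ne hi, Function.update_of_ne hi] at this
        rw [hz, hab]
      rw [card_product, Finset.card_univ, Finset.card_univ, Fintype.card_fun] at h1
      exact_mod_cast h1
  refine (key _).trans (le_of_eq ?_)
  rw [Finset.sum_const, Finset.card_univ, Fintype.card_prod, nsmul_eq_mul]
  push_cast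
  ring

end Pool.Agent.R178.HY
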