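import Mathlib
import Pool.Agent.R178.HY.Defs

set_option autoImplicit false

open Finset

namespace Pool.Agent.R178.HY

namespace DBLx

variable {n : ℕ}

theorem e_count (F : Finset (Finset (Fin n))) (hU : Unif F) (v x : Fin n) (hvx : v ≠ x) :
    ∑ a, (S F v a x).card ≤ 6 * cod F v x := by
  have h1 : ∑ a, (S F v a x).card = (univ.filter (fun q : Fin n × Fin n =>
      ({v, q.1, x, q.2} : Finset (Fin n)).card = 4 ∧ Cov F {v, q.1, x, q.2})).card := by
    simp only [S, card_filter]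
    rw [← univ_product_univ, sum_product]
  rw [h1]
  have h2 : (univ.filter (fun q : Fin n × Fin n =>
      ({v, q.1, x, q.2} : Finset (Fin n)).card = 4 ∧ Cov F {v, q.1, x, q.2})) ⊆
      (F.filter (fun A => v ∈ A ∧ x ∈ A)).biUnion (fun M => (M \ {v, x}).offDiag) := by
    rintro ⟨a, y⟩ hq
    obtain ⟨_, hc, A, hA, hsub⟩ := mem_filter.1 hq
    change ({v, a, x, y} : Finset (Fin n)).card = 4 at hc
    change {v, a, x, y} ⊆ A at hsub
    have hv : v ∈ A := hsub (by simp)
    have ha : a ∈ A := hsub (by simp)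
    have hx : x ∈ A := hsub (by simp)
    have hy : y ∈ A := hsub (by simp)
    have hle : ∀ (p q r : Fin n), ({p, q, r} : Finset (Fin n)).card ≤ 3 := fun p q r =>
      card_le_three
    have hne : ∀ p q r : Fin n, ({v, a, x, y} : Finset (Fin n)) ⊆ {p, q, r} → False := by
      intro p q r h
      have := card_le_card h
      have := hle p q r
      omega
    have n1 : a ≠ v := by
      rintro rfl
      exact hne a x y (by intro z hz; simp at hz ⊢; tauto)
    have n2 : a ≠ x := by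
      rintro rfl
      exact hne v a y (by intro z hz; simp at hz ⊢; tauto)
    have n3 : y ≠ v := by
      rintro rfl
      exact hne y a x (by intro z hz; simp at hz ⊢; tauto)
    have n4 : y ≠ x := by
      rintro rfl
      exact hne v a y (by intro z hz; simp at hz ⊢; tauto)
    have n5 : a ≠ y := by
      rintro rfl
      exact hne v a x (by intro z hz; simp at hz ⊢; tauto)
    rw [mem_biUnion]
    refine ⟨A, mem_filter.2 ⟨hA, hv, hx⟩, ?_⟩
    rw [mem_offDiag]
    refine ⟨?_, ?_, n5⟩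
    · rw [mem_sdiff]
      exact ⟨ha, by simp [n1, n2]⟩
    · rw [mem_sdiff]
      exact ⟨hy, by simp [n3, n4]⟩
  refine (card_le_card h2).trans (card_biUnion_le.trans ?_)
  have h3 : ∀ M ∈ F.filter (fun A => v ∈ A ∧ x ∈ A), ((M \ {v, x}).offDiag).card = 6 := by
    intro M hM
    obtain ⟨hMF, hv, hx⟩ := mem_filter.1 hM
    have h4 : ({v, x} : Finset (Fin n)) ⊆ M := by
      intro z hz
      simp only [mem_insert, mem_singleton] at hz
      rcases hz with rfl | rfl
      · exact hv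
      · exact hx
    have h5 : (M \ {v, x}).card = 3 := by
      rw [card_sdiff_of_subset h4, hU M hMF, card_pair hvx]
    rw [offDiag_card, h5]
  rw [sum_congr rfl h3, sum_const, smul_eq_mul, mul_comm]
  rfl

theorem cod_le_deg (F : Finset (Finset (Fin n))) (v x : Fin n) : cod F v x ≤ deg F x := by
  refine card_le_card fun A hA => ?_
  obtain ⟨h1, _, h3⟩ := mem_filter.1 hA
  exact mem_filter.2 ⟨h1, h3⟩

theorem cod_sum (F : Finset (Finset (Fin n))) (hU : Unif F) (w : Fin n) (Z : Finset (Fin n))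
    (hw : w ∉ Z) : ∑ x ∈ Z, cod F w x ≤ 4 * deg F w := by
  have h1 : ∑ x ∈ Z, cod F w x = ∑ A ∈ F.filter (fun A => w ∈ A), (A ∩ Z).card := by
    simp only [cod, card_filter]
    rw [sum_comm, sum_filter]
    refine sum_congr rfl fun A _ => ?_
    by_cases h : w ∈ A
    · rw [if_pos h, inter_comm, ← filter_mem_eq_inter, card_filter]
      refine sum_congr rfl fun x _ => ?_
      simp [h]
    · rw [if_neg h]
      refine sum_eq_zero fun x _ => ?_
      simp [h]
  rw [h1]
  have h2 : ∀ A ∈ F.filter (fun A => w ∈ A), (A ∩ Z).card ≤ 4 := by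
    intro A hA
    obtain ⟨hAF, hwA⟩ := mem_filter.1 hA
    have h3 : A ∩ Z ⊆ A.erase w := by
      intro z hz
      obtain ⟨hz1, hz2⟩ := mem_inter.1 hz
      exact mem_erase.2 ⟨fun h => hw (h ▸ hz2), hz1⟩
    refine (card_le_card h3).trans ?_
    rw [card_erase_of_mem hwA, hU A hAF]
  refine (sum_le_sum h2).trans ?_
  rw [sum_const, smul_eq_mul, mul_comm]
  rfl

theorem piCount {I W : Type} [Fintype I] [DecidableEq I] [Fintype W] [DecidableEq W] (c c' : I)
    (h : c ≠ c') (A B : Finset W) :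
    (univ.filter (fun f : I → W => f c ∈ A ∧ f c' ∈ B)).card
      = A.card * B.card * Fintype.card W ^ (Fintype.card I - 2) := by
  have h1 : (univ.filter (fun f : I → W => f c ∈ A ∧ f c' ∈ B))
      = Fintype.piFinset (fun i => if i = c then A else if i = c' then B else univ) := by
    ext f
    rw [mem_filter, Fintype.mem_piFinset]
    constructor
    · rintro ⟨_, h1, h2⟩ i
      split_ifs with h3 h4
      · rw [h3]; exact h1
      · rw [h4]; exact h2
      · exact mem_univ _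
    · intro hf
      refine ⟨mem_univ _, ?_, ?_⟩
      · have := hf c
        rwa [if_pos rfl] at this
      · have := hf c'
        rwa [if_neg h.symm, if_pos rfl] at this
  rw [h1, Fintype.card_piFinset, ← mul_prod_erase univ _ (mem_univ c),
    ← mul_prod_erase (univ.erase c) _ (mem_erase.2 ⟨h.symm, mem_univ c'⟩), if_pos rfl,
    if_neg h.symm, if_pos rfl]
  have h2 : ∀ i ∈ (univ.erase c).erase c',
      (if i = c then A else if i = c' then B else univ).card = Fintype.card W := by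
    intro i hi
    obtain ⟨h3, h4⟩ := mem_erase.1 hi
    obtain ⟨h5, _⟩ := mem_erase.1 h4
    rw [if_neg h5, if_neg h3, card_univ]
  rw [prod_congr rfl h2, prod_const, card_erase_of_mem (mem_erase.2 ⟨h.symm, mem_univ c'⟩),
    card_erase_of_mem (mem_univ c), card_univ, ← mul_assoc]
  rfl

end DBLx

open DBLx in
theorem t_DBL : S_DBL := by
  classical
  intro n F X Z T' η hU hF hXZ hT' hη hn hdeg hZ
  have hnpos : (0 : ℝ) < n := by exact_mod_cast hn
  have hηn : 0 < η * n := mul_pos hη hnpos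
  -- the coordinates
  let Φ : (↥X → ↥Z) × (↥X → ↥Z) → (↥X × Bool → ↥Z) := fun p q => if q.2 then p.1 q.1 else p.2 q.1
  have hΦ : Function.Injective Φ := by
    intro p p' h
    refine Prod.ext ?_ ?_
    · ext1 v
      have := congrFun h (v, true)
      simpa [Φ] using this
    · ext1 v
      have := congrFun h (v, false)
      simpa [Φ] using this
  let Bd : ↥X → Fin n → Finset ↥Z := fun v x =>
    univ.filter (fun a => η * n ≤ ((S F v a x).card : ℝ))
  have hB : ∀ (v : ↥X) (x : Fin n), x ∈ Z → ((Bd v x).card : ℝ) * (η * n) ≤ 6 * cod F v x := by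
    intro v x hx
    have hvx : (v : Fin n) ≠ x := fun h => (disjoint_left.1 hXZ v.2) (h ▸ hx)
    have h1 : ((Bd v x).card : ℝ) * (η * n) ≤ ∑ a ∈ Bd v x, ((S F v a x).card : ℝ) := by
      rw [← nsmul_eq_mul, ← sum_const]
      exact sum_le_sum fun a ha => (mem_filter.1 ha).2
    have h2 : ∑ a ∈ Bd v x, ((S F v a x).card : ℝ) ≤ ∑ a : ↥Z, ((S F v a x).card : ℝ) :=
      sum_le_sum_of_subset_of_nonneg (subset_univ _) fun _ _ _ => Nat.cast_nonneg _
    have h3 : ∑ a : ↥Z, ((S F v a x).card : ℝ) = ∑ a ∈ Z, ((S F v a x).card : ℝ) :=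
      sum_coe_sort Z (fun a => ((S F v a x).card : ℝ))
    have h4 : ∑ a ∈ Z, ((S F v a x).card : ℝ) ≤ ∑ a, ((S F v a x).card : ℝ) :=
      sum_le_sum_of_subset_of_nonneg (subset_univ _) fun _ _ _ => Nat.cast_nonneg _
    have h5 : ∑ a, ((S F v a x).card : ℝ) ≤ 6 * cod F v x := by
      exact_mod_cast e_count F hU v x hvx
    linarith
  let Bad : ↥X × Bool → ↥X × Bool → Fin n → Finset ((↥X → ↥Z) × (↥X → ↥Z)) := fun c c' x =>
    univ.filter (fun p => Φ p c ∈ Bd c.1 x ∧ Φ p c' ∈ Bd c'.1 x)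
  have hBad : ∀ c c' x, c ≠ c' → (Bad c c' x).card ≤
      (Bd c.1 x).card * (Bd c'.1 x).card * Z.card ^ (2 * X.card - 2) := by
    intro c c' x hcc
    have h1 := piCount c c' hcc (Bd c.1 x) (Bd c'.1 x)
    have h2 : Fintype.card (↥X × Bool) - 2 = 2 * X.card - 2 := by
      rw [Fintype.card_prod, Fintype.card_coe, Fintype.card_bool, mul_comm]
    rw [h2, Fintype.card_coe] at h1
    rw [← h1]
    refine card_le_card_of_injOn Φ ?_ (hΦ.injOn)
    intro p hp
    have := mem_filter.1 (mem_coe.1 hp)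
    exact mem_coe.2 (mem_filter.2 ⟨mem_univ _, this.2⟩)
  have hsub : (univ.filter (fun p : (↥X → ↥Z) × (↥X → ↥Z) => ∃ x ∈ Z, ∃ v w : ↥X, ∃ σ τ : Bool,
      (v, σ) ≠ (w, τ) ∧ η * n ≤ ((S F v (if σ then p.1 v else p.2 v) x).card : ℝ) ∧
      η * n ≤ ((S F w (if τ then p.1 w else p.2 w) x).card : ℝ))) ⊆
      ((univ : Finset (↥X × Bool)).offDiag ×ˢ Z).biUnion (fun q => Bad q.1.1 q.1.2 q.2) := by
    intro p hp
    obtain ⟨_, x, hx, v, w, σ, τ, hne, h1, h2⟩ := mem_filter.1 hp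
    rw [mem_biUnion]
    refine ⟨(((v, σ), (w, τ)), x), ?_, ?_⟩
    · rw [mem_product, mem_offDiag]
      exact ⟨⟨mem_univ _, mem_univ _, hne⟩, hx⟩
    · refine mem_filter.2 ⟨mem_univ _, mem_filter.2 ⟨mem_univ _, ?_⟩,
        mem_filter.2 ⟨mem_univ _, ?_⟩⟩
      · have e1 : ((Φ p (v, σ) : ↥Z) : Fin n) = if σ then ↑(p.1 v) else ↑(p.2 v) := by
          cases σ <;> rfl
        change η * n ≤ ((S F v (Φ p (v, σ) : ↥Z) x).card : ℝ)
        rw [e1]
        exact h1
      · have e1 : ((Φ p (w, τ) : ↥Z) : Fin n) = if τ then ↑(p.1 w) else ↑(p.2 w) := by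
          cases τ <;> rfl
        change η * n ≤ ((S F w (Φ p (w, τ) : ↥Z) x).card : ℝ)
        rw [e1]
        exact h2
  have hc1 := (card_le_card hsub).trans card_biUnion_le
  rw [sum_product] at hc1
  have hpair : ∀ q ∈ (univ : Finset (↥X × Bool)).offDiag,
      (∑ x ∈ Z, ((Bad q.1 q.2 x).card : ℝ)) ≤
      (36 * T' / η ^ 2 * (Z.card : ℝ) ^ (2 * X.card)) := by
    rintro ⟨c, c'⟩ hq
    have hcc : c ≠ c' := (mem_offDiag.1 hq).2.2
    have hk : 1 ≤ X.card := card_pos.2 ⟨c.1, c.1.2⟩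
    have e1 : ∀ x ∈ Z, ((Bad c c' x).card : ℝ) ≤
        36 * T' / η ^ 2 * cod F c'.1 x * (Z.card : ℝ) ^ (2 * X.card - 2) := by
      intro x hx
      have h1 : ((Bad c c' x).card : ℝ) ≤
          (Bd c.1 x).card * (Bd c'.1 x).card * (Z.card : ℝ) ^ (2 * X.card - 2) := by
        exact_mod_cast hBad c c' x hcc
      refine h1.trans (mul_le_mul_of_nonneg_right ?_ (by positivity))
      have h2 := hB c.1 x hx
      have h3 := hB c'.1 x hx
      have h4 : (cod F c.1 x : ℝ) ≤ T' * (n : ℝ) ^ 2 :=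
        le_trans (by exact_mod_cast cod_le_deg F c.1 x) (hdeg x hx)
      have h5 : ((Bd c.1 x).card : ℝ) * (η * n) ≤ 6 * (T' * (n : ℝ) ^ 2) := by linarith
      have h6 : ((Bd c.1 x).card : ℝ) * (η * n) * (((Bd c'.1 x).card : ℝ) * (η * n)) ≤
          6 * (T' * (n : ℝ) ^ 2) * (6 * cod F c'.1 x) :=
        mul_le_mul h5 h3 (by positivity) (by positivity)
      have h7 : ((Bd c.1 x).card : ℝ) * (Bd c'.1 x).card * (η ^ 2 * (n : ℝ) ^ 2) ≤
          (36 * T' * cod F c'.1 x) * (n : ℝ) ^ 2 := by linarith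
      have h8 : ((Bd c.1 x).card : ℝ) * (Bd c'.1 x).card * η ^ 2 ≤ 36 * T' * cod F c'.1 x := by
        refine le_of_mul_le_mul_right ?_ (by positivity : (0 : ℝ) < (n : ℝ) ^ 2)
        linarith
      have h9 : 36 * T' / η ^ 2 * cod F c'.1 x = (36 * T' * cod F c'.1 x) / η ^ 2 := by ring
      rw [h9, le_div_iff₀ (by positivity)]
      exact h8
    refine (sum_le_sum e1).trans ?_
    rw [← sum_mul, ← mul_sum]
    have hc'Z : (c'.1 : Fin n) ∉ Z := disjoint_left.1 hXZ c'.1.2
    have e2 : (∑ x ∈ Z, (cod F c'.1 x : ℝ)) ≤ 4 * (n : ℝ) ^ 2 / 17 := by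
      have h1 : (∑ x ∈ Z, (cod F c'.1 x : ℝ)) ≤ 4 * (deg F c'.1 : ℝ) := by
        exact_mod_cast cod_sum F hU c'.1 Z hc'Z
      have h2 : (deg F c'.1 : ℝ) ≤ F.card := by
        exact_mod_cast card_le_card (filter_subset _ _)
      have h3 : 17 * (F.card : ℝ) ≤ (n : ℝ) ^ 2 := by exact_mod_cast hF
      linarith
    have e3 : (∑ x ∈ Z, (cod F c'.1 x : ℝ)) ≤ (Z.card : ℝ) ^ 2 := by
      have h4 : (n : ℝ) ≤ 2 * Z.card := by linarith
      have h5 : (n : ℝ) ^ 2 ≤ 4 * (Z.card : ℝ) ^ 2 := by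
        refine (pow_le_pow_left₀ hnpos.le h4 2).trans (le_of_eq ?_)
        ring
      have h6 : (0 : ℝ) ≤ (Z.card : ℝ) ^ 2 := by positivity
      linarith
    have e4 : (Z.card : ℝ) ^ (2 * X.card) = (Z.card : ℝ) ^ 2 * (Z.card : ℝ) ^ (2 * X.card - 2) := by
      rw [← pow_add]
      congr 1
      omega
    rw [e4, ← mul_assoc]
    refine mul_le_mul_of_nonneg_right (mul_le_mul_of_nonneg_left e3 (by positivity)) (by positivity)
  have hfin : ((univ.filter (fun p : (↥X → ↥Z) × (↥X → ↥Z) => ∃ x ∈ Z, ∃ v w : ↥X,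
      ∃ σ τ : Bool, (v, σ) ≠ (w, τ) ∧ η * n ≤ ((S F v (if σ then p.1 v else p.2 v) x).card : ℝ) ∧
      η * n ≤ ((S F w (if τ then p.1 w else p.2 w) x).card : ℝ))).card : ℝ) ≤
      ∑ q ∈ (univ : Finset (↥X × Bool)).offDiag, ∑ x ∈ Z, ((Bad q.1 q.2 x).card : ℝ) := by
    exact_mod_cast hc1
  refine le_trans (le_of_eq ?_) (hfin.trans ((sum_le_sum hpair).trans ?_))
  · congr 2
  · rw [sum_const, nsmul_eq_mul]
    have h1 : (((univ : Finset (↥X × Bool)).offDiag.card : ℕ) : ℝ) ≤ 4 * (X.card : ℝ) ^ 2 := by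
      have h2 : (univ : Finset (↥X × Bool)).offDiag.card ≤ 4 * X.card ^ 2 := by
        rw [offDiag_card, card_univ, Fintype.card_prod, Fintype.card_coe, Fintype.card_bool]
        refine (Nat.sub_le _ _).trans (le_of_eq ?_)
        ring
      exact_mod_cast h2
    calc (((univ : Finset (↥X × Bool)).offDiag.card : ℕ) : ℝ) *
          (36 * T' / η ^ 2 * (Z.card : ℝ) ^ (2 * X.card))
        ≤ (4 * (X.card : ℝ) ^ 2) * (36 * T' / η ^ 2 * (Z.card : ℝ) ^ (2 * X.card)) :=
          mul_le_mul_of_nonneg_right h1 (by positivity)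
      _ = _ := by ring

end Pool.Agent.R178.HY
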