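import Mathlib
import Pool.Agent.R178.HY.Defs

/-!
Project HY (MP_e42343_co), piece DENS (by helper734): the density of good single choices.
-/

set_option autoImplicit false

open Finset

namespace Pool.Agent.R178.HY

namespace DENSx

lemma sum_deg {n : ℕ} (F : Finset (Finset (Fin n))) (hF : Unif F) :
    ∑ v, (deg F v : ℝ) = 5 * (F.card : ℝ) := by
  have h : ∑ v, deg F v = 5 * F.card := by
    unfold deg
    simp only [card_filter]
    rw [Finset.sum_comm]
    have : ∀ A ∈ F, (∑ v : Fin n, if v ∈ A then 1 else 0) = 5 := by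
      intro A hA
      rw [← hF A hA]
      simp
    rw [Finset.sum_congr rfl this]
    simp [mul_comm]
  exact_mod_cast h

lemma card_Hv {n : ℕ} (F : Finset (Finset (Fin n))) (hF : Unif F) (h17 : 17 * F.card ≤ n ^ 2)
    (t : ℝ) (ht : 0 < t) (hn : 1 ≤ n) : ((Hv F t).card : ℝ) ≤ 5 / (17 * t) := by
  have hn' : (1 : ℝ) ≤ n := by exact_mod_cast hn
  have h1 : (Hv F t).card • (t * (n : ℝ) ^ 2) ≤ ∑ v ∈ Hv F t, (deg F v : ℝ) := by
    apply Finset.card_nsmul_le_sum
    intro v hv
    unfold Hv at hv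
    simpa using hv
  have h2 : ∑ v ∈ Hv F t, (deg F v : ℝ) ≤ ∑ v, (deg F v : ℝ) :=
    Finset.sum_le_univ_sum_of_nonneg (fun v => by positivity)
  rw [sum_deg F hF] at h2
  have h3 : (17 : ℝ) * F.card ≤ (n : ℝ) ^ 2 := by exact_mod_cast h17
  rw [nsmul_eq_mul] at h1
  rw [le_div_iff₀ (by positivity)]
  have h4 : ((Hv F t).card : ℝ) * (17 * t) * (n : ℝ) ^ 2 ≤ 5 * (n : ℝ) ^ 2 := by nlinarith
  exact le_of_mul_le_mul_right h4 (by positivity)

lemma core {A : Type*} [Fintype A] (G B1 B2 B3 B4 : A → Prop) {dG : DecidablePred G}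
    {d1 : DecidablePred B1} {d2 : DecidablePred B2} {d3 : DecidablePred B3}
    {d4 : DecidablePred B4} (N c1 c2 c3 c4 : ℝ) (hN0 : 0 ≤ N) (hN : (Fintype.card A : ℝ) = N)
    (h1 : ((univ.filter B1).card : ℝ) ≤ c1 * N) (h2 : ((univ.filter B2).card : ℝ) ≤ c2 * N)
    (h3 : ((univ.filter B3).card : ℝ) ≤ c3 * N) (h4 : ((univ.filter B4).card : ℝ) ≤ c4 * N)
    (h : ∀ a, ¬ G a → B1 a ∨ B2 a ∨ B3 a ∨ B4 a) (hc : c1 + c2 + c3 + c4 ≤ 4 / 5) :
    1 / 5 * N ≤ ((univ.filter G).card : ℝ) := by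
  classical
  have hsub : (univ : Finset A) ⊆ univ.filter G ∪ (univ.filter B1 ∪ (univ.filter B2 ∪
      (univ.filter B3 ∪ univ.filter B4))) := by
    intro a _
    simp only [mem_union, mem_filter, mem_univ, true_and]
    by_cases hG : G a
    · exact Or.inl hG
    · exact Or.inr (h a hG)
  have hcard : Fintype.card A ≤ (univ.filter G).card + ((univ.filter B1).card +
      ((univ.filter B2).card + ((univ.filter B3).card + (univ.filter B4).card))) := by
    calc Fintype.card A = (univ : Finset A).card := rfl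
      _ ≤ _ := card_le_card hsub
      _ ≤ _ := card_union_le _ _
      _ ≤ _ := by
        refine Nat.add_le_add_left ((card_union_le _ _).trans ?_) _
        refine Nat.add_le_add_left ((card_union_le _ _).trans ?_) _
        exact Nat.add_le_add_left (card_union_le _ _) _
  have hcard' : (Fintype.card A : ℝ) ≤ (univ.filter G).card + ((univ.filter B1).card +
      ((univ.filter B2).card + ((univ.filter B3).card + (univ.filter B4).card))) := by
    exact_mod_cast hcard
  rw [hN] at hcard'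
  have : (c1 + c2 + c3 + c4) * N ≤ 4 / 5 * N := mul_le_mul_of_nonneg_right hc hN0
  linarith

end DENSx

open DENSx in
theorem t_DENS (h1 : S_CNT12) (h2 : S_CNT3) (h3 : S_CNT4) (h4 : S_CNT5) : S_DENS := by
  intro T' T hT' hTT hT
  have hT0 : 0 < T := lt_of_lt_of_le hT' hTT
  obtain ⟨N1, hN1⟩ := exists_nat_ge (1000 * (5 / (17 * T')))
  obtain ⟨N2, hN2⟩ := exists_nat_ge (2000 * (5 / (17 * T)) ^ 2)
  refine ⟨N1 + N2 + 1, ?_⟩
  intro n hn F hF h17 hmid
  have hn1 : 1 ≤ n := by omega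
  have hn0 : (1 : ℝ) ≤ n := by exact_mod_cast hn1
  have hnN1 : 1000 * (5 / (17 * T')) ≤ (n : ℝ) := hN1.trans (by exact_mod_cast (by omega))
  have hnN2 : 2000 * (5 / (17 * T)) ^ 2 ≤ (n : ℝ) := hN2.trans (by exact_mod_cast (by omega))
  have h17' : (17 : ℝ) * F.card ≤ (n : ℝ) ^ 2 := by exact_mod_cast h17
  have hX : ((Hv F T).card : ℝ) ≤ 5 / (17 * T) := card_Hv F hF h17 T hT0 hn1
  have hX' : ((Hv F T').card : ℝ) ≤ 5 / (17 * T') := card_Hv F hF h17 T' hT' hn1
  -- the complement of `Lo F T'` is `Hv F T'`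
  have hcompl : Hv F T' = univ \ Lo F T' := by
    ext v
    simp [Hv, Lo]
  have hLo : ((Lo F T').card : ℝ) = n - (Hv F T').card := by
    have : (Hv F T').card = n - (Lo F T').card := by
      rw [hcompl, card_sdiff_of_subset (subset_univ _)]; simp
    have hle : (Lo F T').card ≤ n := by
      simpa using card_le_univ (Lo F T')
    rw [this, Nat.cast_sub hle]; ring
  have hZ : 0.999 * (n : ℝ) ≤ (Lo F T').card := by
    rw [hLo]; linarith
  have hZ0 : (0 : ℝ) < (Lo F T').card := by linarith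
  have hdXZ : Disjoint (Hv F T) (Lo F T') := by
    rw [Finset.disjoint_left]
    intro v hv hv'
    simp only [Hv, Lo, mem_filter, mem_univ, true_and] at hv hv'
    have : T' * (n : ℝ) ^ 2 ≤ T * (n : ℝ) ^ 2 := mul_le_mul_of_nonneg_right hTT (by positivity)
    linarith
  have hdXY : Disjoint (Hv F T) (Hv F T' \ Hv F T) := disjoint_sdiff
  have hP0 : (0 : ℝ) ≤ ((Lo F T').card : ℝ) ^ (Hv F T).card := by positivity
  have g1 := h1 n F (Hv F T) (Lo F T') (0.98 * n) hF hdXZ (by positivity) (by linarith)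
  have g2 := h2 n F (Hv F T) (Hv F T' \ Hv F T) (Lo F T') hF hdXZ hdXY
  have g3 := h3 n F (Hv F T) (Lo F T') hF hdXZ
  have g4 := h4 ↥(Hv F T) ↥(Lo F T')
  simp only [Fintype.card_coe] at g4
  set z : ℝ := ((Lo F T').card : ℝ) with hz
  set P : ℝ := z ^ (Hv F T).card with hP
  have hnn : (0 : ℝ) < n := by linarith
  have hnz : 0.999 * (n : ℝ) ^ 2 ≤ n * z := by
    have := mul_le_mul_of_nonneg_left hZ hnn.le
    calc 0.999 * (n : ℝ) ^ 2 = n * (0.999 * n) := by ring
      _ ≤ n * z := this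
  have hsq : 0 ≤ (n : ℝ) ^ 2 := by positivity
  have e1 : ∀ y : ℝ, y * (0.98 * n * z) ≤ 12 * F.card * P → y ≤ 0.73 * P := by
    intro y hy
    have a1 : 12 * (F.card : ℝ) * P ≤ 12 / 17 * (n : ℝ) ^ 2 * P := by
      apply mul_le_mul_of_nonneg_right _ hP0
      linarith
    have a2 : 12 / 17 * (n : ℝ) ^ 2 ≤ 0.73 * (0.98 * n * z) := by linarith
    have a3 : y * (0.98 * n * z) ≤ (0.73 * P) * (0.98 * n * z) := by
      calc y * (0.98 * n * z) ≤ 12 / 17 * (n : ℝ) ^ 2 * P := hy.trans a1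
        _ ≤ 0.73 * (0.98 * n * z) * P := mul_le_mul_of_nonneg_right a2 hP0
        _ = _ := by ring
    exact le_of_mul_le_mul_right a3 (by positivity)
  have e2 : ∀ y : ℝ, y * (n * z) ≤ 48000 * (∑ x ∈ Hv F T' \ Hv F T, (deg F x : ℝ)) * P →
      y ≤ 0.005 * P := by
    intro y hy
    have a1 : 48000 * (∑ x ∈ Hv F T' \ Hv F T, (deg F x : ℝ)) * P ≤
        0.0048 * (n : ℝ) ^ 2 * P := by
      apply mul_le_mul_of_nonneg_right _ hP0
      linarith
    have a2 : 0.0048 * (n : ℝ) ^ 2 ≤ 0.005 * (n * z) := by linarith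
    have a3 : y * (n * z) ≤ (0.005 * P) * (n * z) := by
      calc y * (n * z) ≤ 0.0048 * (n : ℝ) ^ 2 * P := hy.trans a1
        _ ≤ 0.005 * (n * z) * P := mul_le_mul_of_nonneg_right a2 hP0
        _ = _ := by ring
    exact le_of_mul_le_mul_right a3 (by positivity)
  have e3 : ∀ y : ℝ, y * (200 * n * z) ≤ 20 * F.card * P → y ≤ 0.006 * P := by
    intro y hy
    have a1 : 20 * (F.card : ℝ) * P ≤ 20 / 17 * (n : ℝ) ^ 2 * P := by
      apply mul_le_mul_of_nonneg_right _ hP0
      linarith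
    have a2 : 20 / 17 * (n : ℝ) ^ 2 ≤ 0.006 * (200 * n * z) := by linarith
    have a3 : y * (200 * n * z) ≤ (0.006 * P) * (200 * n * z) := by
      calc y * (200 * n * z) ≤ 20 / 17 * (n : ℝ) ^ 2 * P := hy.trans a1
        _ ≤ 0.006 * (200 * n * z) * P := mul_le_mul_of_nonneg_right a2 hP0
        _ = _ := by ring
    exact le_of_mul_le_mul_right a3 (by positivity)
  have e4 : ∀ y : ℝ, y * z ≤ ((Hv F T).card : ℝ) ^ 2 * P → y ≤ 0.001 * P := by
    intro y hy
    have a0 : ((Hv F T).card : ℝ) ^ 2 ≤ (5 / (17 * T)) ^ 2 :=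
      pow_le_pow_left₀ (by positivity) hX 2
    have a2 : ((Hv F T).card : ℝ) ^ 2 ≤ 0.001 * z := by linarith
    have a3 : y * z ≤ (0.001 * P) * z := by
      calc y * z ≤ ((Hv F T).card : ℝ) ^ 2 * P := hy
        _ ≤ 0.001 * z * P := mul_le_mul_of_nonneg_right a2 hP0
        _ = _ := by ring
    exact le_of_mul_le_mul_right a3 hZ0
  refine core _ _ _ _ _ P 0.73 0.005 0.006 0.001 hP0 ?_ (e1 _ g1) (e2 _ g2) (e3 _ g3) (e4 _ g4)
    ?_ (by norm_num)
  · rw [Fintype.card_fun, Fintype.card_coe, Fintype.card_coe, hP, hz]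
    push_cast
    rfl
  · intro a hG
    by_contra hcon
    push Not at hcon
    obtain ⟨b1, b2, b3, b4⟩ := hcon
    apply hG
    refine ⟨b4, ?_, ?_, ?_, ?_⟩
    · intro v w hvw hcov
      exact b1.1 v w hvw (b4 v w hvw) hcov
    · intro v x hx
      by_contra hlt
      push Not at hlt
      have b := b1.2 v x hx
      have hle : ((S F v (a v) x).card : ℝ) ≤ ((S F v (a v) x ∩ Lo F T').card : ℝ) +
          ((Hv F T').card : ℝ) := by
        have : (S F v (a v) x).card ≤ (S F v (a v) x ∩ Lo F T').card + (Hv F T').card := by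
          rw [hcompl]
          calc (S F v (a v) x).card ≤ (S F v (a v) x ∩ Lo F T').card +
              (S F v (a v) x \ Lo F T').card := by
                rw [card_inter_add_card_sdiff]
            _ ≤ _ := Nat.add_le_add_left (card_le_card (sdiff_subset_sdiff (subset_univ _)
                (subset_refl _))) _
        exact_mod_cast this
      linarith
    · intro x hx
      exact b2 x hx
    · intro v
      exact b3 v

end Pool.Agent.R178.HY
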