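import Mathlib
import Pool.Agent.R178.HY.Defs

/-! HY-EXT1 (MP_e42343_co): inner neighbours. helper710. -/

set_option autoImplicit false

open Finset

namespace Pool.Agent.R178.HY

namespace EXT1x

variable {n : ℕ}

theorem mem_Hv (F : Finset (Finset (Fin n))) (T : ℝ) (v : Fin n) :
    v ∈ Hv F T ↔ T * (n : ℝ) ^ 2 ≤ (deg F v : ℝ) := by
  simp [Hv]

theorem mem_Lo (F : Finset (Finset (Fin n))) (T : ℝ) (v : Fin n) :
    v ∈ Lo F T ↔ (deg F v : ℝ) < T * (n : ℝ) ^ 2 := by
  simp [Lo]

theorem mem_S (F : Finset (Finset (Fin n))) (u w x y : Fin n) :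
    y ∈ S F u w x ↔ ({u, w, x, y} : Finset (Fin n)).card = 4 ∧ Cov F {u, w, x, y} := by
  simp [S]

theorem sum_deg (F : Finset (Finset (Fin n))) (hF : Unif F) : ∑ v, deg F v = 5 * F.card := by
  unfold deg
  simp_rw [Finset.card_filter]
  rw [Finset.sum_comm]
  have h : ∀ A ∈ F, (∑ v : Fin n, if v ∈ A then 1 else 0) = 5 := by
    intro A hA
    rw [← Finset.card_filter, Finset.filter_mem_eq_inter, Finset.univ_inter]
    exact hF A hA
  rw [Finset.sum_congr rfl h, Finset.sum_const, smul_eq_mul, mul_comm]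

theorem card_Hv (F : Finset (Finset (Fin n))) (hF : Unif F) (hc : 17 * F.card ≤ n ^ 2)
    (hn : 1 ≤ n) (T : ℝ) (hT : 0 < T) : ((Hv F T).card : ℝ) ≤ 5 / (17 * T) := by
  have hn' : (0 : ℝ) < n := by exact_mod_cast hn
  have h1 : ((Hv F T).card : ℝ) * (T * (n : ℝ) ^ 2) ≤ ∑ v ∈ Hv F T, (deg F v : ℝ) := by
    rw [← nsmul_eq_mul]
    exact Finset.card_nsmul_le_sum _ _ _ (fun v hv => (mem_Hv F T v).1 hv)
  have h2 : ∑ v ∈ Hv F T, (deg F v : ℝ) ≤ ∑ v, (deg F v : ℝ) :=
    Finset.sum_le_sum_of_subset_of_nonneg (subset_univ _) (fun _ _ _ => Nat.cast_nonneg _)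
  have h3 : ∑ v, (deg F v : ℝ) = 5 * F.card := by exact_mod_cast sum_deg F hF
  have h4 : (17 : ℝ) * F.card ≤ (n : ℝ) ^ 2 := by exact_mod_cast hc
  have hn2 : (0 : ℝ) < (n : ℝ) ^ 2 := by positivity
  rw [le_div_iff₀ (by positivity)]
  refine le_of_mul_le_mul_right ?_ hn2
  nlinarith

theorem sumS (F : Finset (Finset (Fin n))) (hF : Unif F) (u w : Fin n) :
    ∑ z, (S F u w z).card ≤ 6 * cod F u w := by
  by_cases huw : u = w
  · subst huw
    have h : ∀ z ∈ (univ : Finset (Fin n)), (S F u u z).card = 0 := by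
      intro z _
      rw [Finset.card_eq_zero, Finset.eq_empty_iff_forall_notMem]
      intro y hy
      rw [mem_S] at hy
      have h1 : ({u, u, z, y} : Finset (Fin n)) = {u, z, y} := by simp
      rw [h1] at hy
      have h2 := Finset.card_le_three (a := u) (b := z) (c := y)
      omega
    rw [Finset.sum_eq_zero h]
    exact Nat.zero_le _
  rw [← Finset.card_sigma]
  have h1 : (univ.sigma (fun z => S F u w z)).card ≤
      ((F.filter (fun A => u ∈ A ∧ w ∈ A)).biUnion
        (fun A => ((A.erase u).erase w).offDiag)).card := by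
    refine Finset.card_le_card_of_injOn (fun p => (p.1, p.2)) ?_ ?_
    · rintro ⟨z, y⟩ hp
      rw [Finset.mem_coe, Finset.mem_sigma, mem_S] at hp
      obtain ⟨-, hc, A, hA, hsub⟩ := hp
      rw [Finset.mem_coe, Finset.mem_biUnion]
      have hu : u ∈ A := hsub (by simp)
      have hw : w ∈ A := hsub (by simp)
      have hz : z ∈ A := hsub (by simp)
      have hy : y ∈ A := hsub (by simp)
      refine ⟨A, Finset.mem_filter.2 ⟨hA, hu, hw⟩, ?_⟩
      have d1 : z ≠ u := by
        rintro rfl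
        have h1 : ({z, w, z, y} : Finset (Fin n)) = {z, w, y} := by
          ext t; simp; tauto
        simp only [h1] at hc
        have h2 := Finset.card_le_three (a := z) (b := w) (c := y)
        omega
      have d2 : z ≠ w := by
        rintro rfl
        have h1 : ({u, z, z, y} : Finset (Fin n)) = {u, z, y} := by
          ext t; simp
        simp only [h1] at hc
        have h2 := Finset.card_le_three (a := u) (b := z) (c := y)
        omega
      have d3 : y ≠ u := by
        rintro rfl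
        have h1 : ({y, w, z, y} : Finset (Fin n)) = {w, z, y} := by
          ext t; simp
        simp only [h1] at hc
        have h2 := Finset.card_le_three (a := w) (b := z) (c := y)
        omega
      have d4 : y ≠ w := by
        rintro rfl
        have h1 : ({u, y, z, y} : Finset (Fin n)) = {u, z, y} := by
          ext t; simp
        simp only [h1] at hc
        have h2 := Finset.card_le_three (a := u) (b := z) (c := y)
        omega
      have d5 : z ≠ y := by
        rintro rfl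
        have h1 : ({u, w, z, z} : Finset (Fin n)) = {u, w, z} := by
          ext t; simp
        simp only [h1] at hc
        have h2 := Finset.card_le_three (a := u) (b := w) (c := z)
        omega
      simp [Finset.mem_offDiag, d1, d2, d3, d4, d5, hz, hy]
    · rintro ⟨z, y⟩ _ ⟨z', y'⟩ _ h
      simp only [Prod.mk.injEq] at h
      obtain ⟨rfl, rfl⟩ := h
      rfl
  refine h1.trans ?_
  unfold cod
  rw [mul_comm]
  refine Finset.card_biUnion_le_card_mul _ _ _ ?_
  intro A hA
  rw [Finset.mem_filter] at hA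
  have hcard : ((A.erase u).erase w).card = 3 := by
    rw [Finset.card_erase_of_mem (Finset.mem_erase.2 ⟨Ne.symm huw, hA.2.2⟩),
      Finset.card_erase_of_mem hA.2.1, hF A hA.1]
  rw [Finset.offDiag_card, hcard]

theorem cod_le_deg (F : Finset (Finset (Fin n))) (u w : Fin n) : cod F u w ≤ deg F u := by
  unfold cod deg
  refine Finset.card_le_card ?_
  intro A hA
  rw [Finset.mem_filter] at hA ⊢
  exact ⟨hA.1, hA.2.1⟩

theorem one_big {ι : Type} [DecidableEq ι] (P : Finset ι) (f : ι → ℝ) (b c : ℝ) (hb : 0 ≤ b)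
    (hc : 0 ≤ c) (h1 : ∀ q ∈ P, f q ≤ c)
    (h2 : ∀ q ∈ P, ∀ q' ∈ P, q ≠ q' → f q < b ∨ f q' < b) :
    ∑ q ∈ P, f q ≤ c + P.card * b := by
  by_cases h : ∃ q ∈ P, b ≤ f q
  · obtain ⟨q, hq, hbq⟩ := h
    rw [← Finset.add_sum_erase P f hq]
    have h4 : ∑ x ∈ P.erase q, f x ≤ (P.erase q).card • b := Finset.sum_le_card_nsmul _ _ _ (by
      intro x hx
      rw [Finset.mem_erase] at hx
      rcases h2 q hq x hx.2 (Ne.symm hx.1) with h | h
      · exact absurd h (not_lt.2 hbq)
      · exact h.le)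
    rw [nsmul_eq_mul] at h4
    have h3 : ((P.erase q).card : ℝ) * b ≤ P.card * b :=
      mul_le_mul_of_nonneg_right
        (by exact_mod_cast Finset.card_le_card (Finset.erase_subset _ _)) hb
    linarith [h1 q hq]
  · push Not at h
    have h4 : ∑ x ∈ P, f x ≤ P.card • b :=
      Finset.sum_le_card_nsmul _ _ _ (fun x hx => (h x hx).le)
    rw [nsmul_eq_mul] at h4
    linarith

theorem stage' (hS : S_STAGE) (F : Finset (Finset (Fin n))) (hF : Unif F) (T' η κ : ℝ)
    (U : Finset (Fin n)) (E : Finset (Fin n × Fin n)) (R : Finset (Fin n)) (hη : 0 < η)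
    (hT' : 0 ≤ T') (hn : 1 ≤ n) (h1 : ∀ r ∈ R, (deg F r : ℝ) ≤ T' * (n : ℝ) ^ 2)
    (h2 : ∀ r ∈ R, ((E.biUnion (fun e => S F e.1 e.2 r)).card : ℝ) ≤ κ * n)
    (h3 : κ * n + U.card + 2 * (2 * R.card) + (2 * R.card) * η * n + 8 * T' * n / η < n) :
    ∃ y : Fin n → Bool → Fin n,
      (∀ v ∈ R, ∀ w ∈ R, ∀ σ τ, y v σ = y w τ → v = w ∧ σ = τ) ∧ (∀ v ∈ R, ∀ σ, y v σ ∉ U) ∧
      (∀ v ∈ R, ∀ σ, ∀ w ∈ R, y v σ ≠ w) ∧
      (∀ v ∈ R, ∀ σ, ∀ e ∈ E, y v σ ∉ S F e.1 e.2 v) ∧
      (∀ v ∈ R, ∀ w ∈ R, ∀ σ τ, ¬ (v = w ∧ σ = τ) → y v σ ∉ S F w (y w τ) v) ∧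
      (∀ v ∈ R, ∀ σ z, ((S F v (y v σ) z).card : ℝ) ≤ η * n) := by
  classical
  have hm : ((Fintype.card (↥R × Bool) : ℕ) : ℝ) = 2 * R.card := by
    rw [Fintype.card_prod, Fintype.card_coe, Fintype.card_bool]; push_cast; ring
  let e := Fintype.equivFin (↥R × Bool)
  obtain ⟨y, y1, y2, y3, y4, y5, y6⟩ := hS n F hF T' η κ U E (Fintype.card (↥R × Bool))
    (fun i => ((e.symm i).1 : Fin n)) hη hT' hn (fun i => h1 _ (e.symm i).1.2)
    (fun i => h2 _ (e.symm i).1.2) (by rw [hm]; exact h3)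
  refine ⟨fun v σ => if h : v ∈ R then y (e (⟨v, h⟩, σ)) else v, ?_, ?_, ?_, ?_, ?_, ?_⟩
  · intro v hv w hw σ τ h
    simp only [dif_pos hv, dif_pos hw] at h
    have := e.injective (y1 h)
    simp only [Prod.mk.injEq, Subtype.mk.injEq] at this
    exact this
  · intro v hv σ
    simp only [dif_pos hv]
    exact y2 _
  · intro v hv σ w hw
    simp only [dif_pos hv]
    have := y3 (e (⟨v, hv⟩, σ)) (e (⟨w, hw⟩, true))
    simpa using this
  · intro v hv σ x hx
    simp only [dif_pos hv]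
    have := y4 (e (⟨v, hv⟩, σ)) x hx
    simpa using this
  · intro v hv w hw σ τ hne
    simp only [dif_pos hv, dif_pos hw]
    have := y5 (e (⟨v, hv⟩, σ)) (e (⟨w, hw⟩, τ)) (by
      intro h
      apply hne
      have := e.injective h
      simpa using this)
    simpa using this
  · intro v hv σ z
    simp only [dif_pos hv]
    have := y6 (e (⟨v, hv⟩, σ)) z
    simpa using this

theorem core (hS : S_STAGE) (T ρ T' η : ℝ) (hT : 0 < T) (hT1 : T ≤ 1 / 100000) (_hρ : 0 < ρ)
    (hη : η = 1 / (4000 * (1000000 / T + 1))) (hT' : 0 < T') (h6 : 6 * T' ≤ ρ)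
    (h8 : 8 * T' / η ≤ 1 / 1000) (hTT : T' ≤ T) (hn : 1 ≤ n) (hn1 : 1200 ≤ ρ * n)
    (hn2 : 1000 * (1 / T' + 4000000 / T) ≤ n) (F : Finset (Finset (Fin n))) (hF : Unif F)
    (hc : 17 * F.card ≤ n ^ 2) (a : Fin n → Bool → Fin n) (hP : PreOK F T T' a) :
    ∃ (C : Finset (Fin n)) (a' : Fin n → Bool → Fin n), (C.card : ℝ) ≤ 1000000 / T ∧
      InnerOK F T' ρ C a' := by
  classical
  have hn0 : (0 : ℝ) < n := by exact_mod_cast hn
  have hη0 : 0 < η := by rw [hη]; positivity
  obtain ⟨X, hX⟩ : ∃ X, X = Hv F T := ⟨_, rfl⟩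
  have hXc : (X.card : ℝ) ≤ 5 / (17 * T) := by rw [hX]; exact card_Hv F hF hc hn T hT
  have hXT : (X.card : ℝ) * T ≤ 5 / 17 := by
    have h1 := mul_le_mul_of_nonneg_right hXc hT.le
    have h2 : 5 / (17 * T) * T = 5 / 17 := by field_simp
    linarith
  have hTn : T' * (n : ℝ) ^ 2 ≤ T * (n : ℝ) ^ 2 := mul_le_mul_of_nonneg_right hTT (by positivity)
  have hXL : ∀ x ∈ Lo F T', x ∉ X := by
    intro x hx hxX
    rw [hX, mem_Hv] at hxX
    rw [mem_Lo] at hx
    linarith
  have hXH : ∀ x ∈ X, x ∈ Hv F T' := by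
    intro x hx
    rw [hX, mem_Hv] at hx
    rw [mem_Hv]
    linarith
  have hnotHv : ∀ x, x ∉ Hv F T' → x ∈ Lo F T' := by
    intro x hx
    rw [mem_Hv, not_le] at hx
    rw [mem_Lo]
    exact hx
  have hlow : ∀ v ∈ X, ∀ σ, a v σ ∈ Lo F T' := by
    rw [hX]; exact hP.low
  have hedgeX : ∀ v ∈ X, ∀ σ, ∑ x, ((S F v (a v σ) x).card : ℝ) ≤ 1200 * n := by
    intro v hv σ
    have h1 : ((∑ x, (S F v (a v σ) x).card : ℕ) : ℝ) ≤ ((6 * cod F v (a v σ) : ℕ) : ℝ) := by
      exact_mod_cast sumS F hF v (a v σ)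
    push_cast at h1
    have h2 := hP.cod v (hX ▸ hv) σ
    linarith
  obtain ⟨P, hPd⟩ : ∃ P : Finset (Fin n × Bool), P = X ×ˢ univ := ⟨_, rfl⟩
  have hPc : (P.card : ℝ) = 2 * X.card := by
    rw [hPd, Finset.card_product, Finset.card_univ, Fintype.card_bool]; push_cast; ring
  obtain ⟨f, hf⟩ : ∃ f : Fin n → ℝ, ∀ x, f x =
      ∑ v ∈ X, ∑ σ : Bool, ((S F v (a v σ) x).card : ℝ) := ⟨_, fun _ => rfl⟩
  have hfP : ∀ x, f x = ∑ q ∈ P, ((S F q.1 (a q.1 q.2) x).card : ℝ) := by
    intro x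
    rw [hf, hPd, Finset.sum_product]
  have hf0 : ∀ x, 0 ≤ f x := by
    intro x
    rw [hf]
    exact Finset.sum_nonneg (fun _ _ => Finset.sum_nonneg (fun _ _ => Nat.cast_nonneg _))
  have hfs : ∑ x, f x ≤ 2400 * X.card * n := by
    have e1 : ∑ x, f x = ∑ v ∈ X, ∑ σ : Bool, ∑ x, ((S F v (a v σ) x).card : ℝ) := by
      simp_rw [hf]
      rw [Finset.sum_comm]
      refine Finset.sum_congr rfl fun v _ => ?_
      rw [Finset.sum_comm]
    rw [e1]
    have e2 : ∀ v ∈ X, ∑ σ : Bool, ∑ x, ((S F v (a v σ) x).card : ℝ) ≤ 2400 * n := by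
      intro v hv
      rw [Fintype.sum_bool]
      have h1 := hedgeX v hv true
      have h2 := hedgeX v hv false
      linarith
    calc _ ≤ ∑ v ∈ X, (2400 * (n : ℝ)) := Finset.sum_le_sum e2
      _ = _ := by rw [Finset.sum_const, nsmul_eq_mul]; ring
  obtain ⟨H0, hH0⟩ : ∃ H0 : Finset (Fin n), H0 = (Lo F T').filter (fun x => (n : ℝ) / 1000 < f x) :=
    ⟨_, rfl⟩
  have hH0c : (H0.card : ℝ) ≤ 2400000 * X.card := by
    have h1 : (H0.card : ℝ) * ((n : ℝ) / 1000) ≤ ∑ x ∈ H0, f x := by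
      rw [← nsmul_eq_mul]
      refine Finset.card_nsmul_le_sum _ _ _ (fun x hx => ?_)
      rw [hH0, Finset.mem_filter] at hx
      exact hx.2.le
    have h2 : ∑ x ∈ H0, f x ≤ ∑ x, f x :=
      Finset.sum_le_sum_of_subset_of_nonneg (subset_univ _) (fun x _ _ => hf0 x)
    refine le_of_mul_le_mul_right ?_ hn0
    linarith
  have hH0T : (H0.card : ℝ) * T ≤ 705883 := by
    have h1 := mul_le_mul_of_nonneg_right hH0c hT.le
    linarith
  obtain ⟨A0, hA0⟩ : ∃ A0 : Finset (Fin n), A0 = P.image (fun q => a q.1 q.2) := ⟨_, rfl⟩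
  have hA0c : (A0.card : ℝ) ≤ 2 * X.card := by
    rw [← hPc, hA0]
    exact_mod_cast Finset.card_image_le
  have hA0m : ∀ v ∈ X, ∀ σ, a v σ ∈ A0 := by
    intro v hv σ
    rw [hA0, Finset.mem_image]
    exact ⟨(v, σ), by rw [hPd]; simp [hv], rfl⟩
  obtain ⟨R, hR⟩ : ∃ R : Finset (Fin n), R = H0 \ A0 := ⟨_, rfl⟩
  have hRH : ∀ r ∈ R, r ∈ H0 := by
    intro r hr
    rw [hR, Finset.mem_sdiff] at hr
    exact hr.1
  have hRL : ∀ r ∈ R, r ∈ Lo F T' := by
    intro r hr
    have := hRH r hr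
    rw [hH0, Finset.mem_filter] at this
    exact this.1
  have hRA : ∀ r ∈ R, r ∉ A0 := by
    intro r hr
    rw [hR, Finset.mem_sdiff] at hr
    exact hr.2
  have hRX : ∀ r ∈ R, r ∉ X := fun r hr => hXL r (hRL r hr)
  have hRc : (R.card : ℝ) ≤ H0.card := by
    exact_mod_cast Finset.card_le_card (fun r hr => hRH r hr)
  have hRT : (R.card : ℝ) * T ≤ 705883 := by
    have h1 := mul_le_mul_of_nonneg_right hRc hT.le
    linarith
  -- the sums at low vertices
  have hflow : ∀ u ∈ Lo F T', f u ≤ (9901 / 10000) * n := by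
    intro u hu
    rw [hfP]
    have h1 := one_big P (fun q => ((S F q.1 (a q.1 q.2) u).card : ℝ)) (T / 10000 * n)
      ((99 / 100) * n) (by positivity) (by positivity) (by
        intro q hq
        rw [hPd, Finset.mem_product] at hq
        exact hP.star q.1 (hX ▸ hq.1) q.2 u hu) (by
        intro q hq q' hq' hne
        rw [hPd, Finset.mem_product] at hq hq'
        refine hP.dbl u hu q.1 (hX ▸ hq.1) q'.1 (hX ▸ hq'.1) q.2 q'.2 ?_
        simpa using hne)
    refine h1.trans ?_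
    rw [hPc]
    have h2 : 2 * (X.card : ℝ) * (T / 10000 * n) = (X.card * T) * (n / 5000) := by ring
    rw [h2]
    have h3 : ((X.card : ℝ) * T) * (n / 5000) ≤ 5 / 17 * (n / 5000) :=
      mul_le_mul_of_nonneg_right hXT (by positivity)
    linarith
  have hbU : ∀ u, ((P.biUnion (fun q => S F q.1 (a q.1 q.2) u)).card : ℝ) ≤ f u := by
    intro u
    rw [hfP]
    exact_mod_cast Finset.card_biUnion_le
  obtain ⟨E0, hE0⟩ : ∃ E0 : Finset (Fin n × Fin n), E0 = P.image (fun q => (q.1, a q.1 q.2)) :=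
    ⟨_, rfl⟩
  have hEU : ∀ u, E0.biUnion (fun e => S F e.1 e.2 u) =
      P.biUnion (fun q => S F q.1 (a q.1 q.2) u) := by
    intro u
    rw [hE0, Finset.image_biUnion]
  have hE0m : ∀ v ∈ X, ∀ σ, (v, a v σ) ∈ E0 := by
    intro v hv σ
    rw [hE0, Finset.mem_image]
    exact ⟨(v, σ), by rw [hPd]; simp [hv], rfl⟩
  obtain ⟨U, hU⟩ : ∃ U : Finset (Fin n), U = Hv F T' ∪ (A0 ∪ H0) := ⟨_, rfl⟩
  have hUc : (U.card : ℝ) ≤ 5 / (17 * T') + (2 * X.card + H0.card) := by
    have h1 : (U.card : ℝ) ≤ (Hv F T').card + (A0.card + H0.card) := by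
      rw [hU]
      have h2 := Finset.card_union_le (Hv F T') (A0 ∪ H0)
      have h3 := Finset.card_union_le A0 H0
      exact_mod_cast h2.trans (by omega)
    have h4 := card_Hv F hF hc hn T' hT'
    linarith
  -- numerical facts
  have hRη : 2 * (R.card : ℝ) * η ≤ 1 / 2000 := by
    have h1 : (R.card : ℝ) ≤ 705883 / T := by rw [le_div_iff₀ hT]; exact hRT
    have h2 : (R.card : ℝ) ≤ 1000000 / T + 1 := by
      refine h1.trans ?_
      have h3 : 705883 / T ≤ 1000000 / T := by gcongr; norm_num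
      linarith
    have h4 : (0 : ℝ) < 1000000 / T + 1 := by positivity
    rw [hη]
    have h5 : 2 * (R.card : ℝ) * (1 / (4000 * (1000000 / T + 1))) =
        (R.card : ℝ) / (1000000 / T + 1) * (1 / 2000) := by
      field_simp
      ring
    rw [h5]
    have h6 : (R.card : ℝ) / (1000000 / T + 1) ≤ 1 := by
      rw [div_le_one h4]
      exact h2
    linarith
  have hRηn : 2 * (R.card : ℝ) * η * n ≤ n / 2000 := by
    have := mul_le_mul_of_nonneg_right hRη hn0.le
    linarith
  have hnum : (9901 / 10000) * (n : ℝ) + U.card + 2 * (2 * R.card) + (2 * R.card) * η * n +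
      8 * T' * n / η < n := by
    have h1 : 8 * T' * n / η = (8 * T' / η) * n := by ring
    have h2 : 8 * T' / η * n ≤ 1 / 1000 * n := mul_le_mul_of_nonneg_right h8 hn0.le
    have h3 : 5 / (17 * T') ≤ 1 / T' := by
      rw [div_le_div_iff₀ (by positivity) hT']
      linarith
    have h4 : (X.card : ℝ) ≤ 1 / T := by
      rw [le_div_iff₀ hT]; linarith
    have h5 : (H0.card : ℝ) ≤ 705883 / T := by rw [le_div_iff₀ hT]; exact hH0T
    have h6 : (R.card : ℝ) ≤ 705883 / T := hRc.trans h5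
    have h7 : 705883 / T = 705883 * (1 / T) := by ring
    have h8' : 4000000 / T = 4000000 * (1 / T) := by ring
    rw [h7] at h5 h6
    rw [h8'] at hn2
    have h9 : (0 : ℝ) < 1 / T := by positivity
    rw [h1]
    linarith
  obtain ⟨y, y1, y2, y3, y4, y5, y6⟩ := stage' hS F hF T' η (9901 / 10000) U E0 R hη0 hT'.le hn
    (fun r hr => ((mem_Lo F T' r).1 (hRL r hr)).le)
    (fun r hr => by rw [hEU]; exact (hbU r).trans (hflow r (hRL r hr))) hnum
  have hyLo : ∀ r ∈ R, ∀ σ, y r σ ∈ Lo F T' := by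
    intro r hr σ
    apply hnotHv
    intro h
    exact y2 r hr σ (by rw [hU, Finset.mem_union]; exact Or.inl h)
  have hyX : ∀ r ∈ R, ∀ σ, y r σ ∉ X := fun r hr σ => hXL _ (hyLo r hr σ)
  have hyA : ∀ r ∈ R, ∀ σ, y r σ ∉ A0 := by
    intro r hr σ h
    exact y2 r hr σ (by rw [hU, Finset.mem_union, Finset.mem_union]; exact Or.inr (Or.inl h))
  have hyR : ∀ r ∈ R, ∀ σ, y r σ ∉ R := by
    intro r hr σ h
    exact y2 r hr σ (by
      rw [hU, Finset.mem_union, Finset.mem_union]; exact Or.inr (Or.inr (hRH _ h)))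
  have hdisj : Disjoint X R := by
    rw [Finset.disjoint_left]
    intro x hx hxR
    exact hRX x hxR hx
  obtain ⟨a', ha'⟩ : ∃ a' : Fin n → Bool → Fin n, a' = fun v σ => if v ∈ R then y v σ else a v σ :=
    ⟨_, rfl⟩
  have haR : ∀ v ∈ R, ∀ σ, a' v σ = y v σ := by
    intro v hv σ
    rw [ha']; simp [hv]
  have haX : ∀ v ∈ X, ∀ σ, a' v σ = a v σ := by
    intro v hv σ
    have : v ∉ R := fun h => hRX v h hv
    rw [ha']; simp [this]
  have hsplit : ∀ x, ∑ v ∈ X ∪ R, ∑ σ : Bool, ((S F v (a' v σ) x).card : ℝ) ≤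
      f x + n / 2000 := by
    intro x
    rw [Finset.sum_union hdisj, hf]
    have h1 : ∑ v ∈ X, ∑ σ : Bool, ((S F v (a' v σ) x).card : ℝ) =
        ∑ v ∈ X, ∑ σ : Bool, ((S F v (a v σ) x).card : ℝ) := by
      refine Finset.sum_congr rfl fun v hv => ?_
      refine Finset.sum_congr rfl fun σ _ => ?_
      rw [haX v hv σ]
    have h2 : ∑ v ∈ R, ∑ σ : Bool, ((S F v (a' v σ) x).card : ℝ) ≤ ∑ v ∈ R, 2 * (η * n) := by
      refine Finset.sum_le_sum fun v hv => ?_
      rw [Fintype.sum_bool, haR v hv, haR v hv]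
      have h3 := y6 v hv true x
      have h4 := y6 v hv false x
      linarith
    rw [Finset.sum_const, nsmul_eq_mul] at h2
    rw [h1]
    linarith
  have hlow' : ∀ v ∈ X ∪ R, ∀ σ, a' v σ ∈ Lo F T' := by
    intro v hv σ
    rcases Finset.mem_union.1 hv with h | h
    · rw [haX v h]; exact hlow v h σ
    · rw [haR v h]; exact hyLo v h σ
  refine ⟨X ∪ R, a', ?_, ?_⟩
  · have h1 : ((X ∪ R).card : ℝ) ≤ X.card + R.card := by exact_mod_cast Finset.card_union_le X R
    rw [le_div_iff₀ hT]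
    have h2 := mul_le_mul_of_nonneg_right h1 hT.le
    linarith
  · constructor
    · -- inj
      intro v hv w hw σ τ h
      rcases Finset.mem_union.1 hv with hv | hv <;> rcases Finset.mem_union.1 hw with hw | hw
      · rw [haX v hv, haX w hw] at h
        exact hP.inj v (hX ▸ hv) w (hX ▸ hw) σ τ h
      · rw [haX v hv, haR w hw] at h
        exact absurd (h ▸ hA0m v hv σ) (hyA w hw τ)
      · rw [haR v hv, haX w hw] at h
        exact absurd (h ▸ hA0m w hw τ) (hyA v hv σ)
      · rw [haR v hv, haR w hw] at h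
        exact y1 v hv w hw σ τ h
    · -- out
      intro v hv σ h
      rcases Finset.mem_union.1 hv with hv | hv
      · rw [haX v hv] at h
        rcases Finset.mem_union.1 h with h | h
        · exact hXL _ (hlow v hv σ) h
        · exact hRA _ h (hA0m v hv σ)
      · rw [haR v hv] at h
        rcases Finset.mem_union.1 h with h | h
        · exact hyX v hv σ h
        · exact hyR v hv σ h
    · -- low
      intro v hv σ
      exact ((mem_Lo F T' _).1 (hlow' v hv σ)).le
    · -- conf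
      intro v hv w hw σ τ hcard hcov
      rcases Finset.mem_union.1 hv with hv | hv <;> rcases Finset.mem_union.1 hw with hw | hw
      · rw [haX v hv, haX w hw] at hcard hcov
        have hvw : v ≠ w := by
          rintro rfl
          have h1 : ({v, a v σ, v, a v τ} : Finset (Fin n)) = {v, a v σ, a v τ} := by
            ext t; simp; tauto
          rw [h1] at hcard
          have h2 := Finset.card_le_three (a := v) (b := a v σ) (c := a v τ)
          omega
        refine hP.conf v (hX ▸ hv) w (hX ▸ hw) hvw σ τ ?_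
        have h1 : ({v, w, a v σ, a w τ} : Finset (Fin n)) = {v, a v σ, w, a w τ} := by
          ext t; simp; tauto
        rw [h1]
        exact hcov
      · rw [haX v hv, haR w hw] at hcard hcov
        exact y4 w hw τ (v, a v σ) (hE0m v hv σ) ((mem_S _ _ _ _ _).2 ⟨hcard, hcov⟩)
      · rw [haR v hv, haX w hw] at hcard hcov
        have h1 : ({v, y v σ, w, a w τ} : Finset (Fin n)) = {w, a w τ, v, y v σ} := by
          ext t; simp; tauto
        rw [h1] at hcard hcov
        exact y4 v hv σ (w, a w τ) (hE0m w hw τ) ((mem_S _ _ _ _ _).2 ⟨hcard, hcov⟩)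
      · rw [haR v hv, haR w hw] at hcard hcov
        by_cases hne : v = w ∧ σ = τ
        · obtain ⟨rfl, rfl⟩ := hne
          have h1 : ({v, y v σ, v, y v σ} : Finset (Fin n)) = {v, y v σ} := by
            ext t; simp
          rw [h1] at hcard
          have h2 := Finset.card_le_two (a := v) (b := y v σ)
          omega
        · have h1 : ({v, y v σ, w, y w τ} : Finset (Fin n)) = {w, y w τ, v, y v σ} := by
            ext t; simp; tauto
          rw [h1] at hcard hcov
          exact y5 v hv w hw σ τ hne ((mem_S _ _ _ _ _).2 ⟨hcard, hcov⟩)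
    · -- light
      intro x hx
      have hxX : x ∉ X := fun h => hx (Finset.mem_union_left _ h)
      rw [hX, mem_Hv, not_le] at hxX
      have h1 : T * (n : ℝ) ^ 2 ≤ 1 / 100000 * (n : ℝ) ^ 2 :=
        mul_le_mul_of_nonneg_right hT1 (by positivity)
      linarith
    · -- sum
      intro x hx hxa
      have hxX : x ∉ X := fun h => hx (Finset.mem_union_left _ h)
      have h1 : f x ≤ n / 1000 := by
        by_cases hxL : x ∈ Lo F T'
        · by_contra hlt
          rw [not_le] at hlt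
          have hxH : x ∈ H0 := by
            rw [hH0, Finset.mem_filter]
            exact ⟨hxL, hlt⟩
          by_cases hxA : x ∈ A0
          · rw [hA0, Finset.mem_image] at hxA
            obtain ⟨q, hq, hqx⟩ := hxA
            rw [hPd, Finset.mem_product] at hq
            refine hxa q.1 (Finset.mem_union_left _ hq.1) q.2 ?_
            rw [haX q.1 hq.1]
            exact hqx
          · apply hx
            rw [Finset.mem_union, hR, Finset.mem_sdiff]
            exact Or.inr ⟨hxH, hxA⟩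
        · have := hP.mid x (hX ▸ hxX) hxL
          rw [hf, hX]
          exact this
      have h2 := hsplit x
      linarith
    · -- edge
      intro v hv σ
      rcases Finset.mem_union.1 hv with hv | hv
      · rw [haX v hv]
        refine (hedgeX v hv σ).trans ?_
        have := mul_le_mul_of_nonneg_right hn1 hn0.le
        nlinarith
      · rw [haR v hv]
        have h1 : ((∑ x, (S F v (y v σ) x).card : ℕ) : ℝ) ≤ ((6 * cod F v (y v σ) : ℕ) : ℝ) := by
          exact_mod_cast sumS F hF v (y v σ)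
        push_cast at h1
        have h2 : (cod F v (y v σ) : ℝ) ≤ deg F v := by exact_mod_cast cod_le_deg F v (y v σ)
        have h3 := (mem_Lo F T' v).1 (hRL v hv)
        have h4 : 6 * T' * (n : ℝ) ^ 2 ≤ ρ * (n : ℝ) ^ 2 :=
          mul_le_mul_of_nonneg_right h6 (by positivity)
        linarith
    · -- base
      intro v hv σ
      have h1 : ((((X ∪ R) ×ˢ (univ : Finset Bool)).biUnion
          (fun q => S F q.1 (a' q.1 q.2) (a' v σ))).card : ℝ) ≤
          ∑ v' ∈ X ∪ R, ∑ σ' : Bool, ((S F v' (a' v' σ') (a' v σ)).card : ℝ) := by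
        rw [← Finset.sum_product (s := X ∪ R) (t := (univ : Finset Bool))
          (f := fun q => ((S F q.1 (a' q.1 q.2) (a' v σ)).card : ℝ))]
        exact_mod_cast Finset.card_biUnion_le
      have h2 := hsplit (a' v σ)
      have h3 := hflow _ (hlow' v hv σ)
      linarith

end EXT1x

theorem t_EXT1 (h : S_STAGE) : S_EXT1 := by
  intro T hT hT1 ρ hρ
  obtain ⟨η, hη⟩ : ∃ η : ℝ, η = 1 / (4000 * (1000000 / T + 1)) := ⟨_, rfl⟩
  have hη0 : 0 < η := by rw [hη]; positivity
  refine ⟨min (ρ / 6) (η / 8000), by positivity, ?_⟩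
  intro T' hT' hτ hTT
  have h1 : T' ≤ ρ / 6 := hτ.trans (min_le_left _ _)
  have h2 : T' ≤ η / 8000 := hτ.trans (min_le_right _ _)
  obtain ⟨n0, hn0⟩ := exists_nat_ge (1 + 1200 / ρ + 1000 * (1 / T' + 4000000 / T))
  refine ⟨n0, ?_⟩
  intro n hn F hF hc a hP
  have hn' : (1 + 1200 / ρ + 1000 * (1 / T' + 4000000 / T)) ≤ (n : ℝ) :=
    hn0.trans (by exact_mod_cast hn)
  have p1 : 0 < 1200 / ρ := by positivity
  have p2 : 0 < 1000 * (1 / T' + 4000000 / T) := by positivity
  refine EXT1x.core h T ρ T' η hT hT1 hρ hη hT' (by linarith) ?_ hTT ?_ ?_ ?_ F hF hc a hP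
  · rw [div_le_iff₀ hη0]
    linarith
  · have : (1 : ℝ) ≤ n := by linarith
    exact_mod_cast this
  · have h3 : 1200 / ρ ≤ n := by linarith
    rw [div_le_iff₀ hρ] at h3
    linarith
  · linarith

end Pool.Agent.R178.HY
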