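import Mathlib
import Pool.Agent.R178.HY.Defs

/-!
Project HY (MP_e42343_co): piece EXT2 (the greedy extension of the inner segments), from STAGE.
-/

set_option autoImplicit false

open Finset

namespace Pool.Agent.R178.HY

namespace EXT2x

variable {n : ℕ}

theorem mem_S (F : Finset (Finset (Fin n))) (u w x y : Fin n) :
    y ∈ S F u w x ↔ ({u, w, x, y} : Finset (Fin n)).card = 4 ∧ Cov F {u, w, x, y} := by
  simp [S]

theorem S_symm (F : Finset (Finset (Fin n))) (u w x : Fin n) : S F u w x = S F w u x := by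
  ext y
  rw [mem_S, mem_S]
  have h : ({u, w, x, y} : Finset (Fin n)) = {w, u, x, y} := by
    ext z; simp only [Finset.mem_insert, Finset.mem_singleton]; tauto
  rw [h]

theorem sum_deg (F : Finset (Finset (Fin n))) (hF : Unif F) :
    ∑ v, deg F v = 5 * F.card := by
  have h1 : ∀ v, deg F v = ∑ A ∈ F, if v ∈ A then 1 else 0 := by
    intro v
    unfold deg
    rw [Finset.card_filter]
  simp_rw [h1]
  rw [Finset.sum_comm]
  have h2 : ∀ A ∈ F, (∑ v : Fin n, if v ∈ A then 1 else 0) = 5 := by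
    intro A hA
    rw [← hF A hA]
    simp
  rw [Finset.sum_congr rfl h2]
  simp [mul_comm]

theorem card_Hv (F : Finset (Finset (Fin n))) (hF : Unif F) (h17 : 17 * F.card ≤ n ^ 2)
    (hn : 1 ≤ n) (T' : ℝ) (hT : 0 < T') : ((Hv F T').card : ℝ) ≤ 1 / T' := by
  have hmem : ∀ v ∈ Hv F T', T' * (n : ℝ) ^ 2 ≤ (deg F v : ℝ) := by
    intro v hv
    unfold Hv at hv
    simpa using hv
  have h1 : ((Hv F T').card : ℝ) * (T' * (n : ℝ) ^ 2) ≤ ∑ v ∈ Hv F T', (deg F v : ℝ) := by
    have := Finset.card_nsmul_le_sum (Hv F T') (fun v => (deg F v : ℝ)) (T' * (n : ℝ) ^ 2) hmem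
    simpa [nsmul_eq_mul] using this
  have h2 : ∑ v ∈ Hv F T', (deg F v : ℝ) ≤ ∑ v, (deg F v : ℝ) :=
    Finset.sum_le_sum_of_subset_of_nonneg (Finset.subset_univ _) (fun _ _ _ => by positivity)
  have h3 : ∑ v, (deg F v : ℝ) = 5 * (F.card : ℝ) := by
    have := sum_deg F hF
    exact_mod_cast this
  have h4 : 17 * (F.card : ℝ) ≤ (n : ℝ) ^ 2 := by exact_mod_cast h17
  have hn' : (0 : ℝ) < (n : ℝ) ^ 2 := by
    have : (1 : ℝ) ≤ n := by exact_mod_cast hn
    positivity
  rw [le_div_iff₀ hT]
  have h5 : ((Hv F T').card : ℝ) * T' * (n : ℝ) ^ 2 ≤ 1 * (n : ℝ) ^ 2 := by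
    nlinarith
  exact le_of_mul_le_mul_right h5 hn'

theorem sum_S_le (F : Finset (Finset (Fin n))) (hF : Unif F) (u w : Fin n) :
    ∑ z, (S F u w z).card ≤ 25 * deg F u := by
  have h1 : ∑ z, (S F u w z).card
      = (univ.filter (fun p : Fin n × Fin n => p.2 ∈ S F u w p.1)).card := by
    rw [Finset.card_filter, Fintype.sum_prod_type]
    refine Finset.sum_congr rfl fun z _ => ?_
    simp
  rw [h1]
  have h2 : (univ.filter (fun p : Fin n × Fin n => p.2 ∈ S F u w p.1)) ⊆
      (F.filter (fun A => u ∈ A)).biUnion (fun A => A ×ˢ A) := by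
    intro p hp
    rw [Finset.mem_filter] at hp
    obtain ⟨_, hp⟩ := hp
    rw [mem_S] at hp
    obtain ⟨_, A, hA, hsub⟩ := hp
    rw [Finset.mem_biUnion]
    refine ⟨A, ?_, ?_⟩
    · rw [Finset.mem_filter]
      exact ⟨hA, hsub (by simp)⟩
    · rw [Finset.mem_product]
      exact ⟨hsub (by simp), hsub (by simp)⟩
  refine (Finset.card_le_card h2).trans ?_
  refine Finset.card_biUnion_le.trans ?_
  have h3 : ∀ A ∈ F.filter (fun A => u ∈ A), (A ×ˢ A).card = 25 := by
    intro A hA
    rw [Finset.mem_filter] at hA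
    rw [Finset.card_product, hF A hA.1]
  rw [Finset.sum_congr rfl h3]
  simp [deg, mul_comm]

end EXT2x

open EXT2x in
theorem t_EXT2 (h : S_STAGE) : S_EXT2 := by
  intro M ρ hρ
  set η : ℝ := 1 / (4800 * ((M : ℝ) + 1)) with hη
  have hM0 : (0 : ℝ) ≤ M := by positivity
  have hηpos : 0 < η := by rw [hη]; positivity
  refine ⟨min (ρ / 25) (η / 8000), lt_min (by positivity) (by positivity), ?_⟩
  intro T' hT' hτ
  have hT1 : T' ≤ ρ / 25 := hτ.trans (min_le_left _ _)
  have hT2 : T' ≤ η / 8000 := hτ.trans (min_le_right _ _)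
  refine ⟨Nat.ceil (200 * (5 * (M : ℝ) + 1 / T' + 1)), ?_⟩
  intro n hn0 F hF h17 C a hCM hI
  have hnR : 200 * (5 * (M : ℝ) + 1 / T' + 1) ≤ (n : ℝ) :=
    (Nat.le_ceil _).trans (by exact_mod_cast hn0)
  have hTinv : 0 < 1 / T' := by positivity
  have hnpos : (0 : ℝ) < n := by nlinarith
  have hn1 : 1 ≤ n := by
    have : 0 < n := by exact_mod_cast hnpos
    omega
  -- indices
  let e : Fin C.card ≃ C := C.equivFin.symm
  let v : Fin C.card → Fin n := fun i => (e i : Fin n)
  have hvC : ∀ i, v i ∈ C := fun i => (e i).2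
  have hvinj : ∀ i j, v i = v j → i = j := by
    intro i j hij
    exact e.injective (Subtype.ext hij)
  have hvsurj : ∀ x ∈ C, ∃ i, v i = x := by
    intro x hx
    exact ⟨e.symm ⟨x, hx⟩, by simp [v]⟩
  let q : Fin C.card × Bool ≃ Fin (Fintype.card (Fin C.card × Bool)) := Fintype.equivFin _
  let b : Fin (Fintype.card (Fin C.card × Bool)) → Fin n := fun i => a (v (q.symm i).1) (q.symm i).2
  have hm : Fintype.card (Fin C.card × Bool) = C.card * 2 := by simp
  let E : Finset (Fin n × Fin n) := (C ×ˢ (univ : Finset Bool)).image (fun r => (r.1, a r.1 r.2))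
  have hstage := h n F hF T' η (992 / 1000) (C ∪ Hv F T') E _ b hηpos hT'.le hn1
    (fun i => hI.low _ (hvC _) _) (by
      intro i
      have : E.biUnion (fun e => S F e.1 e.2 (b i))
          = (C ×ˢ (univ : Finset Bool)).biUnion (fun r => S F r.1 (a r.1 r.2) (b i)) := by
        simp only [E]
        rw [Finset.image_biUnion]
      rw [this]
      exact hI.base _ (hvC _) _) (by
      have hc1 : ((C ∪ Hv F T').card : ℝ) ≤ M + 1 / T' := by
        have h1 : ((C ∪ Hv F T').card : ℝ) ≤ (C.card : ℝ) + (Hv F T').card := by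
          exact_mod_cast Finset.card_union_le _ _
        have h2 : (C.card : ℝ) ≤ M := by exact_mod_cast hCM
        have h3 := card_Hv F hF h17 hn1 T' hT'
        linarith
      have hc2 : ((Fintype.card (Fin C.card × Bool) : ℕ) : ℝ) ≤ 2 * M := by
        rw [hm]
        push_cast
        have h2 : (C.card : ℝ) ≤ M := by exact_mod_cast hCM
        linarith
      have hc3 : ((Fintype.card (Fin C.card × Bool) : ℕ) : ℝ) * η * n ≤ 1 / 2400 * n := by
        refine mul_le_mul_of_nonneg_right ?_ hnpos.le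
        have : (2 * (M : ℝ)) * η ≤ 1 / 2400 := by
          rw [hη, mul_one_div, div_le_div_iff₀ (by positivity) (by norm_num)]
          nlinarith
        exact (mul_le_mul_of_nonneg_right hc2 hηpos.le).trans this
      have hc4 : 8 * T' * n / η ≤ 1 / 1000 * n := by
        rw [div_le_iff₀ hηpos]
        nlinarith
      nlinarith)
  obtain ⟨y, hyinj, hyU, hyb, hyE, hyy, hyη⟩ := hstage
  let o : Fin C.card → Bool → Fin n := fun i σ => y (q (i, σ))
  have hbq : ∀ i σ, b (q (i, σ)) = a (v i) σ := by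
    intro i σ
    simp [b]
  have hoo : ∀ i σ j τ, o i σ = o j τ → i = j ∧ σ = τ := by
    intro i σ j τ hh
    have := q.injective (hyinj hh)
    simpa using this
  have hov : ∀ i σ j, o i σ ≠ v j := by
    intro i σ j hh
    refine hyU (q (i, σ)) (Finset.mem_union_left _ ?_)
    have : y (q (i, σ)) = v j := hh
    rw [this]
    exact hvC j
  have hoa : ∀ i σ j τ, o i σ ≠ a (v j) τ := by
    intro i σ j τ hh
    refine hyb (q (i, σ)) (q (j, τ)) ?_
    rw [hbq]
    exact hh
  have haa : ∀ i σ j τ, a (v i) σ = a (v j) τ → i = j ∧ σ = τ := by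
    intro i σ j τ hh
    obtain ⟨h1, h2⟩ := hI.inj _ (hvC i) _ (hvC j) σ τ hh
    exact ⟨hvinj _ _ h1, h2⟩
  have hav : ∀ i σ j, a (v i) σ ≠ v j := by
    intro i σ j hh
    exact hI.out _ (hvC i) σ (hh ▸ hvC j)
  have hodeg : ∀ i σ, (deg F (o i σ) : ℝ) ≤ ρ * (n : ℝ) ^ 2 := by
    intro i σ
    have h1 : o i σ ∉ Hv F T' := fun hh => hyU (q (i, σ)) (Finset.mem_union_right _ hh)
    unfold Hv at h1
    simp only [Finset.mem_filter, Finset.mem_univ, true_and, not_le] at h1
    have h2 : T' * (n : ℝ) ^ 2 ≤ ρ * (n : ℝ) ^ 2 := by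
      refine mul_le_mul_of_nonneg_right ?_ (by positivity)
      linarith
    linarith
  let g : Fin C.card → Fin 5 → Fin n := fun i =>
    ![o i false, a (v i) false, v i, a (v i) true, o i true]
  have g0 : ∀ i, g i 0 = o i false := fun i => rfl
  have g1 : ∀ i, g i 1 = a (v i) false := fun i => rfl
  have g2 : ∀ i, g i 2 = v i := fun i => rfl
  have g3 : ∀ i, g i 3 = a (v i) true := fun i => rfl
  have g4 : ∀ i, g i 4 = o i true := fun i => rfl
  have hoStage : ∀ i σ z, ((S F (a (v i) σ) (o i σ) z).card : ℝ) ≤ η * n := by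
    intro i σ z
    have := hyη (q (i, σ)) z
    rw [hbq] at this
    exact this
  -- the four edges of a segment
  have hedge : ∀ (i : Fin C.card) (j : Fin 4),
      (∃ σ, ({g i j.castSucc, g i j.succ} : Finset (Fin n)) = {v i, a (v i) σ} ∧
        ∀ z, S F (g i j.castSucc) (g i j.succ) z = S F (v i) (a (v i) σ) z) ∨
      (∃ σ, ({g i j.castSucc, g i j.succ} : Finset (Fin n)) = {a (v i) σ, o i σ} ∧
        ∀ z, S F (g i j.castSucc) (g i j.succ) z = S F (a (v i) σ) (o i σ) z) := by
    intro i j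
    fin_cases j
    · right
      refine ⟨false, ?_, ?_⟩
      · exact Finset.pair_comm _ _
      · intro z
        exact S_symm F _ _ _
    · left
      refine ⟨false, ?_, ?_⟩
      · exact Finset.pair_comm _ _
      · intro z
        exact S_symm F _ _ _
    · left
      exact ⟨true, rfl, fun z => rfl⟩
    · right
      exact ⟨true, rfl, fun z => rfl⟩
  refine ⟨g, ?_, ?_, ?_, ?_, ?_, ?_⟩
  · -- inj
    rintro ⟨i, j⟩ ⟨i', j'⟩ hh
    simp only at hh
    fin_cases j <;> fin_cases j'
    · exact Prod.ext (hoo _ _ _ _ hh).1 rfl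
    · exact absurd hh (hoa _ _ _ _)
    · exact absurd hh (hov _ _ _)
    · exact absurd hh (hoa _ _ _ _)
    · exact absurd (hoo _ _ _ _ hh).2 (by simp)
    · exact absurd hh.symm (hoa _ _ _ _)
    · exact Prod.ext (haa _ _ _ _ hh).1 rfl
    · exact absurd hh (hav _ _ _)
    · exact absurd (haa _ _ _ _ hh).2 (by simp)
    · exact absurd hh.symm (hoa _ _ _ _)
    · exact absurd hh.symm (hov _ _ _)
    · exact absurd hh.symm (hav _ _ _)
    · exact Prod.ext (hvinj _ _ hh) rfl
    · exact absurd hh.symm (hav _ _ _)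
    · exact absurd hh.symm (hov _ _ _)
    · exact absurd hh.symm (hoa _ _ _ _)
    · exact absurd (haa _ _ _ _ hh).2 (by simp)
    · exact absurd hh (hav _ _ _)
    · exact Prod.ext (haa _ _ _ _ hh).1 rfl
    · exact absurd hh.symm (hoa _ _ _ _)
    · exact absurd (hoo _ _ _ _ hh).2 (by simp)
    · exact absurd hh (hoa _ _ _ _)
    · exact absurd hh (hov _ _ _)
    · exact absurd hh (hoa _ _ _ _)
    · exact Prod.ext (hoo _ _ _ _ hh).1 rfl
  · -- light
    intro x hx
    refine hI.light x ?_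
    intro hxC
    obtain ⟨i, hi⟩ := hvsurj x hxC
    exact hx i 2 hi
  · -- ends
    intro i
    exact ⟨hodeg i false, hodeg i true⟩
  · -- sum
    intro x hx
    have hxC : x ∉ C ∧ ∀ w ∈ C, ∀ σ, a w σ ≠ x := by
      rcases hx with hx | ⟨i, hx | hx⟩
      · refine ⟨?_, ?_⟩
        · intro hxC
          obtain ⟨i, hi⟩ := hvsurj x hxC
          exact hx i 2 hi
        · intro w hw σ hh
          obtain ⟨i, rfl⟩ := hvsurj w hw
          cases σ
          · exact hx i 1 hh
          · exact hx i 3 hh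
      · refine ⟨?_, ?_⟩
        · intro hxC
          obtain ⟨j, hj⟩ := hvsurj x hxC
          exact hov i false j (hx.symm.trans hj.symm)
        · intro w hw σ hh
          obtain ⟨j, rfl⟩ := hvsurj w hw
          exact hoa i false j σ (hx.symm.trans hh.symm)
      · refine ⟨?_, ?_⟩
        · intro hxC
          obtain ⟨j, hj⟩ := hvsurj x hxC
          exact hov i true j (hx.symm.trans hj.symm)
        · intro w hw σ hh
          obtain ⟨j, rfl⟩ := hvsurj w hw
          exact hoa i true j σ (hx.symm.trans hh.symm)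
    have hsum := hI.sum x hxC.1 hxC.2
    have hre : ∑ w ∈ C, ∑ σ : Bool, ((S F w (a w σ) x).card : ℝ)
        = ∑ i : Fin C.card, ∑ σ : Bool, ((S F (v i) (a (v i) σ) x).card : ℝ) := by
      rw [← Finset.sum_coe_sort C (fun w => ∑ σ : Bool, ((S F w (a w σ) x).card : ℝ))]
      exact (Equiv.sum_comp e (fun w : C => ∑ σ : Bool, ((S F (w : Fin n) (a w σ) x).card : ℝ))).symm
    rw [hre] at hsum
    rw [Fintype.sum_prod_type]
    have hterm : ∀ i : Fin C.card,
        ∑ j : Fin 4, ((S F (g i j.castSucc) (g i j.succ) x).card : ℝ)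
          ≤ (∑ σ : Bool, ((S F (v i) (a (v i) σ) x).card : ℝ)) + 2 * (η * n) := by
      intro i
      rw [Fin.sum_univ_four, Fintype.sum_bool]
      have e0 : ((S F (g i (0 : Fin 4).castSucc) (g i (0 : Fin 4).succ) x).card : ℝ) ≤ η * n := by
        have : S F (g i (0 : Fin 4).castSucc) (g i (0 : Fin 4).succ) x
            = S F (a (v i) false) (o i false) x := S_symm F _ _ _
        rw [this]
        exact hoStage i false x
      have e1 : S F (g i (1 : Fin 4).castSucc) (g i (1 : Fin 4).succ) x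
            = S F (v i) (a (v i) false) x := S_symm F _ _ _
      have e2 : S F (g i (2 : Fin 4).castSucc) (g i (2 : Fin 4).succ) x
            = S F (v i) (a (v i) true) x := rfl
      have e3 : ((S F (g i (3 : Fin 4).castSucc) (g i (3 : Fin 4).succ) x).card : ℝ) ≤ η * n :=
        hoStage i true x
      rw [e1, e2]
      linarith
    have htot := Finset.sum_le_sum (fun i (_ : i ∈ (univ : Finset (Fin C.card))) => hterm i)
    rw [Finset.sum_add_distrib] at htot
    have hconst : ∑ _i : Fin C.card, 2 * (η * (n : ℝ)) = (C.card : ℝ) * (2 * (η * n)) := by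
      simp
    rw [hconst] at htot
    have hc : (C.card : ℝ) * (2 * (η * n)) ≤ 1 / 2400 * n := by
      have h2 : (C.card : ℝ) ≤ M := by exact_mod_cast hCM
      have : (2 * (M : ℝ)) * η ≤ 1 / 2400 := by
        rw [hη, mul_one_div, div_le_div_iff₀ (by positivity) (by norm_num)]
        nlinarith
      have h3 : (C.card : ℝ) * (2 * (η * n)) ≤ M * (2 * (η * n)) :=
        mul_le_mul_of_nonneg_right h2 (by positivity)
      have h4 : (M : ℝ) * (2 * (η * n)) = (2 * M * η) * n := by ring
      rw [h4] at h3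
      exact h3.trans (mul_le_mul_of_nonneg_right this hnpos.le)
    linarith
  · -- edge
    rintro ⟨i, j⟩
    rcases hedge i j with ⟨σ, _, hS⟩ | ⟨σ, _, hS⟩
    · simp only [hS]
      exact hI.edge _ (hvC i) σ
    · simp only [hS]
      have h1 : (∑ z, (S F (a (v i) σ) (o i σ) z).card : ℕ) ≤ 25 * deg F (a (v i) σ) :=
        sum_S_le F hF _ _
      have h2 : ∑ z, ((S F (a (v i) σ) (o i σ) z).card : ℝ) ≤ 25 * (deg F (a (v i) σ) : ℝ) := by
        exact_mod_cast h1
      have h3 := hI.low _ (hvC i) σ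
      have h4 : 25 * (T' * (n : ℝ) ^ 2) ≤ ρ * (n : ℝ) ^ 2 := by
        have : 25 * T' ≤ ρ := by linarith
        nlinarith [sq_nonneg (n : ℝ)]
      linarith
  · -- disj
    rintro ⟨i, j⟩ ⟨i', j'⟩ hcard
    simp only at hcard ⊢
    have hset : ({g i j.castSucc, g i j.succ, g i' j'.castSucc, g i' j'.succ} : Finset (Fin n))
        = {g i j.castSucc, g i j.succ} ∪ {g i' j'.castSucc, g i' j'.succ} := by
      ext z; simp only [Finset.mem_insert, Finset.mem_singleton, Finset.mem_union]; tauto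
    rw [hset] at hcard ⊢
    have hu : ∀ p q r s : Fin n, ({p, q} : Finset (Fin n)) ∪ {r, s} = {p, q, r, s} := by
      intro p q r s
      ext z; simp only [Finset.mem_insert, Finset.mem_singleton, Finset.mem_union]; tauto
    have hinout : ∀ i σ i' σ', (({v i, a (v i) σ} : Finset (Fin n)) ∪ {a (v i') σ', o i' σ'}).card
        = 4 → ¬ Cov F (({v i, a (v i) σ} : Finset (Fin n)) ∪ {a (v i') σ', o i' σ'}) := by
      intro i σ i' σ' hc hcov
      rw [hu] at hc hcov
      have hE : ((v i, a (v i) σ) : Fin n × Fin n) ∈ E := by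
        simp only [E]
        rw [Finset.mem_image]
        exact ⟨(v i, σ), by simp [hvC i], rfl⟩
      have := hyE (q (i', σ')) _ hE
      rw [hbq] at this
      exact this ((mem_S _ _ _ _ _).mpr ⟨hc, hcov⟩)
    rcases hedge i j with ⟨σ, hP, _⟩ | ⟨σ, hP, _⟩ <;>
      rcases hedge i' j' with ⟨σ', hP', _⟩ | ⟨σ', hP', _⟩
    · rw [hP, hP', hu] at hcard ⊢
      exact hI.conf _ (hvC i) _ (hvC i') σ σ' hcard
    · rw [hP, hP'] at hcard ⊢
      exact hinout i σ i' σ' hcard
    · rw [hP, hP', Finset.union_comm] at hcard ⊢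
      exact hinout i' σ' i σ hcard
    · rw [hP, hP'] at hcard ⊢
      have hne : (i', σ') ≠ (i, σ) := by
        intro hh
        rw [Prod.mk.injEq] at hh
        obtain ⟨rfl, rfl⟩ := hh
        rw [Finset.union_self] at hcard
        have := Finset.card_le_two (a := a (v i') σ') (b := o i' σ')
        omega
      intro hcov
      have := hyy (q (i', σ')) (q (i, σ)) (fun hh => hne (q.injective hh))
      rw [hbq, hbq] at this
      rw [hu] at hcard hcov
      exact this ((mem_S _ _ _ _ _).mpr ⟨hcard, hcov⟩)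

end Pool.Agent.R178.HY
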