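import Mathlib
import Pool.Agent.R178.HY.Defs

set_option autoImplicit false

open Finset

namespace Pool.Agent.R178.HY

namespace Asmx

variable {n : ℕ}

theorem sum_deg (F : Finset (Finset (Fin n))) (hF : Unif F) : ∑ v, deg F v = 5 * F.card := by
  have h1 : ∑ v : Fin n, deg F v = ∑ A ∈ F, A.card := by
    unfold deg
    simp only [card_filter]
    rw [sum_comm]
    apply sum_congr rfl
    intro A _
    simp
  rw [h1, sum_congr rfl hF, sum_const, smul_eq_mul, mul_comm]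

theorem mem_Hv (F : Finset (Finset (Fin n))) (T : ℝ) (v : Fin n) :
    v ∈ Hv F T ↔ T * (n : ℝ) ^ 2 ≤ (deg F v : ℝ) := by
  unfold Hv; simp

theorem mem_Lo (F : Finset (Finset (Fin n))) (T : ℝ) (v : Fin n) :
    v ∈ Lo F T ↔ (deg F v : ℝ) < T * (n : ℝ) ^ 2 := by
  unfold Lo; simp

theorem Hv_mono (F : Finset (Finset (Fin n))) {T T' : ℝ} (h : T' ≤ T) : Hv F T ⊆ Hv F T' := by
  intro v hv
  rw [mem_Hv] at hv ⊢
  refine le_trans ?_ hv
  apply mul_le_mul_of_nonneg_right h (by positivity)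

end Asmx

open Asmx

theorem t_SCALE (h : S_CORE) : S_YMAIN := by
  classical
  have h' : ∀ T : {T : ℝ // 0 < T ∧ T ≤ 1 / 100000}, ∃ T' : {T : ℝ // 0 < T ∧ T ≤ 1 / 100000},
      T'.1 < T.1 ∧ ∃ n0 : ℕ,
      ∀ n : ℕ, n0 ≤ n → ∀ F : Finset (Finset (Fin n)), Unif F → 17 * F.card ≤ n ^ 2 →
      (∑ v ∈ Hv F T'.1 \ Hv F T.1, (deg F v : ℝ)) ≤ (n : ℝ) ^ 2 / 10000000 →
        ∃ c : ZMod n ≃ Fin n, YAcc F c := by
    intro T
    obtain ⟨T', h1, h2, n0, h3⟩ := h T.1 T.2.1 T.2.2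
    exact ⟨⟨T', h1, by linarith [T.2.2]⟩, h2, n0, h3⟩
  choose f hf N hN using h'
  let t : ℕ → {T : ℝ // 0 < T ∧ T ≤ 1 / 100000} := fun j =>
    Nat.rec ⟨1 / 100000, by norm_num, le_rfl⟩ (fun _ x => f x) j
  have ht : ∀ j, t (j + 1) = f (t j) := fun j => rfl
  obtain ⟨J, hJ⟩ : ∃ J : ℕ, J = 3000000 := ⟨_, rfl⟩
  refine ⟨(range J).sup (fun j => N (t j)) + 1, ?_⟩
  intro n hn F hF hc
  by_contra hno
  have key : ∀ j : ℕ, j < J → (n : ℝ) ^ 2 / 10000000 <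
      (∑ v ∈ Hv F (t (j + 1)).1 \ Hv F (t j).1, (deg F v : ℝ)) := by
    intro j hj
    by_contra hlt
    apply hno
    apply hN (t j) n _ F hF hc
    · rw [← ht]
      exact not_lt.1 hlt
    · have : N (t j) ≤ (range J).sup (fun j => N (t j)) :=
        le_sup (f := fun j => N (t j)) (mem_range.2 hj)
      omega
  have key2 : ∀ j : ℕ, j ≤ J → (j : ℝ) * ((n : ℝ) ^ 2 / 10000000) ≤
      ∑ v ∈ Hv F (t j).1, (deg F v : ℝ) := by
    intro j
    induction j with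
    | zero => intro _; simp; exact sum_nonneg fun _ _ => Nat.cast_nonneg _
    | succ j ih =>
      intro hj
      have h1 := ih (by omega)
      have h2 := key j (by omega)
      have h3 : Hv F (t j).1 ⊆ Hv F (t (j + 1)).1 := by
        apply Hv_mono
        rw [ht]
        exact (hf (t j)).le
      have h4 := sum_sdiff (f := fun v => (deg F v : ℝ)) h3
      push_cast
      linarith
  have h5 := key2 J le_rfl
  have h6 : ∑ v ∈ Hv F (t J).1, (deg F v : ℝ) ≤ 5 * F.card := by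
    calc _ ≤ ∑ v, (deg F v : ℝ) :=
          sum_le_sum_of_subset_of_nonneg (subset_univ _) fun _ _ _ => Nat.cast_nonneg _
      _ = 5 * F.card := by
          have := sum_deg F hF
          exact_mod_cast this
  have h7 : (17 : ℝ) * F.card ≤ (n : ℝ) ^ 2 := by exact_mod_cast hc
  have h8 : (1 : ℝ) ≤ n := by
    have : 1 ≤ n := by omega
    exact_mod_cast this
  have h9 : (1 : ℝ) ≤ (n : ℝ) ^ 2 := by nlinarith
  have h10 : (J : ℝ) = 3000000 := by rw [hJ]; norm_num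
  rw [h10] at h5
  nlinarith

theorem t_XMAIN (h1 : S_XG) (h2 : S_XL) : S_XMAIN := by
  obtain ⟨n1, h1⟩ := h1
  obtain ⟨n2, h2⟩ := h2
  refine ⟨max n1 n2, ?_⟩
  intro n hn F hF hc
  obtain ⟨s, hs, g, hg⟩ := h1 n (le_trans (le_max_left _ _) hn) F hF hc
  exact h2 n (le_trans (le_max_right _ _) hn) F hF hc s hs g hg

theorem t_CORE (h1 : S_YL) (h2 : S_EXT1) (h3 : S_EXT2) (h4 : S_PRE) : S_CORE := by
  intro T hT hT2
  set M : ℕ := ⌊1000000 / T⌋₊ with hM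
  obtain ⟨ρ, hρ, n1, h1⟩ := h1 M
  obtain ⟨τ1, hτ1, h2⟩ := h2 T hT hT2 ρ hρ
  obtain ⟨τ2, hτ2, h3⟩ := h3 M ρ hρ
  obtain ⟨T', hT', hT'2, hT'3, n4, h4⟩ := h4 T hT hT2 (min τ1 τ2) (lt_min hτ1 hτ2)
  obtain ⟨n2, h2⟩ := h2 T' hT' (hT'2.trans (min_le_left _ _)) hT'3.le
  obtain ⟨n3, h3⟩ := h3 T' hT' (hT'2.trans (min_le_right _ _))
  refine ⟨T', hT', hT'3, max (max n1 n2) (max n3 n4), ?_⟩
  intro n hn F hF hc hm
  simp only [max_le_iff] at hn
  obtain ⟨a, ha⟩ := h4 n hn.2.2 F hF hc hm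
  obtain ⟨C, a', hC, ha'⟩ := h2 n hn.1.2 F hF hc a ha
  have hCM : C.card ≤ M := by
    rw [hM]
    exact Nat.le_floor hC
  obtain ⟨g, hg⟩ := h3 n hn.2.1 F hF hc C a' hCM ha'
  exact h1 n hn.1.1 F hF hc C.card hCM g hg

end Pool.Agent.R178.HY
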