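import Mathlib
import Pool.Agent.R178.HY.Asm

set_option autoImplicit false

open Finset Filter Topology

namespace Pool.Agent.R178.HY

theorem final (hBX : S_BX) (hUP : S_UP) (hNE : S_NE) (hX : S_XMAIN) (hY : S_YMAIN) :
    (∀ᶠ n : ℕ in atTop, (n : ℝ) ^ 2 / 17 < m1 [3, 1, 1] n ∧ (n : ℝ) ^ 2 / 17 < m1 [2, 2, 1] n) ∧
    (∃ᶠ n : ℕ in atTop, (m2 [3, 1, 1] [2, 2, 1] n : ℝ) ≤ (n : ℝ) ^ 2 / 18) := by
  obtain ⟨n1, hX⟩ := hX
  obtain ⟨n2, hY⟩ := hY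
  have hU : ∀ n : ℕ, Unif (powersetCard 5 (univ : Finset (Fin n))) := by
    intro n A hA
    exact (mem_powersetCard.1 hA).2
  constructor
  · filter_upwards [eventually_ge_atTop (max 5 (max n1 n2))] with n hn
    simp only [max_le_iff] at hn
    have h5 : (5 : ℕ) = ([3, 1, 1] : List ℕ).sum := rfl
    have h5' : (5 : ℕ) = ([2, 2, 1] : List ℕ).sum := rfl
    constructor
    · have hne : {N | ∃ F : Finset (Finset (Fin n)), (∀ A ∈ F, A.card = ([3, 1, 1] : List ℕ).sum) ∧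
          F.card = N ∧ ¬ ∃ c, Acc [3, 1, 1] F c}.Nonempty := by
        refine ⟨_, powersetCard 5 univ, hU n, rfl, ?_⟩
        rintro ⟨c, hc⟩
        exact (hNE n hn.1 c).1 ((hBX n hn.1 _ (hU n) c).1.1 hc)
      obtain ⟨F, hF1, hF2, hF3⟩ := Nat.sInf_mem hne
      have h1 : ¬ 17 * F.card ≤ n ^ 2 := by
        intro h
        obtain ⟨c, hc⟩ := hX n hn.2.1 F hF1 h
        exact hF3 ⟨c, (hBX n hn.1 F hF1 c).1.2 hc⟩
      have h2 : (n : ℝ) ^ 2 < 17 * F.card := by exact_mod_cast not_le.1 h1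
      have h3 : (m1 [3, 1, 1] n : ℝ) = F.card := by
        unfold m1
        rw [← hF2]
      rw [h3]
      linarith
    · have hne : {N | ∃ F : Finset (Finset (Fin n)), (∀ A ∈ F, A.card = ([2, 2, 1] : List ℕ).sum) ∧
          F.card = N ∧ ¬ ∃ c, Acc [2, 2, 1] F c}.Nonempty := by
        refine ⟨_, powersetCard 5 univ, hU n, rfl, ?_⟩
        rintro ⟨c, hc⟩
        exact (hNE n hn.1 c).2 ((hBX n hn.1 _ (hU n) c).2.1 hc)
      obtain ⟨F, hF1, hF2, hF3⟩ := Nat.sInf_mem hne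
      have h1 : ¬ 17 * F.card ≤ n ^ 2 := by
        intro h
        obtain ⟨c, hc⟩ := hY n hn.2.2 F hF1 h
        exact hF3 ⟨c, (hBX n hn.1 F hF1 c).2.2 hc⟩
      have h2 : (n : ℝ) ^ 2 < 17 * F.card := by exact_mod_cast not_le.1 h1
      have h3 : (m1 [2, 2, 1] n : ℝ) = F.card := by
        unfold m1
        rw [← hF2]
      rw [h3]
      linarith
  · rw [frequently_atTop]
    intro N
    have hlt : N < 3 ^ (N + 2) + 2 := by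
      have : N < 3 ^ N := Nat.lt_pow_self (by norm_num)
      have h2 : 3 ^ N ≤ 3 ^ (N + 2) := Nat.pow_le_pow_right (by norm_num) (by omega)
      omega
    obtain ⟨F, hF1, hF2, hF3⟩ := hUP N
    have h5 : 5 ≤ 3 ^ (N + 2) + 2 := by
      have : 3 ^ 2 ≤ 3 ^ (N + 2) := Nat.pow_le_pow_right (by norm_num) (by omega)
      omega
    refine ⟨3 ^ (N + 2) + 2, hlt.le, ?_⟩
    have h1 : m2 [3, 1, 1] [2, 2, 1] (3 ^ (N + 2) + 2) ≤ F.card := by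
      unfold m2
      apply Nat.sInf_le
      refine ⟨F, hF1, rfl, ?_⟩
      rintro ⟨c, hc1, hc2⟩
      exact hF3 c ⟨(hBX _ h5 F hF1 c).1.1 hc1, (hBX _ h5 F hF1 c).2.1 hc2⟩
    have h2 : (18 : ℝ) * F.card ≤ ((3 ^ (N + 2) + 2 : ℕ) : ℝ) ^ 2 := by exact_mod_cast hF2
    have h3 : (m2 [3, 1, 1] [2, 2, 1] (3 ^ (N + 2) + 2) : ℝ) ≤ F.card := by exact_mod_cast h1
    linarith

/-- from the bounds to the answer -/
theorem answer (h : (∀ᶠ n : ℕ in atTop,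
      (n : ℝ) ^ 2 / 17 < m1 [3, 1, 1] n ∧ (n : ℝ) ^ 2 / 17 < m1 [2, 2, 1] n) ∧
    (∃ᶠ n : ℕ in atTop, (m2 [3, 1, 1] [2, 2, 1] n : ℝ) ≤ (n : ℝ) ^ 2 / 18)) :
    (∃ᶠ n : ℕ in atTop, (m2 [3, 1, 1] [2, 2, 1] n : ℝ) ≤
      17 / 18 * min (m1 [3, 1, 1] n : ℝ) (m1 [2, 2, 1] n)) ∧
    ¬ ∀ x y : List ℕ, (∀ i ∈ x, 0 < i) → (∀ i ∈ y, 0 < i) → x.sum = y.sum →
      ∃ e : ℕ → ℝ, Tendsto e atTop (𝓝 0) ∧ ∀ᶠ n : ℕ in atTop,
        (m2 x y n : ℝ) = (1 + e n) * min (m1 x n : ℝ) (m1 y n) := by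
  obtain ⟨h1, h2⟩ := h
  have h3 : ∃ᶠ n : ℕ in atTop, (m2 [3, 1, 1] [2, 2, 1] n : ℝ) ≤
      17 / 18 * min (m1 [3, 1, 1] n : ℝ) (m1 [2, 2, 1] n) := by
    refine (h2.and_eventually h1).mono ?_
    rintro n ⟨a, b, c⟩
    have : (n : ℝ) ^ 2 / 17 < min (m1 [3, 1, 1] n : ℝ) (m1 [2, 2, 1] n) := lt_min b c
    linarith
  refine ⟨h3, ?_⟩
  intro hall
  obtain ⟨e, he, he2⟩ := hall [3, 1, 1] [2, 2, 1] (by simp) (by simp) rfl
  have h4 : ∀ᶠ n : ℕ in atTop, -(1 / 36) < e n := he.eventually (lt_mem_nhds (by norm_num))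
  obtain ⟨n, hn1, ⟨hn2, hn3⟩, hn4, hn5⟩ :=
    (h3.and_eventually (h1.and (he2.and h4))).exists
  have hpos : 0 < min (m1 [3, 1, 1] n : ℝ) (m1 [2, 2, 1] n) := by
    refine lt_of_le_of_lt ?_ (lt_min hn2 hn3)
    positivity
  rw [hn4] at hn1
  nlinarith

end Pool.Agent.R178.HY
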