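import Mathlib
import Pool.Agent.R178.HY.Defs
import Pool.Agent.R767.SS.LLL

/-!
# HY-LLL4 (MP_e42343_co): the local lemma for random permutations, sets of size at most 4
(adapted from `Pool.Agent.R767.SS.LLL`)
-/

set_option autoImplicit false

open Finset

namespace Pool.Agent.R178.HY

namespace LLL4x

open Pool.Agent.R767.SS

section lll

variable {V ι : Type} [Fintype V] [DecidableEq V] (b a : ι → Finset V)

open Classical in
/-- the local lemma with vertex sums -/
theorem lll_vertex [Fintype ι] (hcard : ∀ i, (b i).card = (a i).card) (hne : ∀ i, (b i).Nonempty)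
    (h3 : ∀ i, (b i).card ≤ 4)
    (hb : ∀ x : V, ∑ j ∈ univ.filter (fun j => x ∈ b j), pr b j ≤ 1 / 32)
    (ha : ∀ x : V, ∑ j ∈ univ.filter (fun j => x ∈ a j), pr b j ≤ 1 / 32) :
    ∃ σ : Equiv.Perm V, ∀ i, (b i).image σ ≠ a i := by
  apply lll b a hcard hne
  intro i
  have hsub : univ.filter (fun j => dep b a i j) ⊆
      (b i).biUnion (fun x => univ.filter (fun j => x ∈ b j)) ∪
      (a i).biUnion (fun x => univ.filter (fun j => x ∈ a j)) := by
    intro j hj
    have h1 := (mem_filter.1 hj).2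
    unfold dep at h1
    rw [mem_union, mem_biUnion, mem_biUnion]
    by_cases h2 : Disjoint (b j) (b i)
    · right
      have h4 : ¬ Disjoint (a j) (a i) := fun h => h1 ⟨h2, h⟩
      rw [not_disjoint_iff] at h4
      obtain ⟨x, hx1, hx2⟩ := h4
      exact ⟨x, hx2, mem_filter.2 ⟨mem_univ _, hx1⟩⟩
    · left
      rw [not_disjoint_iff] at h2
      obtain ⟨x, hx1, hx2⟩ := h2
      exact ⟨x, hx2, mem_filter.2 ⟨mem_univ _, hx1⟩⟩
  have hnn : ∀ j : ι, 0 ≤ pr b j := pr_nonneg b
  have hbound : ∀ (U : Finset V) (f : V → Finset ι), U.card ≤ 4 →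
      (∀ x, ∑ j ∈ f x, pr b j ≤ 1 / 32) → ∑ j ∈ U.biUnion f, pr b j ≤ 1 / 8 := by
    intro U f hU hf
    calc ∑ j ∈ U.biUnion f, pr b j ≤ ∑ x ∈ U, ∑ j ∈ f x, pr b j :=
          sum_biUnion_le hnn U f
      _ ≤ ∑ x ∈ U, (1 / 32 : ℝ) := sum_le_sum fun x _ => hf x
      _ = U.card * (1 / 32) := by rw [sum_const, nsmul_eq_mul]
      _ ≤ 4 * (1 / 32) := by
          have : (U.card : ℝ) ≤ 4 := by exact_mod_cast hU
          linarith
      _ = 1 / 8 := by norm_num
  calc ∑ j ∈ univ.filter (fun j => dep b a i j), pr b j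
      ≤ ∑ j ∈ (b i).biUnion (fun x => univ.filter (fun j => x ∈ b j)) ∪
      (a i).biUnion (fun x => univ.filter (fun j => x ∈ a j)), pr b j :=
        sum_le_sum_of_subset_of_nonneg hsub (fun j _ _ => hnn j)
    _ ≤ ∑ j ∈ (b i).biUnion (fun x => univ.filter (fun j => x ∈ b j)), pr b j +
        ∑ j ∈ (a i).biUnion (fun x => univ.filter (fun j => x ∈ a j)), pr b j := by
        have h9 := sum_union_inter (s₁ := (b i).biUnion (fun x => univ.filter (fun j => x ∈ b j)))
          (s₂ := (a i).biUnion (fun x => univ.filter (fun j => x ∈ a j))) (f := fun j => pr b j)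
        have h10 : 0 ≤ ∑ j ∈ (b i).biUnion (fun x => univ.filter (fun j => x ∈ b j)) ∩
          (a i).biUnion (fun x => univ.filter (fun j => x ∈ a j)), pr b j :=
          sum_nonneg fun j _ => hnn j
        linarith
    _ ≤ 1 / 8 + 1 / 8 := add_le_add (hbound _ _ (h3 i) hb)
        (hbound _ _ (by rw [← hcard]; exact h3 i) ha)
    _ = 1 / 4 := by norm_num

open Classical in
/-- the local lemma for permutations fixing `Q` pointwise -/
theorem lll_rel [Fintype ι] (Q : Finset V) (hcard : ∀ i, (b i).card = (a i).card)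
    (hne : ∀ i, (b i).Nonempty) (h3 : ∀ i, (b i).card ≤ 4) (hbQ : ∀ i, Disjoint (b i) Q)
    (haQ : ∀ i, Disjoint (a i) Q)
    (hb : ∀ x ∉ Q, ∑ j ∈ univ.filter (fun j => x ∈ b j),
      (((Fintype.card V - Q.card).choose (b j).card : ℕ) : ℝ)⁻¹ ≤ 1 / 32)
    (ha : ∀ x ∉ Q, ∑ j ∈ univ.filter (fun j => x ∈ a j),
      (((Fintype.card V - Q.card).choose (b j).card : ℕ) : ℝ)⁻¹ ≤ 1 / 32) :
    ∃ σ : Equiv.Perm V, (∀ v ∈ Q, σ v = v) ∧ ∀ i, (b i).image σ ≠ a i := by
  set b' : ι → Finset {v // v ∉ Q} := fun i => (b i).subtype (fun v => v ∉ Q) with hb'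
  set a' : ι → Finset {v // v ∉ Q} := fun i => (a i).subtype (fun v => v ∉ Q) with ha'
  have hcb : ∀ i, (b' i).card = (b i).card := by
    intro i
    rw [hb', card_subtype, filter_true_of_mem]
    intro v hv
    exact fun h => (disjoint_left.1 (hbQ i)) hv h
  have hca : ∀ i, (a' i).card = (a i).card := by
    intro i
    rw [ha', card_subtype, filter_true_of_mem]
    intro v hv
    exact fun h => (disjoint_left.1 (haQ i)) hv h
  have hcV : Fintype.card {v // v ∉ Q} = Fintype.card V - Q.card := by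
    rw [Fintype.card_subtype_compl, Fintype.card_coe]
  have hpr : ∀ j, pr b' j = (((Fintype.card V - Q.card).choose (b j).card : ℕ) : ℝ)⁻¹ := by
    intro j
    rw [pr, hcV, hcb]
  obtain ⟨σ, hσ⟩ := lll_vertex b' a' (fun i => by rw [hcb, hca, hcard])
    (fun i => card_pos.1 (by rw [hcb]; exact card_pos.2 (hne i))) (fun i => by rw [hcb]; exact h3 i)
    (fun x => by
      refine le_trans (le_of_eq ?_) (hb x.1 x.2)
      apply sum_congr
      · ext j
        simp [hb', mem_subtype]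
      · intro j _
        exact hpr j)
    (fun x => by
      refine le_trans (le_of_eq ?_) (ha x.1 x.2)
      apply sum_congr
      · ext j
        simp [ha', mem_subtype]
      · intro j _
        exact hpr j)
  refine ⟨Equiv.Perm.ofSubtype σ, fun v hv => ?_, fun i h => hσ i ?_⟩
  · exact Equiv.Perm.ofSubtype_apply_of_not_mem σ (by simpa using hv)
  · ext y
    rw [mem_image, ha', mem_subtype]
    rw [← h, mem_image]
    constructor
    · rintro ⟨x, hx, rfl⟩
      refine ⟨x.1, mem_subtype.1 hx, ?_⟩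
      rw [Equiv.Perm.ofSubtype_apply_coe]
    · rintro ⟨x, hx, hx2⟩
      have h1 : x ∉ Q := fun h => (disjoint_left.1 (hbQ i)) hx h
      refine ⟨⟨x, h1⟩, mem_subtype.2 hx, ?_⟩
      apply Subtype.ext
      rw [← hx2]
      exact (Equiv.Perm.ofSubtype_apply_coe σ ⟨x, h1⟩).symm

end lll

end LLL4x

theorem t_LLL4 : S_LLL4 := by
  intro V ι _ _ _ b a Q h1 h2 h3 h4 h5 h6 h7
  exact LLL4x.lll_rel b a Q h1 h2 h3 h4 h5 h6 h7

end Pool.Agent.R178.HY
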