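import Pool.Agent.R178.HY.Defs

/-!
Project HY, piece NA1: counting the events `NA_1` (helper850)
-/

set_option autoImplicit false

open Finset

namespace Pool.Agent.R178.HY

namespace NA1x

variable {n s : ℕ}

lemma card4 {α : Type} [DecidableEq α] {a b c d : α} (h : ({a, b, c, d} : Finset α).card = 4) :
    a ≠ b ∧ a ≠ c ∧ a ≠ d ∧ b ≠ c ∧ b ≠ d ∧ c ≠ d := by
  have key : ∀ u v w : α, ({a, b, c, d} : Finset α) ≠ {u, v, w} := by
    intro u v w he
    rw [he] at h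
    have := Finset.card_le_three (a := u) (b := v) (c := w)
    omega
  refine ⟨?_, ?_, ?_, ?_, ?_, ?_⟩
  · rintro rfl; exact key a c d (by ext z; simp)
  · rintro rfl; exact key a b d (by ext z; simp; tauto)
  · rintro rfl; exact key a b c (by ext z; simp; tauto)
  · rintro rfl; exact key a b d (by ext z; simp)
  · rintro rfl; exact key a b c (by ext z; simp; tauto)
  · rintro rfl; exact key a b c (by ext z; simp)

/-- positions of the edges with exactly one end in `Q` -/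
def J1 (g : Fin s → Fin 5 → Fin n) (c0 : ZMod n ≃ Fin n) : Finset (ZMod n) :=
  (univ.image (fun t : Fin s => c0.symm (g t 0) - 1)) ∪
    (univ.image (fun t : Fin s => c0.symm (g t 4)))

/-- positions of the edges with both ends in `Q` -/
def J2 (g : Fin s → Fin 5 → Fin n) (c0 : ZMod n ≃ Fin n) : Finset (ZMod n) :=
  univ.image (fun p : Fin s × Fin 4 => c0.symm (g p.1 p.2.castSucc))

lemma card_J1 (g : Fin s → Fin 5 → Fin n) (c0 : ZMod n ≃ Fin n) : (J1 g c0).card ≤ 2 * s := by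
  unfold J1
  refine (card_union_le _ _).trans ?_
  have h1 : (univ.image (fun t : Fin s => c0.symm (g t 0) - 1)).card ≤ s := by
    refine card_image_le.trans ?_
    rw [card_univ, Fintype.card_fin]
  have h2 : (univ.image (fun t : Fin s => c0.symm (g t 4))).card ≤ s := by
    refine card_image_le.trans ?_
    rw [card_univ, Fintype.card_fin]
  omega

lemma card_J2 (g : Fin s → Fin 5 → Fin n) (c0 : ZMod n ≃ Fin n) : (J2 g c0).card ≤ s * 4 := by
  unfold J2
  refine card_image_le.trans ?_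
  rw [card_univ, Fintype.card_prod, Fintype.card_fin, Fintype.card_fin]

lemma mem_J1a {g : Fin s → Fin 5 → Fin n} {c0 : ZMod n ≃ Fin n} (hC : ClsOK g c0) {i : ZMod n}
    (h1 : c0 i ∉ Q g) (h2 : c0 (i + 1) ∈ Q g) : i ∈ J1 g c0 := by
  obtain ⟨t, ht, -⟩ := hC.fq i h1 h2
  unfold J1
  rw [mem_union, mem_image]
  left
  exact ⟨t, mem_univ _, by rw [← ht, Equiv.symm_apply_apply, add_sub_cancel_right]⟩

lemma mem_J1b {g : Fin s → Fin 5 → Fin n} {c0 : ZMod n ≃ Fin n} (hC : ClsOK g c0) {i : ZMod n}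
    (h1 : c0 i ∈ Q g) (h2 : c0 (i + 1) ∉ Q g) : i ∈ J1 g c0 := by
  obtain ⟨t, ht, -⟩ := hC.qf i h1 h2
  unfold J1
  rw [mem_union, mem_image, mem_image]
  right
  exact ⟨t, mem_univ _, by rw [← ht, Equiv.symm_apply_apply]⟩

lemma mem_J2 {g : Fin s → Fin 5 → Fin n} {c0 : ZMod n ≃ Fin n} (hC : ClsOK g c0) {i : ZMod n}
    (h1 : c0 i ∈ Q g) (h2 : c0 (i + 1) ∈ Q g) : i ∈ J2 g c0 := by
  obtain ⟨t, j, ht, -⟩ := hC.qq i h1 h2
  unfold J2
  rw [mem_image]
  exact ⟨(t, j), mem_univ _, by rw [← ht, Equiv.symm_apply_apply]⟩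

end NA1x

open NA1x in
theorem t_NA1 : S_NA1 := by
  intro n s hn F g c0 ρ hU hF hρ h5 hS hC x hx
  have hmaps : ∀ q ∈ (YEv F g c0).filter (fun q => x ∈ q.2 ∧ (YP c0 q.1 \ Q g).card = 1),
      q.1 ∈ (J1 g c0 ×ˢ J2 g c0) ∪ (J2 g c0 ×ˢ J1 g c0) := by
    rintro ⟨⟨i, j⟩, A⟩ hq
    obtain ⟨h1, h2, h3⟩ := mem_filter.mp hq
    obtain ⟨-, e1, e2, e3, e4, -⟩ := mem_filter.mp h1
    obtain ⟨w, hw⟩ := card_eq_one.mp h3
    have hd := card4 (a := c0 i) (b := c0 (i + 1)) (c := c0 j) (d := c0 (j + 1)) e1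
    have honly : ∀ z ∈ YP c0 (i, j), z ≠ w → z ∈ Q g := by
      intro z hz hzw
      by_contra hzQ
      have : z ∈ YP c0 (i, j) \ Q g := mem_sdiff.mpr ⟨hz, hzQ⟩
      rw [hw] at this
      exact hzw (mem_singleton.mp this)
    have hwm : w ∈ YP c0 (i, j) \ Q g := by rw [hw]; exact mem_singleton_self w
    obtain ⟨hwP, hwQ⟩ := mem_sdiff.mp hwm
    have p1 : c0 i ∈ YP c0 (i, j) := by simp [YP]
    have p2 : c0 (i + 1) ∈ YP c0 (i, j) := by simp [YP]
    have p3 : c0 j ∈ YP c0 (i, j) := by simp [YP]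
    have p4 : c0 (j + 1) ∈ YP c0 (i, j) := by simp [YP]
    have hw' : w = c0 i ∨ w = c0 (i + 1) ∨ w = c0 j ∨ w = c0 (j + 1) := by
      simpa [YP] using hwP
    obtain ⟨d1, d2, d3, d4, d5, d6⟩ := hd
    rw [mem_union, mem_product, mem_product]
    rcases hw' with rfl | rfl | rfl | rfl
    · left
      exact ⟨mem_J1a hC hwQ (honly _ p2 d1.symm),
        mem_J2 hC (honly _ p3 d2.symm) (honly _ p4 d3.symm)⟩
    · left
      exact ⟨mem_J1b hC (honly _ p1 d1) hwQ,
        mem_J2 hC (honly _ p3 d4.symm) (honly _ p4 d5.symm)⟩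
    · right
      exact ⟨mem_J2 hC (honly _ p1 d2) (honly _ p2 d4),
        mem_J1a hC hwQ (honly _ p4 d6.symm)⟩
    · right
      exact ⟨mem_J2 hC (honly _ p1 d3) (honly _ p2 d5),
        mem_J1b hC (honly _ p3 d6) hwQ⟩
  have hdet : ∀ q ∈ (YEv F g c0).filter (fun q => x ∈ q.2 ∧ (YP c0 q.1 \ Q g).card = 1),
      q.2 = insert x (YP c0 q.1 ∩ Q g) := by
    intro q hq
    obtain ⟨h1, h2, h3⟩ := mem_filter.mp hq
    obtain ⟨-, e1, e2, e3, e4, -⟩ := mem_filter.mp h1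
    have hcard : (YP c0 q.1 ∩ Q g).card = 3 := by
      have := card_sdiff_add_card_inter (YP c0 q.1) (Q g)
      omega
    have hxn : x ∉ YP c0 q.1 ∩ Q g := fun h => hx (mem_inter.mp h).2
    refine (eq_of_subset_of_card_le ?_ ?_).symm
    · intro z hz
      rcases mem_insert.mp hz with rfl | hz
      · exact h2
      · rw [← e4] at hz
        exact (mem_inter.mp hz).1
    · rw [card_insert_of_notMem hxn, hcard, e2]
  have hinj : Set.InjOn (fun q : (ZMod n × ZMod n) × Finset (Fin n) => q.1)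
      ((YEv F g c0).filter (fun q => x ∈ q.2 ∧ (YP c0 q.1 \ Q g).card = 1)) := by
    intro p hp q hq h
    have h' : p.1 = q.1 := h
    refine Prod.ext h' ?_
    rw [hdet p hp, hdet q hq, h']
  have h1 : NA F g c0 x 1 ≤ ((J1 g c0 ×ˢ J2 g c0) ∪ (J2 g c0 ×ˢ J1 g c0)).card := by
    unfold NA
    exact card_le_card_of_injOn (fun q => q.1) hmaps hinj
  have h2 : ((J1 g c0 ×ˢ J2 g c0) ∪ (J2 g c0 ×ˢ J1 g c0)).card ≤
      (2 * s) * (s * 4) + (s * 4) * (2 * s) := by
    refine (card_union_le _ _).trans ?_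
    rw [card_product, card_product]
    exact Nat.add_le_add (Nat.mul_le_mul (card_J1 g c0) (card_J2 g c0))
      (Nat.mul_le_mul (card_J2 g c0) (card_J1 g c0))
  have h3 : (NA F g c0 x 1 : ℝ) ≤ (((2 * s) * (s * 4) + (s * 4) * (2 * s) : ℕ) : ℝ) := by
    exact_mod_cast h1.trans h2
  refine h3.trans ?_
  push_cast
  nlinarith [sq_nonneg (s : ℝ)]

end Pool.Agent.R178.HY
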