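import Pool.Agent.R178.HY.NA3

/-!
Project HY (MP_e42343_co): piece NA_2 (helper551)
-/

set_option autoImplicit false

open Finset

namespace Pool.Agent.R178.HY

namespace NA2x

variable {n : ℕ}

/-- positions of the cycle edges with exactly one end in `Q` are among these -/
def EE [NeZero n] {s : ℕ} (g : Fin s → Fin 5 → Fin n) (c0 : ZMod n ≃ Fin n) : Finset (ZMod n) :=
  (NA3x.ends g).image (fun u => c0.symm u) ∪ (NA3x.ends g).image (fun u => c0.symm u - 1)

theorem EE_card [NeZero n] {s : ℕ} (g : Fin s → Fin 5 → Fin n) (c0 : ZMod n ≃ Fin n) :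
    (EE g c0).card ≤ 4 * s := by
  unfold EE
  refine (card_union_le _ _).trans ?_
  have h1 : ((NA3x.ends g).image (fun u => c0.symm u)).card ≤ 2 * s :=
    card_image_le.trans (NA3x.ends_card g)
  have h2 : ((NA3x.ends g).image (fun u => c0.symm u - 1)).card ≤ 2 * s :=
    card_image_le.trans (NA3x.ends_card g)
  omega

theorem mem_EE [NeZero n] {s : ℕ} {g : Fin s → Fin 5 → Fin n} {c0 : ZMod n ≃ Fin n}
    (hC : ClsOK g c0) (i : ZMod n) (h : ¬ (c0 i ∈ Q g ∧ c0 (i + 1) ∈ Q g))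
    (h' : c0 i ∈ Q g ∨ c0 (i + 1) ∈ Q g) : i ∈ EE g c0 := by
  unfold EE
  rcases h' with h' | h'
  · have h2 : c0 (i + 1) ∉ Q g := fun h3 => h ⟨h', h3⟩
    refine mem_union_left _ (mem_image.mpr ⟨c0 i, (NA3x.end_of hC i).1 h' h2, ?_⟩)
    exact c0.symm_apply_apply i
  · have h2 : c0 i ∉ Q g := fun h3 => h ⟨h3, h'⟩
    refine mem_union_right _ (mem_image.mpr ⟨c0 (i + 1), (NA3x.end_of hC i).2 h2 h', ?_⟩)
    simp

/-- events with a segment edge -/
def BS [NeZero n] {s : ℕ} (F : Finset (Finset (Fin n))) (g : Fin s → Fin 5 → Fin n)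
    (c0 : ZMod n ≃ Fin n) (x : Fin n) (f : ZMod n → ZMod n → ZMod n × ZMod n) :
    Finset ((ZMod n × ZMod n) × Finset (Fin n)) :=
  (univ : Finset (Fin s × Fin 4)).biUnion (fun p =>
    ((univ : Finset (ZMod n)) ×ˢ (S F (g p.1 p.2.castSucc) (g p.1 p.2.succ) x)).image
      (fun r => (f (c0.symm (g p.1 p.2.castSucc)) r.1,
        ({g p.1 p.2.castSucc, g p.1 p.2.succ, x, r.2} : Finset (Fin n)))))

theorem BS_card [NeZero n] {s : ℕ} (F : Finset (Finset (Fin n))) (g : Fin s → Fin 5 → Fin n)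
    (c0 : ZMod n ≃ Fin n) (x : Fin n) (f : ZMod n → ZMod n → ZMod n × ZMod n) :
    ((BS F g c0 x f).card : ℝ) ≤ (n : ℝ) * ∑ p : Fin s × Fin 4,
      ((S F (g p.1 p.2.castSucc) (g p.1 p.2.succ) x).card : ℝ) := by
  have h : (BS F g c0 x f).card ≤ ∑ p : Fin s × Fin 4,
      n * (S F (g p.1 p.2.castSucc) (g p.1 p.2.succ) x).card := by
    unfold BS
    refine card_biUnion_le.trans (sum_le_sum fun p _ => ?_)
    refine card_image_le.trans ?_
    rw [card_product, card_univ, ZMod.card]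
  rw [mul_sum]
  exact_mod_cast h

/-- events with two mixed edges -/
def BM [NeZero n] {s : ℕ} (g : Fin s → Fin 5 → Fin n)
    (c0 : ZMod n ≃ Fin n) (x : Fin n) : Finset ((ZMod n × ZMod n) × Finset (Fin n)) :=
  ((EE g c0 ×ˢ EE g c0) ×ˢ (univ : Finset (Fin n))).image
      (fun r => (r.1, (YP c0 r.1 ∩ Q g) ∪ {x, r.2}))

theorem BM_card [NeZero n] {s : ℕ} (g : Fin s → Fin 5 → Fin n)
    (c0 : ZMod n ≃ Fin n) (x : Fin n) : (BM g c0 x).card ≤ (4 * s) * (4 * s) * n := by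
  unfold BM
  refine card_image_le.trans ?_
  rw [card_product, card_product, card_univ, Fintype.card_fin]
  exact Nat.mul_le_mul_right _ (Nat.mul_le_mul (EE_card g c0) (EE_card g c0))

theorem mem_BM [NeZero n] {s : ℕ} {g : Fin s → Fin 5 → Fin n}
    {c0 : ZMod n ≃ Fin n} {x : Fin n} (q1 : ZMod n × ZMod n) (A : Finset (Fin n)) (y : Fin n)
    (m1 : q1.1 ∈ EE g c0) (m2 : q1.2 ∈ EE g c0) (h : (YP c0 q1 ∩ Q g) ∪ {x, y} = A) :
    (q1, A) ∈ BM g c0 x := by
  unfold BM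
  rw [mem_image]
  refine ⟨(q1, y), ?_, ?_⟩
  · rw [mem_product, mem_product]
    exact ⟨⟨m1, m2⟩, mem_univ _⟩
  · rw [h]

theorem mem_BS [NeZero n] {s : ℕ} {F : Finset (Finset (Fin n))} {g : Fin s → Fin 5 → Fin n}
    {c0 : ZMod n ≃ Fin n} {x : Fin n} (f : ZMod n → ZMod n → ZMod n × ZMod n)
    (p : Fin s × Fin 4) (i j : ZMod n) (y : Fin n) (A : Finset (Fin n))
    (f1 : c0.symm (g p.1 p.2.castSucc) = i)
    (f2 : y ∈ S F (g p.1 p.2.castSucc) (g p.1 p.2.succ) x)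
    (f3 : ({g p.1 p.2.castSucc, g p.1 p.2.succ, x, y} : Finset (Fin n)) = A) :
    (f i j, A) ∈ BS F g c0 x f := by
  unfold BS
  rw [mem_biUnion]
  refine ⟨p, mem_univ _, ?_⟩
  rw [mem_image]
  refine ⟨(j, y), ?_, ?_⟩
  · rw [mem_product]
    exact ⟨mem_univ _, f2⟩
  · show (f (c0.symm (g p.1 p.2.castSucc)) j, _) = _
    rw [f1, f3]

theorem swap4 (a b c d : Fin n) : ({a, b, c, d} : Finset (Fin n)) = {c, d, a, b} := by
  ext z
  simp only [mem_insert, mem_singleton]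
  constructor
  · rintro (h | h | h | h) <;> simp [h]
  · rintro (h | h | h | h) <;> simp [h]

theorem two_of {A : Finset (Fin n)} {x : Fin n} (hx : x ∈ A) (h : A.card = 2) :
    ∃ y, A = {x, y} := by
  obtain ⟨a, b, hab, rfl⟩ := card_eq_two.mp h
  rcases mem_insert.mp hx with h1 | h1
  · exact ⟨b, by rw [h1]⟩
  · have h2 := mem_singleton.mp h1
    exact ⟨a, by rw [h2, pair_comm]⟩

/-- an event whose edge at `i` is a segment edge -/
theorem seg_case [NeZero n] {s : ℕ} {F : Finset (Finset (Fin n))} {g : Fin s → Fin 5 → Fin n}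
    {c0 : ZMod n ≃ Fin n} (hC : ClsOK g c0) {x : Fin n} (i : ZMod n) {P A : Finset (Fin n)}
    (h1 : c0 i ∈ Q g) (h2 : c0 (i + 1) ∈ Q g) (hne : c0 i ≠ c0 (i + 1)) (p1 : c0 i ∈ P)
    (p2 : c0 (i + 1) ∈ P) (hPQ : (P ∩ Q g).card = 2) (hA : A.card = 4) (hcov : Cov F A)
    (hAQ : A ∩ Q g = P ∩ Q g) (y : Fin n) (hy : A \ Q g = {x, y}) :
    ∃ p : Fin s × Fin 4, c0.symm (g p.1 p.2.castSucc) = i ∧
      y ∈ S F (g p.1 p.2.castSucc) (g p.1 p.2.succ) x ∧
      ({g p.1 p.2.castSucc, g p.1 p.2.succ, x, y} : Finset (Fin n)) = A := by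
  obtain ⟨t, j, e1, e2⟩ := hC.qq i h1 h2
  have hset : P ∩ Q g = {c0 i, c0 (i + 1)} := by
    symm
    apply eq_of_subset_of_card_le
    · intro z hz
      rcases mem_insert.mp hz with h | h
      · rw [h]; exact mem_inter.mpr ⟨p1, h1⟩
      · rw [mem_singleton.mp h]; exact mem_inter.mpr ⟨p2, h2⟩
    · rw [hPQ, card_pair hne]
  have hAeq : ({g t j.castSucc, g t j.succ, x, y} : Finset (Fin n)) = A := by
    rw [← e1, ← e2]
    have : A = (A ∩ Q g) ∪ (A \ Q g) := by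
      ext z; simp only [mem_union, mem_inter, mem_sdiff]; tauto
    rw [this, hAQ, hset, hy]
    ext z
    simp only [mem_insert, mem_singleton, mem_union]
    tauto
  refine ⟨(t, j), ?_, ?_, hAeq⟩
  · show c0.symm (g t j.castSucc) = i
    rw [← e1, c0.symm_apply_apply]
  · show y ∈ S F (g t j.castSucc) (g t j.succ) x
    unfold S
    rw [mem_filter, hAeq]
    exact ⟨mem_univ _, hA, hcov⟩

end NA2x

open NA2x in
theorem t_NA2 : S_NA2 := by
  intro n s hn F g c0 ρ hU hF hρ h5 hS hC x hx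
  have hsum := hS.sum x (Or.inl (NA3x.notMem_Q hx))
  obtain ⟨B1, hB1⟩ : ∃ B, B = BS F g c0 x (fun i j => (i, j)) := ⟨_, rfl⟩
  obtain ⟨B2, hB2⟩ : ∃ B, B = BS F g c0 x (fun i j => (j, i)) := ⟨_, rfl⟩
  obtain ⟨B3, hB3⟩ : ∃ B, B = BM g c0 x := ⟨_, rfl⟩
  have c1 : (B1.card : ℝ) ≤ (n : ℝ) * ((n : ℝ) / 400) := by
    rw [hB1]
    exact (BS_card F g c0 x _).trans (mul_le_mul_of_nonneg_left hsum (Nat.cast_nonneg n))
  have c2 : (B2.card : ℝ) ≤ (n : ℝ) * ((n : ℝ) / 400) := by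
    rw [hB2]
    exact (BS_card F g c0 x _).trans (mul_le_mul_of_nonneg_left hsum (Nat.cast_nonneg n))
  have c3 : (B3.card : ℝ) ≤ 16 * (s : ℝ) ^ 2 * n := by
    have h1 : B3.card ≤ (4 * s) * (4 * s) * n := by
      rw [hB3]; exact BM_card g c0 x
    have h2 : (B3.card : ℝ) ≤ (4 * (s : ℝ)) * (4 * s) * n := by exact_mod_cast h1
    linarith [h2, (by ring : (4 * (s : ℝ)) * (4 * s) * n = 16 * (s : ℝ) ^ 2 * n)]
  have hne : ∀ i : ZMod n, c0 i ≠ c0 (i + 1) := by
    intro i h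
    have h' := c0.injective h
    have h0 : (1 : ZMod n) = 0 := by
      have : i + 1 = i + 0 := by rw [add_zero]; exact h'.symm
      exact add_left_cancel this
    have hn1 : Fact (1 < n) := ⟨by omega⟩
    exact one_ne_zero h0
  have hsub : (YEv F g c0).filter (fun q => x ∈ q.2 ∧ (YP c0 q.1 \ Q g).card = 2) ⊆
      (B1 ∪ B2) ∪ B3 := by
    intro q hq
    obtain ⟨h1, h2, h3⟩ := mem_filter.mp hq
    obtain ⟨-, e1, e2, e3, e4, -⟩ := mem_filter.mp h1
    have hcard : (YP c0 q.1 ∩ Q g).card = 2 := by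
      have := card_sdiff_add_card_inter (YP c0 q.1) (Q g)
      omega
    have hAc : (q.2 \ Q g).card = 2 := by
      have := card_sdiff_add_card_inter q.2 (Q g)
      rw [e4, hcard] at this
      omega
    obtain ⟨y, hy⟩ := two_of (mem_sdiff.mpr ⟨h2, hx⟩) hAc
    have p1 : c0 q.1.1 ∈ YP c0 q.1 := by simp [YP]
    have p2 : c0 (q.1.1 + 1) ∈ YP c0 q.1 := by simp [YP]
    have p3 : c0 q.1.2 ∈ YP c0 q.1 := by simp [YP]
    have p4 : c0 (q.1.2 + 1) ∈ YP c0 q.1 := by simp [YP]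
    by_cases hab : c0 q.1.1 ∈ Q g ∧ c0 (q.1.1 + 1) ∈ Q g
    · refine mem_union_left _ (mem_union_left _ ?_)
      obtain ⟨p, f1, f2, f3⟩ := seg_case hC q.1.1 hab.1 hab.2 (hne _) p1 p2 hcard e2 e3 e4 y hy
      rw [hB1]
      exact mem_BS (fun i j => (i, j)) p q.1.1 q.1.2 y q.2 f1 f2 f3
    · by_cases hcd : c0 q.1.2 ∈ Q g ∧ c0 (q.1.2 + 1) ∈ Q g
      · refine mem_union_left _ (mem_union_right _ ?_)
        obtain ⟨p, f1, f2, f3⟩ := seg_case hC q.1.2 hcd.1 hcd.2 (hne _) p3 p4 hcard e2 e3 e4 y hy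
        rw [hB2]
        exact mem_BS (fun i j => (j, i)) p q.1.2 q.1.1 y q.2 f1 f2 f3
      · refine mem_union_right _ ?_
        have key : ∀ a b c d : Fin n, YP c0 q.1 = {a, b, c, d} → ¬ (c ∈ Q g ∧ d ∈ Q g) →
            a ∈ Q g ∨ b ∈ Q g := by
          intro a b c d hP hcd'
          by_contra hn'
          push Not at hn'
          have hsub2 : YP c0 q.1 ∩ Q g ⊆ {c, d} := by
            intro z hz
            obtain ⟨z1, z2⟩ := mem_inter.mp hz
            rw [hP] at z1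
            simp only [mem_insert, mem_singleton] at z1 ⊢
            rcases z1 with h | h | h | h
            · exact absurd (h ▸ z2) hn'.1
            · exact absurd (h ▸ z2) hn'.2
            · exact Or.inl h
            · exact Or.inr h
          have heq : YP c0 q.1 ∩ Q g = {c, d} :=
            eq_of_subset_of_card_le hsub2 (by rw [hcard]; exact card_le_two)
          apply hcd'
          constructor
          · have : c ∈ YP c0 q.1 ∩ Q g := by rw [heq]; simp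
            exact (mem_inter.mp this).2
          · have : d ∈ YP c0 q.1 ∩ Q g := by rw [heq]; simp
            exact (mem_inter.mp this).2
        have k1 := key (c0 q.1.1) (c0 (q.1.1 + 1)) (c0 q.1.2) (c0 (q.1.2 + 1)) rfl hcd
        have k2 := key (c0 q.1.2) (c0 (q.1.2 + 1)) (c0 q.1.1) (c0 (q.1.1 + 1))
          (swap4 _ _ _ _) hab
        have m1 := mem_EE hC q.1.1 hab k1
        have m2 := mem_EE hC q.1.2 hcd k2
        rw [hB3]
        refine mem_BM q.1 q.2 y m1 m2 ?_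
        rw [← e4, ← hy, union_comm]
        exact sdiff_union_inter q.2 (Q g)
  have h1 : NA F g c0 x 2 ≤ (B1.card + B2.card) + B3.card := by
    unfold NA
    refine (card_le_card hsub).trans ((card_union_le _ _).trans ?_)
    exact Nat.add_le_add_right (card_union_le _ _) _
  have h2 : (NA F g c0 x 2 : ℝ) ≤ ((B1.card : ℝ) + (B2.card : ℝ)) + (B3.card : ℝ) := by
    exact_mod_cast h1
  have h3 : (0 : ℝ) ≤ (s : ℝ) ^ 2 * n := by positivity
  linarith

end Pool.Agent.R178.HY
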