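import Mathlib
import Pool.Agent.R178.HY.Defs

/-!
Project HY (MP_e42343_co): pieces NA_3 and NA_4 (helper780)
-/

set_option autoImplicit false

open Finset

namespace Pool.Agent.R178.HY

namespace NA3x

variable {n : ℕ}

/-- covered 4-sets containing `u` -/
def cov4 (F : Finset (Finset (Fin n))) (u : Fin n) : Finset (Finset (Fin n)) :=
  univ.filter (fun A => A.card = 4 ∧ Cov F A ∧ u ∈ A)

theorem cov4_card {F : Finset (Finset (Fin n))} (hF : Unif F) (u : Fin n) :
    (cov4 F u).card ≤ 4 * deg F u := by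
  have hsub : cov4 F u ⊆ (F.filter (fun A => u ∈ A)).biUnion
      (fun M => (M.erase u).image (fun y => M.erase y)) := by
    intro A hA
    obtain ⟨-, h4, ⟨M, hM, hAM⟩, hu⟩ := mem_filter.mp hA
    rw [mem_biUnion]
    refine ⟨M, mem_filter.mpr ⟨hM, hAM hu⟩, ?_⟩
    have h5 := hF M hM
    have hlt : A.card < M.card := by omega
    obtain ⟨y, hyM, hyA⟩ := exists_mem_notMem_of_card_lt_card hlt
    rw [mem_image]
    refine ⟨y, mem_erase.mpr ⟨fun h => hyA (h ▸ hu), hyM⟩, ?_⟩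
    refine (eq_of_subset_of_card_le ?_ ?_).symm
    · intro z hz
      exact mem_erase.mpr ⟨fun h => hyA (h ▸ hz), hAM hz⟩
    · rw [card_erase_of_mem hyM]; omega
  refine (card_le_card hsub).trans ?_
  refine (card_biUnion_le_card_mul _ _ 4 (fun M hM => ?_)).trans ?_
  · refine card_image_le.trans ?_
    obtain ⟨hM, hu⟩ := mem_filter.mp hM
    rw [card_erase_of_mem hu, hF M hM]
  · unfold deg
    rw [mul_comm]

/-- the ends of the segments -/
def ends {s : ℕ} (g : Fin s → Fin 5 → Fin n) : Finset (Fin n) :=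
  univ.image (fun t => g t 0) ∪ univ.image (fun t => g t 4)

theorem ends_card {s : ℕ} (g : Fin s → Fin 5 → Fin n) : (ends g).card ≤ 2 * s := by
  unfold ends
  refine (card_union_le _ _).trans ?_
  have h1 : (univ.image (fun t => g t 0)).card ≤ s := by
    refine card_image_le.trans ?_
    rw [card_univ, Fintype.card_fin]
  have h2 : (univ.image (fun t => g t 4)).card ≤ s := by
    refine card_image_le.trans ?_
    rw [card_univ, Fintype.card_fin]
  omega

theorem fam_card [NeZero n] {s : ℕ} {F : Finset (Finset (Fin n))} (hU : Unif F)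
    {g : Fin s → Fin 5 → Fin n} {ρ : ℝ} (hρ : 0 ≤ ρ)
    (hends : ∀ u ∈ ends g, (deg F u : ℝ) ≤ ρ * (n : ℝ) ^ 2)
    (f : ZMod n × ZMod n → Fin n)
    (hf : ∀ u, (univ.filter (fun p => f p = u)).card ≤ n) :
    ((univ.filter (fun q : (ZMod n × ZMod n) × Finset (Fin n) =>
      f q.1 ∈ ends g ∧ q.2 ∈ cov4 F (f q.1))).card : ℝ) ≤ 8 * s * ρ * (n : ℝ) ^ 3 := by
  have hsub : (univ.filter (fun q : (ZMod n × ZMod n) × Finset (Fin n) =>
      f q.1 ∈ ends g ∧ q.2 ∈ cov4 F (f q.1))) ⊆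
      (ends g).biUnion (fun u => (univ.filter (fun p => f p = u)) ×ˢ cov4 F u) := by
    intro q hq
    obtain ⟨-, h1, h2⟩ := mem_filter.mp hq
    rw [mem_biUnion]
    exact ⟨f q.1, h1, mem_product.mpr ⟨mem_filter.mpr ⟨mem_univ _, rfl⟩, h2⟩⟩
  have h1 : (univ.filter (fun q : (ZMod n × ZMod n) × Finset (Fin n) =>
      f q.1 ∈ ends g ∧ q.2 ∈ cov4 F (f q.1))).card ≤ ∑ u ∈ ends g, n * (4 * deg F u) := by
    refine (card_le_card hsub).trans (card_biUnion_le.trans (sum_le_sum fun u _ => ?_))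
    rw [card_product]
    exact Nat.mul_le_mul (hf u) (cov4_card hU u)
  have h2 : ((∑ u ∈ ends g, n * (4 * deg F u) : ℕ) : ℝ) ≤
      ∑ u ∈ ends g, (n : ℝ) * (4 * (ρ * (n : ℝ) ^ 2)) := by
    push_cast
    refine sum_le_sum fun u hu => ?_
    have := hends u hu
    have hn : (0 : ℝ) ≤ n := Nat.cast_nonneg n
    exact mul_le_mul_of_nonneg_left (by linarith) hn
  have h3 : ((univ.filter (fun q : (ZMod n × ZMod n) × Finset (Fin n) =>
      f q.1 ∈ ends g ∧ q.2 ∈ cov4 F (f q.1))).card : ℝ) ≤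
      ((∑ u ∈ ends g, n * (4 * deg F u) : ℕ) : ℝ) := by exact_mod_cast h1
  refine h3.trans (h2.trans ?_)
  rw [sum_const, nsmul_eq_mul]
  have h4 : ((ends g).card : ℝ) ≤ 2 * s := by exact_mod_cast ends_card g
  have h5 : (0 : ℝ) ≤ (n : ℝ) * (4 * (ρ * (n : ℝ) ^ 2)) := by positivity
  calc ((ends g).card : ℝ) * ((n : ℝ) * (4 * (ρ * (n : ℝ) ^ 2)))
      ≤ (2 * s) * ((n : ℝ) * (4 * (ρ * (n : ℝ) ^ 2))) := mul_le_mul_of_nonneg_right h4 h5
    _ = 8 * s * ρ * (n : ℝ) ^ 3 := by ring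

theorem pos1 [NeZero n] (c0 : ZMod n ≃ Fin n) (a : ZMod n) (u : Fin n) :
    (univ.filter (fun p : ZMod n × ZMod n => c0 (p.1 + a) = u)).card ≤ n := by
  calc (univ.filter (fun p : ZMod n × ZMod n => c0 (p.1 + a) = u)).card
      ≤ (univ : Finset (ZMod n)).card := by
        refine card_le_card_of_injOn (fun p => p.2) (fun _ _ => mem_univ _) ?_
        intro p hp q hq h
        have hp' : c0 (p.1 + a) = u := (mem_filter.mp hp).2
        have hq' : c0 (q.1 + a) = u := (mem_filter.mp hq).2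
        have h1 : p.1 + a = q.1 + a := c0.injective (hp'.trans hq'.symm)
        exact Prod.ext (add_right_cancel h1) h
    _ = n := by rw [card_univ, ZMod.card]

theorem pos2 [NeZero n] (c0 : ZMod n ≃ Fin n) (a : ZMod n) (u : Fin n) :
    (univ.filter (fun p : ZMod n × ZMod n => c0 (p.2 + a) = u)).card ≤ n := by
  calc (univ.filter (fun p : ZMod n × ZMod n => c0 (p.2 + a) = u)).card
      ≤ (univ : Finset (ZMod n)).card := by
        refine card_le_card_of_injOn (fun p => p.1) (fun _ _ => mem_univ _) ?_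
        intro p hp q hq h
        have hp' : c0 (p.2 + a) = u := (mem_filter.mp hp).2
        have hq' : c0 (q.2 + a) = u := (mem_filter.mp hq).2
        have h1 : p.2 + a = q.2 + a := c0.injective (hp'.trans hq'.symm)
        exact Prod.ext h (add_right_cancel h1)
    _ = n := by rw [card_univ, ZMod.card]

theorem notMem_Q {s : ℕ} {g : Fin s → Fin 5 → Fin n} {x : Fin n} (hx : x ∉ Q g) :
    ∀ i j, g i j ≠ x := by
  intro i j h
  apply hx
  unfold Q
  rw [mem_image]
  exact ⟨(i, j), mem_univ _, h⟩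

/-- a cycle edge with exactly one end in `Q` -/
theorem end_of {s : ℕ} {g : Fin s → Fin 5 → Fin n} {c0 : ZMod n ≃ Fin n} (hC : ClsOK g c0)
    (i : ZMod n) : (c0 i ∈ Q g → c0 (i + 1) ∉ Q g → c0 i ∈ ends g) ∧
      (c0 i ∉ Q g → c0 (i + 1) ∈ Q g → c0 (i + 1) ∈ ends g) := by
  constructor
  · intro h1 h2
    obtain ⟨t, ht, -⟩ := hC.qf i h1 h2
    rw [ht]
    exact mem_union_right _ (mem_image_of_mem _ (mem_univ t))
  · intro h1 h2
    obtain ⟨t, ht, -⟩ := hC.fq i h1 h2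
    rw [ht]
    exact mem_union_left _ (mem_image_of_mem _ (mem_univ t))

end NA3x

open NA3x in
theorem t_NA4 : S_NA4 := by
  intro n s hn F g c0 ρ hU hF hρ h5 hS hC x hx
  have hlight := hS.light x (notMem_Q hx)
  have hsub : (YEv F g c0).filter (fun q => x ∈ q.2 ∧ (YP c0 q.1 \ Q g).card = 4) ⊆
      (univ : Finset (ZMod n × ZMod n)) ×ˢ cov4 F x := by
    intro q hq
    obtain ⟨h1, h2, -⟩ := mem_filter.mp hq
    obtain ⟨-, -, h3, h4, -⟩ := mem_filter.mp h1
    exact mem_product.mpr ⟨mem_univ _, mem_filter.mpr ⟨mem_univ _, h3, h4, h2⟩⟩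
  have h1 : NA F g c0 x 4 ≤ n ^ 2 * (4 * deg F x) := by
    unfold NA
    refine (card_le_card hsub).trans ?_
    rw [card_product, card_univ, Fintype.card_prod, ZMod.card, ← sq]
    exact Nat.mul_le_mul_left _ (cov4_card hU x)
  have h2 : (NA F g c0 x 4 : ℝ) ≤ (n : ℝ) ^ 2 * (4 * (deg F x : ℝ)) := by exact_mod_cast h1
  refine h2.trans ?_
  have : (0 : ℝ) ≤ (n : ℝ) ^ 2 := by positivity
  exact mul_le_mul_of_nonneg_left (by linarith) this

open NA3x in
theorem t_NA3 : S_NA3 := by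
  intro n s hn F g c0 ρ hU hF hρ h5 hS hC x hx
  have hends : ∀ u ∈ ends g, (deg F u : ℝ) ≤ ρ * (n : ℝ) ^ 2 := by
    intro u hu
    rcases mem_union.mp hu with h | h
    · obtain ⟨t, -, rfl⟩ := mem_image.mp h
      exact (hS.ends t).1
    · obtain ⟨t, -, rfl⟩ := mem_image.mp h
      exact (hS.ends t).2
  have b1 := fam_card hU hρ hends (fun p => c0 (p.1 + 0)) (pos1 c0 0)
  have b2 := fam_card hU hρ hends (fun p => c0 (p.1 + 1)) (pos1 c0 1)
  have b3 := fam_card hU hρ hends (fun p => c0 (p.2 + 0)) (pos2 c0 0)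
  have b4 := fam_card hU hρ hends (fun p => c0 (p.2 + 1)) (pos2 c0 1)
  set A1 := (univ.filter (fun q : (ZMod n × ZMod n) × Finset (Fin n) =>
      c0 (q.1.1 + 0) ∈ ends g ∧ q.2 ∈ cov4 F (c0 (q.1.1 + 0)))) with hA1
  set A2 := (univ.filter (fun q : (ZMod n × ZMod n) × Finset (Fin n) =>
      c0 (q.1.1 + 1) ∈ ends g ∧ q.2 ∈ cov4 F (c0 (q.1.1 + 1)))) with hA2
  set A3 := (univ.filter (fun q : (ZMod n × ZMod n) × Finset (Fin n) =>
      c0 (q.1.2 + 0) ∈ ends g ∧ q.2 ∈ cov4 F (c0 (q.1.2 + 0)))) with hA3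
  set A4 := (univ.filter (fun q : (ZMod n × ZMod n) × Finset (Fin n) =>
      c0 (q.1.2 + 1) ∈ ends g ∧ q.2 ∈ cov4 F (c0 (q.1.2 + 1)))) with hA4
  have hsub : (YEv F g c0).filter (fun q => x ∈ q.2 ∧ (YP c0 q.1 \ Q g).card = 3) ⊆
      (A1 ∪ A2) ∪ (A3 ∪ A4) := by
    intro q hq
    obtain ⟨h1, h2, h3⟩ := mem_filter.mp hq
    obtain ⟨-, e1, e2, e3, e4, -⟩ := mem_filter.mp h1
    have hcard : (YP c0 q.1 ∩ Q g).card = 1 := by
      have := card_sdiff_add_card_inter (YP c0 q.1) (Q g)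
      omega
    obtain ⟨u, hu⟩ := card_eq_one.mp hcard
    have huP : u ∈ YP c0 q.1 ∩ Q g := by rw [hu]; exact mem_singleton_self u
    have huA : u ∈ q.2 := by
      have : u ∈ q.2 ∩ Q g := by rw [e4]; exact huP
      exact (mem_inter.mp this).1
    have huQ : u ∈ Q g := (mem_inter.mp huP).2
    have huniq : ∀ w ∈ YP c0 q.1, w ∈ Q g → w = u := by
      intro w hw hwQ
      have : w ∈ YP c0 q.1 ∩ Q g := mem_inter.mpr ⟨hw, hwQ⟩
      rw [hu] at this
      exact mem_singleton.mp this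
    have hcov : q.2 ∈ cov4 F u := mem_filter.mpr ⟨mem_univ _, e2, e3, huA⟩
    have p1 : c0 q.1.1 ∈ YP c0 q.1 := by simp [YP]
    have p2 : c0 (q.1.1 + 1) ∈ YP c0 q.1 := by simp [YP]
    have p3 : c0 q.1.2 ∈ YP c0 q.1 := by simp [YP]
    have p4 : c0 (q.1.2 + 1) ∈ YP c0 q.1 := by simp [YP]
    -- the two ends of an edge are different
    have hne : ∀ i : ZMod n, c0 i ≠ c0 (i + 1) := by
      intro i h
      have h' := c0.injective h
      have h0 : (1 : ZMod n) = 0 := by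
        have : i + 1 = i + 0 := by rw [add_zero]; exact h'.symm
        exact add_left_cancel this
      have hn1 : Fact (1 < n) := ⟨by omega⟩
      exact one_ne_zero h0
    have hu' : u = c0 q.1.1 ∨ u = c0 (q.1.1 + 1) ∨ u = c0 q.1.2 ∨ u = c0 (q.1.2 + 1) := by
      have := (mem_inter.mp huP).1
      simpa [YP] using this
    rcases hu' with h | h | h | h
    · refine mem_union_left _ (mem_union_left _ (mem_filter.mpr ⟨mem_univ _, ?_⟩))
      rw [add_zero, ← h]
      refine ⟨?_, hcov⟩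
      rw [h]
      refine (end_of hC q.1.1).1 (h ▸ huQ) (fun hq' => ?_)
      exact hne q.1.1 (by rw [huniq _ p2 hq', ← h])
    · refine mem_union_left _ (mem_union_right _ (mem_filter.mpr ⟨mem_univ _, ?_⟩))
      rw [← h]
      refine ⟨?_, hcov⟩
      rw [h]
      refine (end_of hC q.1.1).2 (fun hq' => ?_) (h ▸ huQ)
      exact hne q.1.1 (by rw [huniq _ p1 hq', ← h])
    · refine mem_union_right _ (mem_union_left _ (mem_filter.mpr ⟨mem_univ _, ?_⟩))
      rw [add_zero, ← h]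
      refine ⟨?_, hcov⟩
      rw [h]
      refine (end_of hC q.1.2).1 (h ▸ huQ) (fun hq' => ?_)
      exact hne q.1.2 (by rw [huniq _ p4 hq', ← h])
    · refine mem_union_right _ (mem_union_right _ (mem_filter.mpr ⟨mem_univ _, ?_⟩))
      rw [← h]
      refine ⟨?_, hcov⟩
      rw [h]
      refine (end_of hC q.1.2).2 (fun hq' => ?_) (h ▸ huQ)
      exact hne q.1.2 (by rw [huniq _ p3 hq', ← h])
  have h1 : NA F g c0 x 3 ≤ (A1.card + A2.card) + (A3.card + A4.card) := by
    unfold NA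
    refine (card_le_card hsub).trans ((card_union_le _ _).trans ?_)
    exact add_le_add (card_union_le _ _) (card_union_le _ _)
  have h2 : (NA F g c0 x 3 : ℝ) ≤
      ((A1.card : ℝ) + (A2.card : ℝ)) + ((A3.card : ℝ) + (A4.card : ℝ)) := by exact_mod_cast h1
  have h3 : (0 : ℝ) ≤ s * ρ * (n : ℝ) ^ 3 := by positivity
  linarith

end Pool.Agent.R178.HY
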