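import Mathlib
import Pool.Agent.R178.HY.Defs

/-!
Project HY, piece NB1: counting the events `NB_1`, `NB_2`.
-/

set_option autoImplicit false

open Finset

namespace Pool.Agent.R178.HY

namespace NB1x

variable {n s : ℕ}

lemma card4 {α : Type} [DecidableEq α] {a b c d : α} (h : ({a, b, c, d} : Finset α).card = 4) :
    a ≠ b ∧ a ≠ c ∧ a ≠ d ∧ b ≠ c ∧ b ≠ d ∧ c ≠ d := by
  have key : ∀ u v w : α, ({a, b, c, d} : Finset α) ≠ {u, v, w} := by
    intro u v w he
    rw [he] at h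
    have := Finset.card_le_three (a := u) (b := v) (c := w)
    omega
  refine ⟨?_, ?_, ?_, ?_, ?_, ?_⟩
  · rintro rfl; exact key a c d (by ext z; simp)
  · rintro rfl; exact key a b d (by ext z; simp; tauto)
  · rintro rfl; exact key a b c (by ext z; simp; tauto)
  · rintro rfl; exact key a b d (by ext z; simp)
  · rintro rfl; exact key a b c (by ext z; simp; tauto)
  · rintro rfl; exact key a b c (by ext z; simp)

lemma card4' {α : Type} [DecidableEq α] {a b c d : α} (h1 : a ≠ b) (h2 : a ≠ c) (h3 : a ≠ d)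
    (h4 : b ≠ c) (h5 : b ≠ d) (h6 : c ≠ d) : ({a, b, c, d} : Finset α).card = 4 := by
  rw [Finset.card_insert_of_notMem, Finset.card_insert_of_notMem, Finset.card_insert_of_notMem,
    Finset.card_singleton]
  · simpa using h6
  · simp [h4, h5]
  · simp [h1, h2, h3]

lemma decomp1 {α : Type} [DecidableEq α] {A : Finset α} {a b c : α}
    (h3 : ({a, b, c} : Finset α).card = 3) (hsub : ({a, b, c} : Finset α) ⊆ A)
    (hA : A.card = 4) : ∃ y, A = {a, b, c, y} := by
  have hc1 : (A \ {a, b, c}).card = 1 := by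
    rw [Finset.card_sdiff_of_subset hsub, h3, hA]
  obtain ⟨y, hy⟩ := Finset.card_eq_one.1 hc1
  refine ⟨y, ?_⟩
  have e3 : A = {a, b, c} ∪ (A \ {a, b, c}) := (Finset.union_sdiff_of_subset hsub).symm
  rw [hy] at e3
  rw [e3]
  ext v
  simp only [Finset.mem_insert, Finset.mem_singleton, Finset.mem_union, or_assoc]

lemma decomp2 {α : Type} [DecidableEq α] {A : Finset α} {a b : α}
    (hab : a ≠ b) (hsub : ({a, b} : Finset α) ⊆ A)
    (hA : A.card = 4) : ∃ z y, A = {a, b, z, y} := by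
  have hc1 : (A \ {a, b}).card = 2 := by
    rw [Finset.card_sdiff_of_subset hsub, Finset.card_pair hab, hA]
  obtain ⟨z, y, hzy, hy⟩ := Finset.card_eq_two.1 hc1
  refine ⟨z, y, ?_⟩
  have e3 : A = {a, b} ∪ (A \ {a, b}) := (Finset.union_sdiff_of_subset hsub).symm
  rw [hy] at e3
  rw [e3]
  ext v
  simp only [Finset.mem_insert, Finset.mem_singleton, Finset.mem_union, or_assoc]

variable [NeZero n] {F : Finset (Finset (Fin n))} {g : Fin s → Fin 5 → Fin n}
  {c0 : ZMod n ≃ Fin n} {x : Fin n}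

/-- events with `x` on the first edge -/
def E1 (F : Finset (Finset (Fin n))) (g : Fin s → Fin 5 → Fin n) (c0 : ZMod n ≃ Fin n)
    (x : Fin n) (r : ℕ) : Finset ((ZMod n × ZMod n) × Finset (Fin n)) :=
  (YEv F g c0).filter (fun q => (x = c0 q.1.1 ∨ x = c0 (q.1.1 + 1)) ∧
    (YP c0 q.1 \ Q g).card = r)

lemma YP_swap (i j : ZMod n) : YP c0 (i, j) = YP c0 (j, i) := by
  unfold YP
  ext z
  simp only [Finset.mem_insert, Finset.mem_singleton]
  tauto

lemma NB_le (r : ℕ) : NB F g c0 x r ≤ 2 * (E1 F g c0 x r).card := by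
  have hsub : (YEv F g c0).filter (fun q => x ∈ YP c0 q.1 ∧ (YP c0 q.1 \ Q g).card = r) ⊆
      E1 F g c0 x r ∪ (E1 F g c0 x r).image (fun q => ((q.1.2, q.1.1), q.2)) := by
    rintro ⟨⟨i, j⟩, A⟩ hq
    rw [Finset.mem_filter] at hq
    obtain ⟨h1, h2, h3⟩ := hq
    have h2' := h2
    simp only [YP, Finset.mem_insert, Finset.mem_singleton] at h2'
    rw [Finset.mem_union]
    by_cases hx : x = c0 i ∨ x = c0 (i + 1)
    · left
      unfold E1
      rw [Finset.mem_filter]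
      exact ⟨h1, hx, h3⟩
    · right
      rw [Finset.mem_image]
      refine ⟨((j, i), A), ?_, rfl⟩
      unfold E1
      rw [Finset.mem_filter]
      unfold YEv at h1 ⊢
      rw [Finset.mem_filter] at h1 ⊢
      simp only at h1 h3 ⊢
      rw [YP_swap] at h1 h3
      refine ⟨⟨mem_univ _, h1.2⟩, ?_, h3⟩
      rcases h2' with h | h | h | h
      · exact absurd (Or.inl h) hx
      · exact absurd (Or.inr h) hx
      · exact Or.inl h
      · exact Or.inr h
  unfold NB
  refine le_trans (Finset.card_le_card hsub) (le_trans (Finset.card_union_le _ _) ?_)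
  have := Finset.card_image_le (s := E1 F g c0 x r) (f := fun q => ((q.1.2, q.1.1), q.2))
  omega

/-- basic facts on an event -/
lemma ev_facts {i j : ZMod n} {A : Finset (Fin n)} (h : ((i, j), A) ∈ YEv F g c0) :
    (YP c0 (i, j)).card = 4 ∧ A.card = 4 ∧ Cov F A ∧ A ∩ Q g = YP c0 (i, j) ∩ Q g := by
  unfold YEv at h
  rw [Finset.mem_filter] at h
  exact ⟨h.2.1, h.2.2.1, h.2.2.2.1, h.2.2.2.2.1⟩

lemma mem_YP {i j : ZMod n} {z : Fin n} : z ∈ YP c0 (i, j) ↔
    z = c0 i ∨ z = c0 (i + 1) ∨ z = c0 j ∨ z = c0 (j + 1) := by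
  simp [YP]

lemma g_mem_Q (i : Fin s) (j : Fin 5) : g i j ∈ Q g :=
  Finset.mem_image.2 ⟨(i, j), mem_univ _, rfl⟩

/-- events with a fixed first edge `{x, u}` and one free vertex -/
lemma core1 {ρ : ℝ} (hSeg : SegOK F g ρ) (hCls : ClsOK g c0) (hx : x ∉ Q g) (i0 : ZMod n)
    (u : Fin n) (hu : ∃ t, u = g t 0 ∨ u = g t 4) (hxu : (c0 i0 = x ∧ c0 (i0 + 1) = u) ∨
      (c0 i0 = u ∧ c0 (i0 + 1) = x)) :
    (((E1 F g c0 x 1).filter (fun q => q.1.1 = i0)).card : ℝ) ≤ (n : ℝ) / 400 := by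
  have huQ : u ∈ Q g := by
    obtain ⟨t, h | h⟩ := hu <;> rw [h] <;> exact g_mem_Q _ _
  obtain ⟨T, hT⟩ : ∃ T : Finset (Σ _ : Fin s × Fin 4, Fin n), T =
    (univ : Finset (Fin s × Fin 4)).sigma
      (fun p => S F (g p.1 p.2.castSucc) (g p.1 p.2.succ) u) := ⟨_, rfl⟩
  have hsub : (E1 F g c0 x 1).filter (fun q => q.1.1 = i0) ⊆
      T.image (fun w => ((i0, c0.symm (g w.1.1 w.1.2.castSucc)),
        ({g w.1.1 w.1.2.castSucc, g w.1.1 w.1.2.succ, u, w.2} : Finset (Fin n)))) := by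
    rintro ⟨⟨i, j⟩, A⟩ hq
    rw [Finset.mem_filter] at hq
    obtain ⟨hq1, hq2⟩ := hq
    have hi : i = i0 := hq2
    subst hi
    unfold E1 at hq1
    rw [Finset.mem_filter] at hq1
    obtain ⟨hev, _, hcard⟩ := hq1
    obtain ⟨f1, f2, f3, f4⟩ := ev_facts hev
    have hd := card4 (a := c0 i) (b := c0 (i + 1)) (c := c0 j) (d := c0 (j + 1)) f1
    have hcard' : (YP c0 (i, j) \ Q g).card = 1 := hcard
    have hxP : x ∈ YP c0 (i, j) \ Q g := by
      rw [Finset.mem_sdiff, mem_YP]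
      refine ⟨?_, hx⟩
      rcases hxu with ⟨h, _⟩ | ⟨_, h⟩
      · exact Or.inl h.symm
      · exact Or.inr (Or.inl h.symm)
    obtain ⟨w, hw⟩ := Finset.card_eq_one.1 hcard'
    have hxw : x = w := by rw [hw] at hxP; exact Finset.mem_singleton.1 hxP
    have honly : ∀ z ∈ YP c0 (i, j), z ≠ x → z ∈ Q g := by
      intro z hz hzx
      by_contra hzQ
      have : z ∈ YP c0 (i, j) \ Q g := Finset.mem_sdiff.2 ⟨hz, hzQ⟩
      rw [hw, Finset.mem_singleton, ← hxw] at this
      exact hzx this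
    have hjx : c0 j ≠ x ∧ c0 (j + 1) ≠ x ∧ c0 j ≠ u ∧ c0 (j + 1) ≠ u ∧ x ≠ u := by
      obtain ⟨d1, d2, d3, d4, d5, d6⟩ := hd
      rcases hxu with ⟨h1, h2⟩ | ⟨h1, h2⟩
      · rw [h1] at d1 d2 d3
        rw [h2] at d1 d4 d5
        exact ⟨d2.symm, d3.symm, d4.symm, d5.symm, d1⟩
      · rw [h1] at d1 d2 d3
        rw [h2] at d1 d4 d5
        exact ⟨d4.symm, d5.symm, d2.symm, d3.symm, d1.symm⟩
    have hj1 : c0 j ∈ Q g := honly _ (mem_YP.2 (Or.inr (Or.inr (Or.inl rfl)))) hjx.1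
    have hj2 : c0 (j + 1) ∈ Q g := honly _ (mem_YP.2 (Or.inr (Or.inr (Or.inr rfl)))) hjx.2.1
    obtain ⟨t, jj, e1, e2⟩ := hCls.qq j hj1 hj2
    have hQA : ∀ z, z ∈ YP c0 (i, j) → z ∈ Q g → z ∈ A := by
      intro z hz hzQ
      have : z ∈ YP c0 (i, j) ∩ Q g := Finset.mem_inter.2 ⟨hz, hzQ⟩
      rw [← f4] at this
      exact (Finset.mem_inter.1 this).1
    have hjA : c0 j ∈ A := hQA _ (mem_YP.2 (Or.inr (Or.inr (Or.inl rfl)))) hj1
    have hj1A : c0 (j + 1) ∈ A := hQA _ (mem_YP.2 (Or.inr (Or.inr (Or.inr rfl)))) hj2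
    have huA : u ∈ A := by
      apply hQA _ _ huQ
      rw [mem_YP]
      rcases hxu with ⟨_, h⟩ | ⟨h, _⟩
      · exact Or.inr (Or.inl h.symm)
      · exact Or.inl h.symm
    -- the fourth element
    have h3 : ({c0 j, c0 (j + 1), u} : Finset (Fin n)).card = 3 := by
      rw [Finset.card_insert_of_notMem, Finset.card_insert_of_notMem, Finset.card_singleton]
      · simpa using hjx.2.2.2.1
      · simp [hd.2.2.2.2.2, hjx.2.2.1]
    have hsub3 : ({c0 j, c0 (j + 1), u} : Finset (Fin n)) ⊆ A := by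
      intro z hz
      simp only [Finset.mem_insert, Finset.mem_singleton] at hz
      rcases hz with rfl | rfl | rfl
      · exact hjA
      · exact hj1A
      · exact huA
    obtain ⟨y, hA⟩ := decomp1 h3 hsub3 f2
    rw [Finset.mem_image]
    refine ⟨⟨(t, jj), y⟩, ?_, ?_⟩
    · rw [hT, Finset.mem_sigma]
      refine ⟨mem_univ _, ?_⟩
      show y ∈ S F (g t jj.castSucc) (g t jj.succ) u
      unfold S
      rw [Finset.mem_filter, ← e1, ← e2, ← hA]
      exact ⟨mem_univ _, f2, f3⟩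
    · show ((i, c0.symm (g t jj.castSucc)), ({g t jj.castSucc, g t jj.succ, u, y} :
        Finset (Fin n))) = ((i, j), A)
      rw [← e1, ← e2, ← hA, Equiv.symm_apply_apply]
  have hle : ((E1 F g c0 x 1).filter (fun q => q.1.1 = i0)).card ≤
      ∑ p : Fin s × Fin 4, (S F (g p.1 p.2.castSucc) (g p.1 p.2.succ) u).card := by
    refine le_trans (Finset.card_le_card hsub) (le_trans Finset.card_image_le ?_)
    rw [hT, Finset.card_sigma]
  have hs := hSeg.sum u (Or.inr hu)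
  refine le_trans ?_ hs
  exact_mod_cast hle

/-- covered 4-sets containing `u` -/
lemma cov4 (hU : Unif F) (u : Fin n) :
    ((univ : Finset (Finset (Fin n))).filter (fun A => A.card = 4 ∧ Cov F A ∧ u ∈ A)).card ≤
      4 * deg F u := by
  have hsub : (univ : Finset (Finset (Fin n))).filter (fun A => A.card = 4 ∧ Cov F A ∧ u ∈ A) ⊆
      (F.filter (fun M => u ∈ M)).biUnion (fun M => (M.erase u).image (fun w => M.erase w)) := by
    intro A hA
    rw [Finset.mem_filter] at hA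
    obtain ⟨_, h1, ⟨M, hM, hAM⟩, h2⟩ := hA
    rw [Finset.mem_biUnion]
    refine ⟨M, Finset.mem_filter.2 ⟨hM, hAM h2⟩, ?_⟩
    rw [Finset.mem_image]
    have hc : (M \ A).card = 1 := by
      rw [Finset.card_sdiff_of_subset hAM, hU M hM, h1]
    obtain ⟨w, hw⟩ := Finset.card_eq_one.1 hc
    have hwM : w ∈ M \ A := by rw [hw]; exact Finset.mem_singleton_self w
    rw [Finset.mem_sdiff] at hwM
    refine ⟨w, Finset.mem_erase.2 ⟨fun h => hwM.2 (h ▸ h2), hwM.1⟩, ?_⟩
    ext z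
    rw [Finset.mem_erase]
    constructor
    · rintro ⟨hz1, hz2⟩
      by_contra hz3
      have : z ∈ M \ A := Finset.mem_sdiff.2 ⟨hz2, hz3⟩
      rw [hw, Finset.mem_singleton] at this
      exact hz1 this
    · intro hz
      exact ⟨fun h => hwM.2 (h ▸ hz), hAM hz⟩
  refine le_trans (Finset.card_le_card hsub) (le_trans Finset.card_biUnion_le ?_)
  refine le_trans (Finset.sum_le_card_nsmul _ _ 4 ?_) ?_
  · intro M hM
    rw [Finset.mem_filter] at hM
    refine le_trans Finset.card_image_le ?_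
    rw [Finset.card_erase_of_mem hM.2, hU M hM.1]
  · unfold deg
    rw [smul_eq_mul, mul_comm]

/-- events with both vertices of the first edge free, two free vertices -/
lemma core2a {ρ : ℝ} (hSeg : SegOK F g ρ) (hCls : ClsOK g c0) (i0 : ZMod n)
    (h0 : c0 i0 ∉ Q g) (h1 : c0 (i0 + 1) ∉ Q g) :
    (((E1 F g c0 x 2).filter (fun q => q.1.1 = i0)).card : ℝ) ≤ 4 * s * (ρ * (n : ℝ) ^ 2) := by
  obtain ⟨T, hT⟩ : ∃ T : Finset (Σ _ : (Fin s × Fin 4) × Fin n, Fin n), T =
    (univ : Finset ((Fin s × Fin 4) × Fin n)).sigma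
      (fun p => S F (g p.1.1 p.1.2.castSucc) (g p.1.1 p.1.2.succ) p.2) := ⟨_, rfl⟩
  have hsub : (E1 F g c0 x 2).filter (fun q => q.1.1 = i0) ⊆
      T.image (fun w => ((i0, c0.symm (g w.1.1.1 w.1.1.2.castSucc)),
        ({g w.1.1.1 w.1.1.2.castSucc, g w.1.1.1 w.1.1.2.succ, w.1.2, w.2} :
          Finset (Fin n)))) := by
    rintro ⟨⟨i, j⟩, A⟩ hq
    rw [Finset.mem_filter] at hq
    obtain ⟨hq1, hq2⟩ := hq
    have hi : i = i0 := hq2
    subst hi
    unfold E1 at hq1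
    rw [Finset.mem_filter] at hq1
    obtain ⟨hev, _, hcard⟩ := hq1
    obtain ⟨f1, f2, f3, f4⟩ := ev_facts hev
    have hd := card4 (a := c0 i) (b := c0 (i + 1)) (c := c0 j) (d := c0 (j + 1)) f1
    have hcard' : (YP c0 (i, j) \ Q g).card = 2 := hcard
    have hsub2 : ({c0 i, c0 (i + 1)} : Finset (Fin n)) ⊆ YP c0 (i, j) \ Q g := by
      intro z hz
      simp only [Finset.mem_insert, Finset.mem_singleton] at hz
      rw [Finset.mem_sdiff, mem_YP]
      rcases hz with rfl | rfl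
      · exact ⟨Or.inl rfl, h0⟩
      · exact ⟨Or.inr (Or.inl rfl), h1⟩
    have heq2 : ({c0 i, c0 (i + 1)} : Finset (Fin n)) = YP c0 (i, j) \ Q g := by
      apply Finset.eq_of_subset_of_card_le hsub2
      rw [hcard', Finset.card_pair hd.1]
    have honly : ∀ z ∈ YP c0 (i, j), z ≠ c0 i → z ≠ c0 (i + 1) → z ∈ Q g := by
      intro z hz hz1 hz2
      by_contra hzQ
      have : z ∈ YP c0 (i, j) \ Q g := Finset.mem_sdiff.2 ⟨hz, hzQ⟩
      rw [← heq2] at this
      rcases Finset.mem_insert.1 this with h | h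
      · exact hz1 h
      · exact hz2 (Finset.mem_singleton.1 h)
    have hj1 : c0 j ∈ Q g := honly _ (mem_YP.2 (Or.inr (Or.inr (Or.inl rfl)))) hd.2.1.symm
      hd.2.2.2.1.symm
    have hj2 : c0 (j + 1) ∈ Q g := honly _ (mem_YP.2 (Or.inr (Or.inr (Or.inr rfl))))
      hd.2.2.1.symm hd.2.2.2.2.1.symm
    obtain ⟨t, jj, e1, e2⟩ := hCls.qq j hj1 hj2
    have hQA : ∀ z, z ∈ YP c0 (i, j) → z ∈ Q g → z ∈ A := by
      intro z hz hzQ
      have : z ∈ YP c0 (i, j) ∩ Q g := Finset.mem_inter.2 ⟨hz, hzQ⟩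
      rw [← f4] at this
      exact (Finset.mem_inter.1 this).1
    have hjA : c0 j ∈ A := hQA _ (mem_YP.2 (Or.inr (Or.inr (Or.inl rfl)))) hj1
    have hj1A : c0 (j + 1) ∈ A := hQA _ (mem_YP.2 (Or.inr (Or.inr (Or.inr rfl)))) hj2
    have hsubA : ({c0 j, c0 (j + 1)} : Finset (Fin n)) ⊆ A := by
      intro z hz
      simp only [Finset.mem_insert, Finset.mem_singleton] at hz
      rcases hz with rfl | rfl
      · exact hjA
      · exact hj1A
    obtain ⟨z, y, hA⟩ := decomp2 hd.2.2.2.2.2 hsubA f2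
    rw [Finset.mem_image]
    refine ⟨⟨((t, jj), z), y⟩, ?_, ?_⟩
    · rw [hT, Finset.mem_sigma]
      refine ⟨mem_univ _, ?_⟩
      show y ∈ S F (g t jj.castSucc) (g t jj.succ) z
      unfold S
      rw [Finset.mem_filter, ← e1, ← e2, ← hA]
      exact ⟨mem_univ _, f2, f3⟩
    · show ((i, c0.symm (g t jj.castSucc)), ({g t jj.castSucc, g t jj.succ, z, y} :
        Finset (Fin n))) = ((i, j), A)
      rw [← e1, ← e2, ← hA, Equiv.symm_apply_apply]
  have hle : ((E1 F g c0 x 2).filter (fun q => q.1.1 = i0)).card ≤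
      ∑ p : (Fin s × Fin 4) × Fin n, (S F (g p.1.1 p.1.2.castSucc) (g p.1.1 p.1.2.succ) p.2).card := by
    refine le_trans (Finset.card_le_card hsub) (le_trans Finset.card_image_le ?_)
    rw [hT, Finset.card_sigma]
  have hle' : (((E1 F g c0 x 2).filter (fun q => q.1.1 = i0)).card : ℝ) ≤
      ∑ p : (Fin s × Fin 4) × Fin n,
        ((S F (g p.1.1 p.1.2.castSucc) (g p.1.1 p.1.2.succ) p.2).card : ℝ) := by
    exact_mod_cast hle
  refine le_trans hle' ?_
  rw [Fintype.sum_prod_type]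
  refine le_trans (Finset.sum_le_card_nsmul _ _ (ρ * (n : ℝ) ^ 2) ?_) ?_
  · intro p _
    exact hSeg.edge p
  · rw [Finset.card_univ, Fintype.card_prod, Fintype.card_fin, Fintype.card_fin, nsmul_eq_mul]
    push_cast
    apply le_of_eq
    ring

/-- events with a fixed first edge `{x, u}` and two free vertices -/
lemma core2b {ρ : ℝ} (hρ : 0 ≤ ρ) (hU : Unif F) (hSeg : SegOK F g ρ) (hCls : ClsOK g c0)
    (hx : x ∉ Q g) (i0 : ZMod n)
    (u : Fin n) (hu : ∃ t, u = g t 0 ∨ u = g t 4) (hxu : (c0 i0 = x ∧ c0 (i0 + 1) = u) ∨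
      (c0 i0 = u ∧ c0 (i0 + 1) = x)) :
    (((E1 F g c0 x 2).filter (fun q => q.1.1 = i0)).card : ℝ) ≤
      2 * s * (4 * (ρ * (n : ℝ) ^ 2)) := by
  have huQ : u ∈ Q g := by
    obtain ⟨t, h | h⟩ := hu <;> rw [h] <;> exact g_mem_Q _ _
  obtain ⟨J, hJ⟩ : ∃ J : Finset (ZMod n), J =
    (univ.image (fun t : Fin s => c0.symm (g t 0) - 1)) ∪
      (univ.image (fun t : Fin s => c0.symm (g t 4))) := ⟨_, rfl⟩
  obtain ⟨A4, hA4⟩ : ∃ A4 : Finset (Finset (Fin n)), A4 =
    (univ : Finset (Finset (Fin n))).filter (fun A => A.card = 4 ∧ Cov F A ∧ u ∈ A) := ⟨_, rfl⟩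
  have hJc : J.card ≤ 2 * s := by
    rw [hJ]
    refine le_trans (Finset.card_union_le _ _) ?_
    have h1 := Finset.card_image_le (s := (univ : Finset (Fin s)))
      (f := fun t : Fin s => c0.symm (g t 0) - 1)
    have h2 := Finset.card_image_le (s := (univ : Finset (Fin s)))
      (f := fun t : Fin s => c0.symm (g t 4))
    rw [Finset.card_univ, Fintype.card_fin] at h1 h2
    omega
  have hA4c : A4.card ≤ 4 * deg F u := by rw [hA4]; exact cov4 hU u
  have hsub : (E1 F g c0 x 2).filter (fun q => q.1.1 = i0) ⊆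
      (J ×ˢ A4).image (fun w => ((i0, w.1), w.2)) := by
    rintro ⟨⟨i, j⟩, A⟩ hq
    rw [Finset.mem_filter] at hq
    obtain ⟨hq1, hq2⟩ := hq
    have hi : i = i0 := hq2
    subst hi
    unfold E1 at hq1
    rw [Finset.mem_filter] at hq1
    obtain ⟨hev, _, hcard⟩ := hq1
    obtain ⟨f1, f2, f3, f4⟩ := ev_facts hev
    have hd := card4 (a := c0 i) (b := c0 (i + 1)) (c := c0 j) (d := c0 (j + 1)) f1
    have hcard' : (YP c0 (i, j) \ Q g).card = 2 := hcard
    have hxP : x ∈ YP c0 (i, j) \ Q g := by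
      rw [Finset.mem_sdiff, mem_YP]
      refine ⟨?_, hx⟩
      rcases hxu with ⟨h, _⟩ | ⟨_, h⟩
      · exact Or.inl h.symm
      · exact Or.inr (Or.inl h.symm)
    have huP : u ∈ YP c0 (i, j) := by
      rw [mem_YP]
      rcases hxu with ⟨_, h⟩ | ⟨h, _⟩
      · exact Or.inr (Or.inl h.symm)
      · exact Or.inl h.symm
    have hjx : c0 j ≠ x ∧ c0 (j + 1) ≠ x := by
      obtain ⟨d1, d2, d3, d4, d5, d6⟩ := hd
      rcases hxu with ⟨h1, h2⟩ | ⟨h1, h2⟩
      · rw [h1] at d2 d3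
        exact ⟨d2.symm, d3.symm⟩
      · rw [h2] at d4 d5
        exact ⟨d4.symm, d5.symm⟩
    have huA : u ∈ A := by
      have : u ∈ YP c0 (i, j) ∩ Q g := Finset.mem_inter.2 ⟨huP, huQ⟩
      rw [← f4] at this
      exact (Finset.mem_inter.1 this).1
    -- exactly one end of the second edge is in Q
    have hnot : ¬ (c0 j ∈ Q g ∧ c0 (j + 1) ∈ Q g) := by
      rintro ⟨hj1, hj2⟩
      have hs1 : YP c0 (i, j) \ Q g ⊆ {x} := by
        intro z hz
        rw [Finset.mem_sdiff, mem_YP] at hz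
        rw [Finset.mem_singleton]
        obtain ⟨hz1, hz2⟩ := hz
        rcases hz1 with rfl | rfl | rfl | rfl
        · rcases hxu with ⟨h, _⟩ | ⟨h, _⟩
          · exact h
          · rw [h] at hz2; exact absurd huQ hz2
        · rcases hxu with ⟨_, h⟩ | ⟨_, h⟩
          · rw [h] at hz2; exact absurd huQ hz2
          · exact h
        · exact absurd hj1 hz2
        · exact absurd hj2 hz2
      have := Finset.card_le_card hs1
      rw [hcard', Finset.card_singleton] at this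
      omega
    have hnot2 : ¬ (c0 j ∉ Q g ∧ c0 (j + 1) ∉ Q g) := by
      rintro ⟨hj1, hj2⟩
      have hs1 : ({x, c0 j, c0 (j + 1)} : Finset (Fin n)) ⊆ YP c0 (i, j) \ Q g := by
        intro z hz
        simp only [Finset.mem_insert, Finset.mem_singleton] at hz
        rcases hz with rfl | rfl | rfl
        · exact hxP
        · rw [Finset.mem_sdiff, mem_YP]
          exact ⟨Or.inr (Or.inr (Or.inl rfl)), hj1⟩
        · rw [Finset.mem_sdiff, mem_YP]
          exact ⟨Or.inr (Or.inr (Or.inr rfl)), hj2⟩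
      have h4 := Finset.card_le_card hs1
      have h5 : ({x, c0 j, c0 (j + 1)} : Finset (Fin n)).card = 3 := by
        rw [Finset.card_insert_of_notMem, Finset.card_insert_of_notMem, Finset.card_singleton]
        · simpa using hd.2.2.2.2.2
        · simp [hjx.1.symm, hjx.2.symm]
      omega
    have hjJ : j ∈ J := by
      rw [hJ, Finset.mem_union, Finset.mem_image, Finset.mem_image]
      by_cases hj1 : c0 j ∈ Q g
      · have hj2 : c0 (j + 1) ∉ Q g := fun h => hnot ⟨hj1, h⟩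
        obtain ⟨t, ht, _⟩ := hCls.qf j hj1 hj2
        right
        exact ⟨t, mem_univ _, by rw [← ht, Equiv.symm_apply_apply]⟩
      · have hj2 : c0 (j + 1) ∈ Q g := by
          by_contra h
          exact hnot2 ⟨hj1, h⟩
        obtain ⟨t, ht, _⟩ := hCls.fq j hj1 hj2
        left
        exact ⟨t, mem_univ _, by rw [← ht, Equiv.symm_apply_apply]; ring⟩
    rw [Finset.mem_image]
    refine ⟨(j, A), ?_, rfl⟩
    rw [Finset.mem_product, hA4, Finset.mem_filter]
    exact ⟨hjJ, mem_univ _, f2, f3, huA⟩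
  have hle : ((E1 F g c0 x 2).filter (fun q => q.1.1 = i0)).card ≤ 2 * s * (4 * deg F u) := by
    refine le_trans (Finset.card_le_card hsub) (le_trans Finset.card_image_le ?_)
    rw [Finset.card_product]
    exact Nat.mul_le_mul hJc hA4c
  have hle' : (((E1 F g c0 x 2).filter (fun q => q.1.1 = i0)).card : ℝ) ≤
      2 * s * (4 * (deg F u : ℝ)) := by exact_mod_cast hle
  have hdeg : (deg F u : ℝ) ≤ ρ * (n : ℝ) ^ 2 := by
    obtain ⟨t, h | h⟩ := hu <;> rw [h]
    · exact (hSeg.ends t).1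
    · exact (hSeg.ends t).2
  refine le_trans hle' ?_
  have h2s : (0 : ℝ) ≤ 2 * s := by positivity
  exact mul_le_mul_of_nonneg_left (by linarith) h2s

/-- the first coordinate of an event in `E1` -/
lemma E1_fst {r : ℕ} : E1 F g c0 x r ⊆
    (E1 F g c0 x r).filter (fun q => q.1.1 = c0.symm x) ∪
      (E1 F g c0 x r).filter (fun q => q.1.1 = c0.symm x - 1) := by
  intro q hq
  have hq' := hq
  unfold E1 at hq'
  rw [Finset.mem_filter] at hq'
  rw [Finset.mem_union, Finset.mem_filter, Finset.mem_filter]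
  rcases hq'.2.1 with h | h
  · left
    exact ⟨hq, by rw [h, Equiv.symm_apply_apply]⟩
  · right
    exact ⟨hq, by rw [h, Equiv.symm_apply_apply]; ring⟩

end NB1x

open NB1x

theorem t_NB1 : S_NB1 := by
  intro n s hn F g c0 ρ hU h17 hρ h5 hSeg hCls x hx
  show (NB F g c0 x 1 : ℝ) ≤ 2 * ((n : ℝ) / 400)
  have h1 : (NB F g c0 x 1 : ℝ) ≤ 2 * ((E1 F g c0 x 1).card : ℝ) := by
    exact_mod_cast NB_le (F := F) (g := g) (c0 := c0) (x := x) 1
  refine le_trans h1 (mul_le_mul_of_nonneg_left ?_ (by norm_num))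
  obtain ⟨k, hk⟩ : ∃ k, k = c0.symm x := ⟨_, rfl⟩
  have hck : c0 k = x := by rw [hk, Equiv.apply_symm_apply]
  have hck' : c0 (k - 1 + 1) = x := by rw [sub_add_cancel, hck]
  have hE := E1_fst (F := F) (g := g) (c0 := c0) (x := x) (r := 1)
  rw [← hk] at hE
  -- without a neighbour in Q there is no event
  have hempty : ∀ i0 : ZMod n, c0 i0 ∉ Q g → c0 (i0 + 1) ∉ Q g →
      (E1 F g c0 x 1).filter (fun q => q.1.1 = i0) = ∅ := by
    intro i0 ha hb
    rw [Finset.filter_eq_empty_iff]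
    rintro ⟨⟨i, j⟩, A⟩ hq hi
    have hi' : i = i0 := hi
    subst hi'
    unfold E1 at hq
    rw [Finset.mem_filter] at hq
    obtain ⟨hev, _, hcard⟩ := hq
    obtain ⟨f1, f2, f3, f4⟩ := ev_facts hev
    have hd := card4 (a := c0 i) (b := c0 (i + 1)) (c := c0 j) (d := c0 (j + 1)) f1
    have hcard' : (YP c0 (i, j) \ Q g).card = 1 := hcard
    have hsub2 : ({c0 i, c0 (i + 1)} : Finset (Fin n)) ⊆ YP c0 (i, j) \ Q g := by
      intro z hz
      simp only [Finset.mem_insert, Finset.mem_singleton] at hz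
      rw [Finset.mem_sdiff, mem_YP]
      rcases hz with rfl | rfl
      · exact ⟨Or.inl rfl, ha⟩
      · exact ⟨Or.inr (Or.inl rfl), hb⟩
    have := Finset.card_le_card hsub2
    rw [hcard', Finset.card_pair hd.1] at this
    omega
  have hn0 : (0 : ℝ) ≤ (n : ℝ) / 400 := by positivity
  by_cases hp : c0 (k + 1) ∈ Q g
  · have hm : c0 (k - 1) ∉ Q g := fun h => hCls.qfq k (by rw [hck]; exact hx) ⟨h, hp⟩
    obtain ⟨t, ht, _⟩ := hCls.fq k (by rw [hck]; exact hx) hp
    have h2 := core1 hSeg hCls hx k (c0 (k + 1)) ⟨t, Or.inl ht⟩ (Or.inl ⟨hck, rfl⟩)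
    rw [hempty (k - 1) hm (by rw [hck']; exact hx), Finset.union_empty] at hE
    refine le_trans ?_ h2
    exact_mod_cast Finset.card_le_card hE
  · rw [hempty k (by rw [hck]; exact hx) hp, Finset.empty_union] at hE
    by_cases hm : c0 (k - 1) ∈ Q g
    · obtain ⟨t, ht, _⟩ := hCls.qf (k - 1) hm (by rw [hck']; exact hx)
      have h2 := core1 hSeg hCls hx (k - 1) (c0 (k - 1)) ⟨t, Or.inr ht⟩ (Or.inr ⟨rfl, hck'⟩)
      refine le_trans ?_ h2
      exact_mod_cast Finset.card_le_card hE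
    · rw [hempty (k - 1) hm (by rw [hck']; exact hx)] at hE
      have := Finset.card_le_card hE
      rw [Finset.card_empty, Nat.le_zero] at this
      rw [this]
      simpa using hn0

theorem t_NB2 : S_NB2 := by
  intro n s hn F g c0 ρ hU h17 hρ h5 hSeg hCls x hx
  show (NB F g c0 x 2 : ℝ) ≤ 40 * s * ρ * (n : ℝ) ^ 2
  have h1 : (NB F g c0 x 2 : ℝ) ≤ 2 * ((E1 F g c0 x 2).card : ℝ) := by
    exact_mod_cast NB_le (F := F) (g := g) (c0 := c0) (x := x) 2
  obtain ⟨k, hk⟩ : ∃ k, k = c0.symm x := ⟨_, rfl⟩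
  have hck : c0 k = x := by rw [hk, Equiv.apply_symm_apply]
  have hck' : c0 (k - 1 + 1) = x := by rw [sub_add_cancel, hck]
  have hE := E1_fst (F := F) (g := g) (c0 := c0) (x := x) (r := 2)
  rw [← hk] at hE
  have hE2 := le_trans (Finset.card_le_card hE) (Finset.card_union_le _ _)
  have hE3 : ((E1 F g c0 x 2).card : ℝ) ≤
      (((E1 F g c0 x 2).filter (fun q => q.1.1 = k)).card : ℝ) +
      (((E1 F g c0 x 2).filter (fun q => q.1.1 = k - 1)).card : ℝ) := by exact_mod_cast hE2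
  have hB : (0 : ℝ) ≤ s * (ρ * (n : ℝ) ^ 2) := by positivity
  have c1 : (((E1 F g c0 x 2).filter (fun q => q.1.1 = k)).card : ℝ) ≤
      8 * (s * (ρ * (n : ℝ) ^ 2)) := by
    by_cases hp : c0 (k + 1) ∈ Q g
    · obtain ⟨t, ht, _⟩ := hCls.fq k (by rw [hck]; exact hx) hp
      have h2 := core2b hρ hU hSeg hCls hx k (c0 (k + 1)) ⟨t, Or.inl ht⟩ (Or.inl ⟨hck, rfl⟩)
      linarith
    · have h2 := core2a (x := x) hSeg hCls k (by rw [hck]; exact hx) hp
      linarith
  have c2 : (((E1 F g c0 x 2).filter (fun q => q.1.1 = k - 1)).card : ℝ) ≤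
      8 * (s * (ρ * (n : ℝ) ^ 2)) := by
    by_cases hm : c0 (k - 1) ∈ Q g
    · obtain ⟨t, ht, _⟩ := hCls.qf (k - 1) hm (by rw [hck']; exact hx)
      have h2 := core2b hρ hU hSeg hCls hx (k - 1) (c0 (k - 1)) ⟨t, Or.inr ht⟩
        (Or.inr ⟨rfl, hck'⟩)
      linarith
    · have h2 := core2a (x := x) hSeg hCls (k - 1) hm (by rw [hck']; exact hx)
      linarith
  linarith

end Pool.Agent.R178.HY
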