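import Mathlib
import Pool.Agent.R178.HY.Defs

/-!
# Piece NE: the family of all 5-sets has no acceptable cycle
-/

set_option autoImplicit false

open Finset

namespace Pool.Agent.R178.HY

namespace NEx

theorem cov_of_card {n : ℕ} (hn : 5 ≤ n) (M : Finset (Fin n)) (hM : M.card ≤ 5) :
    Cov (powersetCard 5 (univ : Finset (Fin n))) M := by
  obtain ⟨t, ht, htc⟩ := Finset.exists_superset_card_eq hM (by rw [Fintype.card_fin]; exact hn)
  exact ⟨t, Finset.mem_powersetCard.2 ⟨Finset.subset_univ _, htc⟩, ht⟩

theorem cast_ne {n : ℕ} (hn : 5 ≤ n) (a b : ℕ) (ha : a < 5) (hb : b < 5) (hab : a ≠ b) :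
    ((a : ℕ) : ZMod n) ≠ ((b : ℕ) : ZMod n) := by
  intro h
  rw [ZMod.natCast_eq_natCast_iff', Nat.mod_eq_of_lt (by omega), Nat.mod_eq_of_lt (by omega)] at h
  exact hab h

end NEx

open NEx in
theorem t_NE : S_NE := by
  intro n hn c
  constructor
  · intro h
    exact h 0 (cov_of_card hn _ ((Finset.card_le_three).trans (by norm_num)))
  · intro h
    have e0 : c 0 = c ((0 : ℕ) : ZMod n) := by norm_num
    have e1 : c (0 + 1) = c ((1 : ℕ) : ZMod n) := by norm_num
    have e2 : c 2 = c ((2 : ℕ) : ZMod n) := by norm_num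
    have e3 : c (2 + 1) = c ((3 : ℕ) : ZMod n) := by norm_num
    have d : ∀ a b : ℕ, a < 5 → b < 5 → a ≠ b → c ((a : ℕ) : ZMod n) ≠ c ((b : ℕ) : ZMod n) :=
      fun a b ha hb hab h => cast_ne hn a b ha hb hab (c.injective h)
    have hc : ({c 0, c (0 + 1), c 2, c (2 + 1)} : Finset (Fin n)).card = 4 := by
      rw [e0, e1, e2, e3]
      have h01 := d 0 1 (by norm_num) (by norm_num) (by norm_num)
      have h02 := d 0 2 (by norm_num) (by norm_num) (by norm_num)
      have h03 := d 0 3 (by norm_num) (by norm_num) (by norm_num)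
      have h12 := d 1 2 (by norm_num) (by norm_num) (by norm_num)
      have h13 := d 1 3 (by norm_num) (by norm_num) (by norm_num)
      have h23 := d 2 3 (by norm_num) (by norm_num) (by norm_num)
      rw [Finset.card_insert_of_notMem, Finset.card_insert_of_notMem,
        Finset.card_insert_of_notMem, Finset.card_singleton]
      · simpa using h23
      · simp only [Finset.mem_insert, Finset.mem_singleton, not_or]
        exact ⟨h12, h13⟩
      · simp only [Finset.mem_insert, Finset.mem_singleton, not_or]
        exact ⟨h01, h02, h03⟩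
    exact h 0 2 hc (cov_of_card hn _ (by rw [hc]; norm_num))

end Pool.Agent.R178.HY
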