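import Mathlib
import Pool.Agent.R178.HY.Defs

set_option autoImplicit false

open Finset

namespace Pool.Agent.R178.HY

namespace ORDx

theorem cast_inj {n a b : ℕ} (ha : a < n) (hb : b < n) (h : (a : ZMod n) = (b : ZMod n)) :
    a = b := by
  rw [ZMod.natCast_eq_natCast_iff', Nat.mod_eq_of_lt ha, Nat.mod_eq_of_lt hb] at h
  exact h

end ORDx

open ORDx in
theorem t_ORD : S_ORD := by
  intro n s hn hs g hg
  haveI : NeZero n := ⟨by omega⟩
  set u : Fin s × Fin 5 → ZMod n := fun p => ((7 * (p.1 : ℕ) + (p.2 : ℕ) : ℕ) : ZMod n) with hu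
  set v : Fin s × Fin 5 → Fin n := fun p => g p.1 p.2 with hv
  have huinj : Function.Injective u := by
    rintro ⟨i, j⟩ ⟨i', j'⟩ h
    have hi := i.2
    have hi' := i'.2
    have hj := j.2
    have hj' := j'.2
    have h1 := cast_inj (n := n) (a := 7 * (i : ℕ) + (j : ℕ)) (b := 7 * (i' : ℕ) + (j' : ℕ))
      (by omega) (by omega) h
    have h2 : (i : ℕ) = i' := by omega
    have h3 : (j : ℕ) = j' := by omega
    rw [Fin.ext h2, Fin.ext h3]
  set f : ZMod n → Fin n := Function.extend u v (fun _ => ⟨0, by omega⟩) with hf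
  have hfu : ∀ p, f (u p) = v p := fun p => huinj.extend_apply v _ p
  have hinj : Set.InjOn f (univ.image u : Finset (ZMod n)) := by
    intro x hx y hy hxy
    rw [mem_coe, mem_image] at hx hy
    obtain ⟨p, _, rfl⟩ := hx
    obtain ⟨q, _, rfl⟩ := hy
    rw [hfu, hfu] at hxy
    rw [hg hxy]
  have hcard : Fintype.card (ZMod n) = (univ : Finset (Fin n)).card := by
    rw [ZMod.card, card_univ, Fintype.card_fin]
  obtain ⟨e, he⟩ := Finset.exists_equiv_extend_of_card_eq hcard (subset_univ _) hinj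
  set c0 : ZMod n ≃ Fin n := e.trans (Equiv.subtypeUnivEquiv (fun x => mem_univ x)) with hc0
  have hc : ∀ p, c0 (u p) = v p := by
    intro p
    have h1 := he (u p) (mem_image_of_mem u (mem_univ p))
    rw [hfu] at h1
    exact h1
  refine ⟨c0, fun i j => hc (i, j), ?_, ?_⟩
  · intro i i' j h
    have hi := i.2
    have hi' := i'.2
    have hj := j.2
    have h1 : ((7 * (i : ℕ) + 5 : ℕ) : ZMod n) = u (i', j) := c0.injective (h.trans (hc (i', j)).symm)
    have h2 := cast_inj (n := n) (a := 7 * (i : ℕ) + 5) (b := 7 * (i' : ℕ) + (j : ℕ))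
      (by omega) (by omega) h1
    omega
  · intro i i' j h
    have hi := i.2
    have hi' := i'.2
    have hj := j.2
    have h1 : ((7 * (i : ℕ) + 6 : ℕ) : ZMod n) = u (i', j) := c0.injective (h.trans (hc (i', j)).symm)
    have h2 := cast_inj (n := n) (a := 7 * (i : ℕ) + 6) (b := 7 * (i' : ℕ) + (j : ℕ))
      (by omega) (by omega) h1
    omega

end Pool.Agent.R178.HY
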