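import Mathlib
import Pool.Agent.R178.HY.Defs

/-!
Project HY (MP_e42343_co), piece PRE: choice of the neighbours of the heavy vertices.
-/

set_option autoImplicit false

open Finset

namespace Pool.Agent.R178.HY

namespace PREx

variable {n : ℕ}

theorem sum_deg (F : Finset (Finset (Fin n))) (hF : Unif F) : ∑ v, deg F v = 5 * F.card := by
  unfold deg
  simp only [card_filter]
  rw [sum_comm]
  have h : ∀ A ∈ F, ∑ v : Fin n, (if v ∈ A then 1 else 0) = 5 := by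
    intro A hA
    rw [← card_filter, filter_mem_eq_inter, univ_inter, hF A hA]
  rw [sum_congr rfl h, sum_const, smul_eq_mul, mul_comm]

theorem mem_Hv (F : Finset (Finset (Fin n))) (T : ℝ) (v : Fin n) :
    v ∈ Hv F T ↔ T * (n : ℝ) ^ 2 ≤ (deg F v : ℝ) := by
  classical
  unfold Hv
  rw [mem_filter]
  simp

theorem mem_Lo (F : Finset (Finset (Fin n))) (T : ℝ) (v : Fin n) :
    v ∈ Lo F T ↔ (deg F v : ℝ) < T * (n : ℝ) ^ 2 := by
  classical
  unfold Lo
  rw [mem_filter]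
  simp

theorem card_Hv (F : Finset (Finset (Fin n))) (hF : Unif F) (hc : 17 * F.card ≤ n ^ 2)
    (hn : 1 ≤ n) (T : ℝ) : ((Hv F T).card : ℝ) * T ≤ 5 / 17 := by
  have h1 : ((Hv F T).card : ℝ) * (T * (n : ℝ) ^ 2) ≤ ∑ v ∈ Hv F T, (deg F v : ℝ) := by
    rw [← nsmul_eq_mul]
    exact card_nsmul_le_sum _ _ _ fun v hv => (mem_Hv F T v).1 hv
  have h2 : ∑ v ∈ Hv F T, (deg F v : ℝ) ≤ ∑ v, (deg F v : ℝ) :=
    sum_le_sum_of_subset_of_nonneg (subset_univ _) fun v _ _ => Nat.cast_nonneg _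
  have h3 : ∑ v, (deg F v : ℝ) = 5 * (F.card : ℝ) := by exact_mod_cast sum_deg F hF
  have h4 : 17 * (F.card : ℝ) ≤ (n : ℝ) ^ 2 := by exact_mod_cast hc
  have hn' : (0 : ℝ) < (n : ℝ) ^ 2 := by
    have : (0 : ℝ) < (n : ℝ) := by exact_mod_cast hn
    positivity
  have h5 : ((Hv F T).card : ℝ) * T * (n : ℝ) ^ 2 ≤ 5 / 17 * (n : ℝ) ^ 2 := by nlinarith
  exact le_of_mul_le_mul_right h5 hn'

theorem card_Lo_add (F : Finset (Finset (Fin n))) (T : ℝ) :
    (Lo F T).card + (Hv F T).card = n := by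
  classical
  have h1 : Lo F T = univ \ Hv F T := by
    ext v
    rw [mem_sdiff, mem_Hv, mem_Lo]
    simp
  rw [h1, card_sdiff_add_card_eq_card (subset_univ _), card_univ, Fintype.card_fin]

open Classical in
/-- pairs with a common value -/
theorem card_coll (I W : Type) [Fintype I] [Fintype W] :
    ((univ.filter (fun p : (I → W) × (I → W) => ∃ v, p.1 v = p.2 v)).card : ℝ) *
      Fintype.card W ≤ Fintype.card I * (Fintype.card W : ℝ) ^ (2 * Fintype.card I) := by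
  have h1 : univ.filter (fun p : (I → W) × (I → W) => ∃ v, p.1 v = p.2 v) ⊆
      univ.biUnion fun v : I => univ.filter (fun p : (I → W) × (I → W) => p.1 v = p.2 v) := by
    intro p hp
    obtain ⟨v, hv⟩ := (mem_filter.1 hp).2
    exact mem_biUnion.2 ⟨v, mem_univ _, mem_filter.2 ⟨mem_univ _, hv⟩⟩
  have h2 : ∀ v : I, (univ.filter (fun p : (I → W) × (I → W) => p.1 v = p.2 v)).card *
      Fintype.card W ≤ Fintype.card W ^ (2 * Fintype.card I) := by
    intro v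
    have h3 : ((univ.filter (fun p : (I → W) × (I → W) => p.1 v = p.2 v)) ×ˢ
        (univ : Finset W)).card ≤ (univ : Finset ((I → W) × (I → W))).card := by
      refine card_le_card_of_injOn (fun q => (q.1.1, Function.update q.1.2 v q.2))
        (fun _ _ => mem_univ _) ?_
      rintro ⟨⟨p1, p2⟩, z⟩ hp ⟨⟨p1', p2'⟩, z'⟩ hp' h
      have hp1 : p1 v = p2 v := by
        have := (mem_product.1 (mem_coe.1 hp)).1
        exact (mem_filter.1 this).2
      have hp2 : p1' v = p2' v := by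
        have := (mem_product.1 (mem_coe.1 hp')).1
        exact (mem_filter.1 this).2
      obtain ⟨h4, h5⟩ := Prod.mk.inj h
      dsimp only at h4 h5
      subst h4
      have hz : z = z' := by
        have := congrFun h5 v
        simpa using this
      subst hz
      have h6 : p2 = p2' := by
        funext u
        by_cases hu : u = v
        · subst hu
          rw [← hp1, ← hp2]
        · have := congrFun h5 u
          simpa [hu] using this
      rw [h6]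
    rw [card_product, card_univ, card_univ, Fintype.card_prod, Fintype.card_fun] at h3
    calc _ ≤ _ := h3
      _ = _ := by rw [two_mul, pow_add]
  have h3 : (univ.filter (fun p : (I → W) × (I → W) => ∃ v, p.1 v = p.2 v)).card *
      Fintype.card W ≤ Fintype.card I * Fintype.card W ^ (2 * Fintype.card I) := by
    calc (univ.filter (fun p : (I → W) × (I → W) => ∃ v, p.1 v = p.2 v)).card *
      Fintype.card W ≤ (∑ v : I, (univ.filter (fun p : (I → W) × (I → W) =>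
          p.1 v = p.2 v)).card) * Fintype.card W :=
          Nat.mul_le_mul_right _ ((card_le_card h1).trans card_biUnion_le)
      _ = ∑ v : I, (univ.filter (fun p : (I → W) × (I → W) =>
          p.1 v = p.2 v)).card * Fintype.card W := by rw [sum_mul]
      _ ≤ ∑ v : I, Fintype.card W ^ (2 * Fintype.card I) := sum_le_sum fun v _ => h2 v
      _ = _ := by rw [sum_const, smul_eq_mul, card_univ]
  exact_mod_cast h3

theorem exists_coll (I W : Type) [Fintype I] [Fintype W] :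
    ∃ C : Finset ((I → W) × (I → W)), (∀ p, p ∉ C → ¬ ∃ v, p.1 v = p.2 v) ∧
      (C.card : ℝ) * Fintype.card W ≤ Fintype.card I *
        (Fintype.card W : ℝ) ^ (2 * Fintype.card I) := by
  classical
  refine ⟨_, ?_, card_coll I W⟩
  intro p hp h
  exact hp (mem_filter.2 ⟨mem_univ _, h⟩)

open Classical in
theorem finish (F : Finset (Finset (Fin n))) (T T' : ℝ)
    (p : (↥(Hv F T) → ↥(Lo F T')) × (↥(Hv F T) → ↥(Lo F T')))
    (hmix : ∀ s : ↥(Hv F T) → Bool,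
      (∀ v w : ↥(Hv F T), v ≠ w → (if s v then p.1 v else p.2 v) ≠ (if s w then p.1 w else p.2 w)) ∧
      (∀ v w : ↥(Hv F T), v ≠ w →
        ¬ Cov F {(v : Fin n), (w : Fin n), ((if s v then p.1 v else p.2 v : ↥(Lo F T')) : Fin n),
          ((if s w then p.1 w else p.2 w : ↥(Lo F T')) : Fin n)}) ∧
      (∀ v : ↥(Hv F T), ∀ x ∈ Lo F T',
        ((S F v (if s v then p.1 v else p.2 v : ↥(Lo F T')) x).card : ℝ) ≤ (99 / 100) * n) ∧
      (∀ x ∈ Hv F T' \ Hv F T, ∑ v : ↥(Hv F T),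
        ((S F v (if s v then p.1 v else p.2 v : ↥(Lo F T')) x).card : ℝ) ≤ (n : ℝ) / 2000) ∧
      (∀ v : ↥(Hv F T), (cod F v (if s v then p.1 v else p.2 v : ↥(Lo F T')) : ℝ) ≤ 200 * n))
    (hdbl : ¬ ∃ x ∈ Lo F T', ∃ v w : ↥(Hv F T), ∃ σ τ : Bool,
        (v, σ) ≠ (w, τ) ∧ T / 10000 * n ≤ ((S F v (if σ then p.1 v else p.2 v) x).card : ℝ) ∧
          T / 10000 * n ≤ ((S F w (if τ then p.1 w else p.2 w) x).card : ℝ))
    (hcol : ¬ ∃ v, p.1 v = p.2 v) : ∃ a : Fin n → Bool → Fin n, PreOK F T T' a := by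
  obtain ⟨a, ha⟩ : ∃ a : Fin n → Bool → Fin n, ∀ (v : ↥(Hv F T)) (σ : Bool),
      a v σ = ((if σ then p.1 v else p.2 v : ↥(Lo F T')) : Fin n) := by
    refine ⟨fun v σ => if h : v ∈ Hv F T then
      ((if σ then p.1 ⟨v, h⟩ else p.2 ⟨v, h⟩ : ↥(Lo F T')) : Fin n) else v, ?_⟩
    intro v σ
    dsimp only
    rw [dif_pos v.2]
  refine ⟨a, ?_⟩
  constructor
  · intro v hv σ
    rw [ha ⟨v, hv⟩ σ]
    exact (_ : ↥(Lo F T')).2
  · intro v hv w hw σ ρ h
    by_cases hvw : v = w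
    · subst hvw
      refine ⟨rfl, ?_⟩
      by_contra hσ
      rw [ha ⟨v, hv⟩ σ, ha ⟨v, hv⟩ ρ] at h
      have h' := Subtype.ext h
      apply hcol
      refine ⟨⟨v, hv⟩, ?_⟩
      cases σ <;> cases ρ
      · exact absurd rfl hσ
      · exact h'.symm
      · exact h'
      · exact absurd rfl hσ
    · exfalso
      have hvw' : (⟨v, hv⟩ : ↥(Hv F T)) ≠ ⟨w, hw⟩ := fun h => hvw (congrArg Subtype.val h)
      have h5 := (hmix (fun u => if u = ⟨v, hv⟩ then σ else ρ)).1 ⟨v, hv⟩ ⟨w, hw⟩ hvw'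
      rw [if_pos rfl, if_neg hvw'.symm] at h5
      apply h5
      apply Subtype.ext
      rw [← ha, ← ha]
      exact h
  · intro v hv w hw hvw σ ρ
    have hvw' : (⟨v, hv⟩ : ↥(Hv F T)) ≠ ⟨w, hw⟩ := fun h => hvw (congrArg Subtype.val h)
    have h5 := (hmix (fun u => if u = ⟨v, hv⟩ then σ else ρ)).2.1 ⟨v, hv⟩ ⟨w, hw⟩ hvw'
    rw [if_pos rfl, if_neg hvw'.symm, ← ha, ← ha] at h5
    exact h5
  · intro v hv σ x hx
    have h5 := (hmix (fun _ => σ)).2.2.1 ⟨v, hv⟩ x hx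
    rw [← ha] at h5
    exact h5
  · intro x hx1 hx2
    have hx : x ∈ Hv F T' \ Hv F T := by
      rw [mem_sdiff]
      refine ⟨?_, hx1⟩
      rw [mem_Hv]
      rw [mem_Lo] at hx2
      exact not_lt.1 hx2
    have key : ∀ σ : Bool, ∑ v ∈ Hv F T, ((S F v (a v σ) x).card : ℝ) ≤ (n : ℝ) / 2000 := by
      intro σ
      have h5 := (hmix (fun _ => σ)).2.2.2.1 x hx
      rw [← Finset.sum_coe_sort]
      refine le_trans (le_of_eq ?_) h5
      refine sum_congr rfl fun v _ => ?_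
      rw [← ha]
    have h6 : ∑ v ∈ Hv F T, ∑ σ : Bool, ((S F v (a v σ) x).card : ℝ) =
        ∑ v ∈ Hv F T, ((S F v (a v true) x).card : ℝ) +
          ∑ v ∈ Hv F T, ((S F v (a v false) x).card : ℝ) := by
      rw [← sum_add_distrib]
      refine sum_congr rfl fun v _ => ?_
      rw [Fintype.sum_bool]
    rw [h6]
    have h7 := key true
    have h8 := key false
    linarith
  · intro v hv σ
    have h5 := (hmix (fun _ => σ)).2.2.2.2 ⟨v, hv⟩
    rw [← ha] at h5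
    exact h5
  · intro x hx v hv w hw σ ρ hne
    by_contra hcon
    rw [not_or, not_lt, not_lt] at hcon
    apply hdbl
    refine ⟨x, hx, ⟨v, hv⟩, ⟨w, hw⟩, σ, ρ, ?_, ?_, ?_⟩
    · intro h
      apply hne
      have h5 := Prod.mk.inj h
      exact Prod.ext (congrArg Subtype.val h5.1) h5.2
    · have := hcon.1
      rw [ha ⟨v, hv⟩ σ] at this
      cases σ <;> exact this
    · have := hcon.2
      rw [ha ⟨w, hw⟩ ρ] at this
      cases ρ <;> exact this

end PREx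

open PREx

theorem t_PRE (h1 : S_BOX) (h2 : S_DENS) (h3 : S_DBL) : S_PRE := by
  classical
  intro T hT hT1 τ hτ
  obtain ⟨K, hK⟩ : ∃ K : ℕ, K = ⌊5 / (17 * T)⌋₊ := ⟨_, rfl⟩
  obtain ⟨gam, hgam⟩ : ∃ g : ℝ, g = (1 / 5 : ℝ) ^ (2 ^ K) := ⟨_, rfl⟩
  have hgam0 : 0 < gam := by rw [hgam]; positivity
  obtain ⟨η, hη⟩ : ∃ η : ℝ, η = T / 10000 := ⟨_, rfl⟩
  have hη0 : 0 < η := by rw [hη]; positivity
  obtain ⟨T', hT'⟩ : ∃ T' : ℝ, T' = min τ (min (T / 2) (gam * η ^ 2 / (576 * ((K : ℝ) + 1) ^ 2))) :=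
    ⟨_, rfl⟩
  have hT'0 : 0 < T' := by
    rw [hT']
    exact lt_min hτ (lt_min (by positivity) (by positivity))
  have hT'τ : T' ≤ τ := by rw [hT']; exact min_le_left _ _
  have hT'T : T' < T := by
    have : T' ≤ T / 2 := by rw [hT']; exact (min_le_right _ _).trans (min_le_left _ _)
    linarith
  have hT'g : T' ≤ gam * η ^ 2 / (576 * ((K : ℝ) + 1) ^ 2) := by
    rw [hT']; exact (min_le_right _ _).trans (min_le_right _ _)
  refine ⟨T', hT'0, hT'τ, hT'T, ?_⟩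
  obtain ⟨N1, hN1⟩ := h2 T' T hT'0 hT'T.le hT1
  refine ⟨N1 + ⌈10 / (17 * T')⌉₊ + ⌈8 * (K : ℝ) / gam⌉₊ + 1, ?_⟩
  intro n hn F hF hc hsum
  have hn1 : 1 ≤ n := by omega
  have hnr : (0 : ℝ) < n := by exact_mod_cast hn1
  have hnA : 10 / (17 * T') ≤ (n : ℝ) := by
    have h4 : ⌈10 / (17 * T')⌉₊ ≤ n := by omega
    exact (Nat.le_ceil _).trans (by exact_mod_cast h4)
  have hnB : 8 * (K : ℝ) / gam ≤ (n : ℝ) := by
    have h4 : ⌈8 * (K : ℝ) / gam⌉₊ ≤ n := by omega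
    exact (Nat.le_ceil _).trans (by exact_mod_cast h4)
  -- sizes
  have hkK : (Hv F T).card ≤ K := by
    rw [hK]
    apply Nat.le_floor
    rw [le_div_iff₀ (by positivity)]
    have := card_Hv F hF hc hn1 T
    linarith
  have hZ : (n : ℝ) / 2 ≤ ((Lo F T').card : ℝ) := by
    have h4 : ((Lo F T').card : ℝ) + ((Hv F T').card : ℝ) = n := by
      exact_mod_cast card_Lo_add F T'
    have h5 := card_Hv F hF hc hn1 T'
    have h6 : ((Hv F T').card : ℝ) ≤ 5 / (17 * T') := by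
      rw [le_div_iff₀ (by positivity)]
      linarith
    have h7 : 5 / (17 * T') ≤ (n : ℝ) / 2 := by
      have : 5 / (17 * T') = (10 / (17 * T')) / 2 := by ring
      rw [this]
      linarith
    linarith
  have hZ0 : (0 : ℝ) < ((Lo F T').card : ℝ) := by linarith
  have hdisj : Disjoint (Hv F T) (Lo F T') := by
    rw [disjoint_left]
    intro v hv hv'
    rw [mem_Hv] at hv
    rw [mem_Lo] at hv'
    have : T' * (n : ℝ) ^ 2 ≤ T * (n : ℝ) ^ 2 := mul_le_mul_of_nonneg_right hT'T.le (by positivity)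
    linarith
  -- the good single choices
  obtain ⟨G0, hG0, hG0c⟩ : ∃ G0 : Finset (↥(Hv F T) → ↥(Lo F T')), (∀ a ∈ G0,
      (∀ v w : ↥(Hv F T), v ≠ w → a v ≠ a w) ∧
      (∀ v w : ↥(Hv F T), v ≠ w →
        ¬ Cov F {(v : Fin n), (w : Fin n), (a v : Fin n), (a w : Fin n)}) ∧
      (∀ v : ↥(Hv F T), ∀ x ∈ Lo F T', ((S F v (a v) x).card : ℝ) ≤ (99 / 100) * n) ∧
      (∀ x ∈ Hv F T' \ Hv F T, ∑ v : ↥(Hv F T), ((S F v (a v) x).card : ℝ) ≤ (n : ℝ) / 2000) ∧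
      (∀ v : ↥(Hv F T), (cod F v (a v) : ℝ) ≤ 200 * n)) ∧
      (1 / 5) * ((Lo F T').card : ℝ) ^ (Hv F T).card ≤ (G0.card : ℝ) := by
    refine ⟨_, ?_, hN1 n (by omega) F hF hc hsum⟩
    intro a ha
    exact (mem_filter.1 ha).2
  obtain ⟨P, hP, hPc⟩ : ∃ P : Finset ((↥(Hv F T) → ↥(Lo F T')) × (↥(Hv F T) → ↥(Lo F T'))),
      (∀ p ∈ P, ∀ s : ↥(Hv F T) → Bool, (fun i => if s i then p.1 i else p.2 i) ∈ G0) ∧
      (1 / 5 : ℝ) ^ (2 ^ Fintype.card ↥(Hv F T)) *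
        (Fintype.card ↥(Lo F T') : ℝ) ^ (2 * Fintype.card ↥(Hv F T)) ≤ (P.card : ℝ) := by
    refine ⟨_, ?_, h1 ↥(Hv F T) ↥(Lo F T') G0 (1 / 5) (by norm_num) ?_⟩
    · intro p hp
      exact (mem_filter.1 hp).2
    · rw [Fintype.card_coe, Fintype.card_coe]
      exact hG0c
  obtain ⟨Q, hQ, hQc⟩ : ∃ Q : Finset ((↥(Hv F T) → ↥(Lo F T')) × (↥(Hv F T) → ↥(Lo F T'))),
      (∀ p, p ∉ Q → ¬ ∃ x ∈ Lo F T', ∃ v w : ↥(Hv F T), ∃ σ τ : Bool,
        (v, σ) ≠ (w, τ) ∧ η * n ≤ ((S F v (if σ then p.1 v else p.2 v) x).card : ℝ) ∧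
          η * n ≤ ((S F w (if τ then p.1 w else p.2 w) x).card : ℝ)) ∧
      (Q.card : ℝ) ≤ 144 * ((Hv F T).card : ℝ) ^ 2 * T' / η ^ 2 *
        ((Lo F T').card : ℝ) ^ (2 * (Hv F T).card) := by
    refine ⟨_, ?_, h3 n F (Hv F T) (Lo F T') T' η hF hc hdisj hT'0.le hη0 hn1
      (fun x hx => ((mem_Lo F T' x).1 hx).le) hZ⟩
    intro p hp h
    exact hp (mem_filter.2 ⟨mem_univ _, h⟩)
  obtain ⟨C, hC, hCc⟩ := exists_coll ↥(Hv F T) ↥(Lo F T')
  rw [Fintype.card_coe, Fintype.card_coe] at hPc hCc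
  -- notation
  obtain ⟨k, hk⟩ : ∃ k : ℕ, k = (Hv F T).card := ⟨_, rfl⟩
  obtain ⟨z, hz⟩ : ∃ z : ℝ, z = ((Lo F T').card : ℝ) := ⟨_, rfl⟩
  rw [← hk] at hPc hQc hCc hkK
  rw [← hz] at hPc hQc hCc hZ hZ0
  obtain ⟨Y, hY⟩ : ∃ Y : ℝ, Y = z ^ (2 * k) := ⟨_, rfl⟩
  have hY0 : 0 < Y := by rw [hY]; positivity
  rw [← hY] at hPc hQc hCc
  have hkr : (k : ℝ) ≤ K := by exact_mod_cast hkK
  have e1 : gam * Y ≤ (P.card : ℝ) := by
    have h5 : gam ≤ (1 / 5 : ℝ) ^ (2 ^ k) := by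
      rw [hgam]
      exact pow_le_pow_of_le_one (by norm_num) (by norm_num)
        (Nat.pow_le_pow_right (by norm_num) hkK)
    exact (mul_le_mul_of_nonneg_right h5 hY0.le).trans hPc
  have e2 : (Q.card : ℝ) ≤ gam / 4 * Y := by
    refine hQc.trans (mul_le_mul_of_nonneg_right ?_ hY0.le)
    rw [div_le_iff₀ (by positivity)]
    have h5 : T' * (576 * ((K : ℝ) + 1) ^ 2) ≤ gam * η ^ 2 := by
      rwa [le_div_iff₀ (by positivity)] at hT'g
    have h6 : (k : ℝ) ^ 2 ≤ ((K : ℝ) + 1) ^ 2 := by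
      have : (0 : ℝ) ≤ k := Nat.cast_nonneg _
      nlinarith
    have h7 : 144 * (k : ℝ) ^ 2 * T' ≤ 144 * ((K : ℝ) + 1) ^ 2 * T' := by
      apply mul_le_mul_of_nonneg_right _ hT'0.le
      linarith
    calc 144 * (k : ℝ) ^ 2 * T' ≤ 144 * ((K : ℝ) + 1) ^ 2 * T' := h7
      _ = T' * (576 * ((K : ℝ) + 1) ^ 2) / 4 := by ring
      _ ≤ gam * η ^ 2 / 4 := by linarith
      _ = gam / 4 * η ^ 2 := by ring
  have e3 : (C.card : ℝ) ≤ gam / 4 * Y := by
    have h5 : (k : ℝ) ≤ gam / 4 * z := by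
      have h6 : 8 * (K : ℝ) ≤ n * gam := by rwa [div_le_iff₀ hgam0] at hnB
      have h8 : (n : ℝ) / 2 * gam ≤ z * gam := mul_le_mul_of_nonneg_right hZ hgam0.le
      linarith
    have h7 : (C.card : ℝ) * z ≤ (gam / 4 * Y) * z := by
      calc (C.card : ℝ) * z ≤ k * Y := hCc
        _ ≤ (gam / 4 * z) * Y := mul_le_mul_of_nonneg_right h5 hY0.le
        _ = (gam / 4 * Y) * z := by ring
    exact le_of_mul_le_mul_right h7 hZ0
  -- a good pair
  obtain ⟨p, hpP, hpQ, hpC⟩ : ∃ p ∈ P, p ∉ Q ∧ p ∉ C := by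
    by_contra hcon
    push Not at hcon
    have h5 : P ⊆ Q ∪ C := by
      intro p hp
      rw [mem_union]
      by_cases hq : p ∈ Q
      · exact Or.inl hq
      · exact Or.inr (hcon p hp hq)
    have h6 : (P.card : ℝ) ≤ (Q.card : ℝ) + (C.card : ℝ) := by
      exact_mod_cast (card_le_card h5).trans (card_union_le _ _)
    have h7 : 0 < gam * Y := by positivity
    linarith
  refine finish F T T' p ?_ ?_ (hC p hpC)
  · intro s
    exact hG0 _ (hP p hpP s)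
  · rw [← hη]
    exact hQ p hpQ

end Pool.Agent.R178.HY
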