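import Mathlib
import Pool.Agent.R178.HY.Defs

/-!
# Piece STAGE of project HY (MP_e42343_co): greedy choice of new vertices
-/

set_option autoImplicit false

open Finset

namespace Pool.Agent.R178.HY

namespace STAGEx

variable {n : ℕ}

theorem split4 {u w x y : Fin n} (h : ({u, w, x, y} : Finset (Fin n)).card = 4) :
    ({u, w, x} : Finset (Fin n)).card = 3 ∧ y ∉ ({u, w, x} : Finset (Fin n)) := by
  have h1 : ({u, w, x, y} : Finset (Fin n)) = insert y {u, w, x} := by
    ext z
    simp only [mem_insert, mem_singleton]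
    tauto
  rw [h1] at h
  have h2 : ({u, w, x} : Finset (Fin n)).card ≤ 3 := card_le_three
  by_cases h3 : y ∈ ({u, w, x} : Finset (Fin n))
  · rw [insert_eq_of_mem h3] at h
    omega
  · rw [card_insert_of_notMem h3] at h
    exact ⟨by omega, h3⟩

theorem S_le (F : Finset (Finset (Fin n))) (hF : Unif F) (u w x : Fin n) :
    (S F u w x).card ≤ 2 * cod F u w := by
  unfold cod
  have h : S F u w x ⊆ (F.filter (fun A => u ∈ A ∧ w ∈ A)).biUnion
      (fun A => if ({u, w, x} : Finset (Fin n)).card = 3 ∧ {u, w, x} ⊆ A then A \ {u, w, x}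
        else ∅) := by
    intro y hy
    simp only [S, mem_filter, mem_univ, true_and] at hy
    obtain ⟨h1, A, hA, h2⟩ := hy
    obtain ⟨h3, h4⟩ := split4 h1
    rw [mem_biUnion]
    refine ⟨A, mem_filter.2 ⟨hA, h2 (by simp), h2 (by simp)⟩, ?_⟩
    have h5 : ({u, w, x} : Finset (Fin n)) ⊆ A := by
      intro z hz
      apply h2
      simp only [mem_insert, mem_singleton] at hz ⊢
      tauto
    rw [if_pos ⟨h3, h5⟩, mem_sdiff]
    exact ⟨h2 (by simp), h4⟩
  refine (card_le_card h).trans (card_biUnion_le.trans ?_)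
  rw [mul_comm, ← smul_eq_mul]
  refine sum_le_card_nsmul _ _ _ ?_
  intro A hA
  split_ifs with h1
  · rw [card_sdiff_of_subset h1.2, hF A (mem_filter.1 hA).1, h1.1]
  · simp

theorem S_self (F : Finset (Finset (Fin n))) (u x : Fin n) : S F u u x = ∅ := by
  unfold S
  rw [filter_eq_empty_iff]
  rintro y - ⟨h, -⟩
  have h1 : ({u, u, x, y} : Finset (Fin n)) = {u, x, y} := by
    ext z
    simp
  rw [h1] at h
  have h2 : ({u, x, y} : Finset (Fin n)).card ≤ 3 := card_le_three
  omega

theorem sum_cod (F : Finset (Finset (Fin n))) (hF : Unif F) (b : Fin n) :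
    ∑ y ∈ univ.erase b, cod F b y = deg F b * 4 := by
  unfold cod deg
  have h := sum_card_bipartiteAbove_eq_sum_card_bipartiteBelow
    (s := univ.erase b) (t := F.filter (fun A => b ∈ A)) (fun (y : Fin n) A => y ∈ A)
  have h1 : ∀ y ∈ univ.erase b, (F.filter (fun A => b ∈ A ∧ y ∈ A)).card =
      (bipartiteAbove (fun (y : Fin n) A => y ∈ A) (F.filter (fun A => b ∈ A)) y).card := by
    intro y _
    unfold bipartiteAbove
    rw [filter_filter]
  rw [sum_congr rfl h1, h]
  have h2 : ∀ A ∈ F.filter (fun A => b ∈ A),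
      (bipartiteBelow (fun (y : Fin n) A => y ∈ A) (univ.erase b) A).card = 4 := by
    intro A hA
    rw [mem_filter] at hA
    have h3 : bipartiteBelow (fun (y : Fin n) A => y ∈ A) (univ.erase b) A = A.erase b := by
      ext y
      simp only [mem_bipartiteBelow, mem_erase, mem_univ, and_true]
    rw [h3, card_erase_of_mem hA.2, hF A hA.1]
  rw [sum_congr rfl h2, sum_const, smul_eq_mul]

open Classical in
/-- the bad choices -/
noncomputable def Bad (F : Finset (Finset (Fin n))) (η : ℝ) (b : Fin n) : Finset (Fin n) :=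
  univ.filter (fun y => ∃ z, η * n < ((S F b y z).card : ℝ))

theorem Bad_card (F : Finset (Finset (Fin n))) (hF : Unif F) {η T : ℝ} (hη : 0 < η)
    (hn : 1 ≤ n) (b : Fin n) (hb : (deg F b : ℝ) ≤ T * (n : ℝ) ^ 2) :
    ((Bad F η b).card : ℝ) ≤ 8 * T * n / η := by
  have hn' : (0 : ℝ) < n := by exact_mod_cast hn
  have h1 : ∀ y ∈ Bad F η b, η * n / 2 ≤ (cod F b y : ℝ) := by
    intro y hy
    unfold Bad at hy
    rw [mem_filter] at hy
    obtain ⟨-, z, hz⟩ := hy
    have h2 : ((S F b y z).card : ℝ) ≤ 2 * (cod F b y : ℝ) := by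
      exact_mod_cast S_le F hF b y z
    linarith
  have h2 : Bad F η b ⊆ univ.erase b := by
    intro y hy
    rw [mem_erase]
    refine ⟨?_, mem_univ _⟩
    rintro rfl
    unfold Bad at hy
    rw [mem_filter] at hy
    obtain ⟨-, z, hz⟩ := hy
    rw [S_self, card_empty, Nat.cast_zero] at hz
    have : 0 < η * n := by positivity
    linarith
  have h3 : ((Bad F η b).card : ℝ) * (η * n / 2) ≤ ∑ y ∈ Bad F η b, (cod F b y : ℝ) := by
    rw [← nsmul_eq_mul]
    exact card_nsmul_le_sum _ _ _ h1
  have h4 : ∑ y ∈ Bad F η b, (cod F b y : ℝ) ≤ ∑ y ∈ univ.erase b, (cod F b y : ℝ) :=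
    sum_le_sum_of_subset_of_nonneg h2 fun _ _ _ => Nat.cast_nonneg _
  have h5 : ∑ y ∈ univ.erase b, (cod F b y : ℝ) = (deg F b : ℝ) * 4 := by
    exact_mod_cast sum_cod F hF b
  rw [le_div_iff₀ hη]
  have h6 : ((Bad F η b).card : ℝ) * (η * n / 2) ≤ 4 * (T * (n : ℝ) ^ 2) := by linarith
  have h7 : (((Bad F η b).card : ℝ) * η) * n ≤ (8 * T * n) * n := by nlinarith
  exact le_of_mul_le_mul_right h7 hn'

theorem swap (F : Finset (Finset (Fin n))) {b w b' y : Fin n} (h : y ∈ S F b w b') :
    w ∈ S F b' y b := by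
  have h1 : ({b, w, b', y} : Finset (Fin n)) = {b', y, b, w} := by
    ext z
    simp only [mem_insert, mem_singleton]
    tauto
  unfold S at h ⊢
  rw [mem_filter, h1] at h
  exact mem_filter.2 ⟨mem_univ _, h.2⟩

theorem stage (F : Finset (Finset (Fin n))) (hF : Unif F) (T η κ : ℝ) (U : Finset (Fin n))
    (E : Finset (Fin n × Fin n)) (hη : 0 < η) (hn : 1 ≤ n) : ∀ (k : ℕ) (b : Fin k → Fin n),
    (∀ i, (deg F (b i) : ℝ) ≤ T * (n : ℝ) ^ 2) →
    (∀ i, ((E.biUnion (fun e => S F e.1 e.2 (b i))).card : ℝ) ≤ κ * n) →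
    κ * n + U.card + k + k * η * n + 8 * T * n / η < n →
    ∃ y : Fin k → Fin n, Function.Injective y ∧ (∀ i, y i ∉ U) ∧
      (∀ i, ∀ e ∈ E, y i ∉ S F e.1 e.2 (b i)) ∧
      (∀ i j, i ≠ j → y i ∉ S F (b j) (y j) (b i)) ∧
      (∀ i z, ((S F (b i) (y i) z).card : ℝ) ≤ η * n) := by
  intro k
  induction k with
  | zero =>
    intro b _ _ _
    exact ⟨Fin.elim0, fun i => i.elim0, fun i => i.elim0, fun i => i.elim0, fun i => i.elim0,
      fun i => i.elim0⟩
  | succ k ih =>
    intro b hb hE hlt
    have hn' : (0 : ℝ) < n := by exact_mod_cast hn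
    have hηn : 0 < η * n := by positivity
    have e1 : ((k + 1 : ℕ) : ℝ) = (k : ℝ) + 1 := by push_cast; ring
    rw [e1] at hlt
    obtain ⟨y, y1, y2, y3, y4, y5⟩ := ih (fun i => b i.castSucc) (fun i => hb _) (fun i => hE _)
      (by nlinarith)
    set c := b (Fin.last k) with hc
    set X : Finset (Fin n) := U ∪ univ.image y ∪ E.biUnion (fun e => S F e.1 e.2 c) ∪
      univ.biUnion (fun j : Fin k => S F (b j.castSucc) (y j) c) ∪ Bad F η c with hX
    have hcard : (X.card : ℝ) < n := by
      have c1 : X.card ≤ U.card + (univ.image y).card + (E.biUnion (fun e => S F e.1 e.2 c)).card +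
          (univ.biUnion (fun j : Fin k => S F (b j.castSucc) (y j) c)).card + (Bad F η c).card :=
        (card_union_le _ _).trans (Nat.add_le_add_right ((card_union_le _ _).trans
          (Nat.add_le_add_right ((card_union_le _ _).trans (Nat.add_le_add_right
            (card_union_le _ _) _)) _)) _)
      have c2 : (univ.image y).card ≤ k := card_image_le.trans (by simp)
      have c3 : ((univ.biUnion (fun j : Fin k => S F (b j.castSucc) (y j) c)).card : ℝ) ≤
          k * (η * n) := by
        have c4 : ((univ.biUnion (fun j : Fin k => S F (b j.castSucc) (y j) c)).card : ℝ) ≤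
            ∑ j : Fin k, ((S F (b j.castSucc) (y j) c).card : ℝ) := by
          exact_mod_cast card_biUnion_le
        refine c4.trans ?_
        have c5 : ∑ j : Fin k, ((S F (b j.castSucc) (y j) c).card : ℝ) ≤
            ∑ _j : Fin k, η * n := sum_le_sum fun j _ => y5 j c
        rw [sum_const, card_univ, Fintype.card_fin, nsmul_eq_mul] at c5
        exact c5
      have c6 := Bad_card F hF hη hn c (hb (Fin.last k))
      have c7 := hE (Fin.last k)
      have c1' : (X.card : ℝ) ≤ U.card + (univ.image y).card +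
          (E.biUnion (fun e => S F e.1 e.2 c)).card +
          (univ.biUnion (fun j : Fin k => S F (b j.castSucc) (y j) c)).card +
          (Bad F η c).card := by exact_mod_cast c1
      have c2' : ((univ.image y).card : ℝ) ≤ k := by exact_mod_cast c2
      rw [← hc] at c7
      nlinarith
    have hex : ∃ w, w ∉ X := by
      by_contra hcon
      push Not at hcon
      have : X = univ := eq_univ_of_forall hcon
      rw [this, card_univ, Fintype.card_fin] at hcard
      exact lt_irrefl _ hcard
    obtain ⟨w, hw⟩ := hex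
    simp only [hX, mem_union, not_or] at hw
    obtain ⟨⟨⟨⟨w1, w2⟩, w3⟩, w4⟩, w5⟩ := hw
    have w2' : ∀ i, y i ≠ w := fun i h => w2 (mem_image.2 ⟨i, mem_univ _, h⟩)
    have w3' : ∀ e ∈ E, w ∉ S F e.1 e.2 c := fun e he h => w3 (mem_biUnion.2 ⟨e, he, h⟩)
    have w4' : ∀ j : Fin k, w ∉ S F (b j.castSucc) (y j) c := fun j h =>
      w4 (mem_biUnion.2 ⟨j, mem_univ _, h⟩)
    have w5' : ∀ z, ((S F c w z).card : ℝ) ≤ η * n := by
      intro z
      by_contra hcon
      push Not at hcon
      apply w5
      unfold Bad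
      exact mem_filter.2 ⟨mem_univ _, z, hcon⟩
    refine ⟨Fin.snoc (α := fun _ => Fin n) y w, ?_, ?_, ?_, ?_, ?_⟩
    · rw [Fin.snoc_injective_iff]
      refine ⟨y1, ?_⟩
      rintro ⟨i, hi⟩
      exact w2' i hi
    · intro i
      refine Fin.lastCases ?_ (fun i => ?_) i
      · rw [Fin.snoc_last]
        exact w1
      · rw [Fin.snoc_castSucc]
        exact y2 i
    · intro i
      refine Fin.lastCases ?_ (fun i => ?_) i
      · rw [Fin.snoc_last]
        exact w3'
      · rw [Fin.snoc_castSucc]
        exact y3 i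
    · intro i j
      refine Fin.lastCases ?_ (fun i => ?_) i
      · refine Fin.lastCases ?_ (fun j => ?_) j
        · intro h
          exact absurd rfl h
        · intro _
          rw [Fin.snoc_last, Fin.snoc_castSucc]
          exact w4' j
      · refine Fin.lastCases ?_ (fun j => ?_) j
        · intro _
          rw [Fin.snoc_last, Fin.snoc_castSucc]
          exact fun h => w4' i (swap F h)
        · intro h
          rw [Fin.snoc_castSucc, Fin.snoc_castSucc]
          exact y4 i j fun h' => h (by rw [h'])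
    · intro i
      refine Fin.lastCases ?_ (fun i => ?_) i
      · rw [Fin.snoc_last]
        exact w5'
      · rw [Fin.snoc_castSucc]
        exact y5 i

end STAGEx

theorem t_STAGE : S_STAGE := by
  intro n F hF T' η' κ U E m b hη' _ hn hb hE hlt
  have h1 : ((U ∪ univ.image b).card : ℝ) ≤ U.card + m := by
    have h2 : (U ∪ univ.image b).card ≤ U.card + m :=
      (card_union_le _ _).trans (Nat.add_le_add_left (card_image_le.trans (by simp)) _)
    exact_mod_cast h2
  obtain ⟨y, y1, y2, y3, y4, y5⟩ := STAGEx.stage F hF T' η' κ (U ∪ univ.image b) E hη' hn m b hb hE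
    (by linarith)
  refine ⟨y, y1, fun i h => y2 i (mem_union_left _ h), fun i j h => y2 i ?_, y3, y4, y5⟩
  rw [h]
  exact mem_union_right _ (mem_image_of_mem _ (mem_univ _))

end Pool.Agent.R178.HY
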