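import Mathlib
import Pool.Agent.R178.HY.Defs

/-!
# HY-UP: the upper bound construction
-/

set_option autoImplicit false

open Finset

namespace Pool.Agent.R178.HY

namespace UPx

/-! ### the cycle -/

theorem cyc (n : ℕ) (hn : 3 ≤ n) (F : Finset (Finset (Fin n))) (v w : Fin n) (hvw : v ≠ w)
    (part : Fin n → Fin 3) (h3 : ∀ z, ∃ A ∈ F, v ∈ A ∧ w ∈ A ∧ z ∈ A)
    (h4 : ∀ x y, x ≠ v → x ≠ w → y ≠ v → y ≠ w → x ≠ y → part x = part y →
      ∃ A ∈ F, v ∈ A ∧ w ∈ A ∧ x ∈ A ∧ y ∈ A) (c : ZMod n ≃ Fin n) :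
    ¬ (XAcc F c ∧ YAcc F c) := by
  rintro ⟨hX, hY⟩
  obtain ⟨i, rfl⟩ := c.surjective v
  obtain ⟨j, rfl⟩ := c.surjective w
  have hij : i ≠ j := fun h => hvw (by rw [h])
  have hX' : ∀ k x y z, c k = x → c (k + 1) = y → c (k + 2) = z →
      ¬ ∃ A ∈ F, x ∈ A ∧ y ∈ A ∧ z ∈ A := by
    rintro k x y z rfl rfl rfl ⟨A, hA, h1, h2, h3⟩
    apply hX k
    refine ⟨A, hA, ?_⟩
    intro t ht
    simp only [mem_insert, mem_singleton] at ht
    rcases ht with rfl | rfl | rfl
    · exact h1
    · exact h2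
    · exact h3
  have hY' : ∀ k l, k ≠ l → k + 1 ≠ l → l + 1 ≠ k → 
      ¬ ∃ A ∈ F, c k ∈ A ∧ c (k + 1) ∈ A ∧ c l ∈ A ∧ c (l + 1) ∈ A := by
    rintro k l h1 h2 h3 ⟨A, hA, a1, a2, a3, a4⟩
    have hone : (1 : ZMod n) ≠ 0 := by
      have : Fact (1 < n) := ⟨by omega⟩
      exact one_ne_zero
    have hk : k ≠ k + 1 := by
      intro h
      apply hone
      linear_combination -h
    have hl : l ≠ l + 1 := by
      intro h
      apply hone
      linear_combination -h
    refine hY k l ?_ ⟨A, hA, ?_⟩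
    · have e1 : c k ≠ c (k + 1) := fun h => hk (c.injective h)
      have e2 : c k ≠ c l := fun h => h1 (c.injective h)
      have e3 : c k ≠ c (l + 1) := fun h => h3 (c.injective h).symm
      have e4 : c (k + 1) ≠ c l := fun h => h2 (c.injective h)
      have e5 : c (k + 1) ≠ c (l + 1) := fun h => h1 (add_right_cancel (c.injective h))
      have e6 : c l ≠ c (l + 1) := fun h => hl (c.injective h)
      rw [card_insert_of_notMem, card_insert_of_notMem, card_pair e6]
      · simp only [mem_insert, mem_singleton, not_or]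
        exact ⟨e4, e5⟩
      · simp only [mem_insert, mem_singleton, not_or]
        exact ⟨e1, e2, e3⟩
    · intro t ht
      simp only [mem_insert, mem_singleton] at ht
      rcases ht with rfl | rfl | rfl | rfl
      · exact a1
      · exact a2
      · exact a3
      · exact a4
  have hone : (1 : ZMod n) ≠ 0 := by
    have : Fact (1 < n) := ⟨by omega⟩
    exact one_ne_zero
  have htwo : (2 : ZMod n) ≠ 0 := by
    intro h
    have h1 : ((2 : ℕ) : ZMod n) = 0 := by exact_mod_cast h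
    rw [ZMod.natCast_eq_zero_iff] at h1
    have := Nat.le_of_dvd (by norm_num) h1
    omega
  -- distance 1
  have n1 : i + 1 ≠ j := by
    intro h
    obtain ⟨A, hA, a1, a2, a3⟩ := h3 (c (i + 2))
    exact hX' i _ _ _ rfl rfl rfl ⟨A, hA, a1, by rw [h]; exact a2, a3⟩
  have n2 : j + 1 ≠ i := by
    intro h
    obtain ⟨A, hA, a1, a2, a3⟩ := h3 (c (j + 2))
    exact hX' j _ _ _ rfl rfl rfl ⟨A, hA, a2, by rw [h]; exact a1, a3⟩
  have n3 : i + 2 ≠ j := by
    intro h
    obtain ⟨A, hA, a1, a2, a3⟩ := h3 (c (i + 1))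
    exact hX' i _ _ _ rfl rfl rfl ⟨A, hA, a1, a3, by rw [h]; exact a2⟩
  have n4 : j + 2 ≠ i := by
    intro h
    obtain ⟨A, hA, a1, a2, a3⟩ := h3 (c (j + 1))
    exact hX' j _ _ _ rfl rfl rfl ⟨A, hA, a2, a3, by rw [h]; exact a1⟩
  -- the neighbours are different from `v` and `w`
  have x1v : c (i - 1) ≠ c i := fun h => hone (by linear_combination -(c.injective h))
  have x1w : c (i - 1) ≠ c j := fun h => n2 (by linear_combination -(c.injective h))
  have x2v : c (i + 1) ≠ c i := fun h => hone (by linear_combination (c.injective h))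
  have x2w : c (i + 1) ≠ c j := fun h => n1 (c.injective h)
  have x3v : c (j - 1) ≠ c i := fun h => n1 (by linear_combination -(c.injective h))
  have x3w : c (j - 1) ≠ c j := fun h => hone (by linear_combination -(c.injective h))
  have x4v : c (j + 1) ≠ c i := fun h => n2 (c.injective h)
  have x4w : c (j + 1) ≠ c j := fun h => hone (by linear_combination (c.injective h))
  have x12 : c (i - 1) ≠ c (i + 1) := fun h => htwo (by linear_combination -(c.injective h))
  have x34 : c (j - 1) ≠ c (j + 1) := fun h => htwo (by linear_combination -(c.injective h))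
  have x13 : c (i - 1) ≠ c (j - 1) := fun h => hij (by linear_combination (c.injective h))
  have x14 : c (i - 1) ≠ c (j + 1) := fun h => n4 (by linear_combination -(c.injective h))
  have x23 : c (i + 1) ≠ c (j - 1) := fun h => n3 (by linear_combination (c.injective h))
  have x24 : c (i + 1) ≠ c (j + 1) := fun h => hij (by linear_combination (c.injective h))
  have pig : ∀ p1 p2 p3 p4 : Fin 3, p1 = p2 ∨ p3 = p4 ∨ p1 = p3 ∨ p1 = p4 ∨ p2 = p3 ∨ p2 = p4 := by
    decide
  have i1 : i - 1 + 1 = i := by ring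
  have j1 : j - 1 + 1 = j := by ring
  have i2 : i - 1 + 2 = i + 1 := by ring
  have j2 : j - 1 + 2 = j + 1 := by ring
  rcases pig (part (c (i - 1))) (part (c (i + 1))) (part (c (j - 1))) (part (c (j + 1))) with
    h | h | h | h | h | h
  · obtain ⟨A, hA, a1, a2, a3, a4⟩ := h4 _ _ x1v x1w x2v x2w x12 h
    exact hX' (i - 1) _ _ _ rfl (by rw [i1]) (by rw [i2]) ⟨A, hA, a3, a1, a4⟩
  · obtain ⟨A, hA, a1, a2, a3, a4⟩ := h4 _ _ x3v x3w x4v x4w x34 h
    exact hX' (j - 1) _ _ _ rfl (by rw [j1]) (by rw [j2]) ⟨A, hA, a3, a2, a4⟩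
  · obtain ⟨A, hA, a1, a2, a3, a4⟩ := h4 _ _ x1v x1w x3v x3w x13 h
    refine hY' (i - 1) (j - 1) (fun h => x13 (by rw [h])) ?_ ?_ ⟨A, hA, a3, ?_, a4, ?_⟩
    · rw [i1]; exact fun h => x3v (by rw [← h])
    · rw [j1]; exact fun h => x1w (by rw [← h])
    · rw [i1]; exact a1
    · rw [j1]; exact a2
  · obtain ⟨A, hA, a1, a2, a3, a4⟩ := h4 _ _ x1v x1w x4v x4w x14 h
    refine hY' (i - 1) j (fun h => x1w (by rw [h])) ?_ ?_ ⟨A, hA, a3, ?_, a2, a4⟩
    · rw [i1]; exact hij
    · exact fun h => x14 (by rw [h])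
    · rw [i1]; exact a1
  · obtain ⟨A, hA, a1, a2, a3, a4⟩ := h4 _ _ x2v x2w x3v x3w x23 h
    refine hY' i (j - 1) (fun h => x3v (by rw [h])) (fun h => x23 (by rw [h])) ?_
      ⟨A, hA, a1, a3, a4, ?_⟩
    · rw [j1]; exact hij.symm
    · rw [j1]; exact a2
  · obtain ⟨A, hA, a1, a2, a3, a4⟩ := h4 _ _ x2v x2w x4v x4w x24 h
    exact hY' i j hij n1 n2 ⟨A, hA, a1, a3, a2, a4⟩

/-! ### the lines -/

/-- the points of the affine space -/
abbrev W (m : ℕ) : Type := Fin (m + 1) → ZMod 3

/-- the ground set -/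
abbrev V (m : ℕ) : Type := Bool ⊕ (Fin 3 × W m)

theorem card_V (m : ℕ) : Fintype.card (V m) = 3 ^ (m + 2) + 2 := by
  simp only [V, W, Fintype.card_sum, Fintype.card_bool, Fintype.card_prod, Fintype.card_fin,
    Fintype.card_fun, ZMod.card]
  ring

/-- the enumeration of the ground set -/
noncomputable def en (m : ℕ) : V m ≃ Fin (3 ^ (m + 2) + 2) := Fintype.equivFinOfCardEq (card_V m)

/-- the members -/
def mem5 (m : ℕ) (p : Fin 3) (a b : W m) : Finset (V m) :=
  {Sum.inl false, Sum.inl true, Sum.inr (p, a), Sum.inr (p, b), Sum.inr (p, -a - b)}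

theorem three_zero (m : ℕ) (a : W m) : a + a + a = 0 := by
  funext i
  have h : ∀ x : ZMod 3, x + x + x = 0 := by decide
  exact h (a i)

theorem ne_a (m : ℕ) (a b : W m) (h : a ≠ b) : a ≠ -a - b := by
  intro h1
  apply h
  have h2 := three_zero m a
  have h3 : a + a + b = 0 := by
    calc a + a + b = a + (a + b) := by rw [add_assoc]
      _ = (-a - b) + (a + b) := by rw [← h1]
      _ = 0 := by abel
  have h4 : a + a + a = a + a + b := by rw [h2, h3]
  exact add_left_cancel h4

theorem ne_b (m : ℕ) (a b : W m) (h : a ≠ b) : b ≠ -a - b := by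
  have := ne_a m b a h.symm
  rwa [show -b - a = -a - b by abel] at this

theorem card_mem5 (m : ℕ) (p : Fin 3) (a b : W m) (h : a ≠ b) : (mem5 m p a b).card = 5 := by
  have h1 := ne_a m a b h
  have h2 := ne_b m a b h
  unfold mem5
  rw [card_insert_of_notMem, card_insert_of_notMem, card_insert_of_notMem, card_insert_of_notMem,
    card_singleton]
  · simpa using h2
  · simp only [mem_insert, mem_singleton, Sum.inr.injEq, Prod.mk.injEq, true_and, not_or]
    exact ⟨h, h1⟩
  · simp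
  · simp

/-- the triples -/
def Tr (m : ℕ) : Finset (Fin 3 × W m × W m) := univ.filter (fun t => t.2.1 ≠ t.2.2)

/-- the member of a triple -/
noncomputable def mf (m : ℕ) (t : Fin 3 × W m × W m) : Finset (Fin (3 ^ (m + 2) + 2)) :=
  (mem5 m t.1 t.2.1 t.2.2).map (en m).toEmbedding

/-- the family -/
noncomputable def FF (m : ℕ) : Finset (Finset (Fin (3 ^ (m + 2) + 2))) := (Tr m).image (mf m)

theorem mem5_swap (m : ℕ) (p : Fin 3) (a b : W m) : mem5 m p b a = mem5 m p a b := by
  unfold mem5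
  rw [show -b - a = -a - b by abel]
  ext x
  simp only [mem_insert, mem_singleton]
  tauto

theorem mem5_rot (m : ℕ) (p : Fin 3) (a b : W m) : mem5 m p b (-a - b) = mem5 m p a b := by
  unfold mem5
  rw [show -b - (-a - b) = a by abel]
  ext x
  simp only [mem_insert, mem_singleton]
  tauto

theorem fib (m : ℕ) (A : Finset (Fin (3 ^ (m + 2) + 2))) (hA : A ∈ (Tr m).image (mf m)) :
    6 ≤ ((Tr m).filter (fun t => mf m t = A)).card := by
  rw [mem_image] at hA
  obtain ⟨⟨p, a, b⟩, ht, rfl⟩ := hA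
  have hab : a ≠ b := by
    simpa [Tr] using ht
  have h1 := ne_a m a b hab
  have h2 := ne_b m a b hab
  set c := -a - b with hc
  have hsub : ({(p, a, b), (p, b, a), (p, b, c), (p, c, b), (p, c, a), (p, a, c)} :
      Finset (Fin 3 × W m × W m)) ⊆ (Tr m).filter (fun t => mf m t = mf m (p, a, b)) := by
    intro t ht
    simp only [mem_insert, mem_singleton] at ht
    rw [mem_filter]
    have r1 : mem5 m p b c = mem5 m p a b := mem5_rot m p a b
    have r2 : mem5 m p c a = mem5 m p a b := by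
      have := mem5_rot m p b c
      rw [show -b - c = a by rw [hc]; abel] at this
      rw [this, r1]
    rcases ht with rfl | rfl | rfl | rfl | rfl | rfl
    · exact ⟨by simpa [Tr] using hab, rfl⟩
    · exact ⟨by simpa [Tr] using hab.symm, by simp only [mf]; rw [mem5_swap]⟩
    · exact ⟨by simpa [Tr] using h2, by simp only [mf]; rw [r1]⟩
    · exact ⟨by simpa [Tr] using h2.symm, by simp only [mf]; rw [mem5_swap, r1]⟩
    · exact ⟨by simpa [Tr] using h1.symm, by simp only [mf]; rw [r2]⟩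
    · exact ⟨by simpa [Tr] using h1, by simp only [mf]; rw [mem5_swap, r2]⟩
  refine le_trans ?_ (card_le_card hsub)
  clear hsub
  clear_value c
  rw [card_insert_of_notMem, card_insert_of_notMem, card_insert_of_notMem, card_insert_of_notMem,
    card_pair]
  all_goals simp [hab, hab.symm, h1, h1.symm, h2, h2.symm]

theorem card_Tr (m : ℕ) : (Tr m).card ≤ 3 * (3 ^ (m + 1) * 3 ^ (m + 1)) := by
  unfold Tr
  refine (card_filter_le _ _).trans ?_
  rw [card_univ]
  simp only [Fintype.card_prod, Fintype.card_fin, W, Fintype.card_fun, ZMod.card]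
  exact le_refl _

theorem card_FF (m : ℕ) : 18 * (FF m).card ≤ (3 ^ (m + 2) + 2) ^ 2 := by
  have h1 : 6 * (FF m).card ≤ (Tr m).card := mul_card_image_le_card (Tr m) 6 (fib m)
  have h2 := card_Tr m
  have h3 : (3 : ℕ) ^ (m + 2) = 3 * 3 ^ (m + 1) := by ring
  calc 18 * (FF m).card = 3 * (6 * (FF m).card) := by ring
    _ ≤ 3 * (3 * (3 ^ (m + 1) * 3 ^ (m + 1))) := Nat.mul_le_mul_left 3 (h1.trans h2)
    _ = (3 ^ (m + 2)) ^ 2 := by rw [h3]; ring
    _ ≤ (3 ^ (m + 2) + 2) ^ 2 := Nat.pow_le_pow_left (by omega) 2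

theorem FF_mem (m : ℕ) (p : Fin 3) (a b : W m) (h : a ≠ b) : ∃ A ∈ FF m,
    en m (Sum.inl false) ∈ A ∧ en m (Sum.inl true) ∈ A ∧ en m (Sum.inr (p, a)) ∈ A ∧
      en m (Sum.inr (p, b)) ∈ A := by
  refine ⟨mf m (p, a, b), mem_image_of_mem _ (by simpa [Tr] using h), ?_, ?_, ?_, ?_⟩
  all_goals
    unfold mf
    rw [mem_map_equiv]
    simp [mem5]

theorem exists_ne' (m : ℕ) (a : W m) : ∃ b : W m, a ≠ b := by
  obtain ⟨b, hb⟩ := exists_ne a
  exact ⟨b, hb.symm⟩

/-- the part of a point -/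
noncomputable def prt (m : ℕ) (x : Fin (3 ^ (m + 2) + 2)) : Fin 3 :=
  match (en m).symm x with
  | Sum.inl _ => 0
  | Sum.inr (p, _) => p

end UPx

open UPx in
theorem t_UP : S_UP := by
  intro m
  refine ⟨FF m, ?_, card_FF m, ?_⟩
  · intro A hA
    rw [FF, mem_image] at hA
    obtain ⟨⟨p, a, b⟩, ht, rfl⟩ := hA
    have hab : a ≠ b := by simpa [Tr] using ht
    rw [mf, card_map]
    exact card_mem5 m p a b hab
  · intro c
    refine cyc _ (by have := Nat.pos_of_ne_zero (pow_ne_zero (m + 2) (by norm_num : (3 : ℕ) ≠ 0)); omega) (FF m) (en m (Sum.inl false)) (en m (Sum.inl true)) ?_ (prt m) ?_ ?_ c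
    · intro h
      have := (en m).injective h
      simp at this
    · intro z
      obtain ⟨x, rfl⟩ := (en m).surjective z
      rcases x with (_ | _) | ⟨p, a⟩
      · obtain ⟨b, hb⟩ := exists_ne' m 0
        obtain ⟨A, hA, h1, h2, h3, h4⟩ := FF_mem m 0 0 b hb
        exact ⟨A, hA, h1, h2, h1⟩
      · obtain ⟨b, hb⟩ := exists_ne' m 0
        obtain ⟨A, hA, h1, h2, h3, h4⟩ := FF_mem m 0 0 b hb
        exact ⟨A, hA, h1, h2, h2⟩
      · obtain ⟨b, hb⟩ := exists_ne' m a
        obtain ⟨A, hA, h1, h2, h3, h4⟩ := FF_mem m p a b hb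
        exact ⟨A, hA, h1, h2, h3⟩
    · intro x y xv xw yv yw xy hp
      obtain ⟨x, rfl⟩ := (en m).surjective x
      obtain ⟨y, rfl⟩ := (en m).surjective y
      rcases x with (_ | _) | ⟨p, a⟩
      · exact absurd rfl xv
      · exact absurd rfl xw
      rcases y with (_ | _) | ⟨q, b⟩
      · exact absurd rfl yv
      · exact absurd rfl yw
      have hpq : p = q := by
        simpa [prt] using hp
      subst hpq
      have hab : a ≠ b := by
        rintro rfl
        exact xy rfl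
      exact FF_mem m p a b hab

end Pool.Agent.R178.HY
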