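import Mathlib
import Pool.Agent.R178.HY.Defs

/-!
Project HY, piece XG: greedy choice of the segments.
-/

set_option autoImplicit false

open Finset

namespace Pool.Agent.R178.HY

namespace XGx

variable {n : ℕ}

theorem deg_sum (F : Finset (Finset (Fin n))) (hF : Unif F) : ∑ v, deg F v = 5 * F.card := by
  have h1 : ∀ v, deg F v = ∑ A ∈ F, if v ∈ A then 1 else 0 := fun v => by
    rw [deg, card_filter]
  simp only [h1]
  rw [sum_comm]
  have h2 : ∀ A ∈ F, (∑ v : Fin n, if v ∈ A then 1 else 0) = 5 := by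
    intro A hA
    rw [← hF A hA, ← card_filter]
    congr 1
    ext v
    simp
  rw [sum_congr rfl h2, sum_const, smul_eq_mul, mul_comm]

/-- the heavy vertices -/
def X (F : Finset (Finset (Fin n))) : Finset (Fin n) :=
  univ.filter fun v => n ^ 2 < 10000 * deg F v

theorem X_card (hn : 1 ≤ n) (F : Finset (Finset (Fin n))) (hF : Unif F)
    (hc : 17 * F.card ≤ n ^ 2) : (X F).card ≤ 3000 := by
  have h1 : (X F).card * n ^ 2 ≤ ∑ v ∈ X F, 10000 * deg F v := by
    rw [← smul_eq_mul]
    exact card_nsmul_le_sum _ _ _ fun v hv => (mem_filter.1 hv).2.le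
  have h2 : ∑ v ∈ X F, 10000 * deg F v ≤ 10000 * (5 * F.card) := by
    rw [← deg_sum F hF, mul_sum]
    exact sum_le_sum_of_subset (subset_univ _)
  have h3 : 0 < n ^ 2 := by positivity
  by_contra hcon
  push Not at hcon
  have h4 : 3001 * n ^ 2 ≤ (X F).card * n ^ 2 := Nat.mul_le_mul_right _ hcon
  omega

/-- the property of one segment -/
def Seg (F : Finset (Finset (Fin n))) (p : Fin 5 → Fin n) : Prop :=
  1000 * (univ.filter (fun z => Cov F {p 0, p 1, z})).card ≤ n ∧
  1000 * (univ.filter (fun z => Cov F {p 3, p 4, z})).card ≤ n ∧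
  ¬ Cov F {p 0, p 1, p 2} ∧ ¬ Cov F {p 1, p 2, p 3} ∧ ¬ Cov F {p 2, p 3, p 4}

theorem greedy (F : Finset (Finset (Fin n)))
    (h : ∀ (v : Fin n) (U : Finset (Fin n)), U.card ≤ 20000 →
      ∃ p : Fin 5 → Fin n, Function.Injective p ∧ p 2 = v ∧ (∀ j, j ≠ 2 → p j ∉ U) ∧ Seg F p)
    (Y : Finset (Fin n)) (hY : Y.card ≤ 3000) : ∀ (s : ℕ), s ≤ 3000 → ∀ v : Fin s → Fin n,
      Function.Injective v → (∀ i, v i ∈ Y) → ∃ g : Fin s → Fin 5 → Fin n,
      Function.Injective (fun p : Fin s × Fin 5 => g p.1 p.2) ∧ (∀ i, g i 2 = v i) ∧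
      (∀ i j, j ≠ 2 → g i j ∉ Y) ∧ ∀ i, Seg F (g i) := by
  intro s
  induction s with
  | zero =>
    intro _ v _ _
    exact ⟨fun i => i.elim0, fun p => p.1.elim0, fun i => i.elim0, fun i => i.elim0,
      fun i => i.elim0⟩
  | succ s ih =>
    intro hs v hv hvY
    obtain ⟨g, hg1, hg2, hg3, hg4⟩ := ih (by omega) (fun i => v i.castSucc)
      (hv.comp (Fin.castSucc_injective s)) fun i => hvY _
    set W : Finset (Fin n) := univ.image fun p : Fin s × Fin 5 => g p.1 p.2 with hW
    have hWc : W.card ≤ 15000 := by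
      refine card_image_le.trans ?_
      rw [card_univ, Fintype.card_prod, Fintype.card_fin, Fintype.card_fin]
      omega
    obtain ⟨p, hp1, hp2, hp3, hp4⟩ := h (v (Fin.last s)) (Y ∪ W)
      ((card_union_le _ _).trans (by omega))
    have hnew : ∀ (i : Fin s) (j k : Fin 5), g i j ≠ p k := by
      intro i j k hjk
      by_cases hk : k = 2
      · subst hk
        rw [hp2] at hjk
        by_cases hj : j = 2
        · subst hj
          rw [hg2] at hjk
          exact (Fin.castSucc_lt_last i).ne (hv hjk)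
        · exact hg3 i j hj (hjk ▸ hvY _)
      · apply hp3 k hk
        rw [← hjk]
        exact mem_union_right _ (mem_image.2 ⟨(i, j), mem_univ _, rfl⟩)
    refine ⟨Fin.snoc (α := fun _ => Fin 5 → Fin n) g p, ?_, ?_, ?_, ?_⟩
    · rintro ⟨i, j⟩ ⟨i', j'⟩ hij
      simp only at hij
      induction i using Fin.lastCases with
      | last =>
        induction i' using Fin.lastCases with
        | last =>
          rw [Fin.snoc_last] at hij
          rw [hp1 hij]
        | cast i' =>
          rw [Fin.snoc_last, Fin.snoc_castSucc] at hij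
          exact absurd hij.symm (hnew i' j' j)
      | cast i =>
        induction i' using Fin.lastCases with
        | last =>
          rw [Fin.snoc_last, Fin.snoc_castSucc] at hij
          exact absurd hij (hnew i j j')
        | cast i' =>
          rw [Fin.snoc_castSucc, Fin.snoc_castSucc] at hij
          have := hg1 (a₁ := (i, j)) (a₂ := (i', j')) hij
          rw [Prod.mk.injEq] at this
          rw [this.1, this.2]
    · intro i
      induction i using Fin.lastCases with
      | last => rw [Fin.snoc_last]; exact hp2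
      | cast i => rw [Fin.snoc_castSucc]; exact hg2 i
    · intro i j hj
      induction i using Fin.lastCases with
      | last => rw [Fin.snoc_last]; exact fun h' => hp3 j hj (mem_union_left _ h')
      | cast i => rw [Fin.snoc_castSucc]; exact hg3 i j hj
    · intro i
      induction i using Fin.lastCases with
      | last => rw [Fin.snoc_last]; exact hp4
      | cast i => rw [Fin.snoc_castSucc]; exact hg4 i

end XGx

open XGx in
theorem t_XG (h : S_XONE) : S_XG := by
  obtain ⟨n0, h⟩ := h
  refine ⟨n0 + 1, fun n hn F hF hc => ?_⟩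
  have hX := X_card (by omega) F hF hc
  obtain ⟨g, hg1, hg2, hg3, hg4⟩ := greedy F (h n (by omega) F hF hc) (X F) hX (X F).card hX
    (fun i => ((X F).equivFin.symm i : Fin n))
    (Subtype.val_injective.comp (Equiv.injective _)) fun i => ((X F).equivFin.symm i).2
  have hout : ∀ x, x ∉ X F → 10000 * deg F x ≤ n ^ 2 := by
    intro x hx
    by_contra hcon
    push Not at hcon
    exact hx (mem_filter.2 ⟨mem_univ _, hcon⟩)
  refine ⟨(X F).card, hX, g, ⟨hg1, ?_, ?_, ?_, ?_⟩⟩
  · intro x hx
    apply hout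
    intro hxX
    apply hx ((X F).equivFin ⟨x, hxX⟩) 2
    rw [hg2, Equiv.symm_apply_apply]
  · intro i
    exact ⟨hout _ (hg3 i 0 (by decide)), hout _ (hg3 i 4 (by decide))⟩
  · intro i
    exact ⟨(hg4 i).1, (hg4 i).2.1⟩
  · intro i
    exact (hg4 i).2.2

end Pool.Agent.R178.HY
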