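import Mathlib
import Pool.Agent.R178.HY.Defs
import Pool.Agent.R767.SS.LLL

/-! # Piece XL: the final random step for the pattern (3,1,1) -/

set_option autoImplicit false

open Finset

namespace Pool.Agent.R178.HY

namespace XLx

theorem card_sdiff_eq {α : Type*} [DecidableEq α] {P A Q : Finset α} (hPA : P.card = A.card)
    (h : A ∩ Q = P ∩ Q) : (P \ Q).card = (A \ Q).card := by
  have h1 := Finset.card_sdiff_add_card_inter P Q
  have h2 := Finset.card_sdiff_add_card_inter A Q
  rw [h] at h2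
  omega

theorem XP_card {n : ℕ} (hn : 3 ≤ n) (c0 : ZMod n ≃ Fin n) (i : ZMod n) : (XP c0 i).card = 3 := by
  unfold XP
  have hne : ∀ m : ℕ, 0 < m → m < 3 → ((m : ℕ) : ZMod n) ≠ 0 := by
    intro m h0 h3 h
    rw [ZMod.natCast_eq_zero_iff] at h
    have := Nat.le_of_dvd h0 h
    omega
  have h1 : (1 : ZMod n) ≠ 0 := by have := hne 1 (by norm_num) (by norm_num); simpa using this
  have h2 : (2 : ZMod n) ≠ 0 := by have := hne 2 (by norm_num) (by norm_num); simpa using this
  have e1 : c0 i ≠ c0 (i + 1) := by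
    intro h
    have := c0.injective h
    exact h1 (by linear_combination this.symm)
  have e2 : c0 i ≠ c0 (i + 2) := by
    intro h
    have := c0.injective h
    exact h2 (by linear_combination this.symm)
  have e3 : c0 (i + 1) ≠ c0 (i + 2) := by
    intro h
    have := c0.injective h
    exact h1 (by linear_combination this.symm)
  rw [Finset.card_eq_three]
  exact ⟨_, _, _, e1, e2, e3, rfl⟩

end XLx

open XLx in
theorem t_XL (h1 : S_ORD) (h2 : S_CLS) (h3 : S_XLB) (h4 : S_XLA) : S_XL := by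
  classical
  obtain ⟨n3, h3⟩ := h3
  obtain ⟨n4, h4⟩ := h4
  refine ⟨max (max n3 n4) 21000, ?_⟩
  intro n hn F hF hFc s hs g hg
  have hn3 : n3 ≤ n := le_trans (le_trans (le_max_left _ _) (le_max_left _ _)) hn
  have hn4 : n4 ≤ n := le_trans (le_trans (le_max_right _ _) (le_max_left _ _)) hn
  have hn5 : 21000 ≤ n := le_trans (le_max_right _ _) hn
  have hne : NeZero n := ⟨by omega⟩
  obtain ⟨c0, hc0⟩ := h1 n s (by omega) (by omega) g hg.inj
  have hcls := h2 n s (by omega) (by omega) g hg.inj c0 hc0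
  have hB := h3 n hn3 hne F hF hFc s hs g hg c0 hcls
  have hA := h4 n hn4 hne F hF hFc s hs g hg c0 hcls
  obtain ⟨σ, hσ1, hσ2⟩ := Pool.Agent.R767.SS.lll_rel (V := Fin n) (ι := ↥(XEv F g c0))
    (fun q => XP c0 q.1.1 \ Q g) (fun q => q.1.2 \ Q g) (Q g)
    (fun q => by
      have hq := (mem_filter.1 q.2).2
      exact card_sdiff_eq (by rw [hq.1, hq.2.1]) hq.2.2.2.1)
    (fun q => (mem_filter.1 q.2).2.2.2.2.2)
    (fun q => by
      have hq := (mem_filter.1 q.2).2
      rw [← hq.1]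
      exact card_le_card sdiff_subset)
    (fun q => sdiff_disjoint) (fun q => sdiff_disjoint)
    (fun x hx => by
      have h := hB x hx
      rw [Fintype.card_fin]
      rw [Finset.sum_filter] at h ⊢
      rw [← Finset.sum_coe_sort] at h
      convert h using 2)
    (fun x hx => by
      have h := hA x hx
      rw [Fintype.card_fin]
      rw [Finset.sum_filter] at h ⊢
      rw [← Finset.sum_coe_sort] at h
      convert h using 2)
  refine ⟨c0.trans σ, ?_⟩
  intro i hcov
  simp only [Equiv.trans_apply] at hcov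
  have himg : (XP c0 i).image σ = {σ (c0 i), σ (c0 (i + 1)), σ (c0 (i + 2))} := by
    unfold XP
    rw [image_insert, image_insert, image_singleton]
  rw [← himg] at hcov
  have hPc := XP_card (by omega : 3 ≤ n) c0 i
  have hAc : ((XP c0 i).image σ).card = 3 := by
    rw [card_image_of_injective _ σ.injective, hPc]
  have hAQ : (XP c0 i).image σ ∩ Q g = XP c0 i ∩ Q g := by
    ext x
    rw [mem_inter, mem_inter]
    constructor
    · rintro ⟨hx, hxQ⟩
      obtain ⟨y, hy, rfl⟩ := mem_image.1 hx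
      have := σ.injective (hσ1 _ hxQ)
      rw [this]
      rw [this] at hxQ
      exact ⟨hy, hxQ⟩
    · rintro ⟨hx, hxQ⟩
      exact ⟨mem_image.2 ⟨x, hx, hσ1 x hxQ⟩, hxQ⟩
  by_cases hne2 : (XP c0 i \ Q g).Nonempty
  · have hmem : (i, (XP c0 i).image σ) ∈ XEv F g c0 :=
      mem_filter.2 ⟨mem_univ _, hPc, hAc, hcov, hAQ, hne2⟩
    apply hσ2 ⟨_, hmem⟩
    ext x
    rw [mem_image, mem_sdiff]
    constructor
    · rintro ⟨y, hy, rfl⟩
      rw [mem_sdiff] at hy
      refine ⟨mem_image_of_mem _ hy.1, fun hQ => ?_⟩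
      have := σ.injective (hσ1 _ hQ)
      rw [this] at hQ
      exact hy.2 hQ
    · rintro ⟨hx, hxQ⟩
      obtain ⟨y, hy, rfl⟩ := mem_image.1 hx
      refine ⟨y, mem_sdiff.2 ⟨hy, fun hQ => ?_⟩, rfl⟩
      rw [hσ1 y hQ] at hxQ
      exact hxQ hQ
  · have hsub : XP c0 i ⊆ Q g := by
      intro x hx
      by_contra hxQ
      exact hne2 ⟨x, mem_sdiff.2 ⟨hx, hxQ⟩⟩
    have m0 : c0 i ∈ Q g := hsub (by simp [XP])
    have m1 : c0 (i + 1) ∈ Q g := hsub (by simp [XP])
    have m2 : c0 (i + 2) ∈ Q g := hsub (by simp [XP])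
    obtain ⟨t, j, e0, e1, e2⟩ := hcls.qqq i m0 m1 m2
    rw [himg, hσ1 _ m0, hσ1 _ m1, hσ1 _ m2, e0, e1, e2] at hcov
    obtain ⟨t0, t1, t2⟩ := hg.trip t
    fin_cases j
    · exact t0 hcov
    · exact t1 hcov
    · exact t2 hcov

end Pool.Agent.R178.HY
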