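import Mathlib
import Pool.Agent.R178.HY.Defs

/-!
HY-XLB (MP_e42343_co): weights of triple events, position side.
-/

set_option autoImplicit false

open Finset

namespace Pool.Agent.R178.HY

namespace XLBx

variable {n s : ℕ}

/-- the covered 3-sets containing `u` -/
theorem cov3 (F : Finset (Finset (Fin n))) (hF : Unif F) (u : Fin n) :
    ((univ : Finset (Finset (Fin n))).filter (fun A => A.card = 3 ∧ Cov F A ∧ u ∈ A)).card ≤
      10 * deg F u := by
  have h1 : (univ : Finset (Finset (Fin n))).filter (fun A => A.card = 3 ∧ Cov F A ∧ u ∈ A) ⊆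
      (F.filter (fun A => u ∈ A)).biUnion (fun M => powersetCard 3 M) := by
    intro A hA
    rw [mem_filter] at hA
    obtain ⟨-, h3, ⟨M, hM, hAM⟩, hu⟩ := hA
    rw [mem_biUnion]
    exact ⟨M, mem_filter.2 ⟨hM, hAM hu⟩, mem_powersetCard.2 ⟨hAM, h3⟩⟩
  refine (card_le_card h1).trans (card_biUnion_le.trans ?_)
  have h2 : ∀ M ∈ F.filter (fun A => u ∈ A), (powersetCard 3 M).card = 10 := by
    intro M hM
    rw [card_powersetCard, hF M (mem_filter.1 hM).1]
    rfl
  rw [sum_congr rfl h2, sum_const, smul_eq_mul, mul_comm]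
  rfl

theorem cov3all (F : Finset (Finset (Fin n))) (hF : Unif F) :
    ((univ : Finset (Finset (Fin n))).filter (fun A => A.card = 3 ∧ Cov F A)).card ≤
      10 * F.card := by
  have h1 : (univ : Finset (Finset (Fin n))).filter (fun A => A.card = 3 ∧ Cov F A) ⊆
      F.biUnion (fun M => powersetCard 3 M) := by
    intro A hA
    rw [mem_filter] at hA
    obtain ⟨-, h3, M, hM, hAM⟩ := hA
    rw [mem_biUnion]
    exact ⟨M, hM, mem_powersetCard.2 ⟨hAM, h3⟩⟩
  refine (card_le_card h1).trans (card_biUnion_le.trans ?_)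
  have h2 : ∀ M ∈ F, (powersetCard 3 M).card = 10 := by
    intro M hM
    rw [card_powersetCard, hF M hM]
    rfl
  rw [sum_congr rfl h2, sum_const, smul_eq_mul, mul_comm]

theorem cardQ (g : Fin s → Fin 5 → Fin n) (hs : s ≤ 3000) : (Q g).card ≤ 15000 := by
  refine card_image_le.trans ?_
  rw [card_univ, Fintype.card_prod, Fintype.card_fin, Fintype.card_fin]
  omega

theorem weight (m r : ℕ) (hn : 10 ^ 8 ≤ n) (hm : m ≤ 15000) (hr : r = 1 ∨ r = 2 ∨ r = 3) :
    (((n - m).choose r : ℕ) : ℝ)⁻¹ ≤ (2 / (n : ℝ)) ^ r := by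
  have hn0 : (10 : ℝ) ^ 8 ≤ n := by exact_mod_cast hn
  have hpos : (0 : ℝ) < n := by linarith [show (0 : ℝ) < 10 ^ 8 by norm_num]
  have h1 : (n / 2 : ℝ) ^ r ≤ (((n - m).choose r : ℕ) : ℝ) := by
    refine le_trans ?_ (Nat.pow_le_choose r (n - m))
    have h2 : (99 / 100 : ℝ) * n ≤ ((n - m + 1 - r : ℕ) : ℝ) := by
      have h3 : 99 * n ≤ 100 * (n - m + 1 - r) := by omega
      have h4 : (99 : ℝ) * n ≤ 100 * ((n - m + 1 - r : ℕ) : ℝ) := by exact_mod_cast h3
      linarith
    have h5 : ((99 / 100 : ℝ) * n) ^ r / (r.factorial : ℝ) ≤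
        ((n - m + 1 - r : ℕ) : ℝ) ^ r / (r.factorial : ℝ) := by
      gcongr
    refine le_trans ?_ h5
    rcases hr with rfl | rfl | rfl
    · simp only [pow_one, Nat.factorial]
      push_cast
      nlinarith
    · simp only [Nat.factorial]
      push_cast
      nlinarith [sq_nonneg (n : ℝ)]
    · simp only [Nat.factorial]
      push_cast
      have : (0 : ℝ) ≤ (n : ℝ) ^ 3 := by positivity
      nlinarith
  have h6 : (0 : ℝ) < (n / 2 : ℝ) ^ r := by positivity
  calc (((n - m).choose r : ℕ) : ℝ)⁻¹ ≤ ((n / 2 : ℝ) ^ r)⁻¹ := inv_anti₀ h6 h1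
    _ = (2 / (n : ℝ)) ^ r := by rw [← inv_pow, inv_div]

theorem split {α : Type} [DecidableEq α] (T : Finset α) (r : α → ℕ) (w : α → ℝ) (c : ℝ)
    (hc : 0 ≤ c) (hr : ∀ q ∈ T, r q = 1 ∨ r q = 2 ∨ r q = 3) (hw : ∀ q ∈ T, w q ≤ c ^ (r q))
    (b1 b2 b3 : ℝ) (h1 : ((T.filter (fun q => r q = 1)).card : ℝ) ≤ b1)
    (h2 : ((T.filter (fun q => r q = 2)).card : ℝ) ≤ b2)
    (h3 : ((T.filter (fun q => r q = 3)).card : ℝ) ≤ b3) :
    ∑ q ∈ T, w q ≤ b1 * c + b2 * c ^ 2 + b3 * c ^ 3 := by
  have hmap : ∀ q ∈ T, r q ∈ ({1, 2, 3} : Finset ℕ) := by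
    intro q hq
    rcases hr q hq with h | h | h <;> rw [h] <;> simp
  rw [← sum_fiberwise_of_maps_to hmap]
  have key : ∀ k : ℕ, ∀ b : ℝ, ((T.filter (fun q => r q = k)).card : ℝ) ≤ b →
      ∑ q ∈ T.filter (fun q => r q = k), w q ≤ b * c ^ k := by
    intro k b hb
    have e : ∀ q ∈ T.filter (fun q => r q = k), w q ≤ c ^ k := by
      intro q hq
      rw [mem_filter] at hq
      have := hw q hq.1
      rwa [hq.2] at this
    refine (sum_le_card_nsmul _ _ _ e).trans ?_
    rw [nsmul_eq_mul]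
    exact mul_le_mul_of_nonneg_right hb (pow_nonneg hc k)
  have e : ∑ j ∈ ({1, 2, 3} : Finset ℕ), ∑ q ∈ T.filter (fun q => r q = j), w q =
      ∑ q ∈ T.filter (fun q => r q = 1), w q + ∑ q ∈ T.filter (fun q => r q = 2), w q +
        ∑ q ∈ T.filter (fun q => r q = 3), w q := by
    rw [sum_insert (by simp), sum_insert (by simp), sum_singleton, add_assoc]
  rw [e]
  have k1 := key 1 b1 h1
  rw [pow_one] at k1
  exact add_le_add (add_le_add k1 (key 2 b2 h2)) (key 3 b3 h3)

theorem card_r [NeZero n] {F : Finset (Finset (Fin n))} {g : Fin s → Fin 5 → Fin n}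
    {c0 : ZMod n ≃ Fin n} {q : ZMod n × Finset (Fin n)} (hq : q ∈ XEv F g c0) :
    (XP c0 q.1 \ Q g).card = 1 ∨ (XP c0 q.1 \ Q g).card = 2 ∨ (XP c0 q.1 \ Q g).card = 3 := by
  unfold XEv at hq
  rw [mem_filter] at hq
  obtain ⟨-, h3, -, -, -, hne⟩ := hq
  have h1 := card_pos.2 hne
  have h2 : (XP c0 q.1 \ Q g).card ≤ (XP c0 q.1).card := card_le_card sdiff_subset
  omega

end XLBx

open XLBx in
theorem t_XLB : S_XLB := by
  refine ⟨10 ^ 8, fun n hn _ F hF h17 s hs g hg c0 hc x hx => ?_⟩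
  have hn0 : (10 : ℝ) ^ 8 ≤ n := by exact_mod_cast hn
  have hpos : (0 : ℝ) < n := by linarith [show (0 : ℝ) < 10 ^ 8 by norm_num]
  set T := (XEv F g c0).filter (fun q => x ∈ XP c0 q.1 \ Q g) with hT
  have hQ : (Q g).card ≤ 15000 := cardQ g hs
  have hgQ : ∀ t j, g t j ∈ Q g := fun t j => mem_image.2 ⟨(t, j), mem_univ _, rfl⟩
  -- positions
  set k : ZMod n := c0.symm x with hk
  have hpos3 : ∀ q ∈ T, q.1 ∈ ({k, k - 1, k - 2} : Finset (ZMod n)) := by
    intro q hq
    rw [hT, mem_filter] at hq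
    have h1 : x ∈ XP c0 q.1 := (mem_sdiff.1 hq.2).1
    unfold XP at h1
    simp only [mem_insert, mem_singleton] at h1 ⊢
    rcases h1 with h | h | h
    · left
      rw [hk, h, Equiv.symm_apply_apply]
    · right; left
      rw [hk, h, Equiv.symm_apply_apply]
      ring
    · right; right
      rw [hk, h, Equiv.symm_apply_apply]
      ring
  have hcount : ∀ (r m : ℕ), (∀ i : ZMod n,
      ((T.filter (fun q => (XP c0 q.1 \ Q g).card = r)).filter (fun q => q.1 = i)).card ≤ m) →
      (T.filter (fun q => (XP c0 q.1 \ Q g).card = r)).card ≤ m * 3 := by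
    intro r m h
    have h1 := card_le_mul_card_image_of_maps_to
      (s := T.filter (fun q => (XP c0 q.1 \ Q g).card = r)) (f := Prod.fst)
      (t := ({k, k - 1, k - 2} : Finset (ZMod n)))
      (fun q hq => hpos3 q (mem_filter.1 hq).1) m (fun i _ => h i)
    refine h1.trans (Nat.mul_le_mul_left m ?_)
    exact card_le_three
  -- r = 1
  have hr1 : (T.filter (fun q => (XP c0 q.1 \ Q g).card = 1)).card ≤ (n / 1000) * 3 := by
    refine hcount 1 _ fun i => ?_
    rcases ((T.filter (fun q => (XP c0 q.1 \ Q g).card = 1)).filter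
      (fun q => q.1 = i)).eq_empty_or_nonempty with he | ⟨q0, hq0⟩
    · rw [he, card_empty]
      exact Nat.zero_le _
    rw [mem_filter, mem_filter, hT, mem_filter] at hq0
    obtain ⟨⟨⟨hq1, hq2⟩, hq3⟩, rfl⟩ := hq0
    have hq1' := hq1
    unfold XEv at hq1'
    rw [mem_filter] at hq1'
    obtain ⟨-, hP3, -, -, -, -⟩ := hq1'
    set i := q0.1
    -- all other points of the triple are in `Q`
    have hoth : ∀ y ∈ XP c0 i, y ≠ x → y ∈ Q g := by
      intro y hy hyx
      by_contra hyQ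
      obtain ⟨z, hz⟩ := card_eq_one.1 hq3
      have h1 : x ∈ ({z} : Finset (Fin n)) := hz ▸ hq2
      have h2 : y ∈ ({z} : Finset (Fin n)) := hz ▸ (mem_sdiff.2 ⟨hy, hyQ⟩)
      rw [mem_singleton] at h1 h2
      exact hyx (h2.trans h1.symm)
    have hI2 : (XP c0 i ∩ Q g).card = 2 := by
      have := card_sdiff_add_card_inter (XP c0 i) (Q g)
      omega
    obtain ⟨u, u', huu, hu, hu', hZ⟩ : ∃ u u' : Fin n, u ≠ u' ∧ u ∈ XP c0 i ∩ Q g ∧
        u' ∈ XP c0 i ∩ Q g ∧ 1000 * (univ.filter (fun z => Cov F {u, u', z})).card ≤ n := by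
      have hx1 := (mem_sdiff.1 hq2).1
      have hd : c0 i ≠ c0 (i + 1) ∧ c0 i ≠ c0 (i + 2) ∧ c0 (i + 1) ≠ c0 (i + 2) := by
        refine ⟨fun h => ?_, fun h => ?_, fun h => ?_⟩
        · have : (XP c0 i).card ≤ 2 := by
            unfold XP
            rw [h, insert_eq_of_mem (mem_insert_self _ _)]
            exact card_le_two
          omega
        · have : (XP c0 i).card ≤ 2 := by
            unfold XP
            rw [h, insert_eq_of_mem (by simp)]
            exact card_le_two
          omega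
        · have : (XP c0 i).card ≤ 2 := by
            unfold XP
            rw [h, pair_eq_singleton]
            exact card_le_two
          omega
      have m0 : c0 i ∈ XP c0 i := by unfold XP; simp
      have m1 : c0 (i + 1) ∈ XP c0 i := by unfold XP; simp
      have m2 : c0 (i + 2) ∈ XP c0 i := by unfold XP; simp
      have hx1' := hx1
      unfold XP at hx1'
      simp only [mem_insert, mem_singleton] at hx1'
      rcases hx1' with h | h | h
      · have hQ1 : c0 (i + 1) ∈ Q g := hoth _ m1 (by rw [h]; exact hd.1.symm)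
        obtain ⟨t, h1, h2⟩ := hc.fq i (by rw [← h]; exact hx) hQ1
        refine ⟨g t 0, g t 1, ?_, ?_, ?_, (hg.pair t).1⟩
        · rw [← h1, ← h2]
          exact hd.2.2
        · rw [← h1]
          exact mem_inter.2 ⟨m1, hQ1⟩
        · rw [← h2]
          exact mem_inter.2 ⟨m2, by rw [h2]; exact hgQ t 1⟩
      · exfalso
        have hQ0 : c0 i ∈ Q g := hoth _ m0 (by rw [h]; exact hd.1)
        have hQ2 : c0 (i + 2) ∈ Q g := hoth _ m2 (by rw [h]; exact hd.2.2.symm)
        refine hc.qfq (i + 1) (by rw [← h]; exact hx) ⟨?_, ?_⟩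
        · rw [add_sub_cancel_right]
          exact hQ0
        · rw [add_assoc, one_add_one_eq_two]
          exact hQ2
      · have hQ1 : c0 (i + 1) ∈ Q g := hoth _ m1 (by rw [h]; exact hd.2.2)
        obtain ⟨t, h1, h2⟩ := hc.qf (i + 1) hQ1 (by
          rw [add_assoc, one_add_one_eq_two, ← h]
          exact hx)
        rw [add_sub_cancel_right] at h2
        refine ⟨g t 3, g t 4, ?_, ?_, ?_, (hg.pair t).2⟩
        · rw [← h1, ← h2]
          exact hd.1
        · rw [← h2]
          exact mem_inter.2 ⟨m0, by rw [h2]; exact hgQ t 3⟩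
        · rw [← h1]
          exact mem_inter.2 ⟨m1, hQ1⟩
    rw [Nat.le_div_iff_mul_le (by norm_num), mul_comm]
    refine le_trans (Nat.mul_le_mul_left 1000 ?_) hZ
    have hsub : ((T.filter (fun q => (XP c0 q.1 \ Q g).card = 1)).filter
        (fun q => q.1 = i)) ⊆ (univ.filter (fun z => Cov F {u, u', z})).image
          (fun z => (i, ({u, u', z} : Finset (Fin n)))) := by
      intro q hq
      rw [mem_filter, mem_filter, hT, mem_filter] at hq
      obtain ⟨⟨⟨h1, -⟩, -⟩, h4⟩ := hq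
      unfold XEv at h1
      rw [mem_filter] at h1
      obtain ⟨-, -, hA3, hcov, hAQ, -⟩ := h1
      rw [h4] at hAQ
      have hu1 : u ∈ q.2 := by
        rw [← hAQ] at hu
        exact (mem_inter.1 hu).1
      have hu2 : u' ∈ q.2 := by
        rw [← hAQ] at hu'
        exact (mem_inter.1 hu').1
      have hsub2 : ({u, u'} : Finset (Fin n)) ⊆ q.2 := by
        intro y hy
        rw [mem_insert, mem_singleton] at hy
        rcases hy with rfl | rfl
        · exact hu1
        · exact hu2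
      have hc1 : (q.2 \ {u, u'}).card = 1 := by
        rw [card_sdiff_of_subset hsub2, card_pair huu, hA3]
      obtain ⟨z, hz⟩ := card_eq_one.1 hc1
      have hA : q.2 = {u, u', z} := by
        rw [← sdiff_union_of_subset hsub2, hz]
        ext y
        simp only [mem_union, mem_insert, mem_singleton]
        tauto
      rw [mem_image]
      refine ⟨z, mem_filter.2 ⟨mem_univ _, ?_⟩, ?_⟩
      · rw [← hA]
        exact hcov
      · rw [← hA, ← h4]
    exact (card_le_card hsub).trans card_image_le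
  -- r = 2
  have hr2 : (T.filter (fun q => (XP c0 q.1 \ Q g).card = 2)).card ≤ (n ^ 2 / 1000) * 3 := by
    refine hcount 2 _ fun i => ?_
    rcases ((T.filter (fun q => (XP c0 q.1 \ Q g).card = 2)).filter
      (fun q => q.1 = i)).eq_empty_or_nonempty with he | ⟨q0, hq0⟩
    · rw [he, card_empty]
      exact Nat.zero_le _
    rw [mem_filter, mem_filter, hT, mem_filter] at hq0
    obtain ⟨⟨⟨hq1, hq2⟩, hq3⟩, rfl⟩ := hq0
    have hq1' := hq1
    unfold XEv at hq1'
    rw [mem_filter] at hq1'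
    obtain ⟨-, hP3, -, -, -, -⟩ := hq1'
    set i := q0.1
    have hI1 : (XP c0 i ∩ Q g).card = 1 := by
      have := card_sdiff_add_card_inter (XP c0 i) (Q g)
      omega
    obtain ⟨u, hu⟩ := card_eq_one.1 hI1
    have huI : u ∈ XP c0 i ∩ Q g := by rw [hu]; exact mem_singleton_self u
    have honly : ∀ y ∈ XP c0 i, y ∈ Q g → y = u := by
      intro y hy hyQ
      have : y ∈ XP c0 i ∩ Q g := mem_inter.2 ⟨hy, hyQ⟩
      rw [hu] at this
      exact mem_singleton.1 this
    have hend : 10000 * deg F u ≤ n ^ 2 := by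
      have hd : c0 i ≠ c0 (i + 1) ∧ c0 i ≠ c0 (i + 2) ∧ c0 (i + 1) ≠ c0 (i + 2) := by
        refine ⟨fun h => ?_, fun h => ?_, fun h => ?_⟩
        · have : (XP c0 i).card ≤ 2 := by
            unfold XP
            rw [h, insert_eq_of_mem (mem_insert_self _ _)]
            exact card_le_two
          omega
        · have : (XP c0 i).card ≤ 2 := by
            unfold XP
            rw [h, insert_eq_of_mem (by simp)]
            exact card_le_two
          omega
        · have : (XP c0 i).card ≤ 2 := by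
            unfold XP
            rw [h, pair_eq_singleton]
            exact card_le_two
          omega
      have m0 : c0 i ∈ XP c0 i := by unfold XP; simp
      have m1 : c0 (i + 1) ∈ XP c0 i := by unfold XP; simp
      have m2 : c0 (i + 2) ∈ XP c0 i := by unfold XP; simp
      obtain ⟨hu1, hu2⟩ := mem_inter.1 huI
      have hu1' := hu1
      unfold XP at hu1'
      simp only [mem_insert, mem_singleton] at hu1'
      rcases hu1' with h | h | h
      · have hnQ : c0 (i + 1) ∉ Q g := fun hQ' => hd.1 (by rw [honly _ m1 hQ', h])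
        obtain ⟨t, h1, -⟩ := hc.qf i (by rw [← h]; exact hu2) hnQ
        rw [h, h1]
        exact (hg.ends t).2
      · exfalso
        have hnQ : c0 i ∉ Q g := fun hQ' => hd.1 (by rw [honly _ m0 hQ', h])
        obtain ⟨t, h1, h2⟩ := hc.fq i hnQ (by rw [← h]; exact hu2)
        have h3 : c0 (i + 2) ∈ Q g := by rw [h2]; exact hgQ t 1
        exact hd.2.2 (by rw [honly _ m2 h3, h])
      · have hnQ : c0 (i + 1) ∉ Q g := fun hQ' => hd.2.2 (by rw [honly _ m1 hQ', h])
        obtain ⟨t, h1, -⟩ := hc.fq (i + 1) hnQ (by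
          rw [add_assoc, one_add_one_eq_two, ← h]
          exact hu2)
        rw [add_assoc, one_add_one_eq_two] at h1
        rw [h, h1]
        exact (hg.ends t).1
    have hle : ((T.filter (fun q => (XP c0 q.1 \ Q g).card = 2)).filter
        (fun q => q.1 = i)).card ≤ 10 * deg F u := by
      refine le_trans ?_ (cov3 F hF u)
      refine card_le_card_of_injOn Prod.snd ?_ ?_
      · intro q hq
        rw [mem_coe, mem_filter, mem_filter, hT, mem_filter] at hq
        obtain ⟨⟨⟨h1, -⟩, -⟩, h4⟩ := hq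
        unfold XEv at h1
        rw [mem_filter] at h1
        obtain ⟨-, -, hA3, hcov, hAQ, -⟩ := h1
        rw [h4] at hAQ
        rw [mem_coe, mem_filter]
        refine ⟨mem_univ _, hA3, hcov, ?_⟩
        rw [← hAQ] at huI
        exact (mem_inter.1 huI).1
      · intro q hq q' hq' h
        rw [mem_coe, mem_filter] at hq hq'
        exact Prod.ext (hq.2.trans hq'.2.symm) h
    rw [Nat.le_div_iff_mul_le (by norm_num)]
    omega
  -- r = 3
  have hr3 : (T.filter (fun q => (XP c0 q.1 \ Q g).card = 3)).card ≤ (n ^ 2) * 3 := by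
    refine hcount 3 _ fun i => ?_
    have hle : ((T.filter (fun q => (XP c0 q.1 \ Q g).card = 3)).filter
        (fun q => q.1 = i)).card ≤ 10 * F.card := by
      refine le_trans ?_ (cov3all F hF)
      refine card_le_card_of_injOn Prod.snd ?_ ?_
      · intro q hq
        rw [mem_coe, mem_filter, mem_filter, hT, mem_filter] at hq
        obtain ⟨⟨⟨h1, -⟩, -⟩, h4⟩ := hq
        unfold XEv at h1
        rw [mem_filter] at h1
        obtain ⟨-, -, hA3, hcov, -, -⟩ := h1
        rw [mem_coe, mem_filter]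
        exact ⟨mem_univ _, hA3, hcov⟩
      · intro q hq q' hq' h
        rw [mem_coe, mem_filter] at hq hq'
        exact Prod.ext (hq.2.trans hq'.2.symm) h
    omega
  have hTr : ∀ q ∈ T, (XP c0 q.1 \ Q g).card = 1 ∨ (XP c0 q.1 \ Q g).card = 2 ∨
      (XP c0 q.1 \ Q g).card = 3 := fun q hq => card_r (mem_filter.1 hq).1
  have hfin := split T (fun q => (XP c0 q.1 \ Q g).card)
    (fun q => (((n - (Q g).card).choose (XP c0 q.1 \ Q g).card : ℕ) : ℝ)⁻¹) (2 / (n : ℝ))
    (by positivity) hTr (fun q hq => weight _ _ hn hQ (hTr q hq))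
    ((n : ℝ) / 1000 * 3) ((n : ℝ) ^ 2 / 1000 * 3) ((n : ℝ) ^ 2 * 3) (by
      have h1 : ((T.filter (fun q => (XP c0 q.1 \ Q g).card = 1)).card : ℝ) ≤
        ((n / 1000 : ℕ) : ℝ) * 3 := by exact_mod_cast hr1
      refine h1.trans ?_
      have h2 : ((n / 1000 : ℕ) : ℝ) ≤ (n : ℝ) / 1000 := by exact_mod_cast Nat.cast_div_le
      gcongr) (by
      have h1 : ((T.filter (fun q => (XP c0 q.1 \ Q g).card = 2)).card : ℝ) ≤
        ((n ^ 2 / 1000 : ℕ) : ℝ) * 3 := by exact_mod_cast hr2
      refine h1.trans ?_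
      have h2 : ((n ^ 2 / 1000 : ℕ) : ℝ) ≤ ((n ^ 2 : ℕ) : ℝ) / 1000 := by
        exact_mod_cast Nat.cast_div_le
      push_cast at h2
      linarith) (by exact_mod_cast hr3)
  refine hfin.trans ?_
  have e : (n : ℝ) / 1000 * 3 * (2 / (n : ℝ)) + (n : ℝ) ^ 2 / 1000 * 3 * (2 / (n : ℝ)) ^ 2 +
      (n : ℝ) ^ 2 * 3 * (2 / (n : ℝ)) ^ 3 = 18 / 1000 + 24 / (n : ℝ) := by
    field_simp
    ring
  rw [e]
  have h24 : 24 / (n : ℝ) ≤ 1 / 1000 := by
    rw [div_le_div_iff₀ hpos (by norm_num)]
    linarith [show (24000 : ℝ) ≤ 10 ^ 8 by norm_num]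
  linarith

end Pool.Agent.R178.HY
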