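import Mathlib
import Pool.Agent.R178.HY.Defs
import Pool.Agent.R178.HY.XLB

/-!
HY-XLA (MP_e42343_co): weights of triple events, set side.
-/

set_option autoImplicit false

open Finset

namespace Pool.Agent.R178.HY

namespace XLAx

variable {n s : ℕ}

/-- the positions whose triple meets `Q` -/
theorem cardJ [NeZero n] (g : Fin s → Fin 5 → Fin n) (c0 : ZMod n ≃ Fin n) (hs : s ≤ 3000) :
    ((univ : Finset (ZMod n)).filter (fun i => (XP c0 i ∩ Q g).Nonempty)).card ≤ 45000 := by
  have h1 : (univ : Finset (ZMod n)).filter (fun i => (XP c0 i ∩ Q g).Nonempty) ⊆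
      (Q g).biUnion (fun u => ({c0.symm u, c0.symm u - 1, c0.symm u - 2} : Finset (ZMod n))) := by
    intro i hi
    rw [mem_filter] at hi
    obtain ⟨-, u, hu⟩ := hi
    rw [mem_inter] at hu
    rw [mem_biUnion]
    refine ⟨u, hu.2, ?_⟩
    have h2 := hu.1
    unfold XP at h2
    simp only [mem_insert, mem_singleton] at h2 ⊢
    rcases h2 with h | h | h
    · left
      rw [h, Equiv.symm_apply_apply]
    · right; left
      rw [h, Equiv.symm_apply_apply]
      ring
    · right; right
      rw [h, Equiv.symm_apply_apply]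
      ring
  refine (card_le_card h1).trans (card_biUnion_le.trans ?_)
  have h2 : ∑ u ∈ Q g, ({c0.symm u, c0.symm u - 1, c0.symm u - 2} : Finset (ZMod n)).card ≤
      ∑ _u ∈ Q g, 3 := sum_le_sum fun u _ => card_le_three
  refine h2.trans ?_
  rw [sum_const, smul_eq_mul]
  have := XLBx.cardQ g hs
  omega

end XLAx

open XLAx XLBx in
theorem t_XLA : S_XLA := by
  refine ⟨10 ^ 8, fun n hn _ F hF h17 s hs g hg c0 hc x hx => ?_⟩
  have hn0 : (10 : ℝ) ^ 8 ≤ n := by exact_mod_cast hn
  have hpos : (0 : ℝ) < n := by linarith [show (0 : ℝ) < 10 ^ 8 by norm_num]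
  set T := (XEv F g c0).filter (fun q => x ∈ q.2 \ Q g) with hT
  have hQ : (Q g).card ≤ 15000 := cardQ g hs
  have hgQ : ∀ t j, g t j ∈ Q g := fun t j => mem_image.2 ⟨(t, j), mem_univ _, rfl⟩
  have hlight : 10000 * deg F x ≤ n ^ 2 := by
    refine hg.light x fun i j h => hx ?_
    rw [← h]
    exact hgQ i j
  set J := (univ : Finset (ZMod n)).filter (fun i => (XP c0 i ∩ Q g).Nonempty) with hJ
  have hJc : J.card ≤ 45000 := cardJ g c0 hs
  have hinter : ∀ i : ZMod n, (XP c0 i \ Q g).card + (XP c0 i ∩ Q g).card = (XP c0 i).card :=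
    fun i => card_sdiff_add_card_inter _ _
  -- r = 1
  have hr1 : (T.filter (fun q => (XP c0 q.1 \ Q g).card = 1)).card ≤ 45000 := by
    have h1 := card_le_mul_card_image_of_maps_to
      (s := T.filter (fun q => (XP c0 q.1 \ Q g).card = 1)) (f := Prod.fst) (t := J) (by
        intro q hq
        rw [mem_filter, hT, mem_filter] at hq
        obtain ⟨⟨h1, -⟩, h3⟩ := hq
        unfold XEv at h1
        rw [mem_filter] at h1
        obtain ⟨-, hP3, -, -, -, -⟩ := h1
        rw [hJ, mem_filter]
        refine ⟨mem_univ _, card_pos.1 ?_⟩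
        have := hinter q.1
        omega) 1 (by
        intro i _
        rw [card_le_one]
        have key : ∀ q ∈ (T.filter (fun q => (XP c0 q.1 \ Q g).card = 1)).filter
            (fun q => q.1 = i), q = (i, insert x (XP c0 i ∩ Q g)) := by
          intro q hq
          rw [mem_filter, mem_filter, hT, mem_filter] at hq
          obtain ⟨⟨⟨h1, h2⟩, h3⟩, h4⟩ := hq
          unfold XEv at h1
          rw [mem_filter] at h1
          obtain ⟨-, hP3, hA3, -, hAQ, -⟩ := h1
          have h5 := hinter q.1
          have h6 : insert x (XP c0 q.1 ∩ Q g) ⊆ q.2 := by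
            rw [← hAQ]
            intro y hy
            rw [mem_insert] at hy
            rcases hy with rfl | hy
            · exact (mem_sdiff.1 h2).1
            · exact (mem_inter.1 hy).1
          have h7 : q.2.card ≤ (insert x (XP c0 q.1 ∩ Q g)).card := by
            rw [card_insert_of_notMem (fun h => hx (mem_inter.1 h).2)]
            omega
          have h8 := eq_of_subset_of_card_le h6 h7
          rw [h4] at h8
          exact Prod.ext h4 h8.symm
        intro a ha b hb
        rw [key a ha, key b hb])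
    refine h1.trans ?_
    rw [one_mul]
    exact hJc
  -- r = 2
  have hr2 : (T.filter (fun q => (XP c0 q.1 \ Q g).card = 2)).card ≤ n * 45000 := by
    have h1 := card_le_mul_card_image_of_maps_to
      (s := T.filter (fun q => (XP c0 q.1 \ Q g).card = 2)) (f := Prod.fst) (t := J) (by
        intro q hq
        rw [mem_filter, hT, mem_filter] at hq
        obtain ⟨⟨h1, -⟩, h3⟩ := hq
        unfold XEv at h1
        rw [mem_filter] at h1
        obtain ⟨-, hP3, -, -, -, -⟩ := h1
        rw [hJ, mem_filter]
        refine ⟨mem_univ _, card_pos.1 ?_⟩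
        have := hinter q.1
        omega) n (by
        intro i _
        have hsub : (T.filter (fun q => (XP c0 q.1 \ Q g).card = 2)).filter
            (fun q => q.1 = i) ⊆ (univ : Finset (Fin n)).image
              (fun y => (i, insert y (insert x (XP c0 i ∩ Q g)))) := by
          intro q hq
          rw [mem_filter, mem_filter, hT, mem_filter] at hq
          obtain ⟨⟨⟨h1, h2⟩, h3⟩, h4⟩ := hq
          unfold XEv at h1
          rw [mem_filter] at h1
          obtain ⟨-, hP3, hA3, -, hAQ, -⟩ := h1
          have h5 := hinter q.1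
          have h6 : insert x (XP c0 q.1 ∩ Q g) ⊆ q.2 := by
            rw [← hAQ]
            intro y hy
            rw [mem_insert] at hy
            rcases hy with rfl | hy
            · exact (mem_sdiff.1 h2).1
            · exact (mem_inter.1 hy).1
          have h7 : (insert x (XP c0 q.1 ∩ Q g)).card = 2 := by
            rw [card_insert_of_notMem (fun h => hx (mem_inter.1 h).2)]
            omega
          have h8 : (q.2 \ insert x (XP c0 q.1 ∩ Q g)).card = 1 := by
            rw [card_sdiff_of_subset h6, h7, hA3]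
          obtain ⟨y, hy⟩ := card_eq_one.1 h8
          have h9 : q.2 = insert y (insert x (XP c0 q.1 ∩ Q g)) := by
            rw [← sdiff_union_of_subset h6, hy]
            rfl
          rw [mem_image]
          refine ⟨y, mem_univ _, ?_⟩
          rw [← h4, ← h9]
        refine (card_le_card hsub).trans (card_image_le.trans ?_)
        rw [card_univ, Fintype.card_fin])
    exact h1.trans (Nat.mul_le_mul_left n hJc)
  -- r = 3
  have hr3 : (T.filter (fun q => (XP c0 q.1 \ Q g).card = 3)).card ≤ (n ^ 2 / 1000) * n := by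
    have h1 := card_le_mul_card_image_of_maps_to
      (s := T.filter (fun q => (XP c0 q.1 \ Q g).card = 3)) (f := Prod.fst)
      (t := (univ : Finset (ZMod n))) (fun q _ => mem_univ _) (n ^ 2 / 1000) (by
        intro i _
        have hle : ((T.filter (fun q => (XP c0 q.1 \ Q g).card = 3)).filter
            (fun q => q.1 = i)).card ≤ 10 * deg F x := by
          refine le_trans ?_ (cov3 F hF x)
          refine card_le_card_of_injOn Prod.snd ?_ ?_
          · intro q hq
            rw [mem_coe, mem_filter, mem_filter, hT, mem_filter] at hq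
            obtain ⟨⟨⟨h1, h2⟩, -⟩, -⟩ := hq
            unfold XEv at h1
            rw [mem_filter] at h1
            obtain ⟨-, -, hA3, hcov, -, -⟩ := h1
            rw [mem_coe, mem_filter]
            exact ⟨mem_univ _, hA3, hcov, (mem_sdiff.1 h2).1⟩
          · intro q hq q' hq' h
            rw [mem_coe, mem_filter] at hq hq'
            exact Prod.ext (hq.2.trans hq'.2.symm) h
        rw [Nat.le_div_iff_mul_le (by norm_num)]
        omega)
    refine h1.trans ?_
    rw [card_univ, ZMod.card]
  have hTr : ∀ q ∈ T, (XP c0 q.1 \ Q g).card = 1 ∨ (XP c0 q.1 \ Q g).card = 2 ∨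
      (XP c0 q.1 \ Q g).card = 3 := fun q hq => card_r (mem_filter.1 hq).1
  have hfin := split T (fun q => (XP c0 q.1 \ Q g).card)
    (fun q => (((n - (Q g).card).choose (XP c0 q.1 \ Q g).card : ℕ) : ℝ)⁻¹) (2 / (n : ℝ))
    (by positivity) hTr (fun q hq => weight _ _ hn hQ (hTr q hq))
    45000 ((n : ℝ) * 45000) ((n : ℝ) ^ 2 / 1000 * n) (by exact_mod_cast hr1)
      (by exact_mod_cast hr2) (by
      have h1 : ((T.filter (fun q => (XP c0 q.1 \ Q g).card = 3)).card : ℝ) ≤
        ((n ^ 2 / 1000 : ℕ) : ℝ) * n := by exact_mod_cast hr3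
      refine h1.trans ?_
      have h2 : ((n ^ 2 / 1000 : ℕ) : ℝ) ≤ ((n ^ 2 : ℕ) : ℝ) / 1000 := by
        exact_mod_cast Nat.cast_div_le
      push_cast at h2
      gcongr)
  refine hfin.trans ?_
  have e : 45000 * (2 / (n : ℝ)) + (n : ℝ) * 45000 * (2 / (n : ℝ)) ^ 2 +
      (n : ℝ) ^ 2 / 1000 * n * (2 / (n : ℝ)) ^ 3 = 8 / 1000 + 270000 / (n : ℝ) := by
    field_simp
    ring
  rw [e]
  have h24 : 270000 / (n : ℝ) ≤ 1 / 100 := by
    rw [div_le_div_iff₀ hpos (by norm_num)]
    linarith [show (27000000 : ℝ) ≤ 10 ^ 8 by norm_num]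
  linarith

end Pool.Agent.R178.HY
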