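import Mathlib
import Pool.Agent.R178.HY.Defs

set_option autoImplicit false

open Finset

namespace Pool.Agent.R178.HY

namespace XONEx

variable {n : ℕ}

/-- good pairs -/
def gd (F : Finset (Finset (Fin n))) (v u w : Fin n) : Prop :=
  u ≠ w ∧ ¬ Cov F {v, u, w} ∧ 1000 * (univ.filter (fun z => Cov F {u, w, z})).card ≤ n

instance (F : Finset (Finset (Fin n))) (v u w : Fin n) : Decidable (gd F v u w) := by
  unfold gd; infer_instance

lemma gd_symm (F : Finset (Finset (Fin n))) (v u w : Fin n) (h : gd F v u w) : gd F v w u := by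
  obtain ⟨h1, h2, h3⟩ := h
  refine ⟨Ne.symm h1, ?_, ?_⟩
  · rwa [Finset.pair_comm w u]
  · have e : ∀ z, ({w, u, z} : Finset (Fin n)) = {u, w, z} := fun z => Finset.insert_comm w u {z}
    simp only [e]
    exact h3

lemma bad1 (F : Finset (Finset (Fin n))) (hF : Unif F) (v : Fin n) (W : Finset (Fin n))
    (hv : v ∉ W) :
    (W.offDiag.filter (fun q => Cov F {v, q.1, q.2})).card ≤ 12 * F.card := by
  have hsub : W.offDiag.filter (fun q => Cov F {v, q.1, q.2}) ⊆
      (F.filter (fun M => v ∈ M)).biUnion (fun M => (M.erase v).offDiag) := by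
    intro q hq
    obtain ⟨hq1, M, hM, hsubM⟩ := Finset.mem_filter.1 hq
    rw [Finset.mem_offDiag] at hq1
    rw [Finset.mem_biUnion]
    refine ⟨M, Finset.mem_filter.2 ⟨hM, hsubM (by simp)⟩, ?_⟩
    rw [Finset.mem_offDiag]
    refine ⟨Finset.mem_erase.2 ⟨fun e => hv (e ▸ hq1.1), hsubM (by simp)⟩,
      Finset.mem_erase.2 ⟨fun e => hv (e ▸ hq1.2.1), hsubM (by simp)⟩, hq1.2.2⟩
  refine (Finset.card_le_card hsub).trans ?_
  refine (Finset.card_biUnion_le_card_mul _ _ 12 ?_).trans ?_
  · intro M hM
    obtain ⟨hM1, hM2⟩ := Finset.mem_filter.1 hM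
    rw [Finset.offDiag_card, Finset.card_erase_of_mem hM2, hF M hM1]
  · rw [mul_comm]
    exact Nat.mul_le_mul_left _ (Finset.card_filter_le _ _)

lemma bad2 (F : Finset (Finset (Fin n))) (hF : Unif F) :
    n * ((univ : Finset (Fin n)).offDiag.filter
      (fun q => n < 1000 * (univ.filter (fun z => Cov F {q.1, q.2, z})).card)).card ≤
      100000 * F.card := by
  set B := (univ : Finset (Fin n)).offDiag.filter
      (fun q => n < 1000 * (univ.filter (fun z => Cov F {q.1, q.2, z})).card) with hB
  have h1 : n * B.card ≤ ∑ q ∈ B, 1000 * (univ.filter (fun z => Cov F {q.1, q.2, z})).card := by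
    rw [mul_comm, ← smul_eq_mul, ← Finset.sum_const]
    apply Finset.sum_le_sum
    intro q hq
    exact (Finset.mem_filter.1 hq).2.le
  have h2 : ∑ q ∈ B, (univ.filter (fun z => Cov F {q.1, q.2, z})).card =
      (B.sigma (fun q => univ.filter (fun z => Cov F {q.1, q.2, z}))).card :=
    (Finset.card_sigma _ _).symm
  have h3 : (B.sigma (fun q => univ.filter (fun z => Cov F {q.1, q.2, z}))).card ≤
      100 * F.card := by
    have hsub : (B.sigma (fun q => univ.filter (fun z => Cov F {q.1, q.2, z}))).image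
        (fun s => (s.1, s.2)) ⊆ F.biUnion (fun M => M.offDiag ×ˢ M) := by
      intro q hq
      obtain ⟨s, hs, rfl⟩ := Finset.mem_image.1 hq
      obtain ⟨hs1, hs2⟩ := Finset.mem_sigma.1 hs
      obtain ⟨-, M, hM, hsubM⟩ := Finset.mem_filter.1 hs2
      rw [hB] at hs1
      have hs3 := Finset.mem_offDiag.1 (Finset.mem_filter.1 hs1).1
      rw [Finset.mem_biUnion]
      refine ⟨M, hM, ?_⟩
      rw [Finset.mem_product, Finset.mem_offDiag]
      exact ⟨⟨hsubM (by simp), hsubM (by simp), hs3.2.2⟩, hsubM (by simp)⟩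
    have hinj : Function.Injective (fun s : (_ : Fin n × Fin n) × Fin n => (s.1, s.2)) := by
      rintro ⟨a, b⟩ ⟨c, d⟩ h
      simp only [Prod.mk.injEq] at h
      obtain ⟨rfl, rfl⟩ := h
      rfl
    rw [← Finset.card_image_of_injective _ hinj]
    refine (Finset.card_le_card hsub).trans ?_
    refine (Finset.card_biUnion_le_card_mul _ _ 100 ?_).trans (le_of_eq (mul_comm _ _))
    intro M hM
    rw [Finset.card_product, Finset.offDiag_card, hF M hM]
  rw [← Finset.mul_sum, h2] at h1
  omega

lemma inj5 {α : Type} (a b c d e : α) (h1 : a ≠ b) (h2 : a ≠ c) (h3 : a ≠ d) (h4 : a ≠ e)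
    (h5 : b ≠ c) (h6 : b ≠ d) (h7 : b ≠ e) (h8 : c ≠ d) (h9 : c ≠ e) (h10 : d ≠ e) :
    Function.Injective ![a, b, c, d, e] := by
  intro i j hij
  fin_cases i <;> fin_cases j <;> first | rfl | (exfalso; simp at hij; simp_all)

end XONEx

open XONEx in
theorem t_XONE : S_XONE := by
  refine ⟨200000, fun n hn F hF hFc v U hU => ?_⟩
  set W : Finset (Fin n) := univ \ insert v U with hW
  have hvW : v ∉ W := by simp [hW]
  have hUW : ∀ x ∈ W, x ∉ U ∧ x ≠ v := by
    intro x hx
    rw [hW, Finset.mem_sdiff, Finset.mem_insert, not_or] at hx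
    exact ⟨hx.2.2, hx.2.1⟩
  have hWc : n ≤ W.card + 20001 := by
    have h1 : W.card + (insert v U).card = ((univ : Finset (Fin n)) ∪ insert v U).card := by
      rw [hW]; exact Finset.card_sdiff_add_card _ _
    have h2 : n ≤ ((univ : Finset (Fin n)) ∪ insert v U).card := by
      have h4 := Finset.card_le_card (Finset.subset_union_left (s₁ := (univ : Finset (Fin n)))
        (s₂ := insert v U))
      rw [Finset.card_univ, Fintype.card_fin] at h4
      exact h4
    have h3 := Finset.card_insert_le v U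
    omega
  -- the good pairs
  set D : Finset (Fin n × Fin n) := (W ×ˢ W).filter (fun q => gd F v q.1 q.2) with hD
  have hsub : W.offDiag ⊆ (D ∪ W.offDiag.filter (fun q => Cov F {v, q.1, q.2})) ∪
      (univ : Finset (Fin n)).offDiag.filter
      (fun q => n < 1000 * (univ.filter (fun z => Cov F {q.1, q.2, z})).card) := by
    intro q hq
    have hq' := Finset.mem_offDiag.1 hq
    rw [Finset.mem_union, Finset.mem_union]
    by_cases h1 : Cov F {v, q.1, q.2}
    · exact Or.inl (Or.inr (Finset.mem_filter.2 ⟨hq, h1⟩))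
    · by_cases h2 : n < 1000 * (univ.filter (fun z => Cov F {q.1, q.2, z})).card
      · exact Or.inr (Finset.mem_filter.2 ⟨Finset.mem_offDiag.2 ⟨Finset.mem_univ _,
          Finset.mem_univ _, hq'.2.2⟩, h2⟩)
      · exact Or.inl (Or.inl (Finset.mem_filter.2 ⟨Finset.mem_product.2 ⟨hq'.1, hq'.2.1⟩,
          hq'.2.2, h1, not_lt.1 h2⟩))
  have hc1 := Finset.card_le_card hsub
  have hc2 := (Finset.card_union_le (D ∪ W.offDiag.filter (fun q => Cov F {v, q.1, q.2}))
    ((univ : Finset (Fin n)).offDiag.filter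
      (fun q => n < 1000 * (univ.filter (fun z => Cov F {q.1, q.2, z})).card)))
  have hc3 := Finset.card_union_le D (W.offDiag.filter (fun q => Cov F {v, q.1, q.2}))
  have hb1 := bad1 F hF v W hvW
  have hb2 := bad2 F hF
  rw [Finset.offDiag_card] at hc1
  generalize ((univ : Finset (Fin n)).offDiag.filter
      (fun q => n < 1000 * (univ.filter (fun z => Cov F {q.1, q.2, z})).card)).card = b2 at *
  generalize (W.offDiag.filter (fun q => Cov F {v, q.1, q.2})).card = b1 at *
  have hb2' : 17 * b2 ≤ 100000 * n := by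
    have h1 : n * (17 * b2) ≤ n * (100000 * n) := by nlinarith
    exact Nat.le_of_mul_le_mul_left h1 (by omega)
  have hDc : 4 * n < D.card := by
    by_contra hcon
    push Not at hcon
    obtain ⟨m, hm⟩ : ∃ m, W.card = m := ⟨_, rfl⟩
    rw [hm] at hc1 hWc
    have h1 : m * m ≤ D.card + b1 + b2 + m := by omega
    have h2 : m ≤ n := by
      rw [← hm]
      have := Finset.card_le_univ W
      rwa [Fintype.card_fin] at this
    have h3 : 17 * (m * m) ≤ 17 * (4 * n) + 12 * n ^ 2 + 100000 * n + 17 * m := by omega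
    nlinarith
  -- degrees
  obtain ⟨N, hN⟩ : ∃ N : Fin n → Finset (Fin n), N = fun a => W.filter (fun w => gd F v a w) :=
    ⟨_, rfl⟩
  obtain ⟨q, hqD, hq1, hq2⟩ : ∃ q ∈ D, 3 ≤ (N q.1).card ∧ 3 ≤ (N q.2).card := by
    by_contra hcon
    push Not at hcon
    have hs : D ⊆ D.filter (fun q => (N q.1).card ≤ 2) ∪ D.filter (fun q => (N q.2).card ≤ 2) := by
      intro q hq
      rw [Finset.mem_union]
      by_cases h1 : (N q.1).card ≤ 2
      · exact Or.inl (Finset.mem_filter.2 ⟨hq, h1⟩)
      · have := hcon q hq (by omega)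
        exact Or.inr (Finset.mem_filter.2 ⟨hq, by omega⟩)
    have h1 : (D.filter (fun q => (N q.1).card ≤ 2)).card ≤ 2 * (univ : Finset (Fin n)).card := by
      refine Finset.card_le_mul_card_image_of_maps_to (f := Prod.fst)
        (fun _ _ => Finset.mem_univ _) 2 ?_
      intro a _
      by_cases ha : (N a).card ≤ 2
      · refine le_trans ?_ ha
        refine Finset.card_le_card_of_injOn Prod.snd ?_ ?_
        · intro q hq
          obtain ⟨h1, h2⟩ := Finset.mem_filter.1 (Finset.mem_coe.1 hq)
          obtain ⟨h3, -⟩ := Finset.mem_filter.1 h1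
          obtain ⟨h4, h5⟩ := Finset.mem_filter.1 h3
          rw [hN, Finset.mem_coe, Finset.mem_filter, ← h2]
          exact ⟨(Finset.mem_product.1 h4).2, h5⟩
        · intro q hq q' hq' he
          have h2 := (Finset.mem_filter.1 (Finset.mem_coe.1 hq)).2
          have h2' := (Finset.mem_filter.1 (Finset.mem_coe.1 hq')).2
          exact Prod.ext (h2.trans h2'.symm) he
      · have : (D.filter (fun q => (N q.1).card ≤ 2)).filter (fun q => q.1 = a) = ∅ := by
          apply Finset.filter_eq_empty_iff.2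
          intro q hq he
          have := (Finset.mem_filter.1 hq).2
          rw [he] at this
          exact ha this
        rw [this]
        simp
    have h2 : (D.filter (fun q => (N q.2).card ≤ 2)).card ≤ 2 * (univ : Finset (Fin n)).card := by
      refine Finset.card_le_mul_card_image_of_maps_to (f := Prod.snd)
        (fun _ _ => Finset.mem_univ _) 2 ?_
      intro a _
      by_cases ha : (N a).card ≤ 2
      · refine le_trans ?_ ha
        refine Finset.card_le_card_of_injOn Prod.fst ?_ ?_
        · intro q hq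
          obtain ⟨h1, h2⟩ := Finset.mem_filter.1 (Finset.mem_coe.1 hq)
          obtain ⟨h3, -⟩ := Finset.mem_filter.1 h1
          obtain ⟨h4, h5⟩ := Finset.mem_filter.1 h3
          rw [hN, Finset.mem_coe, Finset.mem_filter, ← h2]
          exact ⟨(Finset.mem_product.1 h4).1, gd_symm F v _ _ h5⟩
        · intro q hq q' hq' he
          have h2 := (Finset.mem_filter.1 (Finset.mem_coe.1 hq)).2
          have h2' := (Finset.mem_filter.1 (Finset.mem_coe.1 hq')).2
          exact Prod.ext he (h2.trans h2'.symm)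
      · have : (D.filter (fun q => (N q.2).card ≤ 2)).filter (fun q => q.2 = a) = ∅ := by
          apply Finset.filter_eq_empty_iff.2
          intro q hq he
          have := (Finset.mem_filter.1 hq).2
          rw [he] at this
          exact ha this
        rw [this]
        simp
    rw [Finset.card_univ, Fintype.card_fin] at h1 h2
    have h3 := Finset.card_le_card hs
    have h4 := Finset.card_union_le (D.filter (fun q => (N q.1).card ≤ 2))
      (D.filter (fun q => (N q.2).card ≤ 2))
    omega
  obtain ⟨a, b⟩ := q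
  simp only at hq1 hq2
  obtain ⟨hab1, hab⟩ := Finset.mem_filter.1 hqD
  obtain ⟨haW, hbW⟩ := Finset.mem_product.1 hab1
  simp only at haW hbW hab
  obtain ⟨a', ha'⟩ : ((N a).erase b).Nonempty := by
    rw [← Finset.card_pos]
    have := Finset.pred_card_le_card_erase (s := N a) (a := b)
    omega
  obtain ⟨b', hb'⟩ : (((N b).erase a).erase a').Nonempty := by
    rw [← Finset.card_pos]
    have h1 := Finset.pred_card_le_card_erase (s := N b) (a := a)
    have h2 := Finset.pred_card_le_card_erase (s := (N b).erase a) (a := a')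
    omega
  rw [Finset.mem_erase, hN, Finset.mem_filter] at ha'
  rw [Finset.mem_erase, Finset.mem_erase, hN, Finset.mem_filter] at hb'
  obtain ⟨ha1, ha2, ha3⟩ := ha'
  obtain ⟨hb0, hb1', hb2', hb3⟩ := hb'
  have ga := gd_symm F v _ _ ha3
  obtain ⟨va1, va2⟩ := hUW a haW
  obtain ⟨vb1, vb2⟩ := hUW b hbW
  obtain ⟨va'1, va'2⟩ := hUW a' ha2
  obtain ⟨vb'1, vb'2⟩ := hUW b' hb2'
  refine ⟨![a', a, v, b, b'], ?_, rfl, ?_, ga.2.2, hb3.2.2, ?_, ?_, ?_⟩
  · exact inj5 a' a v b b' ga.1 va'2 ha1 (Ne.symm hb0) va2 hab.1 (Ne.symm hb1') (Ne.symm vb2)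
      (Ne.symm vb'2) hb3.1
  · intro j hj
    fin_cases j
    · exact va'1
    · exact va1
    · exact absurd rfl hj
    · exact vb1
    · exact vb'1
  · show ¬ Cov F {a', a, v}
    have e : ({a', a, v} : Finset (Fin n)) = {v, a', a} := by
      ext x; simp; tauto
    rw [e]
    exact ga.2.1
  · show ¬ Cov F {a, v, b}
    have e : ({a, v, b} : Finset (Fin n)) = {v, a, b} := Finset.insert_comm _ _ _
    rw [e]
    exact hab.2.1
  · show ¬ Cov F {v, b, b'}
    exact hb3.2.1

end Pool.Agent.R178.HY
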