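import Mathlib
import Pool.Agent.R178.HY.Defs

set_option autoImplicit false

open Finset

namespace Pool.Agent.R178.HY

namespace YLx

theorem sum_sub {α : Type} [DecidableEq α] (s : Finset α) (P : α → Prop) [DecidablePred P]
    (f : α → ℝ) (D : DecidablePred fun j : {q // q ∈ s} => P j.1) :
    ∑ j ∈ (univ : Finset {q // q ∈ s}).filter (fun j => P j.1), f j.1
      = ∑ q ∈ s.filter P, f q := by
  rw [Finset.sum_filter, Finset.sum_filter]
  have h1 : ∀ j : {q // q ∈ s}, (if P j.1 then f j.1 else 0)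
      = (fun q => if P q then f q else 0) j.1 := fun j => by
    by_cases h : P j.1
    · simp only [if_pos h]
    · simp only [if_neg h]
  rw [Finset.sum_congr rfl fun j _ => h1 j]
  exact Finset.sum_coe_sort s (fun q => if P q then f q else 0)

end YLx

open YLx in
theorem t_YL (h1 : S_ORD) (h2 : S_CLS) (h3 : S_LLL4) (h4 : S_YW) : S_YL := by
  classical
  intro s0
  obtain ⟨ρ, hρ, n0, h4'⟩ := h4 s0
  refine ⟨ρ, hρ, max n0 (7 * s0 + 1), fun n hn F hU hF s hs g hg => ?_⟩
  have hn0 : n0 ≤ n := le_trans (le_max_left _ _) hn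
  have hn1 : 7 * s0 + 1 ≤ n := le_trans (le_max_right _ _) hn
  have hpos : 1 ≤ n := by omega
  have h7 : 7 * s ≤ n := by omega
  have hNZ : NeZero n := ⟨by omega⟩
  obtain ⟨c0, hc0⟩ := h1 n s hpos h7 g hg.inj
  have hcls := h2 n s hpos h7 g hg.inj c0 hc0
  have hw := h4' n s hNZ hn0 hs F g c0 hU hF hg hcls
  have hmem : ∀ q : {q // q ∈ YEv F g c0}, (YP c0 q.1.1).card = 4 ∧ q.1.2.card = 4 ∧
      Cov F q.1.2 ∧ q.1.2 ∩ Q g = YP c0 q.1.1 ∩ Q g ∧ (YP c0 q.1.1 \ Q g).Nonempty := fun q =>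
    (mem_filter.1 q.2).2
  obtain ⟨σ, hσ1, hσ2⟩ := h3 (Fin n) {q // q ∈ YEv F g c0}
    (fun q => YP c0 q.1.1 \ Q g) (fun q => q.1.2 \ Q g) (Q g)
    (fun q => by
      obtain ⟨e1, e2, _, e4, _⟩ := hmem q
      have k1 := card_sdiff_add_card_inter (YP c0 q.1.1) (Q g)
      have k2 := card_sdiff_add_card_inter q.1.2 (Q g)
      rw [e4] at k2
      omega)
    (fun q => (hmem q).2.2.2.2)
    (fun q => (card_le_card sdiff_subset).trans (hmem q).1.le)
    (fun q => sdiff_disjoint) (fun q => sdiff_disjoint)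
    (fun x hx => by
      have := (hw x hx).1
      rw [Fintype.card_fin]
      refine le_trans (le_of_eq ?_) this
      exact sum_sub (YEv F g c0) (fun q => x ∈ YP c0 q.1 \ Q g)
        (fun q => (((n - (Q g).card).choose (YP c0 q.1 \ Q g).card : ℕ) : ℝ)⁻¹) _)
    (fun x hx => by
      have := (hw x hx).2
      rw [Fintype.card_fin]
      refine le_trans (le_of_eq ?_) this
      exact sum_sub (YEv F g c0) (fun q => x ∈ q.2 \ Q g)
        (fun q => (((n - (Q g).card).choose (YP c0 q.1 \ Q g).card : ℕ) : ℝ)⁻¹) _)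
  refine ⟨c0.trans σ, ?_⟩
  intro i j hcard hcov
  have hA : ({(c0.trans σ) i, (c0.trans σ) (i + 1), (c0.trans σ) j, (c0.trans σ) (j + 1)} :
      Finset (Fin n)) = (YP c0 (i, j)).image σ := by
    rw [YP, image_insert, image_insert, image_insert, image_singleton]
    rfl
  rw [hA] at hcard hcov
  rw [card_image_of_injective _ σ.injective] at hcard
  have hQ : (Q g).image σ = Q g := by
    have e1 : (Q g).image σ = (Q g).image id := image_congr fun v hv => hσ1 v (mem_coe.1 hv)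
    rw [e1, image_id]
  have hint : (YP c0 (i, j)).image σ ∩ Q g = YP c0 (i, j) ∩ Q g := by
    ext x
    rw [mem_inter, mem_inter, mem_image]
    constructor
    · rintro ⟨⟨y, hy, rfl⟩, hyQ⟩
      have e1 := hσ1 _ hyQ
      have e2 := σ.injective e1
      rw [e2] at hyQ ⊢
      exact ⟨hy, hyQ⟩
    · rintro ⟨hx, hxQ⟩
      exact ⟨⟨x, hx, hσ1 x hxQ⟩, hxQ⟩
  by_cases hne : (YP c0 (i, j) \ Q g).Nonempty
  · have hq : ((i, j), (YP c0 (i, j)).image σ) ∈ YEv F g c0 := by
      rw [YEv, mem_filter]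
      refine ⟨mem_univ _, hcard, ?_, hcov, hint, hne⟩
      rw [card_image_of_injective _ σ.injective]
      exact hcard
    refine hσ2 ⟨_, hq⟩ ?_
    change (YP c0 (i, j) \ Q g).image σ = (YP c0 (i, j)).image σ \ Q g
    rw [image_sdiff _ _ σ.injective, hQ]
  · rw [not_nonempty_iff_eq_empty, sdiff_eq_empty_iff_subset] at hne
    have m1 : c0 i ∈ Q g := hne (by simp [YP])
    have m2 : c0 (i + 1) ∈ Q g := hne (by simp [YP])
    have m3 : c0 j ∈ Q g := hne (by simp [YP])
    have m4 : c0 (j + 1) ∈ Q g := hne (by simp [YP])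
    obtain ⟨t, k, e1, e2⟩ := hcls.qq i m1 m2
    obtain ⟨t', k', e3, e4⟩ := hcls.qq j m3 m4
    have hP : YP c0 (i, j) = {g t k.castSucc, g t k.succ, g t' k'.castSucc, g t' k'.succ} := by
      rw [YP, e1, e2, e3, e4]
    have himg : (YP c0 (i, j)).image σ = YP c0 (i, j) := by
      have e5 : (YP c0 (i, j)).image σ = (YP c0 (i, j)).image id :=
        image_congr fun v hv => hσ1 v (hne (mem_coe.1 hv))
      rw [e5, image_id]
    rw [himg, hP] at hcov
    rw [hP] at hcard
    exact hg.disj (t, k) (t', k') hcard hcov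

end Pool.Agent.R178.HY
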