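import Mathlib
import Pool.Agent.R178.HY.Defs

set_option autoImplicit false

open Finset

namespace Pool.Agent.R178.HY

namespace YWx

lemma split {ι : Type} (W : Finset ι) (r : ι → ℕ) (hr : ∀ e ∈ W, r e ∈ Icc 1 4)
    (N : ℕ) :
    ∑ e ∈ W, (((N.choose (r e) : ℕ) : ℝ)⁻¹) =
      ((W.filter (fun e => r e = 1)).card : ℝ) * ((N.choose 1 : ℕ) : ℝ)⁻¹ +
      ((W.filter (fun e => r e = 2)).card : ℝ) * ((N.choose 2 : ℕ) : ℝ)⁻¹ +
      ((W.filter (fun e => r e = 3)).card : ℝ) * ((N.choose 3 : ℕ) : ℝ)⁻¹ +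
      ((W.filter (fun e => r e = 4)).card : ℝ) * ((N.choose 4 : ℕ) : ℝ)⁻¹ := by
  rw [← Finset.sum_fiberwise_of_maps_to hr]
  have h1 : ∀ k ∈ Icc 1 4, ∑ e ∈ W.filter (fun e => r e = k), (((N.choose (r e) : ℕ) : ℝ)⁻¹) =
      ((W.filter (fun e => r e = k)).card : ℝ) * ((N.choose k : ℕ) : ℝ)⁻¹ := by
    intro k _
    rw [Finset.sum_congr rfl (g := fun _ => (((N.choose k : ℕ) : ℝ)⁻¹))]
    · rw [Finset.sum_const, nsmul_eq_mul]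
    · intro e he
      rw [(Finset.mem_filter.1 he).2]
  rw [Finset.sum_congr rfl h1]
  rw [show (Icc 1 4 : Finset ℕ) = {1, 2, 3, 4} by decide]
  rw [Finset.sum_insert (by decide), Finset.sum_insert (by decide), Finset.sum_insert (by decide),
    Finset.sum_singleton]
  ring

lemma wbound (N k : ℕ) (t : ℝ) (ht : 0 < t) (h : t ≤ ((N + 1 - k : ℕ) : ℝ)) :
    ((N.choose k : ℕ) : ℝ)⁻¹ ≤ (k.factorial : ℝ) / t ^ k := by
  have h1 : (((N + 1 - k : ℕ) ^ k : ℕ) : ℝ) / (k.factorial : ℝ) ≤ ((N.choose k : ℕ) : ℝ) := by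
    have := Nat.pow_le_choose (α := ℝ) k N
    push_cast at this ⊢
    exact this
  have h2 : t ^ k / (k.factorial : ℝ) ≤ ((N.choose k : ℕ) : ℝ) := by
    refine le_trans ?_ h1
    push_cast
    gcongr
  have h3 : 0 < t ^ k / (k.factorial : ℝ) := by positivity
  calc ((N.choose k : ℕ) : ℝ)⁻¹ ≤ (t ^ k / (k.factorial : ℝ))⁻¹ := inv_anti₀ h3 h2
    _ = (k.factorial : ℝ) / t ^ k := inv_div _ _

lemma card_Q {n s : ℕ} (g : Fin s → Fin 5 → Fin n) : (Q g).card ≤ 5 * s := by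
  unfold Q
  refine Finset.card_image_le.trans ?_
  simp [Finset.card_univ, Fintype.card_prod]
  omega

/-- the real parameters -/
structure Par (m σ ρ : ℝ) : Prop where
  big : 10 ^ 6 ≤ m
  sq : 10 ^ 6 * σ ^ 2 ≤ m
  σ0 : 0 ≤ σ
  ρ0 : 0 ≤ ρ
  sr : σ * ρ ≤ 1 / 10 ^ 5
  r : ρ ≤ 1 / 10 ^ 5

lemma mulb {c w U W e : ℝ} (hc : 0 ≤ c) (hU : c ≤ U) (hw : w ≤ W) (hW : 0 ≤ W)
    (he : U * W ≤ e) : c * w ≤ e :=
  le_trans (le_trans (mul_le_mul_of_nonneg_left hw hc) (mul_le_mul_of_nonneg_right hU hW)) he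

lemma wts (m : ℝ) (N : ℕ) (hm0 : 0 < m) (hN : (98 / 100 : ℝ) * m ≤ ((N - 3 : ℕ) : ℝ)) :
    ((N.choose 1 : ℕ) : ℝ)⁻¹ ≤ 1 / ((98 / 100 : ℝ) * m) ∧
    ((N.choose 2 : ℕ) : ℝ)⁻¹ ≤ 2 / ((98 / 100 : ℝ) * m) ^ 2 ∧
    ((N.choose 3 : ℕ) : ℝ)⁻¹ ≤ 6 / ((98 / 100 : ℝ) * m) ^ 3 ∧
    ((N.choose 4 : ℕ) : ℝ)⁻¹ ≤ 24 / ((98 / 100 : ℝ) * m) ^ 4 := by
  have hw : ∀ k : ℕ, 1 ≤ k → k ≤ 4 →
      ((N.choose k : ℕ) : ℝ)⁻¹ ≤ (k.factorial : ℝ) / ((98 / 100 : ℝ) * m) ^ k := by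
    intro k _ hk
    apply wbound N k _ (by positivity)
    refine hN.trans ?_
    have : N - 3 ≤ N + 1 - k := by omega
    exact_mod_cast this
  refine ⟨?_, ?_, ?_, ?_⟩
  · have := hw 1 le_rfl (by norm_num)
    simpa [Nat.factorial] using this
  · have := hw 2 (by norm_num) (by norm_num)
    rw [show ((Nat.factorial 2 : ℕ) : ℝ) = 2 by norm_num [Nat.factorial]] at this
    exact this
  · have := hw 3 (by norm_num) (by norm_num)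
    rw [show ((Nat.factorial 3 : ℕ) : ℝ) = 6 by norm_num [Nat.factorial]] at this
    exact this
  · have := hw 4 (by norm_num) (by norm_num)
    rw [show ((Nat.factorial 4 : ℕ) : ℝ) = 24 by norm_num [Nat.factorial]] at this
    exact this

lemma numB (m σ ρ : ℝ) (P : Par m σ ρ) (N : ℕ)
    (hN : (98 / 100 : ℝ) * m ≤ ((N - 3 : ℕ) : ℝ)) (b1 b2 b3 b4 : ℕ)
    (c1 : (b1 : ℝ) ≤ 2 * (m / 400)) (c2 : (b2 : ℝ) ≤ 40 * σ * ρ * m ^ 2)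
    (c3 : (b3 : ℝ) ≤ 8 * ρ * m ^ 3 + 100 * σ * ρ * m ^ 2) (c4 : (b4 : ℝ) ≤ 4 * m ^ 3) :
    (b1 : ℝ) * ((N.choose 1 : ℕ) : ℝ)⁻¹ + (b2 : ℝ) * ((N.choose 2 : ℕ) : ℝ)⁻¹ +
      (b3 : ℝ) * ((N.choose 3 : ℕ) : ℝ)⁻¹ + (b4 : ℝ) * ((N.choose 4 : ℕ) : ℝ)⁻¹ ≤ 1 / 32 := by
  have hm0 : 0 < m := by have := P.big; linarith
  obtain ⟨w1, w2, w3, w4⟩ := wts m N hm0 hN
  have m2 : (0 : ℝ) ≤ m ^ 2 := by positivity
  have m3 : (0 : ℝ) ≤ m ^ 3 := by positivity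
  have e1 : 10 ^ 6 * m ^ 2 ≤ m ^ 3 := by nlinarith [mul_le_mul_of_nonneg_right P.big m2]
  have e2 : 10 ^ 6 * m ^ 3 ≤ m ^ 4 := by nlinarith [mul_le_mul_of_nonneg_right P.big m3]
  have r3 := mul_le_mul_of_nonneg_right P.r m3
  have sr2 := mul_le_mul_of_nonneg_right P.sr m2
  have d1 : (b1 : ℝ) * ((N.choose 1 : ℕ) : ℝ)⁻¹ ≤ 52 / 10000 := by
    refine mulb (Nat.cast_nonneg _) c1 w1 (by positivity) ?_
    rw [mul_div_assoc', div_le_iff₀ (by positivity)]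
    linarith
  have d2 : (b2 : ℝ) * ((N.choose 2 : ℕ) : ℝ)⁻¹ ≤ 1 / 1000 := by
    refine mulb (Nat.cast_nonneg _) c2 w2 (by positivity) ?_
    rw [mul_div_assoc', div_le_iff₀ (by positivity)]
    linarith
  have d3 : (b3 : ℝ) * ((N.choose 3 : ℕ) : ℝ)⁻¹ ≤ 1 / 1000 := by
    refine mulb (Nat.cast_nonneg _) c3 w3 (by positivity) ?_
    rw [mul_div_assoc', div_le_iff₀ (by positivity)]
    linarith
  have d4 : (b4 : ℝ) * ((N.choose 4 : ℕ) : ℝ)⁻¹ ≤ 1 / 1000 := by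
    refine mulb (Nat.cast_nonneg _) c4 w4 (by positivity) ?_
    rw [mul_div_assoc', div_le_iff₀ (by positivity)]
    linarith
  linarith

lemma numA (m σ ρ : ℝ) (P : Par m σ ρ) (N : ℕ)
    (hN : (98 / 100 : ℝ) * m ≤ ((N - 3 : ℕ) : ℝ)) (b1 b2 b3 b4 : ℕ)
    (c1 : (b1 : ℝ) ≤ 40 * σ ^ 2) (c2 : (b2 : ℝ) ≤ 2 * (m * (m / 400)) + 20 * σ ^ 2 * m)
    (c3 : (b3 : ℝ) ≤ 40 * σ * ρ * m ^ 3) (c4 : (b4 : ℝ) ≤ m ^ 2 * (4 * (m ^ 2 / 100000))) :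
    (b1 : ℝ) * ((N.choose 1 : ℕ) : ℝ)⁻¹ + (b2 : ℝ) * ((N.choose 2 : ℕ) : ℝ)⁻¹ +
      (b3 : ℝ) * ((N.choose 3 : ℕ) : ℝ)⁻¹ + (b4 : ℝ) * ((N.choose 4 : ℕ) : ℝ)⁻¹ ≤ 1 / 32 := by
  have hm0 : 0 < m := by have := P.big; linarith
  obtain ⟨w1, w2, w3, w4⟩ := wts m N hm0 hN
  have m2 : (0 : ℝ) ≤ m ^ 2 := by positivity
  have m3 : (0 : ℝ) ≤ m ^ 3 := by positivity
  have m4 : (0 : ℝ) ≤ m ^ 4 := by positivity
  have sr3 := mul_le_mul_of_nonneg_right P.sr m3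
  have sq1 := mul_le_mul_of_nonneg_right P.sq hm0.le
  have psq := P.sq
  have d1 : (b1 : ℝ) * ((N.choose 1 : ℕ) : ℝ)⁻¹ ≤ 1 / 1000 := by
    refine mulb (Nat.cast_nonneg _) c1 w1 (by positivity) ?_
    rw [mul_div_assoc', div_le_iff₀ (by positivity)]
    linarith
  have d2 : (b2 : ℝ) * ((N.choose 2 : ℕ) : ℝ)⁻¹ ≤ 11 / 1000 := by
    refine mulb (Nat.cast_nonneg _) c2 w2 (by positivity) ?_
    rw [mul_div_assoc', div_le_iff₀ (by positivity)]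
    linarith
  have d3 : (b3 : ℝ) * ((N.choose 3 : ℕ) : ℝ)⁻¹ ≤ 3 / 1000 := by
    refine mulb (Nat.cast_nonneg _) c3 w3 (by positivity) ?_
    rw [mul_div_assoc', div_le_iff₀ (by positivity)]
    linarith
  have d4 : (b4 : ℝ) * ((N.choose 4 : ℕ) : ℝ)⁻¹ ≤ 3 / 2000 := by
    refine mulb (Nat.cast_nonneg _) c4 w4 (by positivity) ?_
    rw [mul_div_assoc', div_le_iff₀ (by positivity)]
    linarith
  linarith

end YWx

open YWx in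
theorem t_YW (h1 : S_NB1) (h2 : S_NB2) (h3 : S_NB3) (h4 : S_NB4) (h5 : S_NA1) (h6 : S_NA2)
    (h7 : S_NA3) (h8 : S_NA4) : S_YW := by
  intro s0
  have hs1 : (0 : ℝ) < (s0 : ℝ) + 1 := by positivity
  refine ⟨1 / (10 ^ 5 * ((s0 : ℝ) + 1)), by positivity, 1000000 * (s0 + 1) ^ 2, ?_⟩
  intro n s hn hn0 hs F g c0 hF hFc hseg hcls x hx
  have hρ0 : (0 : ℝ) ≤ 1 / (10 ^ 5 * ((s0 : ℝ) + 1)) := by positivity
  have P : Par (n : ℝ) (s : ℝ) (1 / (10 ^ 5 * ((s0 : ℝ) + 1))) := by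
    have hσs : (s : ℝ) ≤ (s0 : ℝ) + 1 := by
      have : (s : ℝ) ≤ (s0 : ℝ) := by exact_mod_cast hs
      linarith
    have hσ0 : (0 : ℝ) ≤ (s : ℝ) := by positivity
    have hmbig0 : 1000000 * ((s0 : ℝ) + 1) ^ 2 ≤ (n : ℝ) := by exact_mod_cast hn0
    have hmbig : 10 ^ 6 * ((s0 : ℝ) + 1) ^ 2 ≤ (n : ℝ) := by
      refine le_trans (le_of_eq ?_) hmbig0
      norm_num
    have hs0' : (0 : ℝ) ≤ (s0 : ℝ) := by positivity
    have hρs : ((s0 : ℝ) + 1) * (1 / (10 ^ 5 * ((s0 : ℝ) + 1))) = 1 / 10 ^ 5 := by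
      field_simp
    refine ⟨?_, ?_, hσ0, hρ0, ?_, ?_⟩
    · nlinarith
    · have : (s : ℝ) ^ 2 ≤ ((s0 : ℝ) + 1) ^ 2 := by nlinarith
      linarith
    · rw [← hρs]; exact mul_le_mul_of_nonneg_right hσs hρ0
    · rw [← hρs]; nlinarith
  have hsn : 1000 * (s + 1) ≤ n := by
    have h2 : s0 + 1 ≤ (s0 + 1) ^ 2 := Nat.le_self_pow two_ne_zero (s0 + 1)
    generalize (s0 + 1) ^ 2 = a at h2 hn0
    omega
  have hn5 : 5 ≤ n := by omega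
  have hQ := card_Q g
  have hNn : (98 / 100 : ℝ) * (n : ℝ) ≤ ((n - (Q g).card - 3 : ℕ) : ℝ) := by
    have h : 98 * n ≤ 100 * (n - (Q g).card - 3) := by omega
    have h' : (98 : ℝ) * (n : ℝ) ≤ 100 * ((n - (Q g).card - 3 : ℕ) : ℝ) := by exact_mod_cast h
    linarith
  have hcard : ∀ q ∈ YEv F g c0, (YP c0 q.1 \ Q g).card ∈ Icc 1 4 := by
    intro q hq
    simp only [YEv, Finset.mem_filter] at hq
    rw [Finset.mem_Icc]
    exact ⟨Finset.card_pos.2 hq.2.2.2.2.2, (Finset.card_le_card Finset.sdiff_subset).trans hq.2.1.le⟩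
  constructor
  · have hNB : ∀ k, (((YEv F g c0).filter (fun q => x ∈ YP c0 q.1 \ Q g)).filter
        (fun q => (YP c0 q.1 \ Q g).card = k)).card = NB F g c0 x k := by
      intro k
      unfold NB
      rw [Finset.filter_filter]
      congr 1
      apply Finset.filter_congr
      intro q _
      simp [hx]
    have hsp := split ((YEv F g c0).filter (fun q => x ∈ YP c0 q.1 \ Q g))
      (fun q => (YP c0 q.1 \ Q g).card) (fun q hq => hcard q (Finset.mem_of_mem_filter q hq))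
      (n - (Q g).card)
    refine (le_of_eq hsp).trans ?_
    rw [hNB 1, hNB 2, hNB 3, hNB 4]
    exact numB _ _ _ P _ hNn _ _ _ _ (h1 n s hn F g c0 _ hF hFc hρ0 hn5 hseg hcls x hx)
      (h2 n s hn F g c0 _ hF hFc hρ0 hn5 hseg hcls x hx)
      (h3 n s hn F g c0 _ hF hFc hρ0 hn5 hseg hcls x hx)
      (h4 n s hn F g c0 _ hF hFc hρ0 hn5 hseg hcls x hx)
  · have hNA : ∀ k, (((YEv F g c0).filter (fun q => x ∈ q.2 \ Q g)).filter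
        (fun q => (YP c0 q.1 \ Q g).card = k)).card = NA F g c0 x k := by
      intro k
      unfold NA
      rw [Finset.filter_filter]
      congr 1
      apply Finset.filter_congr
      intro q _
      simp [hx]
    have hsp := split ((YEv F g c0).filter (fun q => x ∈ q.2 \ Q g))
      (fun q => (YP c0 q.1 \ Q g).card) (fun q hq => hcard q (Finset.mem_of_mem_filter q hq))
      (n - (Q g).card)
    refine (le_of_eq hsp).trans ?_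
    rw [hNA 1, hNA 2, hNA 3, hNA 4]
    exact numA _ _ _ P _ hNn _ _ _ _ (h5 n s hn F g c0 _ hF hFc hρ0 hn5 hseg hcls x hx)
      (h6 n s hn F g c0 _ hF hFc hρ0 hn5 hseg hcls x hx)
      (h7 n s hn F g c0 _ hF hFc hρ0 hn5 hseg hcls x hx)
      (h8 n s hn F g c0 _ hF hFc hρ0 hn5 hseg hcls x hx)

end Pool.Agent.R178.HY
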