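import Mathlib
import Pool.Agent.R178.HY.Fin
import Pool.Agent.R178.HY.BX
import Pool.Agent.R178.HY.UP
import Pool.Agent.R178.HY.NE
import Pool.Agent.R178.HY.ORD
import Pool.Agent.R178.HY.CLS
import Pool.Agent.R178.HY.LLL4
import Pool.Agent.R178.HY.XONE
import Pool.Agent.R178.HY.XG
import Pool.Agent.R178.HY.XLB
import Pool.Agent.R178.HY.XLA
import Pool.Agent.R178.HY.XL
import Pool.Agent.R178.HY.NB1
import Pool.Agent.R178.HY.NB3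
import Pool.Agent.R178.HY.NA1x
import Pool.Agent.R178.HY.NA2x
import Pool.Agent.R178.HY.NA3
import Pool.Agent.R178.HY.YW
import Pool.Agent.R178.HY.YL
import Pool.Agent.R178.HY.STAGE
import Pool.Agent.R178.HY.EXT1
import Pool.Agent.R178.HY.EXT2
import Pool.Agent.R178.HY.BOX
import Pool.Agent.R178.HY.CNT12
import Pool.Agent.R178.HY.CNT3
import Pool.Agent.R178.HY.DENS
import Pool.Agent.R178.HY.DBL
import Pool.Agent.R178.HY.PRE

set_option autoImplicit false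

namespace Pool.Agent.R178.HY

theorem t_YMAIN : S_YMAIN :=
  t_SCALE (t_CORE (t_YL t_ORD t_CLS t_LLL4 (t_YW t_NB1 t_NB2 t_NB3 t_NB4 t_NA1 t_NA2 t_NA3 t_NA4))
    (t_EXT1 t_STAGE) (t_EXT2 t_STAGE) (t_PRE t_BOX (t_DENS t_CNT12 t_CNT3 t_CNT4 t_CNT5) t_DBL))

theorem t_XMAIN' : S_XMAIN := t_XMAIN (t_XG t_XONE) (t_XL t_ORD t_CLS t_XLB t_XLA)

open Filter in
theorem bounds :
    (∀ᶠ n : ℕ in atTop, (n : ℝ) ^ 2 / 17 < m1 [3, 1, 1] n ∧ (n : ℝ) ^ 2 / 17 < m1 [2, 2, 1] n) ∧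
    (∃ᶠ n : ℕ in atTop, (m2 [3, 1, 1] [2, 2, 1] n : ℝ) ≤ (n : ℝ) ^ 2 / 18) :=
  final t_BX t_UP t_NE t_XMAIN' t_YMAIN

end Pool.Agent.R178.HY
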