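import Mathlib
import Pool.Agent.R178.HY.Defs

/-! HY-NA1 (helper564): counting events NA_1, NA_2. -/

set_option autoImplicit false

open Finset

namespace Pool.Agent.R178.HY

namespace NA1x

theorem dist4 {α : Type*} [DecidableEq α] {a b c d : α}
    (h : ({a, b, c, d} : Finset α).card = 4) :
    a ≠ b ∧ a ≠ c ∧ a ≠ d ∧ b ≠ c ∧ b ≠ d ∧ c ≠ d := by
  have key : ∀ x y z : α, ({x, y, z} : Finset α).card ≤ 3 := fun x y z => card_le_three
  refine ⟨?_, ?_, ?_, ?_, ?_, ?_⟩ <;> rintro rfl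
  · have e : ({a, a, c, d} : Finset α) = {a, c, d} := by ext; simp
    rw [e] at h; have := key a c d; omega
  · have e : ({a, b, a, d} : Finset α) = {a, b, d} := by ext; simp; tauto
    rw [e] at h; have := key a b d; omega
  · have e : ({a, b, c, a} : Finset α) = {a, b, c} := by ext; simp; tauto
    rw [e] at h; have := key a b c; omega
  · have e : ({a, b, b, d} : Finset α) = {a, b, d} := by ext; simp
    rw [e] at h; have := key a b d; omega
  · have e : ({a, b, c, b} : Finset α) = {a, b, c} := by ext; simp; tauto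
    rw [e] at h; have := key a b c; omega
  · have e : ({a, b, c, c} : Finset α) = {a, b, c} := by ext; simp
    rw [e] at h; have := key a b c; omega

theorem sdiff4 {α : Type*} [DecidableEq α] {a b c d : α} (Q : Finset α)
    (h : ({a, b, c, d} : Finset α).card = 4) :
    (({a, b, c, d} : Finset α) \ Q).card = (if a ∈ Q then 0 else 1) + (if b ∈ Q then 0 else 1) +
      (if c ∈ Q then 0 else 1) + (if d ∈ Q then 0 else 1) := by
  obtain ⟨h1, h2, h3, h4, h5, h6⟩ := dist4 h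
  have e : ({a,b,c,d} : Finset α) \ Q = ({a,b,c,d} : Finset α).filter (· ∉ Q) := by
    ext; simp
  rw [e]
  by_cases ha : a ∈ Q <;> by_cases hb : b ∈ Q <;> by_cases hc : c ∈ Q <;> by_cases hd : d ∈ Q <;>
    simp [Finset.filter_insert, Finset.filter_singleton, *]

variable {n s : ℕ}

/-- edges with exactly one end in `Q` -/
def E1 [NeZero n] (g : Fin s → Fin 5 → Fin n) (c0 : ZMod n ≃ Fin n) : Finset (ZMod n) :=
  univ.filter (fun i => (c0 i ∈ Q g ∧ c0 (i + 1) ∉ Q g) ∨ (c0 i ∉ Q g ∧ c0 (i + 1) ∈ Q g))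

/-- edges with both ends in `Q` -/
def E2 [NeZero n] (g : Fin s → Fin 5 → Fin n) (c0 : ZMod n ≃ Fin n) : Finset (ZMod n) :=
  univ.filter (fun i => c0 i ∈ Q g ∧ c0 (i + 1) ∈ Q g)

theorem card_E1 [NeZero n] {g : Fin s → Fin 5 → Fin n} {c0 : ZMod n ≃ Fin n} (h : ClsOK g c0) :
    (E1 g c0).card ≤ 2 * s := by
  have hsub : E1 g c0 ⊆ (univ.image fun t : Fin s => c0.symm (g t 4)) ∪
      (univ.image fun t : Fin s => c0.symm (g t 0) - 1) := by
    intro i hi
    simp only [E1, mem_filter, mem_univ, true_and] at hi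
    rw [mem_union, mem_image, mem_image]
    rcases hi with ⟨h1, h2⟩ | ⟨h1, h2⟩
    · obtain ⟨t, ht, -⟩ := h.qf i h1 h2
      left
      exact ⟨t, mem_univ _, by rw [← ht]; simp⟩
    · obtain ⟨t, ht, -⟩ := h.fq i h1 h2
      right
      exact ⟨t, mem_univ _, by rw [← ht]; simp⟩
  calc (E1 g c0).card ≤ _ := card_le_card hsub
    _ ≤ _ := card_union_le _ _
    _ ≤ s + s := by
        gcongr
        · exact card_image_le.trans (by simp)
        · exact card_image_le.trans (by simp)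
    _ = 2 * s := by ring

theorem card_E2 [NeZero n] {g : Fin s → Fin 5 → Fin n} {c0 : ZMod n ≃ Fin n} (h : ClsOK g c0) :
    (E2 g c0).card ≤ 4 * s := by
  have hsub : E2 g c0 ⊆ univ.image fun p : Fin s × Fin 4 => c0.symm (g p.1 p.2.castSucc) := by
    intro i hi
    simp only [E2, mem_filter, mem_univ, true_and] at hi
    obtain ⟨t, j, h1, -⟩ := h.qq i hi.1 hi.2
    rw [mem_image]
    exact ⟨(t, j), mem_univ _, by rw [← h1]; simp⟩
  calc (E2 g c0).card ≤ _ := card_le_card hsub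
    _ ≤ _ := card_image_le
    _ = 4 * s := by simp; ring

theorem ev_props [NeZero n] {F : Finset (Finset (Fin n))} {g : Fin s → Fin 5 → Fin n}
    {c0 : ZMod n ≃ Fin n} {q : (ZMod n × ZMod n) × Finset (Fin n)} (hq : q ∈ YEv F g c0) :
    (YP c0 q.1).card = 4 ∧ q.2.card = 4 ∧ Cov F q.2 ∧ q.2 ∩ Q g = YP c0 q.1 ∩ Q g ∧
      (q.2 \ Q g).card = (YP c0 q.1 \ Q g).card := by
  simp only [YEv, mem_filter, mem_univ, true_and] at hq
  obtain ⟨h1, h2, h3, h4, -⟩ := hq
  refine ⟨h1, h2, h3, h4, ?_⟩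
  have e1 := card_sdiff_add_card_inter q.2 (Q g)
  have e2 := card_sdiff_add_card_inter (YP c0 q.1) (Q g)
  rw [h4] at e1
  omega

theorem types [NeZero n] {g : Fin s → Fin 5 → Fin n} {c0 : ZMod n ≃ Fin n} {i j : ZMod n}
    (h : (YP c0 (i, j)).card = 4) :
    (YP c0 (i, j) \ Q g).card = (if c0 i ∈ Q g then 0 else 1) + (if c0 (i + 1) ∈ Q g then 0 else 1) +
      (if c0 j ∈ Q g then 0 else 1) + (if c0 (j + 1) ∈ Q g then 0 else 1) := by
  unfold YP at h ⊢
  exact sdiff4 (Q g) h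

end NA1x

open NA1x

theorem t_NA1 : S_NA1 := by
  intro n s hn F g c0 ρ _ _ _ _ _ hC x hx
  have hsub : ((YEv F g c0).filter (fun q => x ∈ q.2 ∧ (YP c0 q.1 \ Q g).card = 1)) ⊆
      ((E1 g c0 ×ˢ E2 g c0) ∪ (E2 g c0 ×ˢ E1 g c0)).image
        (fun ij => (ij, insert x (YP c0 ij ∩ Q g))) := by
    rintro ⟨⟨i, j⟩, A⟩ hq
    rw [mem_filter] at hq
    obtain ⟨hq, hxA, h1⟩ := hq
    obtain ⟨p1, p2, p3, p4, p5⟩ := ev_props hq
    simp only at p1 p2 p3 p4 p5 hxA h1
    rw [h1] at p5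
    have hA : A = insert x (YP c0 (i, j) ∩ Q g) := by
      have hxs : x ∈ A \ Q g := mem_sdiff.2 ⟨hxA, hx⟩
      obtain ⟨z, hz⟩ := card_eq_one.1 p5
      rw [hz, mem_singleton] at hxs
      subst hxs
      rw [← p4, insert_eq, ← hz]
      exact (sdiff_union_inter A (Q g)).symm
    rw [mem_image]
    refine ⟨(i, j), ?_, by rw [hA]⟩
    have ht := types (g := g) p1
    rw [h1] at ht
    simp only [mem_union, mem_product, E1, E2, mem_filter, mem_univ, true_and]
    by_cases ha : c0 i ∈ Q g <;> by_cases hb : c0 (i + 1) ∈ Q g <;>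
      by_cases hc : c0 j ∈ Q g <;> by_cases hd : c0 (j + 1) ∈ Q g <;>
      simp [ha, hb, hc, hd] at ht ⊢
  have h1 : NA F g c0 x 1 ≤ 2 * (2 * s * (4 * s)) := by
    calc NA F g c0 x 1 ≤ _ := card_le_card hsub
      _ ≤ _ := card_image_le
      _ ≤ _ := card_union_le _ _
      _ ≤ 2 * s * (4 * s) + 4 * s * (2 * s) := by
          rw [card_product, card_product]
          gcongr
          · exact card_E1 hC
          · exact card_E2 hC
          · exact card_E2 hC
          · exact card_E1 hC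
      _ = _ := by ring
  have h2 : (NA F g c0 x 1 : ℝ) ≤ 2 * (2 * s * (4 * s)) := by exact_mod_cast h1
  nlinarith [sq_nonneg (s : ℝ)]

namespace NA1x

variable {n s : ℕ}

theorem inter_left {g : Fin s → Fin 5 → Fin n} {c0 : ZMod n ≃ Fin n} {i j : ZMod n}
    (ha : c0 i ∈ Q g) (hb : c0 (i + 1) ∈ Q g) (hc : c0 j ∉ Q g) (hd : c0 (j + 1) ∉ Q g) :
    YP c0 (i, j) ∩ Q g = {c0 i, c0 (i + 1)} := by
  ext z
  simp only [YP, mem_inter, mem_insert, mem_singleton]
  constructor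
  · rintro ⟨h | h | h | h, hz⟩
    · exact Or.inl h
    · exact Or.inr h
    · rw [h] at hz; exact absurd hz hc
    · rw [h] at hz; exact absurd hz hd
  · rintro (h | h)
    · exact ⟨Or.inl h, h ▸ ha⟩
    · exact ⟨Or.inr (Or.inl h), h ▸ hb⟩

theorem inter_right {g : Fin s → Fin 5 → Fin n} {c0 : ZMod n ≃ Fin n} {i j : ZMod n}
    (ha : c0 i ∉ Q g) (hb : c0 (i + 1) ∉ Q g) (hc : c0 j ∈ Q g) (hd : c0 (j + 1) ∈ Q g) :
    YP c0 (i, j) ∩ Q g = {c0 j, c0 (j + 1)} := by
  ext z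
  simp only [YP, mem_inter, mem_insert, mem_singleton]
  constructor
  · rintro ⟨h | h | h | h, hz⟩
    · rw [h] at hz; exact absurd hz ha
    · rw [h] at hz; exact absurd hz hb
    · exact Or.inl h
    · exact Or.inr h
  · rintro (h | h)
    · exact ⟨Or.inr (Or.inr (Or.inl h)), h ▸ hc⟩
    · exact ⟨Or.inr (Or.inr (Or.inr h)), h ▸ hd⟩

/-- events with first edge a segment edge -/
def SA [NeZero n] (F : Finset (Finset (Fin n))) (g : Fin s → Fin 5 → Fin n) (c0 : ZMod n ≃ Fin n)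
    (x : Fin n) : Finset ((ZMod n × ZMod n) × Finset (Fin n)) :=
  (univ : Finset (Fin s × Fin 4)).biUnion fun p =>
    ((univ : Finset (ZMod n)) ×ˢ S F (g p.1 p.2.castSucc) (g p.1 p.2.succ) x).image fun jy =>
      ((c0.symm (g p.1 p.2.castSucc), jy.1),
        ({g p.1 p.2.castSucc, g p.1 p.2.succ, x, jy.2} : Finset (Fin n)))

/-- events with second edge a segment edge -/
def SB [NeZero n] (F : Finset (Finset (Fin n))) (g : Fin s → Fin 5 → Fin n) (c0 : ZMod n ≃ Fin n)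
    (x : Fin n) : Finset ((ZMod n × ZMod n) × Finset (Fin n)) :=
  (univ : Finset (Fin s × Fin 4)).biUnion fun p =>
    ((univ : Finset (ZMod n)) ×ˢ S F (g p.1 p.2.castSucc) (g p.1 p.2.succ) x).image fun jy =>
      ((jy.1, c0.symm (g p.1 p.2.castSucc)),
        ({g p.1 p.2.castSucc, g p.1 p.2.succ, x, jy.2} : Finset (Fin n)))

theorem card_SA [NeZero n] (F : Finset (Finset (Fin n))) (g : Fin s → Fin 5 → Fin n)
    (c0 : ZMod n ≃ Fin n) (x : Fin n) :
    (SA F g c0 x).card ≤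
      ∑ p : Fin s × Fin 4, n * (S F (g p.1 p.2.castSucc) (g p.1 p.2.succ) x).card := by
  unfold SA
  refine card_biUnion_le.trans (sum_le_sum fun p _ => ?_)
  refine card_image_le.trans ?_
  rw [card_product, card_univ, ZMod.card]

theorem card_SB [NeZero n] (F : Finset (Finset (Fin n))) (g : Fin s → Fin 5 → Fin n)
    (c0 : ZMod n ≃ Fin n) (x : Fin n) :
    (SB F g c0 x).card ≤
      ∑ p : Fin s × Fin 4, n * (S F (g p.1 p.2.castSucc) (g p.1 p.2.succ) x).card := by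
  unfold SB
  refine card_biUnion_le.trans (sum_le_sum fun p _ => ?_)
  refine card_image_le.trans ?_
  rw [card_product, card_univ, ZMod.card]

theorem mem_SA [NeZero n] {F : Finset (Finset (Fin n))} {g : Fin s → Fin 5 → Fin n}
    {c0 : ZMod n ≃ Fin n} {x y : Fin n} {i j : ZMod n} {t : Fin s} {k : Fin 4}
    (hi : c0.symm (g t k.castSucc) = i) (hy : y ∈ S F (g t k.castSucc) (g t k.succ) x) :
    ((i, j), ({g t k.castSucc, g t k.succ, x, y} : Finset (Fin n))) ∈ SA F g c0 x := by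
  subst hi
  rw [SA, mem_biUnion]
  refine ⟨(t, k), mem_univ _, ?_⟩
  rw [mem_image]
  refine ⟨(j, y), ?_, ?_⟩
  · rw [mem_product]
    exact ⟨mem_univ _, hy⟩
  · rfl

theorem mem_SB [NeZero n] {F : Finset (Finset (Fin n))} {g : Fin s → Fin 5 → Fin n}
    {c0 : ZMod n ≃ Fin n} {x y : Fin n} {i j : ZMod n} {t : Fin s} {k : Fin 4}
    (hi : c0.symm (g t k.castSucc) = j) (hy : y ∈ S F (g t k.castSucc) (g t k.succ) x) :
    ((i, j), ({g t k.castSucc, g t k.succ, x, y} : Finset (Fin n))) ∈ SB F g c0 x := by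
  subst hi
  rw [SB, mem_biUnion]
  refine ⟨(t, k), mem_univ _, ?_⟩
  rw [mem_image]
  refine ⟨(i, y), ?_, ?_⟩
  · rw [mem_product]
    exact ⟨mem_univ _, hy⟩
  · rfl

end NA1x

theorem t_NA2 : S_NA2 := by
  intro n s hn F g c0 ρ _ _ _ _ hS hC x hx
  have hsub : ((YEv F g c0).filter (fun q => x ∈ q.2 ∧ (YP c0 q.1 \ Q g).card = 2)) ⊆
      (SA F g c0 x ∪ SB F g c0 x) ∪
      ((E1 g c0 ×ˢ E1 g c0) ×ˢ (univ : Finset (Fin n))).image
        (fun p => (p.1, (YP c0 p.1 ∩ Q g) ∪ {x, p.2})) := by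
    rintro ⟨⟨i, j⟩, A⟩ hq
    rw [mem_filter] at hq
    obtain ⟨hq, hxA, h1⟩ := hq
    obtain ⟨p1, p2, p3, p4, p5⟩ := ev_props hq
    simp only at p1 p2 p3 p4 p5 hxA h1
    rw [h1] at p5
    have hxs : x ∈ A \ Q g := mem_sdiff.2 ⟨hxA, hx⟩
    obtain ⟨y, hy⟩ : ∃ y, A \ Q g = {x, y} := by
      have e : ((A \ Q g).erase x).card = 1 := by
        rw [card_erase_of_mem hxs, p5]
      obtain ⟨y, hy⟩ := card_eq_one.1 e
      exact ⟨y, by rw [← insert_erase hxs, hy]⟩
    have hA : A = (YP c0 (i, j) ∩ Q g) ∪ {x, y} := by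
      rw [← p4, ← hy, union_comm]
      exact (sdiff_union_inter A (Q g)).symm
    have ht := types (g := g) p1
    rw [h1] at ht
    have caseA : c0 i ∈ Q g → c0 (i + 1) ∈ Q g → c0 j ∉ Q g → c0 (j + 1) ∉ Q g →
        ((i, j), A) ∈ SA F g c0 x := by
      intro ha hb hc hd
      obtain ⟨t, k, e1, e2⟩ := hC.qq i ha hb
      rw [inter_left ha hb hc hd, e1, e2] at hA
      have hA' : A = {g t k.castSucc, g t k.succ, x, y} := by
        rw [hA, insert_union, singleton_union]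
      have hi : c0.symm (g t k.castSucc) = i := (Equiv.symm_apply_eq c0).2 e1.symm
      have hyS : y ∈ S F (g t k.castSucc) (g t k.succ) x := by
        rw [S, mem_filter]
        rw [hA'] at p2 p3
        exact ⟨mem_univ _, p2, p3⟩
      rw [hA']
      exact mem_SA hi hyS
    have caseB : c0 i ∉ Q g → c0 (i + 1) ∉ Q g → c0 j ∈ Q g → c0 (j + 1) ∈ Q g →
        ((i, j), A) ∈ SB F g c0 x := by
      intro ha hb hc hd
      obtain ⟨t, k, e1, e2⟩ := hC.qq j hc hd
      rw [inter_right ha hb hc hd, e1, e2] at hA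
      have hA' : A = {g t k.castSucc, g t k.succ, x, y} := by
        rw [hA, insert_union, singleton_union]
      have hi : c0.symm (g t k.castSucc) = j := (Equiv.symm_apply_eq c0).2 e1.symm
      have hyS : y ∈ S F (g t k.castSucc) (g t k.succ) x := by
        rw [S, mem_filter]
        rw [hA'] at p2 p3
        exact ⟨mem_univ _, p2, p3⟩
      rw [hA']
      exact mem_SB hi hyS
    have caseC : i ∈ E1 g c0 → j ∈ E1 g c0 → ((i, j), A) ∈
        ((E1 g c0 ×ˢ E1 g c0) ×ˢ (univ : Finset (Fin n))).image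
        (fun p => (p.1, (YP c0 p.1 ∩ Q g) ∪ {x, p.2})) := by
      intro hi hj
      rw [mem_image]
      refine ⟨((i, j), y), ?_, by simp only [← hA]⟩
      rw [mem_product, mem_product]
      exact ⟨⟨hi, hj⟩, mem_univ _⟩
    rw [mem_union, mem_union]
    have mE : ∀ k, k ∈ E1 g c0 ↔ (c0 k ∈ Q g ∧ c0 (k + 1) ∉ Q g) ∨
        (c0 k ∉ Q g ∧ c0 (k + 1) ∈ Q g) := by
      intro k; simp [E1]
    have hcls : (c0 i ∈ Q g ∧ c0 (i + 1) ∈ Q g ∧ c0 j ∉ Q g ∧ c0 (j + 1) ∉ Q g) ∨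
        (c0 i ∉ Q g ∧ c0 (i + 1) ∉ Q g ∧ c0 j ∈ Q g ∧ c0 (j + 1) ∈ Q g) ∨
        (i ∈ E1 g c0 ∧ j ∈ E1 g c0) := by
      rw [mE, mE]
      clear caseA caseB caseC
      by_cases ha : c0 i ∈ Q g <;> by_cases hb : c0 (i + 1) ∈ Q g <;>
        by_cases hc : c0 j ∈ Q g <;> by_cases hd : c0 (j + 1) ∈ Q g <;>
        simp [ha, hb, hc, hd] at ht ⊢
    rcases hcls with ⟨ha, hb, hc, hd⟩ | ⟨ha, hb, hc, hd⟩ | ⟨hi, hj⟩
    · exact Or.inl (Or.inl (caseA ha hb hc hd))
    · exact Or.inl (Or.inr (caseB ha hb hc hd))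
    · exact Or.inr (caseC hi hj)
  have h1 : NA F g c0 x 2 ≤
      ((∑ p : Fin s × Fin 4, n * (S F (g p.1 p.2.castSucc) (g p.1 p.2.succ) x).card) +
      (∑ p : Fin s × Fin 4, n * (S F (g p.1 p.2.castSucc) (g p.1 p.2.succ) x).card)) +
      (2 * s) * (2 * s) * n := by
    calc NA F g c0 x 2 ≤ _ := card_le_card hsub
      _ ≤ _ := card_union_le _ _
      _ ≤ _ := Nat.add_le_add_right (card_union_le _ _) _
      _ ≤ _ := by
          refine Nat.add_le_add (Nat.add_le_add (card_SA F g c0 x) (card_SB F g c0 x)) ?_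
          refine card_image_le.trans ?_
          rw [card_product, card_product, card_univ, Fintype.card_fin]
          gcongr
          · exact card_E1 hC
          · exact card_E1 hC
  have h2 : (NA F g c0 x 2 : ℝ) ≤
      (((n : ℝ) * ∑ p : Fin s × Fin 4, ((S F (g p.1 p.2.castSucc) (g p.1 p.2.succ) x).card : ℝ)) +
      ((n : ℝ) * ∑ p : Fin s × Fin 4, ((S F (g p.1 p.2.castSucc) (g p.1 p.2.succ) x).card : ℝ))) +
      (2 * s) * (2 * s) * n := by
    rw [mul_sum]
    exact_mod_cast h1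
  have h3 := hS.sum x (Or.inl (fun i j hij => hx (by
    rw [Q, mem_image]; exact ⟨(i, j), mem_univ _, hij⟩)))
  have hn0 : (0 : ℝ) ≤ n := Nat.cast_nonneg n
  have h4 := mul_le_mul_of_nonneg_left h3 hn0
  have h5 : (0 : ℝ) ≤ (s : ℝ) ^ 2 * n := by positivity
  linarith

end Pool.Agent.R178.HY
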