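import Mathlib
import Pool.Agent.R178.HY.Defs

set_option autoImplicit false

open Finset

namespace Pool.Agent.R178.HY

namespace NB3x

variable {n : ℕ}

/-- erasing: a covered 4-set inside a 5-set -/
lemma erase_of {M A : Finset (Fin n)} (hM : M.card = 5) (hA : A.card = 4) (hAM : A ⊆ M) :
    ∃ v ∈ M, v ∉ A ∧ M.erase v = A := by
  have h1 : (M \ A).card = 1 := by
    rw [card_sdiff_of_subset hAM]; omega
  obtain ⟨v, hv⟩ := card_eq_one.1 h1
  have hvm : v ∈ M \ A := by rw [hv]; exact mem_singleton_self v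
  rw [mem_sdiff] at hvm
  refine ⟨v, hvm.1, hvm.2, ?_⟩
  rw [← sdiff_singleton_eq_erase, ← hv]
  exact Finset.sdiff_sdiff_eq_self hAM

lemma cov4_card (F : Finset (Finset (Fin n))) (hF : Unif F) (u : Fin n) :
    (univ.filter (fun A : Finset (Fin n) => A.card = 4 ∧ Cov F A ∧ u ∈ A)).card ≤
      4 * deg F u := by
  have hsub : (univ.filter (fun A : Finset (Fin n) => A.card = 4 ∧ Cov F A ∧ u ∈ A)) ⊆
      (F.filter (fun M => u ∈ M)).biUnion
        (fun M => (M.erase u).image (fun v => M.erase v)) := by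
    intro A hA
    obtain ⟨h4, ⟨M, hM, hAM⟩, hu⟩ := (mem_filter.1 hA).2
    rw [mem_biUnion]
    refine ⟨M, mem_filter.2 ⟨hM, hAM hu⟩, ?_⟩
    obtain ⟨v, hvM, hvA, he⟩ := erase_of (hF M hM) h4 hAM
    rw [mem_image]
    refine ⟨v, mem_erase.2 ⟨?_, hvM⟩, he⟩
    rintro rfl
    exact hvA hu
  refine (card_le_card hsub).trans ?_
  refine (card_biUnion_le).trans ?_
  have hb : ∀ M ∈ F.filter (fun M => u ∈ M),
      ((M.erase u).image (fun v => M.erase v)).card ≤ 4 := by
    intro M hM
    rw [mem_filter] at hM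
    refine card_image_le.trans ?_
    rw [card_erase_of_mem hM.2, hF M hM.1]
  refine (sum_le_sum hb).trans ?_
  rw [sum_const, smul_eq_mul, deg, mul_comm]

lemma cov_card (F : Finset (Finset (Fin n))) (hF : Unif F) :
    (univ.filter (fun A : Finset (Fin n) => A.card = 4 ∧ Cov F A)).card ≤ 5 * F.card := by
  have hsub : (univ.filter (fun A : Finset (Fin n) => A.card = 4 ∧ Cov F A)) ⊆
      F.biUnion (fun M => M.image (fun v => M.erase v)) := by
    intro A hA
    obtain ⟨h4, ⟨M, hM, hAM⟩⟩ := (mem_filter.1 hA).2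
    rw [mem_biUnion]
    refine ⟨M, hM, ?_⟩
    obtain ⟨v, hvM, -, he⟩ := erase_of (hF M hM) h4 hAM
    rw [mem_image]
    exact ⟨v, hvM, he⟩
  refine (card_le_card hsub).trans ?_
  refine (card_biUnion_le).trans ?_
  have hb : ∀ M ∈ F, (M.image (fun v => M.erase v)).card ≤ 5 := by
    intro M hM
    refine card_image_le.trans ?_
    rw [hF M hM]
  refine (sum_le_sum hb).trans ?_
  rw [sum_const, smul_eq_mul, mul_comm]

/-- counting a set of pairs through its first projection -/
lemma card_le_of_fib {α β : Type} [DecidableEq α] [DecidableEq β] (E : Finset (α × β))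
    (D : Finset α) (hD : ∀ q ∈ E, q.1 ∈ D) (K : ℝ) (hK : 0 ≤ K)
    (hfib : ∀ q ∈ E, ((E.filter (fun q' => q'.1 = q.1)).card : ℝ) ≤ K) :
    (E.card : ℝ) ≤ D.card * K := by
  have h1 : E.card = ∑ b ∈ E.image Prod.fst, (E.filter (fun a => a.1 = b)).card :=
    card_eq_sum_card_image _ _
  have h2 : (E.card : ℝ) = ∑ b ∈ E.image Prod.fst, ((E.filter (fun a => a.1 = b)).card : ℝ) := by
    rw [h1]; push_cast; rfl
  rw [h2]
  have h3 : ∀ b ∈ E.image Prod.fst, ((E.filter (fun a => a.1 = b)).card : ℝ) ≤ K := by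
    intro b hb
    obtain ⟨q, hq, rfl⟩ := mem_image.1 hb
    exact hfib q hq
  refine (sum_le_sum h3).trans ?_
  rw [sum_const, nsmul_eq_mul]
  have h4 : (E.image Prod.fst).card ≤ D.card := by
    apply card_le_card
    intro b hb
    obtain ⟨q, hq, rfl⟩ := mem_image.1 hb
    exact hD q hq
  have h5 : ((E.image Prod.fst).card : ℝ) ≤ D.card := by exact_mod_cast h4
  exact mul_le_mul_of_nonneg_right h5 hK

/-- positions of the edges with exactly one end in `Q` -/
def W [NeZero n] {s : ℕ} (g : Fin s → Fin 5 → Fin n) (c0 : ZMod n ≃ Fin n) : Finset (ZMod n) :=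
  univ.filter (fun i => (c0 i ∈ Q g ∧ c0 (i + 1) ∉ Q g) ∨ (c0 i ∉ Q g ∧ c0 (i + 1) ∈ Q g))

lemma W_card [NeZero n] {s : ℕ} (g : Fin s → Fin 5 → Fin n) (c0 : ZMod n ≃ Fin n)
    (hc : ClsOK g c0) : (W g c0).card ≤ 2 * s := by
  have hsub : W g c0 ⊆ (univ.image (fun t : Fin s => c0.symm (g t 0) - 1)) ∪
      (univ.image (fun t : Fin s => c0.symm (g t 4))) := by
    intro i hi
    rw [mem_union]
    rcases (mem_filter.1 hi).2 with h | h
    · right
      obtain ⟨t, ht, -⟩ := hc.qf i h.1 h.2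
      rw [mem_image]
      exact ⟨t, mem_univ _, by rw [← ht]; simp⟩
    · left
      obtain ⟨t, ht, -⟩ := hc.fq i h.1 h.2
      rw [mem_image]
      exact ⟨t, mem_univ _, by rw [← ht]; simp⟩
  refine (card_le_card hsub).trans ((card_union_le _ _).trans ?_)
  have h1 : (univ.image (fun t : Fin s => c0.symm (g t 0) - 1)).card ≤ s := by
    refine card_image_le.trans ?_
    simp
  have h2 : (univ.image (fun t : Fin s => c0.symm (g t 4))).card ≤ s := by
    refine card_image_le.trans ?_
    simp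
  omega

lemma W_deg [NeZero n] {s : ℕ} (F : Finset (Finset (Fin n))) (g : Fin s → Fin 5 → Fin n)
    (c0 : ZMod n ≃ Fin n) (ρ : ℝ) (hs : SegOK F g ρ) (hc : ClsOK g c0) (i : ZMod n)
    (hi : i ∈ W g c0) (u : Fin n) (hu : u ∈ Q g) (hui : u = c0 i ∨ u = c0 (i + 1)) :
    (deg F u : ℝ) ≤ ρ * (n : ℝ) ^ 2 := by
  rcases (mem_filter.1 hi).2 with h | h
  · obtain ⟨t, ht, -⟩ := hc.qf i h.1 h.2
    rcases hui with rfl | rfl
    · rw [ht]; exact (hs.ends t).2
    · exact absurd hu h.2
  · obtain ⟨t, ht, -⟩ := hc.fq i h.1 h.2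
    rcases hui with rfl | rfl
    · exact absurd hu h.1
    · rw [ht]; exact (hs.ends t).1

/-- one end in `Q`, the other end not -/
lemma mem_W [NeZero n] {s : ℕ} (g : Fin s → Fin 5 → Fin n) (c0 : ZMod n ≃ Fin n) (hn : 5 ≤ n)
    (P : Finset (Fin n)) (u : Fin n) (hu : P ∩ Q g = {u}) (i : ZMod n) (h1 : c0 i ∈ P)
    (h2 : c0 (i + 1) ∈ P) (hui : u = c0 i ∨ u = c0 (i + 1)) : i ∈ W g c0 := by
  have hne : c0 i ≠ c0 (i + 1) := by
    intro h
    have h3 := c0.injective h
    have : Fact (1 < n) := ⟨by omega⟩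
    have h4 : (1 : ZMod n) = 0 := by
      have := h3
      simpa using this.symm
    exact one_ne_zero h4
  have hmem : ∀ y, y ∈ P → y ∈ Q g → y = u := by
    intro y hy hy'
    have : y ∈ P ∩ Q g := mem_inter.2 ⟨hy, hy'⟩
    rw [hu] at this
    exact mem_singleton.1 this
  have huQ : u ∈ Q g := by
    have : u ∈ P ∩ Q g := by rw [hu]; exact mem_singleton_self u
    exact (mem_inter.1 this).2
  rw [W, mem_filter]
  refine ⟨mem_univ _, ?_⟩
  rcases hui with rfl | rfl
  · left
    exact ⟨huQ, fun h => hne (hmem _ h2 h).symm⟩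
  · right
    exact ⟨fun h => hne (hmem _ h1 h), huQ⟩

end NB3x

open NB3x in
theorem t_NB3 : S_NB3 := by
  intro n s hn F g c0 ρ hF h17 hρ h5 hs hc x hx
  classical
  set E := (YEv F g c0).filter (fun q => x ∈ YP c0 q.1 ∧ (YP c0 q.1 \ Q g).card = 3) with hE
  set k := c0.symm x with hk
  have hkx : c0 k = x := by rw [hk]; simp
  set e := if c0 (k - 1) ∈ Q g then k - 1 else k with he
  set D : Finset (ZMod n × ZMod n) :=
    ((({e} : Finset (ZMod n)) ×ˢ (univ : Finset (ZMod n))) ∪
      ((univ : Finset (ZMod n)) ×ˢ ({e} : Finset (ZMod n)))) ∪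
    ((({k - 1, k} : Finset (ZMod n)) ×ˢ W g c0) ∪ (W g c0 ×ˢ ({k - 1, k} : Finset (ZMod n))))
    with hDdef
  have hinv : ∀ i : ZMod n, x = c0 i ∨ x = c0 (i + 1) → i = k - 1 ∨ i = k := by
    intro i hi
    rcases hi with h | h
    · right
      rw [hk, h]; simp
    · left
      rw [hk, h]; simp
  have hWe : ∀ i : ZMod n, i ∈ W g c0 → (x = c0 i ∨ x = c0 (i + 1)) → i = e := by
    intro i hi hxi
    rcases hinv i hxi with h | h
    · have h6 : i + 1 = k := by rw [h]; ring
      rcases (mem_filter.1 hi).2 with h7 | h7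
      · rw [he, if_pos (by rw [← h]; exact h7.1), h]
      · exfalso
        rw [h6, hkx] at h7
        exact hx h7.2
    · rcases (mem_filter.1 hi).2 with h7 | h7
      · exfalso
        rw [h, hkx] at h7
        exact hx h7.1
      · have h8 : ¬ (c0 (k - 1) ∈ Q g) := by
          intro h9
          refine hc.qfq k (by rw [hkx]; exact hx) ⟨h9, ?_⟩
          rw [← h]; exact h7.2
        rw [he, if_neg h8, h]
  have hDcard : D.card ≤ 2 * n + 8 * s := by
    have hz : (univ : Finset (ZMod n)).card = n := by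
      rw [card_univ, ZMod.card]
    have hW := W_card g c0 hc
    have h2 : ({k - 1, k} : Finset (ZMod n)).card ≤ 2 := card_le_two
    have h3 : ((({e} : Finset (ZMod n)) ×ˢ (univ : Finset (ZMod n))) ∪
      ((univ : Finset (ZMod n)) ×ˢ ({e} : Finset (ZMod n)))).card ≤ 2 * n := by
      refine (card_union_le _ _).trans ?_
      rw [card_product, card_product, card_singleton, hz]
      omega
    have h4 : ((({k - 1, k} : Finset (ZMod n)) ×ˢ W g c0) ∪
        (W g c0 ×ˢ ({k - 1, k} : Finset (ZMod n)))).card ≤ 8 * s := by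
      refine (card_union_le _ _).trans ?_
      rw [card_product, card_product]
      have h5 : ({k - 1, k} : Finset (ZMod n)).card * (W g c0).card ≤ 2 * (2 * s) :=
        Nat.mul_le_mul h2 hW
      have h6 : (W g c0).card * ({k - 1, k} : Finset (ZMod n)).card ≤ (2 * s) * 2 :=
        Nat.mul_le_mul hW h2
      omega
    refine (card_union_le _ _).trans ?_
    omega
  have hstr : ∀ q ∈ E, ∃ u, u ∈ q.2 ∧ YP c0 q.1 ∩ Q g = {u} ∧ (deg F u : ℝ) ≤ ρ * (n : ℝ) ^ 2 ∧
      q.1 ∈ D := by
    intro q hq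
    obtain ⟨⟨i, j⟩, A⟩ := q
    rw [hE, mem_filter, YEv, mem_filter] at hq
    obtain ⟨⟨-, hP4, hA4, hcov, hAQ, hne⟩, hxP, h3⟩ := hq
    simp only at hP4 hA4 hcov hAQ hne hxP h3 ⊢
    have h1 : (YP c0 (i, j) ∩ Q g).card = 1 := by
      have := card_sdiff_add_card_inter (YP c0 (i, j)) (Q g)
      omega
    obtain ⟨u, hu⟩ := card_eq_one.1 h1
    have huPQ : u ∈ YP c0 (i, j) ∩ Q g := by rw [hu]; exact mem_singleton_self u
    have huQ := (mem_inter.1 huPQ).2
    have huP := (mem_inter.1 huPQ).1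
    have huA : u ∈ A := by
      have : u ∈ A ∩ Q g := by rw [hAQ]; exact huPQ
      exact (mem_inter.1 this).1
    have hi0 : c0 i ∈ YP c0 (i, j) := by simp [YP]
    have hi1 : c0 (i + 1) ∈ YP c0 (i, j) := by simp [YP]
    have hj0 : c0 j ∈ YP c0 (i, j) := by simp [YP]
    have hj1 : c0 (j + 1) ∈ YP c0 (i, j) := by simp [YP]
    have huP' : (u = c0 i ∨ u = c0 (i + 1)) ∨ (u = c0 j ∨ u = c0 (j + 1)) := by
      simp only [YP, mem_insert, mem_singleton] at huP
      exact or_assoc.2 huP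
    have hxP' : (x = c0 i ∨ x = c0 (i + 1)) ∨ (x = c0 j ∨ x = c0 (j + 1)) := by
      simp only [YP, mem_insert, mem_singleton] at hxP
      exact or_assoc.2 hxP
    refine ⟨u, huA, hu, ?_⟩
    rcases huP' with h | h
    · have hiW := mem_W g c0 h5 _ u hu i hi0 hi1 h
      refine ⟨W_deg F g c0 ρ hs hc i hiW u huQ h, ?_⟩
      rcases hxP' with h' | h'
      · have := hWe i hiW h'
        rw [hDdef]
        simp [this]
      · have := hinv j h'
        rw [hDdef]
        simp only [mem_union, mem_product, mem_insert, mem_singleton]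
        right; right
        exact ⟨hiW, this⟩
    · have hjW := mem_W g c0 h5 _ u hu j hj0 hj1 h
      refine ⟨W_deg F g c0 ρ hs hc j hjW u huQ h, ?_⟩
      rcases hxP' with h' | h'
      · have := hinv i h'
        rw [hDdef]
        simp only [mem_union, mem_product, mem_insert, mem_singleton]
        right; left
        exact ⟨this, hjW⟩
      · have := hWe j hjW h'
        rw [hDdef]
        simp [this]
  have hK : 0 ≤ 4 * (ρ * (n : ℝ) ^ 2) := by positivity
  have hmain := card_le_of_fib E D (fun q hq => by obtain ⟨u, -, -, -, h⟩ := hstr q hq; exact h)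
    (4 * (ρ * (n : ℝ) ^ 2)) hK (by
      intro q hq
      obtain ⟨u, huq, huu, hdeg, -⟩ := hstr q hq
      have hle : (E.filter (fun q' => q'.1 = q.1)).card ≤
          (univ.filter (fun A : Finset (Fin n) => A.card = 4 ∧ Cov F A ∧ u ∈ A)).card := by
        refine card_le_card_of_injOn Prod.snd ?_ ?_
        · intro q' hq'
          rw [mem_coe, mem_filter] at hq'
          obtain ⟨hq'E, hq'1⟩ := hq'
          obtain ⟨u', hu', huu', -, -⟩ := hstr q' hq'E
          rw [hq'1, huu] at huu'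
          have : u = u' := singleton_injective huu'
          rw [hE, mem_filter, YEv, mem_filter] at hq'E
          rw [mem_coe, mem_filter]
          refine ⟨mem_univ _, hq'E.1.2.2.1, hq'E.1.2.2.2.1, ?_⟩
          rw [this]; exact hu'
        · intro a ha b hb hab
          rw [mem_coe, mem_filter] at ha hb
          exact Prod.ext (ha.2.trans hb.2.symm) hab
      have h4 := hle.trans (cov4_card F hF u)
      have h6 : ((E.filter (fun q' => q'.1 = q.1)).card : ℝ) ≤ 4 * (deg F u : ℝ) := by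
        exact_mod_cast h4
      linarith)
  have hDr : (D.card : ℝ) ≤ 2 * (n : ℝ) + 8 * (s : ℝ) := by exact_mod_cast hDcard
  have hfin : (E.card : ℝ) ≤ (2 * (n : ℝ) + 8 * (s : ℝ)) * (4 * (ρ * (n : ℝ) ^ 2)) :=
    hmain.trans (mul_le_mul_of_nonneg_right hDr hK)
  have hEN : (NB F g c0 x 3 : ℝ) = (E.card : ℝ) := by rw [NB]
  show (NB F g c0 x 3 : ℝ) ≤ _
  rw [hEN]
  refine hfin.trans ?_
  have hs0 : (0 : ℝ) ≤ s := Nat.cast_nonneg s
  have h9 : 0 ≤ (s : ℝ) * ρ * (n : ℝ) ^ 2 := by positivity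
  nlinarith [h9]

open NB3x in
theorem t_NB4 : S_NB4 := by
  intro n s hn F g c0 ρ hF h17 hρ h5 hs hc x hx
  classical
  set E := (YEv F g c0).filter (fun q => x ∈ YP c0 q.1 ∧ (YP c0 q.1 \ Q g).card = 4) with hE
  set k := c0.symm x with hk
  have hinv : ∀ i : ZMod n, x = c0 i ∨ x = c0 (i + 1) → i = k - 1 ∨ i = k := by
    intro i hi
    rcases hi with h | h
    · right
      rw [hk, h]; simp
    · left
      rw [hk, h]; simp
  set D : Finset (ZMod n × ZMod n) :=
    (({k - 1, k} : Finset (ZMod n)) ×ˢ (univ : Finset (ZMod n))) ∪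
      ((univ : Finset (ZMod n)) ×ˢ ({k - 1, k} : Finset (ZMod n))) with hDdef
  have hDcard : D.card ≤ 4 * n := by
    have hz : (univ : Finset (ZMod n)).card = n := by
      rw [card_univ, ZMod.card]
    have h2 : ({k - 1, k} : Finset (ZMod n)).card ≤ 2 := card_le_two
    refine (card_union_le _ _).trans ?_
    rw [card_product, card_product, hz]
    have h5 : ({k - 1, k} : Finset (ZMod n)).card * n ≤ 2 * n := Nat.mul_le_mul_right _ h2
    have h6 : n * ({k - 1, k} : Finset (ZMod n)).card ≤ n * 2 := Nat.mul_le_mul_left _ h2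
    omega
  have hK : (0 : ℝ) ≤ (n : ℝ) ^ 2 := by positivity
  have hmain := card_le_of_fib E D (fun q hq => by
      obtain ⟨⟨i, j⟩, A⟩ := q
      rw [hE, mem_filter] at hq
      have hxP := hq.2.1
      simp only at hxP ⊢
      have hxP' : (x = c0 i ∨ x = c0 (i + 1)) ∨ (x = c0 j ∨ x = c0 (j + 1)) := by
        simp only [YP, mem_insert, mem_singleton] at hxP
        exact or_assoc.2 hxP
      rw [hDdef]
      simp only [mem_union, mem_product, mem_insert, mem_singleton, mem_univ, true_and, and_true]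
      rcases hxP' with h | h
      · left; exact hinv i h
      · right; exact hinv j h) ((n : ℝ) ^ 2) hK (by
      intro q hq
      have hle : (E.filter (fun q' => q'.1 = q.1)).card ≤
          (univ.filter (fun A : Finset (Fin n) => A.card = 4 ∧ Cov F A)).card := by
        refine card_le_card_of_injOn Prod.snd ?_ ?_
        · intro q' hq'
          rw [mem_coe, mem_filter] at hq'
          obtain ⟨hq'E, hq'1⟩ := hq'
          rw [hE, mem_filter, YEv, mem_filter] at hq'E
          rw [mem_coe, mem_filter]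
          exact ⟨mem_univ _, hq'E.1.2.2.1, hq'E.1.2.2.2.1⟩
        · intro a ha b hb hab
          rw [mem_coe, mem_filter] at ha hb
          exact Prod.ext (ha.2.trans hb.2.symm) hab
      have h4 := hle.trans (cov_card F hF)
      have h6 : (E.filter (fun q' => q'.1 = q.1)).card ≤ n ^ 2 := by omega
      exact_mod_cast h6)
  have hDr : (D.card : ℝ) ≤ 4 * (n : ℝ) := by exact_mod_cast hDcard
  have hfin : (E.card : ℝ) ≤ (4 * (n : ℝ)) * ((n : ℝ) ^ 2) :=
    hmain.trans (mul_le_mul_of_nonneg_right hDr hK)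
  have hEN : (NB F g c0 x 4 : ℝ) = (E.card : ℝ) := by rw [NB]
  show (NB F g c0 x 4 : ℝ) ≤ _
  rw [hEN]
  refine hfin.trans (le_of_eq ?_)
  ring

end Pool.Agent.R178.HY
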